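import Pool.Agent.FAC3.Defs
import Pool.Agent.HP89.G9Defs

/-!
# Project FAC3: definitions used in the statement (facets, cylinders)
-/

set_option autoImplicit false

namespace Pool.Agent.FAC3

open MeasureTheory Set Filter Topology Metric
open Pool.Agent.Helper82.Proj1 (supp)
open scoped RealInnerProductSpace ENNReal Pointwise

/-- the face of `K` with outer normal vector `u`: the points of `K` where `⟪·, u⟫` is maximal. -/
def face (K : Set E3) (u : E3) : Set E3 := {x ∈ K | ⟪x, u⟫ = supp K u}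

/-- `u` is a normal vector of a facet (a two-dimensional face) of `K`. -/
def IsFacetNormal (K : Set E3) (u : E3) : Prop :=
  u ≠ 0 ∧ Module.finrank ℝ (vectorSpan ℝ (face K u)) = 2

/-- `K` is a cylinder `x + M + [-q, q]` over a compact convex set `M = -M` contained in a plane `p^⊥` not parallel to `q`. -/
def IsCylinder (K : Set E3) : Prop :=
  ∃ (x p q : E3) (M : Set E3), ⟪p, q⟫ ≠ 0 ∧ IsCompact M ∧ Convex ℝ M ∧ M.Nonempty ∧
    (∀ y ∈ M, ⟪p, y⟫ = 0) ∧ (∀ y ∈ M, -y ∈ M) ∧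
    K = {z | ∃ y ∈ M, ∃ t : ℝ, |t| ≤ 1 ∧ z = x + y + t • q}

/-- `K` is a right cylinder `x + M + [-s p, s p]`, `‖p‖ = 1`, `s > 0`, over a compact convex set `M ⊆ p^⊥` invariant under the
rotation by a right angle about the axis `ℝ p`, and the area of `K | p^⊥` (a translate of `M`) is `4 s²`. -/
def IsSqCylinder (K : Set E3) : Prop :=
  ∃ (x p : E3) (s : ℝ) (M : Set E3), ‖p‖ = 1 ∧ 0 < s ∧ IsCompact M ∧ Convex ℝ M ∧ M.Nonempty ∧
    (∀ y ∈ M, ⟪p, y⟫ = 0) ∧ (∀ y ∈ M, cr p y ∈ M) ∧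
    K = {z | ∃ y ∈ M, ∃ t : ℝ, |t| ≤ s ∧ z = x + y + t • p} ∧
    (volume (Pool.Agent.Helper82.Proj1.shadow K (ℝ ∙ p)ᗮ)).toReal = 4 * s ^ 2

/-- `K` is smooth: at every point of `K` there is at most one unit outer normal vector. -/
def IsSmooth (K : Set E3) : Prop :=
  ∀ x ∈ K, ∀ u v : E3, ‖u‖ = 1 → ‖v‖ = 1 → ⟪x, u⟫ = supp K u → ⟪x, v⟫ = supp K v → u = v

end Pool.Agent.FAC3
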