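import Pool.Agent.FAC3.CRb
import Pool.Agent.FAC3.Geo

/-! Module FAC3-FCY: a cylinder with interior points has a facet.

For `K = {x + y + t • q}` and `u = ± p` with `⟪u, q⟫ > 0` the face `face K u` is `x + M + q`. Its vector span `W` is
contained in `u^⊥`, and `W ⊔ ℝ q = ⊤` because `K` has an interior point; so `finrank W = 2`. -/

set_option autoImplicit false

namespace Pool.Agent.FAC3
open MeasureTheory Set Filter Topology Metric
open Pool.Agent.Helper82.Proj1 (supp)
open scoped RealInnerProductSpace ENNReal Pointwise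

theorem FCY {K : Set E3} (hK : IsCylinder K) (hi : (interior K).Nonempty) : ∃ u, IsFacetNormal K u := by
  obtain ⟨x, p, q, M, hpq, hMc, hconv, ⟨y0, hy0⟩, hMp, hsym, hKeq⟩ := hK
  obtain ⟨u, huq, huM⟩ : ∃ u : E3, 0 < ⟪u, q⟫ ∧ ∀ y ∈ M, ⟪u, y⟫ = 0 := by
    rcases lt_or_gt_of_ne hpq with h1 | h1
    · refine ⟨-p, ?_, fun y hy => ?_⟩
      · rw [inner_neg_left]
        linarith
      · rw [inner_neg_left, hMp y hy, neg_zero]
    · exact ⟨p, h1, hMp⟩
  have hu0 : u ≠ 0 := by
    rintro rfl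
    rw [inner_zero_left] at huq
    exact lt_irrefl _ huq
  have h0M : (0 : E3) ∈ M := by
    have h1 := hconv hy0 (hsym y0 hy0) (by norm_num : (0 : ℝ) ≤ 1 / 2) (by norm_num : (0 : ℝ) ≤ 1 / 2) (by norm_num)
    rwa [smul_neg, add_neg_cancel] at h1
  have hin : ∀ y ∈ M, ∀ t : ℝ, ⟪x + y + t • q, u⟫ = ⟪x, u⟫ + t * ⟪u, q⟫ := by
    intro y hy t
    rw [inner_add_left, inner_add_left, real_inner_smul_left, real_inner_comm u y, huM y hy, add_zero,
      real_inner_comm u q]
  have hs : supp K u = ⟪x, u⟫ + ⟪u, q⟫ := by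
    unfold Pool.Agent.Helper82.Proj1.supp
    apply IsGreatest.csSup_eq
    constructor
    · refine ⟨x + 0 + (1 : ℝ) • q, ?_, ?_⟩
      · rw [hKeq]
        exact ⟨0, h0M, 1, by norm_num, rfl⟩
      · show ⟪x + 0 + (1 : ℝ) • q, u⟫ = _
        rw [hin 0 h0M, one_mul]
    · rintro _ ⟨z, hz, rfl⟩
      rw [hKeq] at hz
      obtain ⟨y, hy, t, ht, rfl⟩ := hz
      show ⟪x + y + t • q, u⟫ ≤ _
      rw [hin y hy]
      have h1 := (abs_le.1 ht).2
      nlinarith
  have hf1 : ∀ y ∈ M, x + y + q ∈ face K u := by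
    intro y hy
    refine ⟨?_, ?_⟩
    · rw [hKeq]
      exact ⟨y, hy, 1, by norm_num, by rw [one_smul]⟩
    · have h1 := hin y hy 1
      rw [one_smul, one_mul] at h1
      rw [h1, hs]
  have hf2 : ∀ z ∈ face K u, ∃ y ∈ M, z = x + y + q := by
    rintro z ⟨hz, hz2⟩
    rw [hKeq] at hz
    obtain ⟨y, hy, t, ht, rfl⟩ := hz
    rw [hin y hy, hs] at hz2
    have ht1 : t = 1 := by
      have h1 : (t - 1) * ⟪u, q⟫ = 0 := by linarith
      rcases mul_eq_zero.1 h1 with h2 | h2
      · linarith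
      · exact absurd h2 huq.ne'
    exact ⟨y, hy, by rw [ht1, one_smul]⟩
  refine ⟨u, hu0, ?_⟩
  set W : Submodule ℝ E3 := vectorSpan ℝ (face K u) with hW
  have hMW : ∀ y ∈ M, y ∈ W := by
    intro y hy
    have h1 := vsub_mem_vectorSpan ℝ (hf1 y hy) (hf1 0 h0M)
    have h2 : (x + y + q) -ᵥ (x + 0 + q) = y := by
      rw [vsub_eq_sub]
      abel
    rwa [h2] at h1
  have hWu : ∀ y ∈ W, ⟪u, y⟫ = 0 := by
    have h1 : W ≤ LinearMap.ker (innerₛₗ ℝ u) := by
      rw [hW, vectorSpan_def]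
      refine Submodule.span_le.2 ?_
      rintro _ ⟨a, ha, b, hb, rfl⟩
      obtain ⟨a', ha', rfl⟩ := hf2 a ha
      obtain ⟨b', hb', rfl⟩ := hf2 b hb
      show ⟪u, (x + a' + q) -ᵥ (x + b' + q)⟫ = 0
      have h2 : (x + a' + q) -ᵥ (x + b' + q) = a' - b' := by
        rw [vsub_eq_sub]
        abel
      rw [h2, inner_sub_right, huM a' ha', huM b' hb', sub_zero]
    intro y hy
    exact h1 hy
  have h3 : Module.finrank ℝ E3 = 3 := by
    rw [finrank_euclideanSpace, Fintype.card_fin]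
  have hlt : Module.finrank ℝ W < 3 := by
    refine lt_of_lt_of_le (Submodule.finrank_lt ?_) h3.le
    intro h1
    have h2 : u ∈ W := by
      rw [h1]
      exact Submodule.mem_top
    exact hu0 (inner_self_eq_zero.1 (hWu u h2))
  have htop : W ⊔ Submodule.span ℝ {q} = ⊤ := by
    rw [eq_top_iff]
    rintro w -
    obtain ⟨z0, hz0⟩ := hi
    have h1 : ∀ᶠ e : ℝ in 𝓝 0, z0 + e • w ∈ K := by
      have h2 : Tendsto (fun e : ℝ => z0 + e • w) (𝓝 0) (𝓝 z0) := by
        have h3 : Continuous (fun e : ℝ => z0 + e • w) := by fun_prop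
        have h4 := h3.tendsto 0
        rwa [zero_smul, add_zero] at h4
      exact h2.eventually (mem_interior_iff_mem_nhds.1 hz0)
    have h2 : ∀ᶠ e : ℝ in 𝓝[≠] 0, z0 + e • w ∈ K := h1.filter_mono nhdsWithin_le_nhds
    obtain ⟨e, he, he0⟩ := (h2.and self_mem_nhdsWithin).exists
    have he1 : e ≠ 0 := he0
    have hK1 := he
    have hK2 := interior_subset hz0
    rw [hKeq] at hK1 hK2
    obtain ⟨y, hy, t, ht, hyt⟩ := hK1
    obtain ⟨y', hy', t', ht', hyt'⟩ := hK2
    have h5 : e • w = (y - y') + (t - t') • q := by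
      have h6 : e • w = (z0 + e • w) - z0 := by abel
      rw [h6, hyt, hyt', sub_smul]
      abel
    have h7 : e • w ∈ W ⊔ Submodule.span ℝ {q} := by
      rw [h5]
      exact Submodule.add_mem_sup (W.sub_mem (hMW y hy) (hMW y' hy'))
        (Submodule.smul_mem _ _ (Submodule.mem_span_singleton_self q))
    have h8 := Submodule.smul_mem (W ⊔ Submodule.span ℝ {q}) e⁻¹ h7
    rwa [smul_smul, inv_mul_cancel₀ he1, one_smul] at h8
  have hge : 3 ≤ Module.finrank ℝ W + 1 := by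
    have h1 := Submodule.finrank_add_le_finrank_add_finrank W (Submodule.span ℝ {q})
    rw [htop, finrank_top, h3] at h1
    have h2 : Module.finrank ℝ (Submodule.span ℝ {q}) ≤ 1 := by
      have h4 := finrank_span_le_card (R := ℝ) ({q} : Set E3)
      simpa using h4
    omega
  omega

end Pool.Agent.FAC3
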