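import Pool.Agent.FAC3.ENa

/-! Module FAC3-SDa: second differences of `J`.

The second difference `|a + t b| + |a - t b| - 2 |a|` lies between `2 t |b| 1_{a = 0}` and `2 t |b|` and vanishes for
small `t` if `a ≠ 0`; with `a = ⟪p, x⟫`, `b = ⟪v, x⟫` the limit of the second difference quotient of `J` is computed by
dominated convergence. -/

set_option autoImplicit false

namespace Pool.Agent.FAC3
open MeasureTheory Set Filter Topology
open scoped RealInnerProductSpace ENNReal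

private theorem sda_ge (a b : ℝ) {t : ℝ} (ht : 0 < t) :
    2 * t * (if a = 0 then |b| else 0) ≤ |a + t * b| + |a - t * b| - 2 * |a| := by
  split_ifs with h
  · rw [h, zero_add, zero_sub, abs_neg, abs_mul, abs_of_pos ht, abs_zero]
    linarith
  · have h1 : |(a + t * b) + (a - t * b)| ≤ |a + t * b| + |a - t * b| := abs_add_le _ _
    have h2 : |(a + t * b) + (a - t * b)| = 2 * |a| := by
      rw [show (a + t * b) + (a - t * b) = 2 * a by ring, abs_mul, abs_two]
    rw [mul_zero]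
    linarith

private theorem sda_le (a b : ℝ) {t : ℝ} (ht : 0 < t) :
    |a + t * b| + |a - t * b| - 2 * |a| ≤ 2 * t * |b| := by
  have h1 : |a + t * b| ≤ |a| + |t * b| := abs_add_le _ _
  have h2 : |a - t * b| ≤ |a| + |t * b| := by
    have h3 := abs_add_le a (-(t * b))
    rwa [abs_neg, ← sub_eq_add_neg] at h3
  rw [abs_mul, abs_of_pos ht] at h1 h2
  linarith

private theorem sda_zero {a b t : ℝ} (ht : 0 < t) (h : t * |b| ≤ |a|) :
    |a + t * b| + |a - t * b| - 2 * |a| = 0 := by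
  have h1 : |t * b| ≤ |a| := by
    rw [abs_mul, abs_of_pos ht]
    exact h
  rcases le_total 0 a with ha | ha
  · rw [abs_of_nonneg ha] at h1 ⊢
    obtain ⟨h2, h3⟩ := abs_le.1 h1
    rw [abs_of_nonneg (by linarith), abs_of_nonneg (by linarith)]
    ring
  · rw [abs_of_nonpos ha] at h1 ⊢
    obtain ⟨h2, h3⟩ := abs_le.1 h1
    rw [abs_of_nonpos (by linarith), abs_of_nonpos (by linarith)]
    ring

private theorem sda_lim (a b : ℝ) :
    Tendsto (fun t : ℝ => (|a + t * b| + |a - t * b| - 2 * |a|) / (2 * t)) (𝓝[>] 0)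
      (𝓝 (if a = 0 then |b| else 0)) := by
  split_ifs with h
  · refine tendsto_const_nhds.congr' ?_
    filter_upwards [self_mem_nhdsWithin] with t ht
    have ht' : (0 : ℝ) < t := ht
    rw [h, zero_add, zero_sub, abs_neg, abs_mul, abs_of_pos ht', abs_zero]
    field_simp
    ring
  · have h1 : Tendsto (fun t : ℝ => t * |b|) (𝓝[>] 0) (𝓝 0) := by
      have h2 : Tendsto (fun t : ℝ => t * |b|) (𝓝 0) (𝓝 (0 * |b|)) := tendsto_id.mul_const _
      rw [zero_mul] at h2
      exact h2.mono_left nhdsWithin_le_nhds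
    have h3 : ∀ᶠ t : ℝ in 𝓝[>] 0, t * |b| < |a| := h1.eventually_lt_const (abs_pos.2 h)
    refine tendsto_const_nhds.congr' ?_
    filter_upwards [h3, self_mem_nhdsWithin] with t ht1 ht2
    have ht' : (0 : ℝ) < t := ht2
    rw [sda_zero ht' ht1.le, zero_div]

theorem J_toReal (lam : Measure E3) (u : E3) : (J lam u).toReal = ∫ x, |⟪u, x⟫| ∂lam := by
  rw [integral_eq_lintegral_of_nonneg_ae (ae_of_all _ fun x => abs_nonneg _)
    (Continuous.aestronglyMeasurable (by fun_prop))]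
  rfl

private theorem sda_int {lam : Measure E3} (h : FM lam) (u : E3) : Integrable (fun x => |⟪u, x⟫|) lam := by
  have h1 : ∫⁻ x, ENNReal.ofReal |⟪u, x⟫| ∂lam ≠ ⊤ := J_ne_top h u
  exact (lintegral_ofReal_ne_top_iff_integrable (Continuous.aestronglyMeasurable (by fun_prop))
    (ae_of_all _ fun x => abs_nonneg _)).1 h1

private theorem sda_pl (p : E3) : MeasurableSet (pl p) := by
  have h1 : IsClosed (pl p) := isClosed_eq (by fun_prop) continuous_const
  exact h1.measurableSet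

private theorem sda_val {lam : Measure E3} (h : FM lam) (p v : E3) (t : ℝ) :
    Integrable (fun x => |⟪p, x⟫ + t * ⟪v, x⟫| + |⟪p, x⟫ - t * ⟪v, x⟫| - 2 * |⟪p, x⟫|) lam ∧
      (J lam (p + t • v)).toReal + (J lam (p - t • v)).toReal - 2 * (J lam p).toReal =
        ∫ x, (|⟪p, x⟫ + t * ⟪v, x⟫| + |⟪p, x⟫ - t * ⟪v, x⟫| - 2 * |⟪p, x⟫|) ∂lam := by
  have e1 : ∀ x : E3, |⟪p + t • v, x⟫| = |⟪p, x⟫ + t * ⟪v, x⟫| := by
    intro x
    rw [inner_add_left, real_inner_smul_left]
  have e2 : ∀ x : E3, |⟪p - t • v, x⟫| = |⟪p, x⟫ - t * ⟪v, x⟫| := by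
    intro x
    rw [inner_sub_left, real_inner_smul_left]
  have i1 := sda_int h (p + t • v)
  have i2 := sda_int h (p - t • v)
  have i3 := (sda_int h p).const_mul 2
  rw [J_toReal, J_toReal, J_toReal]
  simp only [e1] at i1 ⊢
  simp only [e2] at i2 ⊢
  have i12 : Integrable (fun x => |⟪p, x⟫ + t * ⟪v, x⟫| + |⟪p, x⟫ - t * ⟪v, x⟫|) lam := i1.add i2
  refine ⟨i12.sub i3, ?_⟩
  rw [integral_sub i12 i3, integral_add i1 i2, integral_const_mul]

private theorem sda_ind {lam : Measure E3} (h : FM lam) (p v : E3) :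
    Integrable (fun x => if ⟪p, x⟫ = 0 then |⟪v, x⟫| else 0) lam ∧
      (∫⁻ x in pl p, en ⟪v, x⟫ ∂lam).toReal = ∫ x, (if ⟪p, x⟫ = 0 then |⟪v, x⟫| else 0) ∂lam := by
  have e : (fun x : E3 => if ⟪p, x⟫ = 0 then |⟪v, x⟫| else 0) = (pl p).indicator fun x => |⟪v, x⟫| := by
    funext x
    by_cases hx : ⟪p, x⟫ = 0
    · rw [if_pos hx, Set.indicator_of_mem (show x ∈ pl p from hx)]
    · rw [if_neg hx, Set.indicator_of_notMem (show x ∉ pl p from hx)]
  rw [e]
  refine ⟨(sda_int h v).indicator (sda_pl p), ?_⟩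
  rw [integral_indicator (sda_pl p)]
  exact J_toReal (lam.restrict (pl p)) v

theorem SD {lam : Measure E3} (h : FM lam) (p v : E3) :
    Tendsto (fun t : ℝ => ((J lam (p + t • v)).toReal + (J lam (p - t • v)).toReal - 2 * (J lam p).toReal) / (2 * t))
      (𝓝[>] 0) (𝓝 (∫⁻ x in pl p, en ⟪v, x⟫ ∂lam).toReal) := by
  rw [(sda_ind h p v).2]
  simp only [(sda_val h p v _).2, ← integral_div]
  refine tendsto_integral_filter_of_dominated_convergence (fun x => |⟪v, x⟫|) ?_ ?_ (sda_int h v)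
    (ae_of_all _ fun x => sda_lim _ _)
  · exact Eventually.of_forall fun t => ((sda_val h p v t).1.div_const _).aestronglyMeasurable
  · filter_upwards [self_mem_nhdsWithin] with t ht
    have ht' : (0 : ℝ) < t := ht
    refine ae_of_all _ fun x => ?_
    have h1 := sda_ge ⟪p, x⟫ ⟪v, x⟫ ht'
    have h2 := sda_le ⟪p, x⟫ ⟪v, x⟫ ht'
    have h3 : 0 ≤ 2 * t * (if ⟪p, x⟫ = 0 then |⟪v, x⟫| else 0) := by
      split_ifs
      · positivity
      · simp
    rw [Real.norm_eq_abs, abs_of_nonneg (div_nonneg (h3.trans h1) (by positivity)), div_le_iff₀ (by positivity)]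
    linarith

theorem SD_ge {lam : Measure E3} (h : FM lam) (p v : E3) {t : ℝ} (ht : 0 < t) :
    2 * t * (∫⁻ x in pl p, en ⟪v, x⟫ ∂lam).toReal ≤
      (J lam (p + t • v)).toReal + (J lam (p - t • v)).toReal - 2 * (J lam p).toReal := by
  obtain ⟨i1, e1⟩ := sda_ind h p v
  obtain ⟨i2, e2⟩ := sda_val h p v t
  rw [e1, e2, ← integral_const_mul]
  exact integral_mono (i1.const_mul _) i2 fun x => sda_ge ⟪p, x⟫ ⟪v, x⟫ ht

theorem D0 {l1 l2 : Measure E3} (h1 : FM l1) (h2 : FM l2) (h : ∀ u, J l1 u = J l2 u) (p v : E3) :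
    ∫⁻ x in pl p, en ⟪v, x⟫ ∂l1 = ∫⁻ x in pl p, en ⟪v, x⟫ ∂l2 := by
  have hfin : ∀ {lam : Measure E3}, FM lam → ∫⁻ x in pl p, en ⟪v, x⟫ ∂lam ≠ ⊤ := fun {lam} hl =>
    ne_top_of_le_ne_top (J_ne_top hl v) (lintegral_mono' Measure.restrict_le_self le_rfl)
  have s1 := SD h1 p v
  simp only [h] at s1
  have s2 := tendsto_nhds_unique s1 (SD h2 p v)
  exact (ENNReal.toReal_eq_toReal_iff' (hfin h1) (hfin h2)).1 s2

end Pool.Agent.FAC3
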