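import Pool.Agent.FAC3.ENa
import Pool.Agent.HP89.G7c

/-! Module FAC3-ZB: a planar centrally symmetric convex set is a zonoid.

`S = p^⊥`, `e = p / ‖p‖`, `M'` the set `M` as a subset of `S`.  `zon_cfl_singleton` in the plane `S` gives a measure `ρ` on `S` with
`cfl [u] M' = ∫ |⟪x, u⟫| dρ` for unit vectors `u` of `S`, and `cfl [u] M'` is twice the width of `M'` in the direction `w ⊥ u`
(`zb_width`: the shadow is a segment in a line, `zb_one`), that is `4 supp M' w`.  With `u = cr w e`: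
`supp M w = (1/4) ∫ |⟪x, cr w e⟫| dρ = (1/4) ∫ |⟪cr e x, w⟫| dρ`, so `lam` is the image of `ρ` under `x ↦ cr e x / 4`. -/

set_option autoImplicit false

namespace Pool.Agent.FAC3
open MeasureTheory ProbabilityTheory Set Filter Topology Metric
open Pool.Agent.Helper82.Proj1 (supp shadow kappa)
open Pool.Agent.HP89
open scoped RealInnerProductSpace ENNReal Pointwise

/-- the length of a compact convex set in a line -/
private theorem zb_one {T : Type} [NormedAddCommGroup T] [InnerProductSpace ℝ T] [FiniteDimensional ℝ T]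
    [MeasurableSpace T] [BorelSpace T] (hT : Module.finrank ℝ T = 1) {w : T} (hw : ‖w‖ = 1) {A : Set T}
    (hA : CC A) : (volume A).toReal = supp A w + supp A (-w) := by
  let f : ℝ ≃ₗᵢ[ℝ] T := (LinearIsometry.toSpanSingleton ℝ T hw).toLinearIsometryEquiv
    (by rw [hT]; exact Module.finrank_self ℝ)
  have hf : ∀ t : ℝ, f t = t • w := fun t => rfl
  have hmp : MeasurePreserving f volume volume := f.measurePreserving
  have hvol : volume A = volume (f ⁻¹' A) :=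
    (hmp.measure_preimage hA.compact.isClosed.measurableSet.nullMeasurableSet).symm
  have hBc : IsCompact (f ⁻¹' A) := f.toHomeomorph.isCompact_preimage.2 hA.compact
  have hBv : Convex ℝ (f ⁻¹' A) := hA.convex.linear_preimage f.toLinearEquiv.toLinearMap
  have hBn : (f ⁻¹' A).Nonempty := by
    obtain ⟨x, hx⟩ := hA.nonempty
    exact ⟨f.symm x, by rw [mem_preimage, f.apply_symm_apply]; exact hx⟩
  have hB := eq_Icc_of_connected_compact ⟨hBn, hBv.isPreconnected⟩ hBc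
  set a := sInf (f ⁻¹' A)
  set b := sSup (f ⁻¹' A)
  have hab : a ≤ b := by
    rw [hB] at hBn
    exact nonempty_Icc.1 hBn
  have hin : ∀ t : ℝ, ⟪f t, w⟫ = t := by
    intro t
    rw [hf, real_inner_smul_left, real_inner_self_eq_norm_sq, hw]
    ring
  have hmem : ∀ x ∈ A, ∃ t, f t = x ∧ a ≤ t ∧ t ≤ b := by
    intro x hx
    have h1 : f.symm x ∈ f ⁻¹' A := by rw [mem_preimage, f.apply_symm_apply]; exact hx
    rw [hB] at h1
    exact ⟨f.symm x, f.apply_symm_apply x, h1.1, h1.2⟩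
  have hfb : f b ∈ A := by
    have h1 : b ∈ f ⁻¹' A := by rw [hB]; exact right_mem_Icc.2 hab
    exact h1
  have hfa : f a ∈ A := by
    have h1 : a ∈ f ⁻¹' A := by rw [hB]; exact left_mem_Icc.2 hab
    exact h1
  have e1 : supp A w = b := by
    apply le_antisymm
    · apply Pool.Agent.Helper82.Proj1.supp_le hA.nonempty
      intro x hx
      obtain ⟨t, rfl, -, ht⟩ := hmem x hx
      rw [hin]
      exact ht
    · have h1 := Pool.Agent.Helper82.Proj1.le_supp hA.compact hfb w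
      rwa [hin] at h1
  have e2 : supp A (-w) = -a := by
    apply le_antisymm
    · apply Pool.Agent.Helper82.Proj1.supp_le hA.nonempty
      intro x hx
      obtain ⟨t, rfl, ht, -⟩ := hmem x hx
      rw [inner_neg_right, hin]
      linarith
    · have h1 := Pool.Agent.Helper82.Proj1.le_supp hA.compact hfa (-w)
      rwa [inner_neg_right, hin] at h1
  rw [hvol, hB, Real.volume_Icc, ENNReal.toReal_ofReal (by linarith), e1, e2]
  ring

private theorem zb_shadow {W : Type} [NormedAddCommGroup W] [InnerProductSpace ℝ W] [FiniteDimensional ℝ W]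
    (A : Set W) (S : Submodule ℝ W) (v : S) : supp (shadow A S) v = supp A (v : W) := by
  unfold Pool.Agent.Helper82.Proj1.supp Pool.Agent.Helper82.Proj1.shadow
  rw [image_image]
  congr 1
  apply image_congr
  intro x _
  show ⟪S.orthogonalProjectionOnto x, v⟫ = ⟪x, (v : W)⟫
  rw [real_inner_comm, Submodule.inner_orthogonalProjectionOnto_eq_of_mem_left, real_inner_comm]

private theorem zb_width {W : Type} [NormedAddCommGroup W] [InnerProductSpace ℝ W] [FiniteDimensional ℝ W]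
    [MeasurableSpace W] [BorelSpace W] (hW : Module.finrank ℝ W = 2) {u w : W} (hu : ‖u‖ = 1)
    (hw : ‖w‖ = 1) (huw : ⟪u, w⟫ = 0) {A : Set W} (hA : CC A) (hs : supp A (-w) = supp A w) :
    cfl [u] A = 4 * supp A w := by
  have : Fact (Module.finrank ℝ W = 1 + 1) := ⟨hW⟩
  have hu0 : u ≠ 0 := by
    intro h
    rw [h, norm_zero] at hu
    exact zero_ne_one hu
  have hT : Module.finrank ℝ (ℝ ∙ u)ᗮ = 1 := Submodule.finrank_orthogonal_span_singleton hu0
  have hwm : w ∈ (ℝ ∙ u)ᗮ := Submodule.mem_orthogonal_singleton_iff_inner_right.2 huw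
  have h1 := zb_one hT (w := (⟨w, hwm⟩ : (ℝ ∙ u)ᗮ)) hw (hA.shadow (ℝ ∙ u)ᗮ)
  rw [zb_shadow, zb_shadow] at h1
  have e1 : ((-(⟨w, hwm⟩ : (ℝ ∙ u)ᗮ) : (ℝ ∙ u)ᗮ) : W) = -w := rfl
  rw [e1, hs] at h1
  rw [cfl_singleton hA hu, h1]
  show 2 * (supp A w + supp A w) = 4 * supp A w
  ring

theorem planar_zonoid {M : Set E3} {p : E3} (hp : p ≠ 0) (hM : CC M) (hMp : ∀ y ∈ M, ⟪p, y⟫ = 0)
    (hs : ∀ y ∈ M, -y ∈ M) : ∃ lam : Measure E3, IsFiniteMeasure lam ∧ Integrable (fun x => ‖x‖) lam ∧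
      lam (pl p)ᶜ = 0 ∧ ∀ u, supp M u = ∫ x, |⟪x, u⟫| ∂lam := by
  have hpn : ‖p‖ ≠ 0 := norm_ne_zero_iff.2 hp
  obtain ⟨e, he1, hpe⟩ : ∃ e : E3, ‖e‖ = 1 ∧ p = ‖p‖ • e :=
    ⟨‖p‖⁻¹ • p, by rw [norm_smul, norm_inv, norm_norm, inv_mul_cancel₀ hpn],
      by rw [smul_smul, mul_inv_cancel₀ hpn, one_smul]⟩
  have he0 : e ≠ 0 := by
    intro h
    rw [h, norm_zero] at he1
    exact zero_ne_one he1
  have hMe : ∀ y ∈ M, ⟪e, y⟫ = 0 := by
    intro y hy
    have h1 := hMp y hy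
    rw [hpe, real_inner_smul_left] at h1
    exact (mul_eq_zero.1 h1).resolve_left hpn
  have : Fact (Module.finrank ℝ E3 = 2 + 1) := ⟨by simp [E3]⟩
  have hS : Module.finrank ℝ (ℝ ∙ e)ᗮ = 2 := Submodule.finrank_orthogonal_span_singleton he0
  have hmS : ∀ w : E3, cr w e ∈ (ℝ ∙ e)ᗮ := fun w =>
    Submodule.mem_orthogonal_singleton_iff_inner_right.2 (inner_cr_right w e)
  have hmS' : ∀ w : E3, cr e w ∈ (ℝ ∙ e)ᗮ := fun w =>
    Submodule.mem_orthogonal_singleton_iff_inner_right.2 (inner_cr_left e w)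
  have hM' : CC (shadow M (ℝ ∙ e)ᗮ) := hM.shadow _
  obtain ⟨ρ, hρf, hρi, hρ⟩ := zon_cfl_singleton hM'
  -- `supp M w = supp M w'`
  have hw' : ∀ w : E3, supp M (cr e (cr w e)) = supp M w := by
    intro w
    unfold Pool.Agent.Helper82.Proj1.supp
    congr 1
    apply image_congr
    intro x hx
    show ⟪x, cr e (cr w e)⟫ = ⟪x, w⟫
    have h1 : cr e (cr w e) = w - ⟪w, e⟫ • e := by
      rw [cr_comm (cr w e) e, cr_cr, real_inner_self_eq_norm_sq, he1]
      simp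
    rw [h1, inner_sub_right, real_inner_smul_right, real_inner_comm, real_inner_comm e x, hMe x hx,
      mul_zero, sub_zero, real_inner_comm]
  have hsym : ∀ v : E3, supp M (-v) = supp M v := by
    have h1 : ∀ v : E3, supp M (-v) ≤ supp M v := by
      intro v
      apply Pool.Agent.Helper82.Proj1.supp_le hM.nonempty
      intro x hx
      rw [inner_neg_right, ← inner_neg_left]
      exact Pool.Agent.Helper82.Proj1.le_supp hM.compact (hs x hx) v
    intro v
    apply le_antisymm (h1 v)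
    have h2 := h1 (-v)
    rwa [neg_neg] at h2
  have key1 : ∀ w : E3, ‖cr w e‖ = 1 →
      supp M w = 4⁻¹ * ∫ x : (ℝ ∙ e)ᗮ, |⟪(x : E3), cr w e⟫| ∂ρ := by
    intro w hw
    have hu : ‖(⟨cr w e, hmS w⟩ : (ℝ ∙ e)ᗮ)‖ = 1 := hw
    have hv : ‖(⟨cr e (cr w e), hmS' _⟩ : (ℝ ∙ e)ᗮ)‖ = 1 := by
      show ‖cr e (cr w e)‖ = 1
      rw [norm_cr_perp (inner_cr_right w e), he1, hw, one_mul]
    have h1 := zb_width hS hu hv (show ⟪cr w e, cr e (cr w e)⟫ = 0 from inner_cr_right e (cr w e)) hM'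
      (by
        rw [zb_shadow, zb_shadow]
        exact hsym _)
    have h2 : cfl [(⟨cr w e, hmS w⟩ : (ℝ ∙ e)ᗮ)] (shadow M (ℝ ∙ e)ᗮ) =
        ∫ x, |⟪x, (⟨cr w e, hmS w⟩ : (ℝ ∙ e)ᗮ)⟫| ∂ρ := hρ _ hu
    rw [h1, zb_shadow] at h2
    have h3 : 4 * supp M w = ∫ x : (ℝ ∙ e)ᗮ, |⟪(x : E3), cr w e⟫| ∂ρ := by
      rw [← hw' w]
      exact h2
    rw [← h3]
    ring
  have key : ∀ w : E3, supp M w = 4⁻¹ * ∫ x : (ℝ ∙ e)ᗮ, |⟪(x : E3), cr w e⟫| ∂ρ := by
    intro w
    by_cases hc : cr w e = 0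
    · rw [← hw' w, hc, cr_zero_right, supp_zero_right hM]
      simp
    · have hn : ‖cr w e‖ ≠ 0 := norm_ne_zero_iff.2 hc
      have h1 : cr (‖cr w e‖⁻¹ • w) e = ‖cr w e‖⁻¹ • cr w e := cr_smul_left _ _ _
      have h2 := key1 (‖cr w e‖⁻¹ • w)
        (by rw [h1, norm_smul, norm_inv, norm_norm, inv_mul_cancel₀ hn])
      have h3 : supp M w = ‖cr w e‖ * supp M (‖cr w e‖⁻¹ • w) := by
        rw [← supp_smul_right hM (norm_nonneg _), smul_smul, mul_inv_cancel₀ hn, one_smul]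
      rw [h3, h2, h1]
      have h4 : ∫ x : (ℝ ∙ e)ᗮ, |⟪(x : E3), ‖cr w e‖⁻¹ • cr w e⟫| ∂ρ =
          ‖cr w e‖⁻¹ * ∫ x : (ℝ ∙ e)ᗮ, |⟪(x : E3), cr w e⟫| ∂ρ := by
        rw [← integral_const_mul]
        congr 1
        funext x
        rw [real_inner_smul_right, abs_mul, abs_of_nonneg (inv_nonneg.2 (norm_nonneg _))]
      rw [h4]
      field_simp
  have hgc : Continuous (fun x : (ℝ ∙ e)ᗮ => (4 : ℝ)⁻¹ • cr e (x : E3)) := by
    have h1 : Continuous (fun x : (ℝ ∙ e)ᗮ => cr e (x : E3)) :=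
      continuous_cr.comp (continuous_const.prodMk continuous_subtype_val)
    have h2 : Continuous (fun _ : (ℝ ∙ e)ᗮ => (4 : ℝ)⁻¹) := continuous_const
    exact h2.smul h1
  refine ⟨ρ.map (fun x : (ℝ ∙ e)ᗮ => (4 : ℝ)⁻¹ • cr e (x : E3)), ?_, ?_, ?_, ?_⟩
  · exact Measure.isFiniteMeasure_map ρ _
  · rw [integrable_map_measure continuous_norm.aestronglyMeasurable hgc.aemeasurable]
    refine hρi.mono' (continuous_norm.comp hgc).aestronglyMeasurable (Eventually.of_forall fun x => ?_)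
    show ‖‖(4 : ℝ)⁻¹ • cr e (x : E3)‖‖ ≤ ‖x‖
    rw [norm_norm, norm_smul]
    have h1 := norm_cr_le e (x : E3)
    rw [he1, one_mul] at h1
    have h2 : ‖(4 : ℝ)⁻¹‖ ≤ 1 := by
      rw [Real.norm_eq_abs, abs_of_pos (by norm_num)]
      norm_num
    calc ‖(4 : ℝ)⁻¹‖ * ‖cr e (x : E3)‖ ≤ 1 * ‖cr e (x : E3)‖ :=
          mul_le_mul_of_nonneg_right h2 (norm_nonneg _)
      _ ≤ ‖x‖ := by rw [one_mul]; exact h1
  · rw [Measure.map_apply hgc.measurable (pl_meas p).compl]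
    have h1 : (fun x : (ℝ ∙ e)ᗮ => (4 : ℝ)⁻¹ • cr e (x : E3)) ⁻¹' (pl p)ᶜ = ∅ := by
      rw [eq_empty_iff_forall_notMem]
      intro x hx
      apply hx
      show ⟪p, (4 : ℝ)⁻¹ • cr e (x : E3)⟫ = 0
      rw [hpe, real_inner_smul_right, real_inner_smul_left, inner_cr_left, mul_zero, mul_zero]
    rw [h1, measure_empty]
  · intro u
    have hcu : Continuous (fun y : E3 => |⟪y, u⟫|) := by fun_prop
    rw [integral_map hgc.aemeasurable hcu.aestronglyMeasurable, key u, ← integral_const_mul]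
    congr 1
    funext x
    rw [real_inner_smul_left, abs_mul, abs_of_pos (by norm_num : (0 : ℝ) < 4⁻¹),
      inner_cr_rot (x : E3) u e, real_inner_comm]

end Pool.Agent.FAC3
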