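import Pool.Agent.FAC3.ENa
import Pool.Agent.HP89.Defs

/-! Module FAC3-WN: the volume function `wn` of HP89 for three vectors of `ℝ³` is the absolute value of the
triple product; the twofold iterated integral of it is `J (TT μ)`. -/

set_option autoImplicit false

namespace Pool.Agent.FAC3
open MeasureTheory Set Filter Topology
open scoped RealInnerProductSpace ENNReal

private theorem WN_inner_ort (a b : E3) : ⟪a, Pool.Agent.HP89.ort a b⟫ = 0 := by
  unfold Pool.Agent.HP89.ort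
  by_cases ha : a = 0
  · rw [ha, inner_zero_left]
  · have h : ‖a‖ ^ 2 ≠ 0 := pow_ne_zero 2 (norm_ne_zero_iff.2 ha)
    rw [inner_sub_right, real_inner_smul_right, real_inner_self_eq_norm_sq, div_mul_cancel₀ _ h, sub_self]

private theorem WN_inner_ort_perp {a b c : E3} (h : ⟪c, a⟫ = 0) : ⟪c, Pool.Agent.HP89.ort a b⟫ = ⟪c, b⟫ := by
  unfold Pool.Agent.HP89.ort
  rw [inner_sub_right, real_inner_smul_right, h, mul_zero, sub_zero]

theorem wn3 (x y u : E3) : Pool.Agent.HP89.wn [x, y, u] = |⟪u, cr x y⟫| := by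
  have h0 : Pool.Agent.HP89.wn [x, y, u] = 1 * ‖u‖ * ‖Pool.Agent.HP89.ort u y‖ *
      ‖Pool.Agent.HP89.ort (Pool.Agent.HP89.ort u y) (Pool.Agent.HP89.ort u x)‖ := rfl
  rw [h0]
  set v : E3 := Pool.Agent.HP89.ort u y with hv
  set z : E3 := Pool.Agent.HP89.ort v (Pool.Agent.HP89.ort u x) with hz
  have huv : ⟪u, v⟫ = 0 := WN_inner_ort u y
  have hvz : ⟪v, z⟫ = 0 := WN_inner_ort v _
  have huz : ⟪u, z⟫ = 0 := by
    rw [hz, WN_inner_ort_perp huv]
    exact WN_inner_ort u x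
  have hw : cr u v = cr u y := by
    rw [hv]
    unfold Pool.Agent.HP89.ort
    rw [sub_eq_add_neg, cr_add_right, cr_neg_right, cr_smul_right, cr_self, smul_zero, neg_zero, add_zero]
  have hwu : ⟪cr u y, u⟫ = 0 := by
    rw [real_inner_comm]
    exact inner_cr_left u y
  have hwv : ⟪cr u y, v⟫ = 0 := by
    rw [← hw, real_inner_comm]
    exact inner_cr_right u v
  have hwz : ⟪cr u y, z⟫ = ⟪cr u y, x⟫ := by
    rw [hz, WN_inner_ort_perp hwv, WN_inner_ort_perp hwu]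
  have hcz : cr (cr u y) z = 0 := by
    rw [← hw, cr_cr, huz, hvz]
    simp
  have h1 : ‖u‖ * ‖v‖ = ‖cr u y‖ := by
    rw [← hw]
    exact (norm_cr_perp huv).symm
  have h2 := norm_cr_sq (cr u y) z
  rw [hcz, norm_zero] at h2
  have h3 : (‖cr u y‖ * ‖z‖) ^ 2 = |⟪cr u y, z⟫| ^ 2 := by
    rw [sq_abs, mul_pow]
    linarith
  have h4 : ‖cr u y‖ * ‖z‖ = |⟪cr u y, z⟫| :=
    (sq_eq_sq₀ (by positivity) (abs_nonneg _)).1 h3
  rw [one_mul, h1, h4, hwz, ← inner_cr_assoc, cr_comm x y, inner_neg_right, abs_neg]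

theorem iter2 (μ : Measure E3) [SFinite μ] (u : E3) :
    Pool.Agent.HP89.iter μ 2 Pool.Agent.HP89.ew [u] = J (TT μ) u := by
  unfold J
  rw [lint_TT (measurable_en_inner u)]
  show (∫⁻ x, ∫⁻ y, Pool.Agent.HP89.ew [y, x, u] ∂μ ∂μ) = _
  refine lintegral_congr fun x => lintegral_congr fun y => ?_
  unfold Pool.Agent.HP89.ew
  rw [wn3, cr_comm x y, inner_neg_right, abs_neg]
  rfl

end Pool.Agent.FAC3
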