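import Pool.Agent.FAC3.ZA
import Pool.Agent.FAC3.WN
import Pool.Agent.FAC3.SDa

/-! Module FAC3-ZC: the projection body of a cylinder.

`M + [-q, q]` is the zonoid of the measure `ρ = lam + dirac q`; `StF_zon`, `iter2` and the values of
`J (TT ρ) u` for a measure `lam` on the plane `p^⊥` give the second projection body of the cylinder, again a
cylinder; the translation by `x` is removed by `StF.homothety`. -/

set_option autoImplicit false

namespace Pool.Agent.FAC3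
open MeasureTheory ProbabilityTheory Set Filter Topology Metric
open Pool.Agent.Helper82.Proj1 (supp shadow kappa)
open Pool.Agent.HP89
open scoped RealInnerProductSpace ENNReal Pointwise

/-- the cylinder `x + M + [-q, q]`. -/
def cylSet (x q : E3) (M : Set E3) : Set E3 := {z | ∃ y ∈ M, ∃ t : ℝ, |t| ≤ 1 ∧ z = x + y + t • q}

private theorem ZC_seg (q z : E3) : z ∈ seg q ↔ ∃ t : ℝ, |t| ≤ 1 ∧ z = t • q := by
  unfold seg
  constructor
  · rintro ⟨a, b, ha, hb, hab, rfl⟩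
    refine ⟨b - a, abs_le.2 ⟨by linarith, by linarith⟩, ?_⟩
    rw [smul_neg, sub_smul]
    abel
  · rintro ⟨t, ht, rfl⟩
    obtain ⟨h1, h2⟩ := abs_le.1 ht
    refine ⟨(1 - t) / 2, (1 + t) / 2, by linarith, by linarith, by ring, ?_⟩
    rw [smul_neg, ← neg_smul, ← add_smul]
    congr 1
    ring

private theorem ZC_cyl (x q : E3) (M : Set E3) :
    cylSet x q M = (fun y => (1 : ℝ) • y + x) '' (M + seg q) := by
  ext z
  constructor
  · rintro ⟨y, hy, t, ht, rfl⟩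
    refine ⟨y + t • q, Set.add_mem_add hy ((ZC_seg q _).2 ⟨t, ht, rfl⟩), ?_⟩
    show (1 : ℝ) • (y + t • q) + x = x + y + t • q
    rw [one_smul]
    abel
  · rintro ⟨_, ⟨y, hy, s, hs, rfl⟩, rfl⟩
    obtain ⟨t, ht, rfl⟩ := (ZC_seg q s).1 hs
    refine ⟨y, hy, t, ht, ?_⟩
    show (1 : ℝ) • (y + t • q) + x = x + y + t • q
    rw [one_smul]
    abel

theorem cylSet_CC {x q : E3} {M : Set E3} (hM : CC M) : CC (cylSet x q M) := by
  rw [ZC_cyl]
  have h := hM.add (cc_seg q)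
  refine ⟨h.compact.image (by fun_prop), ?_, h.nonempty.image _⟩
  rintro _ ⟨y, hy, rfl⟩ _ ⟨z, hz, rfl⟩ a b ha hb hab
  refine ⟨a • y + b • z, h.convex hy hz ha hb hab, ?_⟩
  show (1 : ℝ) • (a • y + b • z) + x = a • ((1 : ℝ) • y + x) + b • ((1 : ℝ) • z + x)
  have h1 : x = a • x + b • x := by rw [← add_smul, hab, one_smul]
  rw [one_smul, one_smul, one_smul, smul_add, smul_add]
  nth_rewrite 1 [h1]
  abel

private theorem ZC_img (q : E3) {M : Set E3} (hM : CC M) : CC ((fun y => (4 : ℝ) • cr q y) '' M) := by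
  have hc : Continuous (fun y : E3 => (4 : ℝ) • cr q y) := by
    have h1 : Continuous (fun y : E3 => cr q y) :=
      continuous_cr.comp (continuous_const.prodMk continuous_id)
    exact (continuous_const : Continuous fun _ : E3 => (4 : ℝ)).smul h1
  refine ⟨hM.compact.image hc, ?_, hM.nonempty.image _⟩
  rintro _ ⟨y, hy, rfl⟩ _ ⟨z, hz, rfl⟩ a b ha hb hab
  refine ⟨a • y + b • z, hM.convex hy hz ha hb hab, ?_⟩
  show (4 : ℝ) • cr q (a • y + b • z) = a • (4 : ℝ) • cr q y + b • (4 : ℝ) • cr q z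
  rw [cr_add_right, cr_smul_right, cr_smul_right, smul_add, smul_comm, smul_comm (4 : ℝ) b]

private theorem ZC_supp_img (q : E3) {M : Set E3} (hM : CC M) (u : E3) :
    supp ((fun y => (4 : ℝ) • cr q y) '' M) u = 4 * supp M (cr u q) := by
  rw [← supp_smul_right hM (by norm_num)]
  unfold Pool.Agent.Helper82.Proj1.supp
  rw [Set.image_image]
  congr 1
  refine Set.image_congr fun y _ => ?_
  rw [real_inner_smul_left, real_inner_smul_right, real_inner_comm, inner_cr_assoc, real_inner_comm]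

private theorem ZC_supp_cyl {M : Set E3} (hM : CC M) (a q u : E3) :
    supp (cylSet 0 a ((fun y => (4 : ℝ) • cr q y) '' M)) u = 4 * supp M (cr u q) + |⟪a, u⟫| := by
  have h1 : cylSet 0 a ((fun y => (4 : ℝ) • cr q y) '' M) = ((fun y => (4 : ℝ) • cr q y) '' M) + seg a := by
    rw [ZC_cyl]
    simp
  rw [h1, supp_add (ZC_img q hM) (cc_seg a), supp_seg, ZC_supp_img q hM]

private theorem ZC_meas (u : E3) : Measurable (fun w : E3 × E3 => en ⟪u, cr w.1 w.2⟫) :=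
  (measurable_en_inner u).comp continuous_cr.measurable

private theorem ZC_meas1 (u y : E3) : Measurable (fun z : E3 => en ⟪u, cr y z⟫) := by
  have h : Continuous (fun z : E3 => cr y z) := continuous_cr.comp (continuous_const.prodMk continuous_id)
  exact (measurable_en_inner u).comp h.measurable

private theorem ZC_meas2 (u : E3) (lam : Measure E3) [IsFiniteMeasure lam] :
    Measurable (fun y : E3 => ∫⁻ z, en ⟪u, cr y z⟫ ∂lam) :=
  (ZC_meas u).lintegral_prod_right'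

private theorem ZC_J1 {p : E3} (hp : ‖p‖ = 1) {lam : Measure E3} [IsFiniteMeasure lam]
    (hl : lam (pl p)ᶜ = 0) (u : E3) :
    ∫⁻ y, ∫⁻ z, en ⟪u, cr y z⟫ ∂lam ∂lam = en ⟪u, p⟫ * ∫⁻ y, ∫⁻ z, en ⟪p, cr y z⟫ ∂lam ∂lam := by
  have hae : ∀ᵐ y ∂lam, ⟪p, y⟫ = 0 := by
    rw [ae_iff]
    exact hl
  rw [← lintegral_const_mul _ (ZC_meas2 p lam)]
  refine lintegral_congr_ae ?_
  filter_upwards [hae] with y hy
  rw [← lintegral_const_mul _ (ZC_meas1 p y)]
  refine lintegral_congr_ae ?_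
  filter_upwards [hae] with z hz
  rw [← en_mul]
  congr 1
  have h1 : ⟪u, cr y z⟫ = ⟪u, ⟪p, cr y z⟫ • p⟫ := congrArg (fun w => ⟪u, w⟫) (cr_of_perp hp hy hz)
  rw [h1, real_inner_smul_right, mul_comm]

private theorem ZC_J {p q : E3} (hp : ‖p‖ = 1) {lam : Measure E3} [IsFiniteMeasure lam]
    (hl : lam (pl p)ᶜ = 0) (u : E3) :
    J (TT (lam + Measure.dirac q)) u =
      en ⟪u, p⟫ * (∫⁻ y, ∫⁻ z, en ⟪p, cr y z⟫ ∂lam ∂lam) + 2 * ∫⁻ y, en ⟪u, cr q y⟫ ∂lam := by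
  have h0 : J (TT (lam + Measure.dirac q)) u =
      ∫⁻ y, ∫⁻ z, en ⟪u, cr y z⟫ ∂(lam + Measure.dirac q) ∂(lam + Measure.dirac q) :=
    lint_TT (measurable_en_inner u)
  have h1 : ∀ y, ∫⁻ z, en ⟪u, cr y z⟫ ∂(lam + Measure.dirac q) =
      ∫⁻ z, en ⟪u, cr y z⟫ ∂lam + en ⟪u, cr q y⟫ := by
    intro y
    rw [lintegral_add_measure, lintegral_dirac' _ (ZC_meas1 u y)]
    congr 1
    rw [cr_comm q y, inner_neg_right, en_neg]
  have h3 : ∫⁻ y, ∫⁻ z, en ⟪u, cr y z⟫ ∂(lam + Measure.dirac q) ∂(lam + Measure.dirac q) =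
      ∫⁻ y, (∫⁻ z, en ⟪u, cr y z⟫ ∂lam + en ⟪u, cr q y⟫) ∂(lam + Measure.dirac q) :=
    lintegral_congr h1
  have h5 : Measurable (fun y : E3 => ∫⁻ z, en ⟪u, cr y z⟫ ∂lam + en ⟪u, cr q y⟫) :=
    (ZC_meas2 u lam).add (ZC_meas1 u q)
  rw [h0, h3, lintegral_add_measure, lintegral_dirac' _ h5,
    lintegral_add_left (ZC_meas2 u lam), ZC_J1 hp hl, cr_self, inner_zero_right, en_zero, add_zero,
    two_mul, add_assoc]

theorem ZC {M : Set E3} {p q x : E3} (hp : ‖p‖ = 1) (hM : CC M) (hMp : ∀ y ∈ M, ⟪p, y⟫ = 0)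
    {lam : Measure E3} [IsFiniteMeasure lam] (hi : Integrable (fun y => ‖y‖) lam) (hl : lam (pl p)ᶜ = 0)
    (hs : ∀ u, supp M u = ∫ y, |⟪y, u⟫| ∂lam) :
    IsPB 2 (cylSet x q M)
      (cylSet 0 ((2 * ∫ y, ∫ z, |⟪p, cr y z⟫| ∂lam ∂lam) • p) ((fun y => (4 : ℝ) • cr q y) '' M)) := by
  have _ := hMp
  have hFM : FM lam := by
    unfold FM
    exact hi.lintegral_lt_top.ne
  have hC : ∫ y, ∫ z, |⟪p, cr y z⟫| ∂lam ∂lam = (∫⁻ y, ∫⁻ z, en ⟪p, cr y z⟫ ∂lam ∂lam).toReal := by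
    have h1 : ∀ y, ∫ z, |⟪p, cr y z⟫| ∂lam = (∫⁻ z, en ⟪p, cr y z⟫ ∂lam).toReal := by
      intro y
      rw [integral_eq_lintegral_of_nonneg_ae (ae_of_all _ fun x => abs_nonneg _)]
      · rfl
      · have h2 : Continuous (fun z : E3 => cr y z) := continuous_cr.comp (continuous_const.prodMk continuous_id)
        exact (continuous_const.inner h2).abs.aestronglyMeasurable
    simp only [h1]
    have hm2 : Measurable (fun w : E3 × E3 => en ⟪p, cr w.1 w.2⟫) :=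
      (measurable_en_inner p).comp continuous_cr.measurable
    rw [integral_toReal hm2.lintegral_prod_right'.aemeasurable]
    refine ae_of_all _ fun y => ?_
    have h3 : ∫⁻ z, en ⟪p, cr y z⟫ ∂lam = J lam (cr p y) := by
      unfold J
      refine lintegral_congr fun z => ?_
      rw [inner_cr_assoc]
    rw [h3]
    exact (J_ne_top hFM _).lt_top
  have hC0 : 0 ≤ ∫ y, ∫ z, |⟪p, cr y z⟫| ∂lam ∂lam := by
    rw [hC]
    exact ENNReal.toReal_nonneg
  have hdi : Integrable (fun y : E3 => ‖y‖) (Measure.dirac q) := by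
    refine ⟨continuous_norm.aestronglyMeasurable, ?_⟩
    show ∫⁻ y, ‖(‖y‖ : ℝ)‖ₑ ∂(Measure.dirac q) < ⊤
    rw [lintegral_dirac]
    exact enorm_lt_top
  intro u hu
  have hst := StF_zon (hM.add (cc_seg q)) (μ := lam + Measure.dirac q) (hi.add_measure hdi) (by
    intro w _
    rw [supp_add hM (cc_seg q), supp_seg, hs w, integral_add_measure]
    · rw [integral_dirac]
    · refine hi.mul_const ‖w‖ |>.mono' ?_ ?_
      · exact (continuous_id.inner continuous_const).abs.aestronglyMeasurable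
      · exact ae_of_all _ fun y => by
          rw [Real.norm_eq_abs, abs_abs]
          exact abs_real_inner_le_norm y w
    · refine hdi.mul_const ‖w‖ |>.mono' ?_ ?_
      · exact (continuous_id.inner continuous_const).abs.aestronglyMeasurable
      · exact ae_of_all _ fun y => by
          rw [Real.norm_eq_abs, abs_abs]
          exact abs_real_inner_le_norm y w) hu
  have hst2 := hst.homothety (hM.add (cc_seg q)) hu one_pos x
  rw [← ZC_cyl] at hst2
  refine ⟨_, ?_, hst2⟩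
  rw [ZC_supp_cyl hM, iter2, ZC_J hp hl]
  have hA : (en ⟪u, p⟫ * ∫⁻ y, ∫⁻ z, en ⟪p, cr y z⟫ ∂lam ∂lam).toReal
      = |⟪u, p⟫| * ∫ y, ∫ z, |⟪p, cr y z⟫| ∂lam ∂lam := by
    rw [ENNReal.toReal_mul, en_toReal, hC]
  have hB : (∫⁻ y, en ⟪u, cr q y⟫ ∂lam).toReal = supp M (cr u q) := by
    rw [hs (cr u q)]
    have h1 : ∫⁻ y, en ⟪u, cr q y⟫ ∂lam = J lam (cr u q) := by
      unfold J
      refine lintegral_congr fun z => ?_
      rw [inner_cr_assoc]
    rw [h1, J_toReal]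
    refine integral_congr_ae (ae_of_all _ fun y => ?_)
    show |⟪cr u q, y⟫| = |⟪y, cr u q⟫|
    rw [real_inner_comm]
  have hA0 : ∫⁻ y, ∫⁻ z, en ⟪p, cr y z⟫ ∂lam ∂lam ≠ ⊤ := by
    have h1 : J (TT lam) p = ∫⁻ y, ∫⁻ z, en ⟪p, cr y z⟫ ∂lam ∂lam := lint_TT (measurable_en_inner p)
    rw [← h1]
    exact J_ne_top (FM_TT hFM) p
  have hB0 : ∫⁻ y, en ⟪u, cr q y⟫ ∂lam ≠ ⊤ := by
    have h1 : ∫⁻ y, en ⟪u, cr q y⟫ ∂lam = J lam (cr u q) := by
      unfold J
      refine lintegral_congr fun z => ?_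
      rw [inner_cr_assoc]
    rw [h1]
    exact J_ne_top hFM _
  have hsum : (en ⟪u, p⟫ * (∫⁻ y, ∫⁻ z, en ⟪p, cr y z⟫ ∂lam ∂lam) + 2 * ∫⁻ y, en ⟪u, cr q y⟫ ∂lam).toReal =
      |⟪u, p⟫| * (∫ y, ∫ z, |⟪p, cr y z⟫| ∂lam ∂lam) + 2 * supp M (cr u q) := by
    rw [ENNReal.toReal_add (ENNReal.mul_ne_top (en_ne_top _) hA0) (ENNReal.mul_ne_top ENNReal.ofNat_ne_top hB0), hA,
      ENNReal.toReal_mul, hB]
    rfl
  rw [hsum, real_inner_smul_left, abs_mul, abs_of_nonneg (mul_nonneg (by norm_num) hC0), real_inner_comm u p]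
  have hf : ((2 : ℕ).factorial : ℝ) = 2 := by norm_num [Nat.factorial]
  rw [hf]
  ring

end Pool.Agent.FAC3
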