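import Pool.Agent.FAC3.YA
import Pool.Agent.FAC3.ZB
import Pool.Agent.FAC3.ZC
import Pool.Agent.FAC3.SDa

/-! Module FAC3-YB: a cylinder homothetic to its projection body.

`K = cylSet x q M`, `M ⊆ p^⊥`, `‖p‖ = 1`, `⟪p, q⟫ > 0`; by `ZC` and `PB_unique` `L = cylSet 0 ((2C) • p) ((4 • cr q ·) '' M)`, and
`L = c • (K - x)` by symmetry: `2 C |⟪p,u⟫| + 4 g (cr u q) = c (g u + |⟪q,u⟫|)` with `g = supp M`.
(1) `cr p q = 0`: otherwise the face of `L` in the direction `p` is contained in a line, so `K` is contained in a plane.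
(2) `q = s • p`: `2 C = c s` and `4 s g (cr u p) = c g u` for `u ⊥ p`, so `c = 4 s`, `M` is invariant under `cr p ·`, and the
area of `K | p^⊥` is `supp L p = 2 C = 4 s²`. -/

set_option autoImplicit false

namespace Pool.Agent.FAC3
open MeasureTheory Set Filter Topology Metric
open Pool.Agent.Helper82.Proj1 (supp shadow kappa)
open Pool.Agent.HP89
open scoped RealInnerProductSpace ENNReal Pointwise

private theorem YB_int {K : Set E3} (hi : (interior K).Nonempty) {w1 w2 : E3}
    (h : ∀ z ∈ K, ∀ z' ∈ K, z - z' ∈ Submodule.span ℝ {w1} ⊔ Submodule.span ℝ {w2}) : False := by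
  have h3 : Module.finrank ℝ E3 = 3 := by
    rw [finrank_euclideanSpace, Fintype.card_fin]
  have htop : Submodule.span ℝ {w1} ⊔ Submodule.span ℝ {w2} = ⊤ := by
    rw [eq_top_iff]
    rintro w -
    obtain ⟨z0, hz0⟩ := hi
    have h1 : ∀ᶠ e : ℝ in 𝓝 0, z0 + e • w ∈ K := by
      have h2 : Tendsto (fun e : ℝ => z0 + e • w) (𝓝 0) (𝓝 z0) := by
        have h3 : Continuous (fun e : ℝ => z0 + e • w) := by fun_prop
        have h4 := h3.tendsto 0
        rwa [zero_smul, add_zero] at h4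
      exact h2.eventually (mem_interior_iff_mem_nhds.1 hz0)
    have h2 : ∀ᶠ e : ℝ in 𝓝[≠] 0, z0 + e • w ∈ K := h1.filter_mono nhdsWithin_le_nhds
    obtain ⟨e, he, he0⟩ := (h2.and self_mem_nhdsWithin).exists
    have he1 : e ≠ 0 := he0
    have h7 : e • w ∈ Submodule.span ℝ {w1} ⊔ Submodule.span ℝ {w2} := by
      have h6 := h _ he _ (interior_subset hz0)
      rwa [add_sub_cancel_left] at h6
    have h8 := Submodule.smul_mem _ e⁻¹ h7
    rwa [smul_smul, inv_mul_cancel₀ he1, one_smul] at h8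
  have h1 := Submodule.finrank_add_le_finrank_add_finrank (Submodule.span ℝ {w1}) (Submodule.span ℝ {w2})
  rw [htop, finrank_top, h3] at h1
  have h2 : ∀ w : E3, Module.finrank ℝ (Submodule.span ℝ {w}) ≤ 1 := by
    intro w
    have h4 := finrank_span_le_card (R := ℝ) ({w} : Set E3)
    simpa using h4
  have h4 := h2 w1
  have h5 := h2 w2
  omega

private theorem YB_cyl {x q : E3} {M : Set E3} (hM : CC M) (u : E3) :
    supp (cylSet x q M) u = ⟪x, u⟫ + supp M u + |⟪q, u⟫| := by
  have hC : CC (cylSet x q M) := cylSet_CC hM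
  apply le_antisymm
  · apply Pool.Agent.Helper82.Proj1.supp_le hC.nonempty
    rintro _ ⟨y, hy, t, ht, rfl⟩
    rw [inner_add_left, inner_add_left, real_inner_smul_left]
    have h1 := Pool.Agent.Helper82.Proj1.le_supp hM.compact hy u
    have h2 : t * ⟪q, u⟫ ≤ |⟪q, u⟫| := by
      calc t * ⟪q, u⟫ ≤ |t * ⟪q, u⟫| := le_abs_self _
        _ = |t| * |⟪q, u⟫| := abs_mul _ _
        _ ≤ 1 * |⟪q, u⟫| := mul_le_mul_of_nonneg_right ht (abs_nonneg _)
        _ = |⟪q, u⟫| := one_mul _
    linarith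
  · have h1 : supp M u ≤ supp (cylSet x q M) u - ⟪x, u⟫ - |⟪q, u⟫| := by
      apply Pool.Agent.Helper82.Proj1.supp_le hM.nonempty
      intro y hy
      have h2 : ∀ t : ℝ, |t| ≤ 1 → ⟪x, u⟫ + ⟪y, u⟫ + t * ⟪q, u⟫ ≤ supp (cylSet x q M) u := by
        intro t ht
        have h3 := Pool.Agent.Helper82.Proj1.le_supp hC.compact (x := x + y + t • q) ⟨y, hy, t, ht, rfl⟩ u
        rwa [inner_add_left, inner_add_left, real_inner_smul_left] at h3
      have h4 := h2 1 (by norm_num)
      have h5 := h2 (-1) (by norm_num)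
      have h6 : |⟪q, u⟫| ≤ supp (cylSet x q M) u - ⟪x, u⟫ - ⟪y, u⟫ := by
        rw [abs_le']
        constructor <;> linarith
      linarith
    linarith

private theorem YB_imgC {M : Set E3} (hM : CC M) (c : ℝ) (q : E3) : CC ((fun y => c • cr q y) '' M) := by
  refine ⟨hM.compact.image ?_, ?_, hM.nonempty.image _⟩
  · have h1 : Continuous (fun y : E3 => cr q y) :=
      continuous_cr.comp (by fun_prop : Continuous (fun y : E3 => (q, y)))
    exact h1.const_smul c
  · let f : E3 →ₗ[ℝ] E3 :=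
      { toFun := fun y => c • cr q y
        map_add' := fun a b => by rw [cr_add_right, smul_add]
        map_smul' := fun t a => by
          rw [cr_smul_right, RingHom.id_apply, smul_comm] }
    exact hM.convex.linear_image f

private theorem YB_img {M : Set E3} (hM : CC M) {c : ℝ} (hc : 0 ≤ c) (q u : E3) :
    supp ((fun y => c • cr q y) '' M) u = c * supp M (cr u q) := by
  rw [← supp_smul_right hM hc]
  unfold Pool.Agent.Helper82.Proj1.supp
  rw [image_image]
  congr 1
  apply image_congr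
  intro y _
  show ⟪c • cr q y, u⟫ = ⟪y, c • cr u q⟫
  rw [real_inner_smul_left, real_inner_smul_right, real_inner_comm, inner_cr_assoc, real_inner_comm]

private theorem YB_hom {K : Set E3} (hK : CC K) {c : ℝ} (hc : 0 ≤ c) (x0 u : E3) :
    supp ((fun y => c • y + x0) '' K) u = c * supp K u + ⟪x0, u⟫ := by
  have hcomp : IsCompact ((fun y : E3 => c • y + x0) '' K) := hK.compact.image (by fun_prop)
  apply le_antisymm
  · apply Pool.Agent.Helper82.Proj1.supp_le (hK.nonempty.image _)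
    rintro _ ⟨y, hy, rfl⟩
    show ⟪c • y + x0, u⟫ ≤ _
    rw [inner_add_left, real_inner_smul_left]
    have h1 := Pool.Agent.Helper82.Proj1.le_supp hK.compact hy u
    nlinarith
  · rw [← supp_smul_right hK hc]
    have h1 : supp K (c • u) ≤ supp ((fun y => c • y + x0) '' K) u - ⟪x0, u⟫ := by
      apply Pool.Agent.Helper82.Proj1.supp_le hK.nonempty
      intro y hy
      have h2 := Pool.Agent.Helper82.Proj1.le_supp hcomp (x := c • y + x0) ⟨y, hy, rfl⟩ u
      rw [inner_add_left, real_inner_smul_left] at h2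
      rw [real_inner_smul_right]
      linarith
    linarith

private theorem YB_congr {M : Set E3} {u v : E3} (h : ∀ y ∈ M, ⟪y, u⟫ = ⟪y, v⟫) : supp M u = supp M v := by
  unfold Pool.Agent.Helper82.Proj1.supp
  congr 1
  apply image_congr
  intro y hy
  exact h y hy

private theorem YB_neg {M : Set E3} (hM : CC M) (hs : ∀ y ∈ M, -y ∈ M) (u : E3) : supp M (-u) = supp M u := by
  have h1 : ∀ v : E3, supp M (-v) ≤ supp M v := by
    intro v
    apply Pool.Agent.Helper82.Proj1.supp_le hM.nonempty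
    intro y hy
    have h2 := Pool.Agent.Helper82.Proj1.le_supp hM.compact (hs y hy) v
    rwa [inner_neg_left, ← inner_neg_right] at h2
  apply le_antisymm (h1 u)
  have h3 := h1 (-u)
  rwa [neg_neg] at h3

private theorem YB_norm {p0 q : E3} {M : Set E3} (hpq : ⟪p0, q⟫ ≠ 0) (hMp : ∀ y ∈ M, ⟪p0, y⟫ = 0) :
    ∃ p : E3, ‖p‖ = 1 ∧ 0 < ⟪p, q⟫ ∧ ∀ y ∈ M, ⟪p, y⟫ = 0 := by
  obtain ⟨u, huq, huM⟩ : ∃ u : E3, 0 < ⟪u, q⟫ ∧ ∀ y ∈ M, ⟪u, y⟫ = 0 := by
    rcases lt_or_gt_of_ne hpq with h1 | h1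
    · refine ⟨-p0, ?_, fun y hy => ?_⟩
      · rw [inner_neg_left]
        linarith
      · rw [inner_neg_left, hMp y hy, neg_zero]
    · exact ⟨p0, h1, hMp⟩
  have hu0 : u ≠ 0 := by
    rintro rfl
    rw [inner_zero_left] at huq
    exact lt_irrefl _ huq
  have hn : 0 < ‖u‖ := norm_pos_iff.2 hu0
  refine ⟨‖u‖⁻¹ • u, ?_, ?_, fun y hy => ?_⟩
  · rw [norm_smul, norm_inv, norm_norm, inv_mul_cancel₀ hn.ne']
  · rw [real_inner_smul_left]
    positivity
  · rw [real_inner_smul_left, huM y hy, mul_zero]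

private theorem YB_par {x p q x0 : E3} {M : Set E3} (hi : (interior (cylSet x q M)).Nonempty) (hM : CC M)
    (hp : ‖p‖ = 1) (hpq : 0 < ⟪p, q⟫) (hMp : ∀ y ∈ M, ⟪p, y⟫ = 0) (hsym : ∀ y ∈ M, -y ∈ M) {C c : ℝ} (hC : 0 ≤ C)
    (hc : 0 < c) (hL : (fun y => c • y + x0) '' (cylSet x q M) = cylSet 0 ((2 * C) • p) ((fun y => (4 : ℝ) • cr q y) '' M))
    (hx0 : c • x + x0 = 0)
    (hstar : ∀ u, 2 * C * |⟪p, u⟫| + 4 * supp M (cr u q) = c * (supp M u + |⟪q, u⟫|)) : cr p q = 0 := by
  by_contra hn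
  have hpp : ⟪p, p⟫ = 1 := by
    rw [real_inner_self_eq_norm_sq, hp]
    norm_num
  have hgp : supp M p = 0 := by
    have h1 : supp M p = supp M 0 := YB_congr fun y hy => by
      rw [real_inner_comm, hMp y hy, inner_zero_right]
    rw [h1, supp_zero_right hM]
  have h1 := hstar p
  rw [hpp, hgp, abs_one, mul_one, zero_add, real_inner_comm p q, abs_of_pos hpq] at h1
  have h2 : ∀ y ∈ M, ∃ y' ∈ M, ⟪y', cr p q⟫ = supp M (cr p q) ∧
      c • y + c • q = (4 : ℝ) • cr q y' + (2 * C) • p := by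
    intro y hy
    have h3 : c • (x + y + (1 : ℝ) • q) + x0 ∈ cylSet 0 ((2 * C) • p) ((fun y => (4 : ℝ) • cr q y) '' M) := by
      rw [← hL]
      exact ⟨_, ⟨y, hy, 1, by norm_num, rfl⟩, rfl⟩
    obtain ⟨m, ⟨y', hy', rfl⟩, t, ht, h4⟩ := h3
    have h5 : c • (x + y + (1 : ℝ) • q) + x0 = c • y + c • q := by
      have h6 : c • (x + y + (1 : ℝ) • q) + x0 = (c • x + x0) + (c • y + c • q) := by
        rw [one_smul, smul_add, smul_add]
        abel
      rw [h6, hx0, zero_add]
    rw [h5, zero_add, smul_smul] at h4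
    have h7 := congrArg (fun v => ⟪v, p⟫) h4
    simp only [inner_add_left, real_inner_smul_left] at h7
    rw [hpp, real_inner_comm p y, hMp y hy, real_inner_comm p q, mul_zero, zero_add, mul_one] at h7
    have h8 : ⟪cr q y', p⟫ = ⟪y', cr p q⟫ := by
      rw [real_inner_comm, inner_cr_assoc, real_inner_comm]
    rw [h8] at h7
    have h9 := Pool.Agent.Helper82.Proj1.le_supp hM.compact hy' (cr p q)
    have h10 : t * (2 * C) ≤ 2 * C := by
      have := (abs_le.1 ht).2
      nlinarith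
    refine ⟨y', hy', by linarith, ?_⟩
    have h11 : t * (2 * C) = 2 * C := by linarith
    rw [h4, h11]
  have hnp : ⟪p, cr p q⟫ = 0 := inner_cr_left p q
  have hw0 : cr p (cr p q) ≠ 0 := by
    intro h0
    have h3 := norm_cr_perp hnp
    rw [h0, norm_zero, hp, one_mul] at h3
    exact hn (norm_eq_zero.1 h3.symm)
  have h3 : ∀ y ∈ M, y ∈ Submodule.span ℝ {cr q (cr p (cr p q))} := by
    intro y hy
    obtain ⟨y1, hy1, e1, e2⟩ := h2 y hy
    obtain ⟨y2, hy2, e3, e4⟩ := h2 (-y) (hsym y hy)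
    have h4 : cr (cr p (cr p q)) (y1 - y2) = 0 := by
      rw [cr_cr, inner_sub_right, inner_sub_right, hMp y1 hy1, hMp y2 hy2, real_inner_comm y1, e1,
        real_inner_comm y2, e3]
      simp
    have h5 := cr_eq_zero hw0 h4
    set k : ℝ := ⟪cr p (cr p q), y1 - y2⟫ / ‖cr p (cr p q)‖ ^ 2 with hk
    have h6 : (2 * c) • y = (4 * k) • cr q (cr p (cr p q)) := by
      have h7 : (2 * c) • y = (c • y + c • q) - (c • (-y) + c • q) := by
        rw [smul_neg, two_mul, add_smul]
        abel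
      have h8 : cr q y1 - cr q y2 = cr q (y1 - y2) := by
        rw [sub_eq_add_neg, sub_eq_add_neg, cr_add_right, cr_neg_right]
      rw [h7, e2, e4, add_sub_add_right_eq_sub, ← smul_sub, h8, h5, cr_smul_right, smul_smul]
    have h9 : y = ((2 * c)⁻¹ * (4 * k)) • cr q (cr p (cr p q)) := by
      rw [← smul_smul, ← h6, smul_smul, inv_mul_cancel₀ (by positivity), one_smul]
    rw [h9]
    exact Submodule.smul_mem _ _ (Submodule.mem_span_singleton_self _)
  refine YB_int hi (w1 := cr q (cr p (cr p q))) (w2 := q) ?_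
  rintro _ ⟨y, hy, t, ht, rfl⟩ _ ⟨y', hy', t', ht', rfl⟩
  have h4 : x + y + t • q - (x + y' + t' • q) = (y - y') + (t - t') • q := by
    rw [sub_smul]
    abel
  rw [h4]
  exact Submodule.add_mem_sup (Submodule.sub_mem _ (h3 y hy) (h3 y' hy'))
    (Submodule.smul_mem _ _ (Submodule.mem_span_singleton_self q))

theorem sq_fwd {K L : Set E3} (hK : CC K) (hL : CC L) (hi : (interior K).Nonempty) (h1 : IsPB 2 K L)
    {c : ℝ} (hc : 0 < c) {x0 : E3} (hom : L = (fun y => c • y + x0) '' K) (hcyl : IsCylinder K) : IsSqCylinder K := by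
  obtain ⟨x, p0, q, M, hpq0, hMc, hconv, hMne, hMp0, hsym, hKeq⟩ := hcyl
  have hM : CC M := ⟨hMc, hconv, hMne⟩
  obtain ⟨p, hp, hpq, hMp⟩ := YB_norm hpq0 hMp0
  have hp0 : p ≠ 0 := by
    rintro rfl
    rw [norm_zero] at hp
    exact zero_ne_one hp
  obtain ⟨lam, hlf, hli, hlp, hls⟩ := planar_zonoid hp0 hM hMp hsym
  set C : ℝ := ∫ y, ∫ z, |⟪p, cr y z⟫| ∂lam ∂lam with hC
  have hC0 : 0 ≤ C := integral_nonneg fun y => integral_nonneg fun z => abs_nonneg _
  have hKe : K = cylSet x q M := hKeq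
  have hPB : IsPB 2 (cylSet x q M) (cylSet 0 ((2 * C) • p) ((fun y => (4 : ℝ) • cr q y) '' M)) :=
    ZC hp hM hMp hli hlp hls
  have hM' : CC ((fun y => (4 : ℝ) • cr q y) '' M) := YB_imgC hM 4 q
  have hLe : L = cylSet 0 ((2 * C) • p) ((fun y => (4 : ℝ) • cr q y) '' M) :=
    PB_unique hL (cylSet_CC hM') (hKe ▸ h1) hPB
  have hneg := YB_neg hM hsym
  have hA : ∀ u, supp L u = 4 * supp M (cr u q) + 2 * C * |⟪p, u⟫| := by
    intro u
    rw [hLe, YB_cyl hM', YB_img hM (by norm_num), inner_zero_left, zero_add, real_inner_smul_left, abs_mul,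
      abs_of_nonneg (by positivity : (0 : ℝ) ≤ 2 * C)]
  have hB : ∀ u, supp L u = c * (⟪x, u⟫ + supp M u + |⟪q, u⟫|) + ⟪x0, u⟫ := by
    intro u
    rw [hom, YB_hom hK hc.le, hKe, YB_cyl hM]
  have hx : ∀ u, c * ⟪x, u⟫ + ⟪x0, u⟫ = 0 := by
    intro u
    have e1 := hA u
    have e2 := hA (-u)
    rw [cr_neg_left, hneg, inner_neg_right, abs_neg, ← e1, hB u, hB (-u), hneg, inner_neg_right, inner_neg_right,
      inner_neg_right, abs_neg] at e2
    linarith
  have hx0 : c • x + x0 = 0 := by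
    have h2 := hx (c • x + x0)
    rw [← real_inner_smul_left, ← inner_add_left] at h2
    exact inner_self_eq_zero.1 h2
  have hstar : ∀ u, 2 * C * |⟪p, u⟫| + 4 * supp M (cr u q) = c * (supp M u + |⟪q, u⟫|) := by
    intro u
    have e1 := hA u
    have e2 := hB u
    have e3 := hx u
    linarith
  have hcpq : cr p q = 0 :=
    YB_par (hKe ▸ hi) hM hp hpq hMp hsym hC0 hc (by rw [← hKe, ← hom, hLe]) hx0 hstar
  have hq : q = ⟪p, q⟫ • p := by
    have h2 := cr_eq_zero hp0 hcpq
    rwa [hp, one_pow, div_one] at h2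
  set s : ℝ := ⟪p, q⟫ with hs
  have hpp : ⟪p, p⟫ = 1 := by
    rw [real_inner_self_eq_norm_sq, hp]
    norm_num
  have hgp : supp M p = 0 := by
    have h2 : supp M p = supp M 0 := YB_congr fun y hy => by
      rw [real_inner_comm, hMp y hy, inner_zero_right]
    rw [h2, supp_zero_right hM]
  have hCs : 2 * C = c * s := by
    have h2 := hstar p
    rw [hcpq, supp_zero_right hM, hpp, hgp, abs_one, mul_one, mul_zero, add_zero, zero_add, real_inner_comm p q, ← hs,
      abs_of_pos hpq] at h2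
    exact h2
  have hrot : ∀ u, ⟪p, u⟫ = 0 → 4 * s * supp M (cr u p) = c * supp M u := by
    intro u hu
    have h2 := hstar u
    have h3 : ⟪q, u⟫ = 0 := by
      rw [hq, real_inner_smul_left, hu, mul_zero]
    have h4 : supp M (cr u q) = s * supp M (cr u p) := by
      rw [hq, cr_smul_right, supp_smul_right hM hpq.le]
    rw [hu, h3, h4, abs_zero, mul_zero, add_zero, zero_add] at h2
    linarith
  have hc4 : c = 4 * s := by
    by_contra hne
    refine YB_int hi (w1 := p) (w2 := 0) ?_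
    have hM0 : ∀ y ∈ M, y = 0 := by
      intro y hy
      have h2 := hrot y (hMp y hy)
      have h3 : ⟪p, cr y p⟫ = 0 := inner_cr_right y p
      have h4 := hrot (cr y p) h3
      have h5 : cr (cr y p) p = -y := by
        rw [cr_cr, hpp, one_smul, real_inner_comm, hMp y hy, zero_smul, zero_sub]
      rw [h5, hneg] at h4
      have h6 : (c - 4 * s) * (c + 4 * s) * supp M y = 0 := by
        linear_combination (-c) * h2 - (4 * s) * h4
      have h7 : supp M y = 0 := by
        rcases mul_eq_zero.1 h6 with h8 | h8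
        · exfalso
          rcases mul_eq_zero.1 h8 with h9 | h9
          · exact hne (by linarith)
          · linarith
        · exact h8
      have h8 := Pool.Agent.Helper82.Proj1.le_supp hM.compact hy y
      rw [h7] at h8
      exact real_inner_self_nonpos.1 h8
    intro z hz z' hz'
    rw [hKe] at hz hz'
    obtain ⟨y, hy, t, ht, rfl⟩ := hz
    obtain ⟨y', hy', t', ht', rfl⟩ := hz'
    have h2 : x + y + t • q - (x + y' + t' • q) = ((t - t') * s) • p := by
      rw [hM0 y hy, hM0 y' hy', mul_smul, ← hq, sub_smul]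
      abel
    rw [h2]
    exact Submodule.mem_sup_left (Submodule.smul_mem _ _ (Submodule.mem_span_singleton_self p))
  have hs4 : (4 * s) ≠ 0 := by
    have : 0 < s := hpq
    positivity
  have hinv : ∀ u, supp M (cr u p) = supp M u := by
    intro u
    have h2 : ⟪p, u - ⟪p, u⟫ • p⟫ = 0 := by
      rw [inner_sub_right, real_inner_smul_right, hpp, mul_one, sub_self]
    have h3 := hrot _ h2
    rw [hc4] at h3
    have h4 := mul_left_cancel₀ hs4 h3
    have h5 : cr (u - ⟪p, u⟫ • p) p = cr u p := by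
      rw [sub_eq_add_neg, cr_add_left, cr_neg_left, cr_smul_left, cr_self, smul_zero, neg_zero, add_zero]
    have h6 : supp M (u - ⟪p, u⟫ • p) = supp M u := YB_congr fun y hy => by
      rw [inner_sub_right, real_inner_smul_right, real_inner_comm p y, hMp y hy, mul_zero, sub_zero]
    rw [h5, h6] at h4
    exact h4
  have hMM : (fun y => (1 : ℝ) • cr p y) '' M = M := by
    refine eq_of_supp (YB_imgC hM 1 p) hM fun u _ => ?_
    rw [YB_img hM zero_le_one, one_mul, hinv]
  refine ⟨x, p, s, M, hp, hpq, hMc, hconv, hMne, hMp, fun y hy => ?_, ?_, ?_⟩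
  · have h2 : (fun y => (1 : ℝ) • cr p y) y ∈ (fun y => (1 : ℝ) • cr p y) '' M := ⟨y, hy, rfl⟩
    rw [hMM] at h2
    simpa using h2
  · rw [hKe]
    ext z
    constructor
    · rintro ⟨y, hy, t, ht, rfl⟩
      refine ⟨y, hy, t * s, ?_, ?_⟩
      · rw [abs_mul, abs_of_pos hpq]
        have : (0 : ℝ) < s := hpq
        nlinarith
      · rw [mul_smul, ← hq]
    · rintro ⟨y, hy, t, ht, rfl⟩
      refine ⟨y, hy, t / s, ?_, ?_⟩
      · rw [abs_div, abs_of_pos hpq]
        exact (div_le_one hpq).2 ht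
      · have h2 : (t / s) • q = t • p := by
          rw [hq, smul_smul, div_mul_cancel₀ _ hpq.ne']
        rw [h2]
  · have h2 := PB_area h1 hp
    rw [← h2, hA p, hcpq, supp_zero_right hM, hpp, abs_one, hCs, hc4]
    ring

end Pool.Agent.FAC3
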