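import Pool.Agent.FAC3.YA
import Pool.Agent.FAC3.ZB
import Pool.Agent.FAC3.ZC

/-! Module FAC3-YC: the converse for `Π`.

`K = cylSet x (s • p) M` with `cr p` mapping `M` into `M`; the projection body of `K` is `cylSet 0 ((2 C) • p) ((4 s) • M)` by
`ZC`, and `2 C = 4 s²` by `PB_area` at `p`. -/

set_option autoImplicit false

namespace Pool.Agent.FAC3
open MeasureTheory Set Filter Topology Metric
open Pool.Agent.Helper82.Proj1 (supp shadow kappa)
open Pool.Agent.HP89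
open scoped RealInnerProductSpace ENNReal Pointwise

private theorem YC_rot {p y : E3} (hp : ‖p‖ = 1) (hy : ⟪p, y⟫ = 0) : cr p (cr p y) = -y := by
  rw [cr_comm (cr p y) p, cr_cr, real_inner_self_eq_norm_sq, hp, real_inner_comm, hy]
  simp

private theorem YC_neg {p : E3} {M : Set E3} (hp : ‖p‖ = 1) (h0 : ∀ y ∈ M, ⟪p, y⟫ = 0)
    (hr : ∀ y ∈ M, cr p y ∈ M) : ∀ y ∈ M, -y ∈ M := by
  intro y hy
  have h1 := hr _ (hr y hy)
  rwa [YC_rot hp (h0 y hy)] at h1

private theorem YC_cyl {x p : E3} {s : ℝ} (hs : 0 < s) (M : Set E3) :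
    {z : E3 | ∃ y ∈ M, ∃ t : ℝ, |t| ≤ s ∧ z = x + y + t • p} = cylSet x (s • p) M := by
  ext z
  unfold cylSet
  simp only [mem_setOf_eq]
  constructor
  · rintro ⟨y, hy, t, ht, rfl⟩
    refine ⟨y, hy, t / s, ?_, ?_⟩
    · rw [abs_div, abs_of_pos hs]
      exact (div_le_one hs).2 ht
    · rw [smul_smul, div_mul_cancel₀ t hs.ne']
  · rintro ⟨y, hy, t, ht, rfl⟩
    refine ⟨y, hy, t * s, ?_, ?_⟩
    · rw [abs_mul, abs_of_pos hs]
      nlinarith
    · rw [smul_smul]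

theorem sq_cyl {K : Set E3} (h : IsSqCylinder K) : IsCylinder K := by
  obtain ⟨x, p, s, M, hp, hs, hc, hv, hn, h0, hr, hK, -⟩ := h
  refine ⟨x, p, s • p, M, ?_, hc, hv, hn, h0, YC_neg hp h0 hr, ?_⟩
  · rw [real_inner_smul_right, real_inner_self_eq_norm_sq, hp]
    simp only [one_pow, mul_one]
    exact hs.ne'
  · rw [hK, YC_cyl hs M]
    rfl

private theorem YC_im {p : E3} {s : ℝ} {M : Set E3} (hp : ‖p‖ = 1) (h0 : ∀ y ∈ M, ⟪p, y⟫ = 0)
    (hr : ∀ y ∈ M, cr p y ∈ M) :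
    (fun y => (4 : ℝ) • cr (s • p) y) '' M = (fun y => (4 * s) • y) '' M := by
  ext z
  constructor
  · rintro ⟨y, hy, rfl⟩
    refine ⟨cr p y, hr y hy, ?_⟩
    simp only [cr_smul_left, smul_smul]
  · rintro ⟨y, hy, rfl⟩
    refine ⟨-cr p y, YC_neg hp h0 hr _ (hr y hy), ?_⟩
    simp only [cr_smul_left, cr_neg_right, YC_rot hp (h0 y hy), smul_neg, neg_neg, smul_smul]

private theorem YC_supp {p : E3} {a : ℝ} {N : Set E3} (hp : ‖p‖ = 1) (ha : 0 ≤ a) (hN : CC N)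
    (h0 : ∀ y ∈ N, ⟪p, y⟫ = 0) : supp (cylSet 0 (a • p) N) p = a := by
  have hCC : CC (cylSet 0 (a • p) N) := cylSet_CC hN
  have hpp : ⟪p, p⟫ = (1 : ℝ) := by
    rw [real_inner_self_eq_norm_sq, hp]
    norm_num
  apply le_antisymm
  · apply Pool.Agent.Helper82.Proj1.supp_le hCC.nonempty
    rintro z ⟨y, hy, t, ht, rfl⟩
    rw [zero_add, inner_add_left, real_inner_comm, h0 y hy, real_inner_smul_left, real_inner_smul_left, hpp]
    have h1 := (abs_le.1 ht).2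
    nlinarith
  · obtain ⟨y, hy⟩ := hN.nonempty
    have h1 : y + a • p ∈ cylSet 0 (a • p) N := by
      refine ⟨y, hy, 1, ?_, ?_⟩
      · simp
      · rw [zero_add, one_smul]
    have h2 := Pool.Agent.Helper82.Proj1.le_supp hCC.compact h1 p
    rw [inner_add_left, real_inner_comm, h0 y hy, real_inner_smul_left, hpp] at h2
    linarith

theorem sq_bwd {K : Set E3} (h : IsSqCylinder K) :
    ∃ L : Set E3, CC L ∧ IsPB 2 K L ∧ ∃ c : ℝ, 0 < c ∧ ∃ x : E3, L = (fun y => c • y + x) '' K := by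
  obtain ⟨x, p, s, M, hp, hs, hc, hv, hn, h0, hr, hK, harea⟩ := h
  have hM : CC M := ⟨hc, hv, hn⟩
  have hp0 : p ≠ 0 := by
    intro h
    rw [h, norm_zero] at hp
    exact zero_ne_one hp
  obtain ⟨lam, hfin, hint, hlam, hsup⟩ := planar_zonoid hp0 hM h0 (YC_neg hp h0 hr)
  have hPB := ZC (q := s • p) (x := x) hp hM h0 hint hlam hsup
  rw [← YC_cyl hs M, ← hK, YC_im hp h0 hr] at hPB
  set C : ℝ := ∫ y, ∫ z, |⟪p, cr y z⟫| ∂lam ∂lam with hC
  have hC0 : 0 ≤ C := integral_nonneg fun y => integral_nonneg fun z => abs_nonneg _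
  have hN : CC ((fun y => (4 * s) • y) '' M) := by
    refine ⟨hc.image (continuous_const_smul (4 * s)), ?_, hn.image _⟩
    exact hv.smul (4 * s)
  have hN0 : ∀ y ∈ (fun y => (4 * s) • y) '' M, ⟪p, y⟫ = 0 := by
    rintro z ⟨y, hy, rfl⟩
    simp only
    rw [real_inner_smul_right, h0 y hy, mul_zero]
  have hA := PB_area hPB hp
  rw [YC_supp hp (by positivity) hN hN0, harea] at hA
  rw [hA] at hPB
  refine ⟨_, cylSet_CC hN, hPB, 4 * s, by positivity, -((4 * s) • x), ?_⟩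
  rw [hK]
  ext z
  constructor
  · rintro ⟨w, ⟨y, hy, rfl⟩, t, ht, rfl⟩
    refine ⟨x + y + (t * s) • p, ⟨y, hy, t * s, ?_, rfl⟩, ?_⟩
    · rw [abs_mul, abs_of_pos hs]
      nlinarith
    · simp only [smul_add, smul_smul, zero_add]
      have h1 : 4 * s * (t * s) = t * (4 * s ^ 2) := by ring
      rw [h1]
      abel
  · rintro ⟨w, ⟨y, hy, t, ht, rfl⟩, rfl⟩
    refine ⟨(4 * s) • y, ⟨y, hy, rfl⟩, t / s, ?_, ?_⟩
    · rw [abs_div, abs_of_pos hs]
      exact (div_le_one hs).2 ht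
    · simp only [smul_add, smul_smul, zero_add]
      have h1 : t / s * (4 * s ^ 2) = 4 * s * t := by
        field_simp
      rw [h1]
      abel

end Pool.Agent.FAC3
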