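import Pool.Agent.FAC3.ZB
import Pool.Agent.FAC3.ZC
import Pool.Agent.FAC3.Geo

/-! Module FAC3-ZD: the converse.

`K = cylSet x q M`; normalise `‖p‖ = 1`. `planar_zonoid` gives `lam`; `C = ∫∫ |⟪p, cr y z⟫| dlam dlam`, `Q y = 4 • cr q y`.
`ZC`: `L = cylSet 0 ((2C) • p) (Q '' M)` is the projection body of `K`. Again `ZC`, for the plane `q^⊥`, unit normal
`q̂ = q/‖q‖`, the measure `lam.map Q` (`Q '' M` is its zonoid; concentrated on `pl q̂`), the segment vector `(2C) • p`: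
`M₂ = cylSet 0 ((2 C') • q̂) ((fun y => 4 • cr ((2C) • p) y) '' (Q '' M))` is the projection body of `L`, with
`C' = ∫∫ |⟪q̂, cr (Q y) (Q z)⟫| = 16 ‖q‖ |⟪q, p⟫| C` (`cr (cr q y) (cr q z) = ⟪q, cr y z⟫ • q`, `cr y z = ⟪p, cr y z⟫ • p`).
`cr p (cr q y) = - ⟪p, q⟫ • y` for `y ⊥ p`, so with `c = 32 C |⟪p, q⟫|` and `M = -M`: `M₂ = cylSet 0 (c • q) (c • M)`, which
is `(fun y => c • y + (- c • x)) '' K`.
`C > 0`: `C = ∫ supp M (cr p y) dlam`; if `C = 0` then `supp M u = 0` for some `0 ≠ u ⊥ p` (`u = cr p y` for some `y ≠ 0`,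
or `lam` is concentrated at `0`), and `K` is contained in a plane. -/

set_option autoImplicit false

namespace Pool.Agent.FAC3
open MeasureTheory ProbabilityTheory Set Filter Topology Metric
open Pool.Agent.Helper82.Proj1 (supp shadow kappa)
open Pool.Agent.HP89
open scoped RealInnerProductSpace ENNReal Pointwise

private noncomputable def ZD_Q (q : E3) : E3 →ₗ[ℝ] E3 where
  toFun y := (4 : ℝ) • cr q y
  map_add' y z := by rw [cr_add_right, smul_add]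
  map_smul' t y := by rw [cr_smul_right, RingHom.id_apply, smul_comm]

private theorem ZD_Q_apply (q y : E3) : ZD_Q q y = (4 : ℝ) • cr q y := rfl

private theorem ZD_Q_cont (q : E3) : Continuous (ZD_Q q) := LinearMap.continuous_of_finiteDimensional _

private theorem ZD_CC_image {M : Set E3} (hM : CC M) (q : E3) : CC (ZD_Q q '' M) :=
  ⟨hM.compact.image (ZD_Q_cont q), hM.convex.linear_image (ZD_Q q), hM.nonempty.image _⟩

/-- support function of the image. -/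
private theorem ZD_supp {M : Set E3} {lam : Measure E3}
    (hs : ∀ u, supp M u = ∫ y, |⟪y, u⟫| ∂lam) (q u : E3) :
    supp (ZD_Q q '' M) u = ∫ y, |⟪y, u⟫| ∂(lam.map (ZD_Q q)) := by
  have e0 : ∀ y : E3, ⟪ZD_Q q y, u⟫ = ⟪y, (4 : ℝ) • cr u q⟫ := by
    intro y
    rw [ZD_Q_apply, real_inner_smul_left, real_inner_smul_right, real_inner_comm u, inner_cr_assoc, real_inner_comm y]
  have e1 : supp (ZD_Q q '' M) u = supp M ((4 : ℝ) • cr u q) := by
    unfold supp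
    rw [← image_comp]
    congr 1
    refine image_congr fun y _ => ?_
    exact e0 y
  have e2 : ∫ y, |⟪y, u⟫| ∂(lam.map (ZD_Q q)) = ∫ y, |⟪ZD_Q q y, u⟫| ∂lam := by
    refine integral_map (ZD_Q_cont q).measurable.aemeasurable ?_
    exact (Continuous.abs (by fun_prop)).aestronglyMeasurable
  rw [e1, e2, hs]
  refine integral_congr_ae (Eventually.of_forall fun y => ?_)
  show |⟪y, (4 : ℝ) • cr u q⟫| = |⟪ZD_Q q y, u⟫|
  rw [e0]

private theorem ZD_crcr (q y z : E3) : cr (cr q y) (cr q z) = ⟪q, cr y z⟫ • q := by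
  rw [cr_cr, inner_cr_left, zero_smul, zero_sub]
  have : ⟪y, cr q z⟫ = -⟪q, cr y z⟫ := by
    rw [inner_cr_rot y q z, cr_comm y z, inner_neg_right]
  rw [this, neg_smul, neg_neg]

/-- the constant of the second step. -/
private theorem ZD_const {lam : Measure E3} [IsFiniteMeasure lam] {p q qh : E3} (hp : ‖p‖ = 1)
    (hl : lam (pl p)ᶜ = 0) (hq : ⟪qh, q⟫ = ‖q‖) :
    ∫ y, ∫ z, |⟪qh, cr y z⟫| ∂(lam.map (ZD_Q q)) ∂(lam.map (ZD_Q q)) =
      16 * ‖q‖ * |⟪p, q⟫| * ∫ y, ∫ z, |⟪p, cr y z⟫| ∂lam ∂lam := by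
  have hm : AEMeasurable (ZD_Q q) lam := (ZD_Q_cont q).measurable.aemeasurable
  have e1 : ∀ y : E3, ∫ z, |⟪qh, cr y z⟫| ∂(lam.map (ZD_Q q)) = ∫ z, |⟪qh, cr y (ZD_Q q z)⟫| ∂lam := by
    intro y
    refine integral_map hm ?_
    have : Continuous fun z : E3 => |⟪qh, cr y z⟫| :=
      (continuous_const.inner (continuous_cr.comp (continuous_const.prodMk continuous_id))).abs
    exact this.aestronglyMeasurable
  have hae : ∀ᵐ y ∂lam, y ∈ pl p := by
    rw [ae_iff]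
    exact hl
  have hpt : ∀ y z : E3, ⟪p, y⟫ = 0 → ⟪p, z⟫ = 0 →
      |⟪qh, cr (ZD_Q q y) (ZD_Q q z)⟫| = 16 * ‖q‖ * |⟪p, q⟫| * |⟪p, cr y z⟫| := by
    intro y z hy hz
    have h1 : cr (ZD_Q q y) (ZD_Q q z) = (16 * ⟪q, cr y z⟫) • q := by
      rw [ZD_Q_apply, ZD_Q_apply, cr_smul_left, cr_smul_right, ZD_crcr, smul_smul, smul_smul]
      congr 1
      ring
    have h2 : ⟪q, cr y z⟫ = ⟪p, cr y z⟫ * ⟪p, q⟫ := by
      rw [cr_of_perp hp hy hz, real_inner_smul_right, real_inner_smul_right, real_inner_self_eq_norm_sq, hp,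
        real_inner_comm p q]
      ring
    rw [h1, real_inner_smul_right, hq, h2, abs_mul, abs_mul, abs_mul, abs_of_nonneg (norm_nonneg q)]
    norm_num
    ring
  have e2 : ∫ y, ∫ z, |⟪qh, cr y z⟫| ∂(lam.map (ZD_Q q)) ∂(lam.map (ZD_Q q)) =
      ∫ y, ∫ z, |⟪qh, cr (ZD_Q q y) (ZD_Q q z)⟫| ∂lam ∂lam := by
    have e3 : (fun y : E3 => ∫ z, |⟪qh, cr y z⟫| ∂(lam.map (ZD_Q q))) =
        fun y : E3 => ∫ z, |⟪qh, cr y (ZD_Q q z)⟫| ∂lam := funext e1
    rw [e3]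
    refine integral_map (f := fun y : E3 => ∫ z, |⟪qh, cr y (ZD_Q q z)⟫| ∂lam) hm ?_
    have hc : Continuous fun w : E3 × E3 => |⟪qh, cr w.1 (ZD_Q q w.2)⟫| :=
      (continuous_const.inner (continuous_cr.comp
        (continuous_fst.prodMk ((ZD_Q_cont q).comp continuous_snd)))).abs
    exact (hc.stronglyMeasurable.integral_prod_right (ν := lam)).aestronglyMeasurable
  rw [e2, ← integral_const_mul]
  refine integral_congr_ae ?_
  filter_upwards [hae] with y hy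
  rw [← integral_const_mul]
  refine integral_congr_ae ?_
  filter_upwards [hae] with z hz
  exact hpt y z hy hz

/-- the body contained in a plane has empty interior. -/
private theorem ZD_plane {x q : E3} {M : Set E3} {p u : E3} (hpq : ⟪p, q⟫ ≠ 0) (hMp : ∀ y ∈ M, ⟪p, y⟫ = 0)
    (hu : u ≠ 0) (hpu : ⟪p, u⟫ = 0) (hMu : ∀ y ∈ M, ⟪u, y⟫ = 0) : ¬ (interior (cylSet x q M)).Nonempty := by
  rintro ⟨z, hz⟩
  set w : E3 := u - (⟪u, q⟫ / ⟪p, q⟫) • p with hw
  have hwq : ⟪w, q⟫ = 0 := by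
    rw [hw, inner_sub_left, real_inner_smul_left, div_mul_cancel₀ _ hpq, sub_self]
  have hwM : ∀ y ∈ M, ⟪w, y⟫ = 0 := by
    intro y hy
    rw [hw, inner_sub_left, real_inner_smul_left, hMp y hy, hMu y hy, mul_zero, sub_self]
  have hwu : ⟪w, u⟫ = ‖u‖ ^ 2 := by
    rw [hw, inner_sub_left, real_inner_smul_left, hpu, mul_zero, sub_zero, real_inner_self_eq_norm_sq]
  have hw0 : w ≠ 0 := by
    intro h
    rw [h, inner_zero_left] at hwu
    have := norm_pos_iff.2 hu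
    nlinarith [sq_nonneg ‖u‖, pow_pos this 2]
  have hK : ∀ z ∈ cylSet x q M, ⟪w, z⟫ = ⟪w, x⟫ := by
    rintro z ⟨y, hy, t, ht, rfl⟩
    rw [inner_add_right, inner_add_right, real_inner_smul_right, hwM y hy, hwq, mul_zero, add_zero, add_zero]
  have hc : Continuous fun t : ℝ => z + t • w := by fun_prop
  have hnb : ∀ᶠ t in 𝓝 (0 : ℝ), z + t • w ∈ cylSet x q M := by
    have h1 : cylSet x q M ∈ 𝓝 (z + (0 : ℝ) • w) := by
      rw [zero_smul, add_zero]
      exact mem_interior_iff_mem_nhds.1 hz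
    exact hc.continuousAt.eventually h1
  obtain ⟨ε, hε, hb⟩ := Metric.eventually_nhds_iff.1 hnb
  have h2 : z + (ε / 2) • w ∈ cylSet x q M := by
    refine hb ?_
    rw [Real.dist_eq, sub_zero, abs_of_pos (by positivity)]
    linarith
  have h3 := hK _ h2
  have h4 := hK _ (interior_subset hz)
  rw [inner_add_right, real_inner_smul_right, real_inner_self_eq_norm_sq, h4] at h3
  have h5 : 0 < ε / 2 * ‖w‖ ^ 2 := by
    have := norm_pos_iff.2 hw0
    positivity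
  linarith

private theorem ZD_exists_perp (p : E3) : ∃ u : E3, u ≠ 0 ∧ ⟪p, u⟫ = 0 := by
  by_cases h : p 0 = 0 ∧ p 1 = 0
  · refine ⟨!₂[1, 0, 0], ?_, ?_⟩
    · intro h0
      have h1 := congrArg (fun v : E3 => v 0) h0
      simp at h1
    · rw [inner_eq]
      simp [h.1]
  · refine ⟨!₂[-(p 1), p 0, 0], ?_, ?_⟩
    · intro h0
      apply h
      have h1 := congrArg (fun v : E3 => v 0) h0
      have h2 := congrArg (fun v : E3 => v 1) h0
      simp at h1 h2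
      exact ⟨h2, h1⟩
    · rw [inner_eq]
      simp
      ring

/-- the constant is positive. -/
private theorem ZD_pos {x q : E3} {M : Set E3} {p : E3} (hp : ‖p‖ = 1) (hpq : ⟪p, q⟫ ≠ 0) (hM : CC M)
    (hMp : ∀ y ∈ M, ⟪p, y⟫ = 0) (hsym : ∀ y ∈ M, -y ∈ M) {lam : Measure E3} [IsFiniteMeasure lam]
    (hi : Integrable (fun y => ‖y‖) lam) (hl : lam (pl p)ᶜ = 0)
    (hs : ∀ u, supp M u = ∫ y, |⟪y, u⟫| ∂lam) (hint : (interior (cylSet x q M)).Nonempty) :
    0 < ∫ y, ∫ z, |⟪p, cr y z⟫| ∂lam ∂lam := by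
  have hp0 : p ≠ 0 := by
    intro h
    rw [h, norm_zero] at hp
    exact zero_ne_one hp
  have e1 : ∀ y : E3, ∫ z, |⟪p, cr y z⟫| ∂lam = supp M (cr p y) := by
    intro y
    rw [hs]
    refine integral_congr_ae (Eventually.of_forall fun z => ?_)
    show |⟪p, cr y z⟫| = |⟪z, cr p y⟫|
    rw [inner_cr_assoc, real_inner_comm]
  have hnn : ∀ y : E3, 0 ≤ supp M (cr p y) := by
    intro y
    rw [hs]
    exact integral_nonneg fun z => abs_nonneg _
  simp_rw [e1]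
  have hge : 0 ≤ ∫ y, supp M (cr p y) ∂lam := integral_nonneg hnn
  refine lt_of_le_of_ne hge fun h0 => ?_
  obtain ⟨R, hR⟩ := hM.compact.isBounded.exists_norm_le
  have hR0 : 0 ≤ R := by
    obtain ⟨y, hy⟩ := hM.nonempty
    exact (norm_nonneg y).trans (hR y hy)
  have hcont : Continuous fun y : E3 => supp M (cr p y) :=
    (Pool.Agent.Helper82.Proj1.supp_continuous hM.compact hM.nonempty).comp
      (continuous_cr.comp (continuous_const.prodMk continuous_id))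
  have hbd : ∀ y : E3, ‖supp M (cr p y)‖ ≤ R * ‖y‖ := by
    intro y
    rw [Real.norm_eq_abs, abs_of_nonneg (hnn y)]
    refine Pool.Agent.Helper82.Proj1.supp_le hM.nonempty fun v hv => ?_
    calc ⟪v, cr p y⟫ ≤ ‖v‖ * ‖cr p y‖ := real_inner_le_norm _ _
      _ ≤ R * (‖p‖ * ‖y‖) := by
          exact mul_le_mul (hR v hv) (norm_cr_le p y) (norm_nonneg _) hR0
      _ = R * ‖y‖ := by rw [hp, one_mul]
  have hint2 : Integrable (fun y => supp M (cr p y)) lam :=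
    (hi.const_mul R).mono' hcont.aestronglyMeasurable (Eventually.of_forall hbd)
  have hz := (integral_eq_zero_iff_of_nonneg hnn hint2).1 h0.symm
  have hae : ∀ᵐ y ∂lam, y ∈ pl p := by
    rw [ae_iff]
    exact hl
  have key : ∃ u : E3, u ≠ 0 ∧ ⟪p, u⟫ = 0 ∧ supp M u = 0 := by
    by_cases hex : ∃ y : E3, y ≠ 0 ∧ ⟪p, y⟫ = 0 ∧ supp M (cr p y) = 0
    · obtain ⟨y, hy0, hpy, hy⟩ := hex
      refine ⟨cr p y, ?_, inner_cr_left p y, hy⟩
      intro h
      have := norm_cr_perp hpy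
      rw [h, norm_zero, hp, one_mul] at this
      exact hy0 (norm_eq_zero.1 this.symm)
    · have h1 : ∀ᵐ y ∂lam, y = 0 := by
        filter_upwards [hz, hae] with y h2 h3
        by_contra h4
        exact hex ⟨y, h4, h3, h2⟩
      obtain ⟨u, hu0, hpu⟩ := ZD_exists_perp p
      refine ⟨u, hu0, hpu, ?_⟩
      rw [hs]
      have : (fun y : E3 => |⟪y, u⟫|) =ᵐ[lam] fun _ => (0 : ℝ) := by
        filter_upwards [h1] with y hy
        rw [hy, inner_zero_left, abs_zero]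
      rw [integral_congr_ae this, integral_zero]
  obtain ⟨u, hu0, hpu, hu⟩ := key
  refine ZD_plane (x := x) hpq hMp hu0 hpu (fun y hy => ?_) hint
  have h1 := Pool.Agent.Helper82.Proj1.le_supp hM.compact hy u
  have h2 := Pool.Agent.Helper82.Proj1.le_supp hM.compact (hsym y hy) u
  rw [hu] at h1 h2
  rw [inner_neg_left] at h2
  rw [real_inner_comm]
  linarith

private theorem ZD_main {x q : E3} {M : Set E3} {p : E3} (hp : ‖p‖ = 1) (hpq : ⟪p, q⟫ ≠ 0) (hM : CC M)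
    (hMp : ∀ y ∈ M, ⟪p, y⟫ = 0) (hsym : ∀ y ∈ M, -y ∈ M) (hint : (interior (cylSet x q M)).Nonempty) :
    ∃ L M' : Set E3, CC L ∧ CC M' ∧ IsPB 2 (cylSet x q M) L ∧ IsPB 2 L M' ∧
      ∃ c : ℝ, 0 < c ∧ ∃ x' : E3, M' = (fun y => c • y + x') '' (cylSet x q M) := by
  have hp0 : p ≠ 0 := by
    intro h
    rw [h, norm_zero] at hp
    exact zero_ne_one hp
  have hq0 : q ≠ 0 := by
    intro h
    exact hpq (by rw [h, inner_zero_right])
  have hqn : ‖q‖ ≠ 0 := norm_ne_zero_iff.2 hq0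
  obtain ⟨lam, hfin, hi, hl, hs⟩ := planar_zonoid hp0 hM hMp hsym
  have hC := ZD_pos (x := x) hp hpq hM hMp hsym hi hl hs hint
  set C := ∫ y, ∫ z, |⟪p, cr y z⟫| ∂lam ∂lam with hCdef
  set qh : E3 := ‖q‖⁻¹ • q with hqh
  have hqh1 : ‖qh‖ = 1 := by rw [hqh, norm_smul, norm_inv, norm_norm, inv_mul_cancel₀ hqn]
  have hqhq : ⟪qh, q⟫ = ‖q‖ := by
    rw [hqh, real_inner_smul_left, real_inner_self_eq_norm_sq]
    field_simp
  have hQM := ZD_CC_image hM q
  have hfin2 : IsFiniteMeasure (lam.map (ZD_Q q)) := inferInstance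
  have hPB1 : IsPB 2 (cylSet x q M) (cylSet 0 ((2 * C) • p) (ZD_Q q '' M)) := ZC hp hM hMp hi hl hs
  have hQp : ∀ y ∈ ZD_Q q '' M, ⟪qh, y⟫ = 0 := by
    rintro _ ⟨y, hy, rfl⟩
    rw [ZD_Q_apply, hqh, real_inner_smul_left, real_inner_smul_right, inner_cr_left, mul_zero, mul_zero]
  have hi2 : Integrable (fun y => ‖y‖) (lam.map (ZD_Q q)) := by
    have hm : AEMeasurable (ZD_Q q) lam := (ZD_Q_cont q).measurable.aemeasurable
    rw [integrable_map_measure (continuous_norm.aestronglyMeasurable) hm]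
    refine (hi.const_mul (4 * ‖q‖)).mono' ?_ (Eventually.of_forall fun y => ?_)
    · exact (continuous_norm.comp (ZD_Q_cont q)).aestronglyMeasurable
    · show ‖‖ZD_Q q y‖‖ ≤ 4 * ‖q‖ * ‖y‖
      rw [norm_norm, ZD_Q_apply, norm_smul, Real.norm_eq_abs, abs_of_pos (by norm_num : (0 : ℝ) < 4), mul_assoc]
      exact mul_le_mul_of_nonneg_left (norm_cr_le q y) (by norm_num)
  have hl2 : (lam.map (ZD_Q q)) (pl qh)ᶜ = 0 := by
    rw [Measure.map_apply (ZD_Q_cont q).measurable (pl_meas qh).compl]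
    have : ZD_Q q ⁻¹' (pl qh)ᶜ = ∅ := by
      ext y
      simp only [mem_preimage, mem_compl_iff, mem_empty_iff_false, iff_false, not_not]
      show ⟪qh, ZD_Q q y⟫ = 0
      rw [ZD_Q_apply, hqh, real_inner_smul_left, real_inner_smul_right, inner_cr_left, mul_zero, mul_zero]
    rw [this, measure_empty]
  have hPB2 := ZC (M := ZD_Q q '' M) (p := qh) (q := (2 * C) • p) (x := 0) hqh1 hQM hQp (lam := lam.map (ZD_Q q)) hi2 hl2
    (fun u => ZD_supp hs q u)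
  rw [ZD_const hp hl hqhq, ← hCdef] at hPB2
  refine ⟨cylSet 0 ((2 * C) • p) (ZD_Q q '' M), _, cylSet_CC hQM, ?_, hPB1, hPB2, 32 * C * |⟪p, q⟫|,
    by have := abs_pos.2 hpq; positivity, -((32 * C * |⟪p, q⟫|) • x), ?_⟩
  · exact cylSet_CC (ZD_CC_image hQM ((2 * C) • p))
  set c := 32 * C * |⟪p, q⟫| with hc
  have hseg : (2 * (16 * ‖q‖ * |⟪p, q⟫| * C)) • qh = c • q := by
    rw [hqh, smul_smul, hc]
    congr 1
    field_simp
    ring
  have hcr : ∀ y ∈ M, (4 : ℝ) • cr ((2 * C) • p) (ZD_Q q y) = (-(32 * C * ⟪p, q⟫)) • y := by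
    intro y hy
    have e : cr p (cr q y) = -(⟪p, q⟫ • y) := by
      rw [cr_comm (cr q y) p, cr_cr, real_inner_comm p q, real_inner_comm p y, hMp y hy, zero_smul, sub_zero]
    rw [ZD_Q_apply, cr_smul_left, cr_smul_right, e, smul_neg, smul_neg, smul_neg, smul_smul, smul_smul, smul_smul,
      neg_smul]
    congr 2
    ring
  have hM1 : ∀ y ∈ M, ∃ y' ∈ M, (-(32 * C * ⟪p, q⟫)) • y = c • y' := by
    intro y hy
    rcases le_total 0 (⟪p, q⟫ : ℝ) with h | h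
    · exact ⟨-y, hsym y hy, by rw [hc, abs_of_nonneg h, neg_smul, smul_neg]⟩
    · exact ⟨y, hy, by rw [hc, abs_of_nonpos h, mul_neg]⟩
  have hM2 : ∀ y ∈ M, ∃ y' ∈ M, (-(32 * C * ⟪p, q⟫)) • y' = c • y := by
    intro y hy
    rcases le_total 0 (⟪p, q⟫ : ℝ) with h | h
    · exact ⟨-y, hsym y hy, by rw [hc, abs_of_nonneg h, neg_smul, smul_neg, neg_neg]⟩
    · exact ⟨y, hy, by rw [hc, abs_of_nonpos h, mul_neg]⟩
  rw [hseg]
  ext z
  constructor
  · rintro ⟨_, ⟨_, ⟨y, hy, rfl⟩, rfl⟩, t, ht, rfl⟩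
    obtain ⟨y', hy', h1⟩ := hM1 y hy
    refine ⟨x + y' + t • q, ⟨y', hy', t, ht, rfl⟩, ?_⟩
    show c • (x + y' + t • q) + -(c • x) = 0 + (4 : ℝ) • cr ((2 * C) • p) (ZD_Q q y) + t • c • q
    rw [hcr y hy, h1, smul_add, smul_add, smul_comm c t q]
    abel
  · rintro ⟨_, ⟨y, hy, t, ht, rfl⟩, rfl⟩
    obtain ⟨y', hy', h1⟩ := hM2 y hy
    refine ⟨(4 : ℝ) • cr ((2 * C) • p) (ZD_Q q y'), ⟨ZD_Q q y', ⟨y', hy', rfl⟩, rfl⟩, t, ht, ?_⟩
    show c • (x + y + t • q) + -(c • x) = 0 + (4 : ℝ) • cr ((2 * C) • p) (ZD_Q q y') + t • c • q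
    rw [hcr y' hy', h1, smul_add, smul_add, smul_comm c t q]
    abel

theorem main_bwd {K : Set E3} (hK : IsCylinder K) (hi : (interior K).Nonempty) :
    ∃ L M : Set E3, CC L ∧ CC M ∧ IsPB 2 K L ∧ IsPB 2 L M ∧ ∃ c : ℝ, 0 < c ∧ ∃ x : E3, M = (fun y => c • y + x) '' K := by
  obtain ⟨x, p, q, M, hpq, hc, hv, hn, hMp, hsym, rfl⟩ := hK
  have hp0 : p ≠ 0 := by
    intro h
    exact hpq (by rw [h, inner_zero_left])
  have hpn : ‖p‖ ≠ 0 := norm_ne_zero_iff.2 hp0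
  have h1 : ‖‖p‖⁻¹ • p‖ = 1 := by rw [norm_smul, norm_inv, norm_norm, inv_mul_cancel₀ hpn]
  have h2 : ⟪‖p‖⁻¹ • p, q⟫ ≠ 0 := by
    rw [real_inner_smul_left]
    exact mul_ne_zero (inv_ne_zero hpn) hpq
  have h3 : ∀ y ∈ M, ⟪‖p‖⁻¹ • p, y⟫ = 0 := by
    intro y hy
    rw [real_inner_smul_left, hMp y hy, mul_zero]
  exact ZD_main h1 h2 ⟨hc, hv, hn⟩ h3 hsym hi

end Pool.Agent.FAC3
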