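import Pool.Agent.FAC3.XFWD
import Pool.Agent.FAC3.FCY
import Pool.Agent.FAC3.ZD
import Pool.Agent.FAC3.YB
import Pool.Agent.FAC3.YC

/-! Module FAC3-ALL: the final theorem. -/

set_option autoImplicit false

namespace Pool.Agent.FAC3
open MeasureTheory Set Filter Topology Metric
open Pool.Agent.Helper82.Proj1 (supp Homothetic)
open Pool.Agent.HP89 (CC IsPB)
open scoped RealInnerProductSpace ENNReal Pointwise

/-- **Main theorem.** -/
theorem main_all (K : ConvexBody (EuclideanSpace ℝ (Fin 3)))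
    (hK : (interior (K : Set (EuclideanSpace ℝ (Fin 3)))).Nonempty) :
    ((∃ L M : ConvexBody (EuclideanSpace ℝ (Fin 3)), IsPB 2 (K : Set (EuclideanSpace ℝ (Fin 3))) L ∧
      IsPB 2 (L : Set (EuclideanSpace ℝ (Fin 3))) M ∧ Homothetic M K ∧
      ¬ (StrictConvex ℝ (K : Set (EuclideanSpace ℝ (Fin 3))) ∧ IsSmooth K ∧
        StrictConvex ℝ (L : Set (EuclideanSpace ℝ (Fin 3))) ∧ IsSmooth L)) ↔ IsCylinder K) ∧
    ((∃ L : ConvexBody (EuclideanSpace ℝ (Fin 3)), IsPB 2 (K : Set (EuclideanSpace ℝ (Fin 3))) L ∧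
      Homothetic L K ∧ ¬ (StrictConvex ℝ (K : Set (EuclideanSpace ℝ (Fin 3))) ∧ IsSmooth K)) ↔ IsSqCylinder K) := by
  have hCC : ∀ L : ConvexBody (EuclideanSpace ℝ (Fin 3)), CC (L : Set (EuclideanSpace ℝ (Fin 3))) :=
    fun L => ⟨L.isCompact, L.convex, L.nonempty⟩
  have hsc : IsCylinder K → ¬ StrictConvex ℝ (K : Set (EuclideanSpace ℝ (Fin 3))) := by
    intro h
    obtain ⟨u, hu⟩ := FCY h hK
    exact facet_not_sc (hCC K) hu
  refine ⟨⟨?_, ?_⟩, ⟨?_, ?_⟩⟩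
  · rintro ⟨L, M, h1, h2, ⟨c, hc, x, hx⟩, hF⟩
    exact main_fwd (hCC K) (hCC L) (hCC M) hK h1 h2 hc hx hF
  · intro h
    obtain ⟨L, M, hL, hM, h1, h2, c, hc, x, hx⟩ := main_bwd h hK
    exact ⟨⟨L, hL.convex, hL.compact, hL.nonempty⟩, ⟨M, hM.convex, hM.compact, hM.nonempty⟩, h1, h2,
      ⟨c, hc, x, hx⟩, fun h' => hsc h h'.1⟩
  · rintro ⟨L, h1, ⟨c, hc, x, hx⟩, hF⟩
    have h2 : IsPB 2 (L : Set E3) ((fun y => c ^ 2 • y) '' (L : Set E3)) := by
      have := PB_hom (hCC K) (hCC L) h1 hc x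
      rwa [← hx] at this
    have hM : CC ((fun y => c ^ 2 • y) '' (L : Set E3)) := by
      refine ⟨L.isCompact.image (continuous_const_smul _), ?_, L.nonempty.image _⟩
      exact L.convex.smul (c ^ 2)
    refine sq_fwd (hCC K) (hCC L) hK h1 hc hx
      (main_fwd (hCC K) (hCC L) hM hK h1 h2 (c := c ^ 3) (by positivity) (x0 := c ^ 2 • x) ?_
        fun h' => hF ⟨h'.1, h'.2.1⟩)
    rw [hx, image_image]
    refine image_congr fun y _ => ?_
    simp only [smul_add, smul_smul]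
    ring_nf
  · intro h
    obtain ⟨L, hL, h1, c, hc, x, hx⟩ := sq_bwd h
    exact ⟨⟨L, hL.convex, hL.compact, hL.nonempty⟩, h1, ⟨c, hc, x, hx⟩, fun h' => hsc (sq_cyl h) h'.1⟩

end Pool.Agent.FAC3
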