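import Pool.Agent.FAC3.ENa

/-! Module FAC3-TDa: decomposition of `TT μ` at one point: pairs not containing `p`, and pairs with `p`. -/

set_option autoImplicit false

namespace Pool.Agent.FAC3
open MeasureTheory Set Filter Topology
open scoped RealInnerProductSpace ENNReal

private theorem TDa_split {μ : Measure E3} (p : E3) (f : E3 → ℝ≥0∞) :
    ∫⁻ z, f z ∂μ = ∫⁻ z, f z ∂(μ.restrict {p}ᶜ) + μ {p} * f p := by
  rw [← lintegral_add_compl f (measurableSet_singleton p), lintegral_singleton, add_comm, mul_comm]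

theorem TD {μ : Measure E3} (hf : IsFiniteMeasure μ) (p : E3) {g : E3 → ℝ≥0∞} (hg : Measurable g)
    (he : ∀ x, g (-x) = g x) (h0 : g 0 = 0) :
    ∫⁻ x, g x ∂(TT μ) = ∫⁻ x, g x ∂(TT (μ.restrict {p}ᶜ)) + 2 * μ {p} * ∫⁻ z, g (cr p z) ∂μ := by
  have hc : Measurable (fun q : E3 × E3 => g (cr q.1 q.2)) := hg.comp continuous_cr.measurable
  have hc2 : Measurable (fun y : E3 => g (cr y p)) := hc.comp (measurable_id.prodMk measurable_const)
  have hc3 : Measurable (fun y : E3 => ∫⁻ z, g (cr y z) ∂(μ.restrict {p}ᶜ)) := hc.lintegral_prod_right'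
  have hG : ∫⁻ y, g (cr y p) ∂(μ.restrict {p}ᶜ) = ∫⁻ z, g (cr p z) ∂μ := by
    rw [TDa_split p (fun z => g (cr p z)), cr_self, h0, mul_zero, add_zero]
    refine lintegral_congr fun y => ?_
    rw [cr_comm p y, he]
  rw [lint_TT hg, lint_TT hg, TDa_split p (fun y => ∫⁻ z, g (cr y z) ∂μ)]
  have h1 : ∫⁻ y, ∫⁻ z, g (cr y z) ∂μ ∂(μ.restrict {p}ᶜ) =
      ∫⁻ y, ∫⁻ z, g (cr y z) ∂(μ.restrict {p}ᶜ) ∂(μ.restrict {p}ᶜ) + μ {p} * ∫⁻ z, g (cr p z) ∂μ := by
    rw [← hG, ← lintegral_const_mul _ hc2, ← lintegral_add_left hc3]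
    refine lintegral_congr fun y => ?_
    exact TDa_split p (fun z => g (cr y z))
  rw [h1]
  ring

end Pool.Agent.FAC3
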