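import Pool.Agent.FAC3.SDb
import Pool.Agent.FAC3.TDa

/-! Module FAC3-ATM: the atoms.

`ATL` is the equality of the cosine transforms of `ν` and `TT μ` restricted to the line `ln m` (`D2`), and `HS ∩ ln m = {m}`.
`ATM`, `NmL`, `ATD` follow from `ATL` with `v = m` and the pointwise formula `ATM_pt`: for a unit vector `m` the function
`1_{ln m} en ⟪m, ·⟫` at `y × z` is `1_{y ∈ pl m} 1_{z ∈ pl m} en ⟪m, y × z⟫`. -/

set_option autoImplicit false

namespace Pool.Agent.FAC3
open MeasureTheory Set Filter Topology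
open scoped RealInnerProductSpace ENNReal

private theorem ATM_pt {m : E3} (hm : ‖m‖ = 1) (y z : E3) :
    (ln m).indicator (fun x => en ⟪m, x⟫) (cr y z) =
      (pl m).indicator (fun y => (pl m).indicator (fun z => en ⟪m, cr y z⟫) z) y := by
  have hm0 : m ≠ 0 := by
    rintro rfl
    simp at hm
  by_cases hyz : y ∈ pl m ∧ z ∈ pl m
  · rw [Set.indicator_of_mem hyz.1, Set.indicator_of_mem hyz.2, Set.indicator_of_mem]
    show cr m (cr y z) = 0
    rw [cr_of_perp hm hyz.1 hyz.2, cr_smul_right, cr_self, smul_zero]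
  · have hR : (pl m).indicator (fun y => (pl m).indicator (fun z => en ⟪m, cr y z⟫) z) y = 0 := by
      by_cases hy : y ∈ pl m
      · rw [Set.indicator_of_mem hy, Set.indicator_of_notMem fun hz => hyz ⟨hy, hz⟩]
      · rw [Set.indicator_of_notMem hy]
    rw [hR]
    refine Set.indicator_apply_eq_zero.2 fun hl => ?_
    have h1 := cr_eq_zero hm0 (show cr m (cr y z) = 0 from hl)
    set t : ℝ := ⟪m, cr y z⟫ / ‖m‖ ^ 2 with ht
    by_cases ht0 : t = 0
    · rw [h1, ht0, zero_smul, inner_zero_right, en_zero]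
    · exfalso
      apply hyz
      constructor
      · show ⟪m, y⟫ = 0
        have h2 := inner_cr_left y z
        rw [h1, inner_smul_right, real_inner_comm] at h2
        exact (mul_eq_zero.1 h2).resolve_left ht0
      · show ⟪m, z⟫ = 0
        have h2 := inner_cr_right y z
        rw [h1, inner_smul_right, real_inner_comm] at h2
        exact (mul_eq_zero.1 h2).resolve_left ht0

private theorem ATM_meas (m : E3) : Measurable ((ln m).indicator fun x : E3 => en ⟪m, x⟫) :=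
  (measurable_en_inner m).indicator (ln_meas m)

private theorem ATM_TT {lam : Measure E3} (hf : IsFiniteMeasure lam) {m : E3} (hm : ‖m‖ = 1) :
    ∫⁻ x in ln m, en ⟪m, x⟫ ∂(TT lam) = ∫⁻ y in pl m, ∫⁻ z in pl m, en ⟪m, cr y z⟫ ∂lam ∂lam := by
  rw [← lintegral_indicator (ln_meas m), lint_TT (ATM_meas m), ← lintegral_indicator (pl_meas m)]
  refine lintegral_congr fun y => ?_
  simp only [ATM_pt hm]
  by_cases hy : y ∈ pl m
  · simp only [Set.indicator_of_mem hy]
    rw [lintegral_indicator (pl_meas m)]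
  · simp only [Set.indicator_of_notMem hy]
    rw [lintegral_zero]

private theorem ATM_sub {m p : E3} (hm : m ≠ 0) (hpm : ⟪m, p⟫ = 0) : ln m ⊆ pl p := by
  intro q hq
  have h1 := cr_eq_zero hm (show cr m q = 0 from hq)
  show ⟪p, q⟫ = 0
  rw [h1, inner_smul_right, real_inner_comm m p, hpm, mul_zero]

private theorem ATM_Nm (μ : Measure E3) {m p : E3} (hm : m ≠ 0) (hpm : ⟪m, p⟫ = 0) :
    (Nm μ p).restrict (ln m) = (TT (μ.restrict {p}ᶜ)).restrict (ln m) := by
  rw [Nm, Measure.restrict_restrict (ln_meas m), Set.inter_eq_left.2 (ATM_sub hm hpm)]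

theorem ATL {μ ν : Measure E3} (h : Sys μ ν) {m : E3} (hm : m ∈ HS) (v : E3) :
    ν {m} * en ⟪v, m⟫ = ∫⁻ x in ln m, en ⟪v, x⟫ ∂(TT μ) := by
  have := h.f1
  have := h.f2
  rw [← D2 (FM_of_HS h.f2 h.s2) (FM_TT (FM_of_HS h.f1 h.s1)) h.h1 (HS_ne hm) v]
  have h1 : (ln m : Set E3) =ᵐ[ν] ({m} : Set E3) := by
    have h2 : ∀ᵐ x ∂ν, x ∈ HS := by
      rw [ae_iff]
      exact h.s2
    filter_upwards [h2] with x hx
    apply propext
    constructor
    · intro h3
      exact (HS_unique hm hx h3).symm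
    · intro h3
      have h4 : x = m := h3
      rw [h4]
      exact cr_self m
  rw [setLIntegral_congr h1, lintegral_singleton, mul_comm]

private theorem ATM_self {m : E3} (hm : m ∈ HS) : en ⟪m, m⟫ = 1 := by
  rw [real_inner_self_eq_norm_sq, HS_norm hm]
  simp [en]

theorem ATM {μ ν : Measure E3} (h : Sys μ ν) {m : E3} (hm : m ∈ HS) : ν {m} = ∫⁻ y in pl m, QQ μ m y ∂μ := by
  have h1 := ATL h hm m
  rw [ATM_self hm, mul_one, ATM_TT h.f1 (HS_norm hm)] at h1
  exact h1

theorem NmL {μ : Measure E3} (hf : IsFiniteMeasure μ) {m p : E3} (hm : ‖m‖ = 1) (hpm : ⟪m, p⟫ = 0) :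
    ∫⁻ q in ln m, en ⟪m, q⟫ ∂(Nm μ p) = ∫⁻ y in pl m \ {p}, ∫⁻ z in pl m \ {p}, en ⟪m, cr y z⟫ ∂μ ∂μ := by
  have hm0 : m ≠ 0 := by
    rintro rfl
    simp at hm
  have hi : IsFiniteMeasure (μ.restrict {p}ᶜ) := inferInstance
  rw [ATM_Nm μ hm0 hpm, ATM_TT hi hm, Measure.restrict_restrict (pl_meas m)]
  rfl

theorem ATD {μ ν : Measure E3} (h : Sys μ ν) {m p : E3} (hm : m ∈ HS) (hpm : ⟪m, p⟫ = 0) :
    ν {m} = 2 * μ {p} * QQ μ m p + ∫⁻ q in ln m, en ⟪m, q⟫ ∂(Nm μ p) := by
  have hm1 : ‖m‖ = 1 := HS_norm hm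
  have h1 := ATL h hm m
  rw [ATM_self hm, mul_one, ← lintegral_indicator (ln_meas m)] at h1
  have he : ∀ x : E3, (ln m).indicator (fun x => en ⟪m, x⟫) (-x) = (ln m).indicator (fun x => en ⟪m, x⟫) x := by
    intro x
    have h2 : -x ∈ ln m ↔ x ∈ ln m := by
      show cr m (-x) = 0 ↔ cr m x = 0
      rw [cr_neg_right, neg_eq_zero]
    by_cases hx : x ∈ ln m
    · rw [Set.indicator_of_mem hx, Set.indicator_of_mem (h2.2 hx), inner_neg_right, en_neg]
    · rw [Set.indicator_of_notMem hx, Set.indicator_of_notMem (fun h3 => hx (h2.1 h3))]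
  have h0 : (ln m).indicator (fun x => en ⟪m, x⟫) (0 : E3) = 0 := by
    refine Set.indicator_apply_eq_zero.2 fun _ => ?_
    rw [inner_zero_right, en_zero]
  rw [TD h.f1 p (ATM_meas m) he h0, lintegral_indicator (ln_meas m), ← ATM_Nm μ (HS_ne hm) hpm] at h1
  rw [h1, add_comm]
  congr 2
  simp only [ATM_pt hm1]
  rw [QQ]
  simp only [Set.indicator_of_mem (show p ∈ pl m from hpm)]
  rw [lintegral_indicator (pl_meas m)]

end Pool.Agent.FAC3
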