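import Pool.Agent.FAC3.ENa

/-! Module FAC3-BSa: normalisation of a measure to the half sphere (image of `‖x‖ ρ` under `rep`), scaling. -/

set_option autoImplicit false

namespace Pool.Agent.FAC3
open MeasureTheory Set Filter Topology
open scoped RealInnerProductSpace ENNReal

/-- the measure on `HS` with the same integrals of even homogeneous functions. -/
noncomputable def Nz (ρ : Measure E3) : Measure E3 := (ρ.withDensity (fun x => ENNReal.ofReal ‖x‖)).map rep

private theorem BSa_meas : Measurable fun x : E3 => ENNReal.ofReal ‖x‖ := measurable_norm.ennreal_ofReal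

private theorem BSa_inner (u : E3) (t : ℝ) (x : E3) : en ⟪u, t • x⟫ = en t * en ⟪u, x⟫ := by
  rw [inner_smul_right, en_mul]

theorem Nz_finite {ρ : Measure E3} (h : FM ρ) : IsFiniteMeasure (Nz ρ) := by
  refine ⟨?_⟩
  unfold Nz
  rw [Measure.map_apply rep_measurable MeasurableSet.univ, preimage_univ,
    withDensity_apply _ MeasurableSet.univ, Measure.restrict_univ]
  exact lt_top_iff_ne_top.2 h

theorem Nz_HS (ρ : Measure E3) : Nz ρ HSᶜ = 0 := by
  have hm : MeasurableSet (rep ⁻¹' HSᶜ) := rep_measurable HS_meas.compl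
  unfold Nz
  rw [Measure.map_apply rep_measurable HS_meas.compl, withDensity_apply _ hm,
    ← lintegral_indicator hm, lintegral_eq_zero_iff (BSa_meas.indicator hm)]
  refine Filter.Eventually.of_forall fun x => ?_
  show (rep ⁻¹' HSᶜ).indicator (fun x => ENNReal.ofReal ‖x‖) x = 0
  by_cases hx : x = 0
  · subst hx
    by_cases h0 : (0 : E3) ∈ rep ⁻¹' HSᶜ
    · rw [indicator_of_mem h0, norm_zero, ENNReal.ofReal_zero]
    · rw [indicator_of_notMem h0]
  · rw [indicator_of_notMem]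
    exact fun h => h (rep_mem hx)

theorem lint_Nz (ρ : Measure E3) {g : E3 → ℝ≥0∞} (hg : Measurable g) (hh : ∀ (t : ℝ) (x : E3), g (t • x) = en t * g x) :
    ∫⁻ x, g x ∂(Nz ρ) = ∫⁻ x, g x ∂ρ := by
  have h1 := lintegral_withDensity_eq_lintegral_mul ρ BSa_meas (hg.comp rep_measurable)
  refine (lintegral_map hg rep_measurable).trans (h1.trans ?_)
  refine lintegral_congr fun x => ?_
  obtain ⟨t, ht, hx⟩ := rep_spec x
  show ENNReal.ofReal ‖x‖ * g (rep x) = g x
  calc ENNReal.ofReal ‖x‖ * g (rep x) = en t * g (rep x) := by rw [← ht]; rfl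
    _ = g (t • rep x) := (hh t (rep x)).symm
    _ = g x := by rw [← hx]

theorem J_Nz (ρ : Measure E3) (u : E3) : J (Nz ρ) u = J ρ u :=
  lint_Nz ρ (measurable_en_inner u) (BSa_inner u)

private theorem BSa_m2 (u : E3) : Measurable fun q : E3 × E3 => en ⟪u, cr q.1 q.2⟫ :=
  (measurable_en_inner u).comp continuous_cr.measurable

private theorem BSa_m1 (u y : E3) : Measurable fun z : E3 => en ⟪u, cr y z⟫ := by
  have h : Continuous fun z : E3 => cr y z := continuous_cr.comp (continuous_const.prodMk continuous_id)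
  exact (measurable_en_inner u).comp h.measurable

private theorem BSa_m3 (ρ : Measure E3) [SFinite ρ] (u : E3) :
    Measurable fun y : E3 => ∫⁻ z, en ⟪u, cr y z⟫ ∂ρ := (BSa_m2 u).lintegral_prod_right'

private theorem BSa_h1 (ρ : Measure E3) (u y : E3) :
    ∫⁻ z, en ⟪u, cr y z⟫ ∂(Nz ρ) = ∫⁻ z, en ⟪u, cr y z⟫ ∂ρ := by
  refine lint_Nz ρ (g := fun z => en ⟪u, cr y z⟫) (BSa_m1 u y) fun t z => ?_
  show en ⟪u, cr y (t • z)⟫ = en t * en ⟪u, cr y z⟫
  rw [cr_smul_right]
  exact BSa_inner u t _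

theorem JTT_Nz {ρ : Measure E3} [SFinite ρ] (h : FM ρ) (u : E3) : J (TT (Nz ρ)) u = J (TT ρ) u := by
  have hf : IsFiniteMeasure (Nz ρ) := Nz_finite h
  unfold J
  rw [lint_TT (measurable_en_inner u), lint_TT (measurable_en_inner u)]
  rw [lintegral_congr fun y => BSa_h1 ρ u y]
  refine lint_Nz ρ (g := fun y => ∫⁻ z, en ⟪u, cr y z⟫ ∂ρ) (BSa_m3 ρ u) fun t y => ?_
  show ∫⁻ z, en ⟪u, cr (t • y) z⟫ ∂ρ = en t * ∫⁻ z, en ⟪u, cr y z⟫ ∂ρ
  rw [← lintegral_const_mul' _ _ (en_ne_top t)]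
  refine lintegral_congr fun z => ?_
  show en ⟪u, cr (t • y) z⟫ = en t * en ⟪u, cr y z⟫
  rw [cr_smul_left]
  exact BSa_inner u t _

theorem J_smul_measure (c : ℝ≥0∞) (μ : Measure E3) (u : E3) : J (c • μ) u = c * J μ u := by
  unfold J
  rw [lintegral_smul_measure]
  rfl

theorem JTT_smul {c : ℝ≥0∞} (hc : c ≠ ⊤) (μ : Measure E3) [SFinite μ] (u : E3) : J (TT (c • μ)) u = c ^ 2 * J (TT μ) u := by
  unfold J
  rw [lint_TT (measurable_en_inner u), lint_TT (measurable_en_inner u), lintegral_smul_measure]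
  have h1 : ∀ y : E3, ∫⁻ z, en ⟪u, cr y z⟫ ∂(c • μ) = c * ∫⁻ z, en ⟪u, cr y z⟫ ∂μ := by
    intro y
    rw [lintegral_smul_measure]
    rfl
  rw [lintegral_congr h1, lintegral_const_mul' _ _ hc, smul_eq_mul, ← mul_assoc, pow_two]

end Pool.Agent.FAC3
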