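import Pool.Agent.FAC3.WN
import Pool.Agent.FAC3.BSa
import Pool.Agent.FAC3.SDa
import Pool.Agent.FAC3.Geo
import Pool.Agent.HP89.G10

/-! Module FAC3-BSb: from bodies to measures.

After a translation `supp M = c * supp K'`; `geoI` gives measures `ρ₀`, `ρ₁` which generate `K'`, `L`, `geoII` gives
`J ρ₁ = 2 J (TT ρ₀)`, `J ρ₀ = (2/c) J (TT ρ₁)`; normalise to the half sphere and scale. -/

set_option autoImplicit false

namespace Pool.Agent.FAC3
open MeasureTheory Set Filter Topology Metric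
open Pool.Agent.Helper82.Proj1 (supp)
open Pool.Agent.HP89 (CC IsPB)
open scoped RealInnerProductSpace ENNReal Pointwise

private theorem BSb_img (c : ℝ) (x : E3) (K : Set E3) : (fun y => c • y + x) '' K = c • K + {x} := by
  rw [Set.add_singleton, ← Set.image_smul, Set.image_image]

private theorem BSb_ccs (x : E3) : CC ({x} : Set E3) :=
  ⟨isCompact_singleton, convex_singleton x, ⟨x, rfl⟩⟩

private theorem BSb_cc {K : Set E3} (hK : CC K) (c : ℝ) (x : E3) : CC ((fun y => c • y + x) '' K) := by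
  rw [BSb_img]
  exact (hK.smul c).add (BSb_ccs x)

private theorem BSb_supp {K : Set E3} (hK : CC K) {c : ℝ} (hc : 0 ≤ c) (x u : E3) :
    supp ((fun y => c • y + x) '' K) u = c * supp K u + ⟪x, u⟫ := by
  rw [BSb_img, Pool.Agent.HP89.supp_add (hK.smul c) (BSb_ccs x), Pool.Agent.HP89.supp_smul_left hK hc]
  congr 1
  simp [supp]

private theorem BSb_norm {u : E3} (hu : u ≠ 0) : u = ‖u‖ • (‖u‖⁻¹ • u) ∧ ‖‖u‖⁻¹ • u‖ = 1 := by
  have h0 := norm_ne_zero_iff.2 hu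
  constructor
  · rw [smul_smul, mul_inv_cancel₀ h0, one_smul]
  · rw [norm_smul, norm_inv, norm_norm, inv_mul_cancel₀ h0]

private theorem BSb_unit {μ ν : Measure E3} {a : ℝ≥0∞} (h : ∀ u, ‖u‖ = 1 → J μ u = a * J ν u) (u : E3) :
    J μ u = a * J ν u := by
  by_cases hu : u = 0
  · rw [hu, J_zero, J_zero, mul_zero]
  obtain ⟨h1, h2⟩ := BSb_norm hu
  rw [h1, J_smul μ ‖u‖ (‖u‖⁻¹ • u), J_smul ν ‖u‖ (‖u‖⁻¹ • u), h _ h2, mul_left_comm]

private theorem BSb_unit' {A : Set E3} (hA : CC A) {ρ : Measure E3} (h : ∀ u, ‖u‖ = 1 → supp A u = (J ρ u).toReal)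
    (u : E3) : supp A u = (J ρ u).toReal := by
  by_cases hu : u = 0
  · rw [hu, J_zero, Pool.Agent.HP89.supp_zero_right hA, ENNReal.toReal_zero]
  obtain ⟨h1, h2⟩ := BSb_norm hu
  rw [h1, Pool.Agent.HP89.supp_smul_right hA (norm_nonneg u), J_smul ρ ‖u‖ (‖u‖⁻¹ • u), h _ h2,
    ENNReal.toReal_mul, en_toReal, abs_of_nonneg (norm_nonneg u)]

private theorem BSb_FM {ρ : Measure E3} (h : Integrable (fun x : E3 => ‖x‖) ρ) : FM ρ :=
  h.lintegral_lt_top.ne

/-- a nonzero vector orthogonal to `u` -/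
private theorem BSb_perp (u : E3) : ∃ v : E3, v ≠ 0 ∧ ⟪v, u⟫ = 0 := by
  by_cases h : u 0 = 0 ∧ u 1 = 0
  · refine ⟨!₂[1, 0, 0], ?_, ?_⟩
    · intro h0
      have : (!₂[(1 : ℝ), 0, 0] : E3) 0 = 0 := by rw [h0]; rfl
      simp at this
    · rw [inner_eq]
      simp [h.1]
  · refine ⟨!₂[u 1, -u 0, 0], ?_, ?_⟩
    · intro h0
      have h1 : (!₂[u 1, -u 0, 0] : E3) 0 = 0 := by rw [h0]; rfl
      have h2 : (!₂[u 1, -u 0, 0] : E3) 1 = 0 := by rw [h0]; rfl
      simp at h1 h2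
      exact h ⟨h2, h1⟩
    · rw [inner_eq]
      simp
      ring

theorem BSb {K L M : Set E3} (hK : CC K) (hL : CC L) (hM : CC M) (hi : (interior K).Nonempty)
    (h1 : IsPB 2 K L) (h2 : IsPB 2 L M) {c : ℝ} (hc : 0 < c) {x0 : E3} (hom : M = (fun y => c • y + x0) '' K) :
    ∃ (μ ν : Measure E3) (κ κ' : ℝ) (x1 : E3), Sys μ ν ∧ 0 < κ ∧ 0 < κ' ∧
      (∀ u, supp K u = ⟪x1, u⟫ + κ * (J ν u).toReal) ∧ (∀ u, supp L u = κ' * (J μ u).toReal) := by
  have hd : Module.finrank ℝ E3 = 3 := finrank_euclideanSpace_fin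
  have hj : 2 < Module.finrank ℝ E3 := by rw [hd]; norm_num
  obtain ⟨K', hK'⟩ : ∃ K' : Set E3, K' = (fun y => (1 : ℝ) • y + c⁻¹ • x0) '' K := ⟨_, rfl⟩
  have hCK' : CC K' := by rw [hK']; exact BSb_cc hK 1 _
  have hsK' : ∀ u, supp K' u = supp K u + c⁻¹ * ⟪x0, u⟫ := by
    intro u
    rw [hK', BSb_supp hK zero_le_one, one_mul, real_inner_smul_left]
  have hsM : ∀ u, supp M u = c * supp K' u := by
    intro u
    rw [hom, BSb_supp hK hc.le, hsK']
    field_simp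
  have h1' : IsPB 2 K' L := by
    intro u hu
    obtain ⟨v, hv, hst⟩ := h1 u hu
    have h3 := hst.homothety hK hu one_pos (c⁻¹ • x0)
    rw [← hK'] at h3
    exact ⟨fun i => 1 ^ i * v i, by simp [hv], h3⟩
  -- the measures
  obtain ⟨ρM, hfM, hiM, hρM⟩ := Pool.Agent.HP89.geoI hj hL h2
  obtain ⟨ρ1, hf1, hi1, hρ1⟩ := Pool.Agent.HP89.geoI hj hCK' h1'
  obtain ⟨ρ0, hρ0⟩ : ∃ ρ0 : Measure E3, ρ0 = ENNReal.ofReal c⁻¹ • ρM := ⟨_, rfl⟩
  have hf0 : IsFiniteMeasure ρ0 := by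
    rw [hρ0]
    exact MeasureTheory.Measure.smul_finite _ ENNReal.ofReal_ne_top
  have hi0 : Integrable (fun x : E3 => ‖x‖) ρ0 := by
    rw [hρ0]
    exact hiM.smul_measure ENNReal.ofReal_ne_top
  have hs0 : ∀ u, ‖u‖ = 1 → supp K' u = ∫ x, |⟪x, u⟫| ∂ρ0 := by
    intro u hu
    rw [hρ0, integral_smul_measure, ENNReal.toReal_ofReal (by positivity), smul_eq_mul, ← hρM u hu, hsM]
    field_simp
  have hFM0 := BSb_FM hi0
  have hFM1 := BSb_FM hi1
  have hJ : ∀ (ρ : Measure E3) (u : E3), (J ρ u).toReal = ∫ x, |⟪x, u⟫| ∂ρ := by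
    intro ρ u
    rw [J_toReal]
    simp only [real_inner_comm]
  have hK1 : ∀ u, supp K' u = (J ρ0 u).toReal :=
    BSb_unit' hCK' fun u hu => by rw [hs0 u hu, hJ]
  have hL1 : ∀ u, supp L u = (J ρ1 u).toReal :=
    BSb_unit' hL fun u hu => by rw [hρ1 u hu, hJ]
  have hfac : (2 : ℝ) ^ 2 / ((2 : ℕ).factorial : ℝ) = 2 := by norm_num [Nat.factorial]
  have e1 : ∀ u, J ρ1 u = 2 * J (TT ρ0) u := by
    refine BSb_unit fun u hu => ?_
    have h3 := Pool.Agent.HP89.geoII hj hCK' h1' hi0 hs0 hu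
    rw [hfac, iter2, hL1] at h3
    refine (ENNReal.toReal_eq_toReal_iff' (J_ne_top hFM1 u)
      (ENNReal.mul_ne_top (by norm_num) (J_ne_top (FM_TT hFM0) u))).1 ?_
    rw [ENNReal.toReal_mul, h3]
    norm_num
  have e2 : ∀ u, J ρ0 u = ENNReal.ofReal (2 / c) * J (TT ρ1) u := by
    refine BSb_unit fun u hu => ?_
    have h3 := Pool.Agent.HP89.geoII hj hL h2 hi1 hρ1 hu
    rw [hfac, iter2, hsM, hK1] at h3
    refine (ENNReal.toReal_eq_toReal_iff' (J_ne_top hFM0 u)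
      (ENNReal.mul_ne_top ENNReal.ofReal_ne_top (J_ne_top (FM_TT hFM1) u))).1 ?_
    rw [ENNReal.toReal_mul, ENNReal.toReal_ofReal (by positivity)]
    field_simp
    linarith
  -- scaling
  obtain ⟨a, ha, hac⟩ : ∃ a : ℝ, 0 < a ∧ a ^ 3 = c := by
    refine ⟨c ^ ((1 : ℝ) / 3), Real.rpow_pos_of_pos hc _, ?_⟩
    rw [← Real.rpow_natCast, ← Real.rpow_mul hc.le]
    norm_num
  have hS1 : ENNReal.ofReal (2 / a ^ 2) * 2 = ENNReal.ofReal (2 / a) ^ 2 := by
    rw [← ENNReal.ofReal_pow (by positivity), show (2 : ℝ≥0∞) = ENNReal.ofReal 2 by simp,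
      ← ENNReal.ofReal_mul (by positivity)]
    congr 1
    field_simp
  have hS2 : ENNReal.ofReal (2 / a) * ENNReal.ofReal (2 / c) = ENNReal.ofReal (2 / a ^ 2) ^ 2 := by
    rw [← ENNReal.ofReal_pow (by positivity), ← ENNReal.ofReal_mul (by positivity), ← hac]
    congr 1
    field_simp
  have hN0 := Nz_finite hFM0
  have hN1 := Nz_finite hFM1
  obtain ⟨ν, hν⟩ : ∃ ν : Measure E3, ν = ENNReal.ofReal (2 / a) • Nz ρ0 := ⟨_, rfl⟩
  obtain ⟨μ, hμ⟩ : ∃ μ : Measure E3, μ = ENNReal.ofReal (2 / a ^ 2) • Nz ρ1 := ⟨_, rfl⟩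
  have fν : IsFiniteMeasure ν := by
    rw [hν]
    exact MeasureTheory.Measure.smul_finite _ ENNReal.ofReal_ne_top
  have fμ : IsFiniteMeasure μ := by
    rw [hμ]
    exact MeasureTheory.Measure.smul_finite _ ENNReal.ofReal_ne_top
  have Jν : ∀ u, J ν u = ENNReal.ofReal (2 / a) * J ρ0 u := by
    intro u
    rw [hν, J_smul_measure, J_Nz]
  have Jμ : ∀ u, J μ u = ENNReal.ofReal (2 / a ^ 2) * J ρ1 u := by
    intro u
    rw [hμ, J_smul_measure, J_Nz]
  have JTν : ∀ u, J (TT ν) u = ENNReal.ofReal (2 / a) ^ 2 * J (TT ρ0) u := by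
    intro u
    rw [hν, JTT_smul ENNReal.ofReal_ne_top, JTT_Nz hFM0]
  have JTμ : ∀ u, J (TT μ) u = ENNReal.ofReal (2 / a ^ 2) ^ 2 * J (TT ρ1) u := by
    intro u
    rw [hμ, JTT_smul ENNReal.ofReal_ne_top, JTT_Nz hFM1]
  have H1 : ∀ u, J ν u = J (TT μ) u := by
    intro u
    rw [Jν, JTμ, e2, ← mul_assoc, hS2]
  have H2 : ∀ u, J μ u = J (TT ν) u := by
    intro u
    rw [Jμ, JTν, e1, ← mul_assoc, hS1]
  have ha1 : ENNReal.ofReal (2 / a) ≠ 0 := by
    rw [Ne, ENNReal.ofReal_eq_zero, not_le]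
    positivity
  -- `J ν` does not vanish
  have P2 : ∀ u, u ≠ 0 → J ν u ≠ 0 := by
    intro u hu h0
    rw [Jν, mul_eq_zero] at h0
    have h3 := h0.resolve_left ha1
    have h4 : supp K' u = 0 := by rw [hK1, h3, ENNReal.toReal_zero]
    have h5 : supp K' (-u) = 0 := by rw [hK1, J_neg, h3, ENNReal.toReal_zero]
    have h6 : ∀ y ∈ K, ⟪y, u⟫ = -(c⁻¹ * ⟪x0, u⟫) := by
      intro y hy
      have a1 := Pool.Agent.Helper82.Proj1.le_supp hK.compact hy u
      have a2 := Pool.Agent.Helper82.Proj1.le_supp hK.compact hy (-u)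
      have a3 := hsK' u
      have a4 := hsK' (-u)
      rw [inner_neg_right] at a2 a4
      rw [h4] at a3
      rw [h5] at a4
      linarith
    obtain ⟨y, hy⟩ := hi
    have hcont : Continuous (fun t : ℝ => y + t • u) := by fun_prop
    have hnh : ∀ᶠ t in 𝓝 (0 : ℝ), y + t • u ∈ K := by
      have h7 : Tendsto (fun t : ℝ => y + t • u) (𝓝 0) (𝓝 y) := by
        have := hcont.tendsto 0
        rwa [zero_smul, add_zero] at this
      exact h7 (mem_interior_iff_mem_nhds.1 hy)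
    obtain ⟨ε, hε, hεK⟩ := Metric.eventually_nhds_iff.1 hnh
    have h8 : y + (ε / 2) • u ∈ K := by
      apply hεK
      rw [Real.dist_eq, sub_zero, abs_of_pos (by positivity)]
      linarith
    have h9 := h6 _ h8
    have h10 := h6 y (interior_subset hy)
    rw [inner_add_left, h10, real_inner_smul_left, real_inner_self_eq_norm_sq] at h9
    have h11 : 0 < ε / 2 * ‖u‖ ^ 2 := by
      have := norm_pos_iff.2 hu
      positivity
    linarith
  -- `J μ` does not vanish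
  have P1 : ∀ u, u ≠ 0 → J μ u ≠ 0 := by
    intro u hu h0
    obtain ⟨v, hv, hvu⟩ := BSb_perp u
    apply P2 v hv
    rw [H1, J, lint_TT (measurable_en_inner v)]
    have h3 : ∀ᵐ x ∂μ, ⟪u, x⟫ = 0 := by
      have h4 := (lintegral_eq_zero_iff (measurable_en_inner u)).1 h0
      filter_upwards [h4] with x hx
      exact en_eq_zero.1 hx
    obtain ⟨hu1, hu2⟩ := BSb_norm hu
    obtain ⟨m, hm⟩ : ∃ m : E3, m = ‖u‖⁻¹ • u := ⟨_, rfl⟩
    rw [← hm] at hu1 hu2
    have h5 : ∀ᵐ y ∂μ, ∫⁻ z, en ⟪v, cr y z⟫ ∂μ = 0 := by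
      filter_upwards [h3] with y hy
      refine (lintegral_congr_ae (g := fun _ => 0) ?_).trans lintegral_zero
      filter_upwards [h3] with z hz
      have h6 : ⟪m, y⟫ = 0 := by rw [hm, real_inner_smul_left, hy, mul_zero]
      have h7 : ⟪m, z⟫ = 0 := by rw [hm, real_inner_smul_left, hz, mul_zero]
      have h8 : ⟪v, m⟫ = 0 := by rw [hm, real_inner_smul_right, hvu, mul_zero]
      rw [cr_of_perp hu2 h6 h7, real_inner_smul_right, h8, mul_zero, en_zero]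
    rw [lintegral_congr_ae h5, lintegral_zero]
  refine ⟨μ, ν, a / 2, a ^ 2 / 2, -(c⁻¹ • x0), ⟨fμ, fν, ?_, ?_, H1, H2, P1, P2⟩, by positivity, by positivity,
    fun u => ?_, fun u => ?_⟩
  · rw [hμ, Measure.smul_apply, Nz_HS, smul_zero]
  · rw [hν, Measure.smul_apply, Nz_HS, smul_zero]
  · have h3 := hsK' u
    rw [hK1] at h3
    rw [Jν, ENNReal.toReal_mul, ENNReal.toReal_ofReal (by positivity), h3, inner_neg_left, real_inner_smul_left]
    field_simp
    ring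
  · rw [Jμ, ENNReal.toReal_mul, ENNReal.toReal_ofReal (by positivity), hL1]
    field_simp

end Pool.Agent.FAC3
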