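import Pool.Agent.FAC3.ATM

/-! Module FAC3-CLO: the join of two atoms is an atom.

`ν {m} ≥ 2 μ{x} QQ μ m x` (`ATD`) for `m = rep (cr x y)`, and `QQ μ m x ≥ μ{y} en ⟪m, cr x y⟫ ≠ 0`. -/

set_option autoImplicit false

namespace Pool.Agent.FAC3
open MeasureTheory Set Filter Topology
open scoped RealInnerProductSpace ENNReal

theorem CLO {μ ν : Measure E3} (h : Sys μ ν) {x y : E3} (hx : x ∈ At μ) (hy : y ∈ At μ) (hxy : cr x y ≠ 0) :
    rep (cr x y) ∈ At ν := by
  have hm := rep_mem hxy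
  obtain ⟨t, ht1, ht⟩ := rep_spec (cr x y)
  obtain ⟨m, hmd⟩ : ∃ m : E3, m = rep (cr x y) := ⟨_, rfl⟩
  rw [← hmd] at hm ht ⊢
  have hm1 : ‖m‖ = 1 := HS_norm hm
  have ht0 : t ≠ 0 := by
    intro h0
    rw [h0, zero_smul] at ht
    exact hxy ht
  have hmx : ⟪m, x⟫ = 0 := by
    have h1 := inner_cr_left x y
    rw [ht, real_inner_smul_right, mul_eq_zero] at h1
    rw [real_inner_comm]
    exact h1.resolve_left ht0
  have hmy : ⟪m, y⟫ = 0 := by
    have h1 := inner_cr_right x y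
    rw [ht, real_inner_smul_right, mul_eq_zero] at h1
    rw [real_inner_comm]
    exact h1.resolve_left ht0
  have hv : ⟪m, cr x y⟫ ≠ 0 := by
    rw [ht, real_inner_smul_right, real_inner_self_eq_norm_sq, hm1]
    simpa using ht0
  intro h0
  have h1 := ATD h hm hmx
  rw [h0] at h1
  have h2 : 2 * μ {x} * QQ μ m x = 0 := by
    have := h1.symm
    rw [add_eq_zero] at this
    exact this.1
  have h3 : QQ μ m x = 0 := by
    rcases mul_eq_zero.1 h2 with h4 | h4
    · rcases mul_eq_zero.1 h4 with h5 | h5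
      · exact absurd h5 two_ne_zero
      · exact absurd h5 hx
    · exact h4
  have h4 : ∫⁻ z in {y}, en ⟪m, cr x z⟫ ∂μ ≤ QQ μ m x := by
    unfold QQ
    refine lintegral_mono_set ?_
    intro z hz
    rw [mem_singleton_iff] at hz
    rw [hz]
    exact hmy
  rw [lintegral_singleton, h3, nonpos_iff_eq_zero, mul_eq_zero] at h4
  rcases h4 with h5 | h5
  · exact hv (en_eq_zero.1 h5)
  · exact hy h5

end Pool.Agent.FAC3
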