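import Pool.Agent.FAC3.Defs

/-! Module FAC3-CRa: algebra of the cross product of `E3 = EuclideanSpace ℝ (Fin 3)`, by coordinates. -/

set_option autoImplicit false

namespace Pool.Agent.FAC3
open MeasureTheory Set Filter Topology
open scoped RealInnerProductSpace ENNReal

private theorem CRa_0 (x y : E3) : (cr x y) 0 = x 1 * y 2 - x 2 * y 1 := rfl

private theorem CRa_1 (x y : E3) : (cr x y) 1 = x 2 * y 0 - x 0 * y 2 := rfl

private theorem CRa_2 (x y : E3) : (cr x y) 2 = x 0 * y 1 - x 1 * y 0 := rfl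

private theorem CRa_ext {x y : E3} (h0 : x 0 = y 0) (h1 : x 1 = y 1) (h2 : x 2 = y 2) : x = y := by
  ext i
  fin_cases i
  · exact h0
  · exact h1
  · exact h2

theorem inner_eq (x y : E3) : ⟪x, y⟫ = x 0 * y 0 + x 1 * y 1 + x 2 * y 2 := by
  rw [PiLp.inner_apply, Fin.sum_univ_three]
  simp only [RCLike.inner_apply, conj_trivial]
  ring

theorem cr_self (x : E3) : cr x x = 0 := by
  apply CRa_ext
  · rw [CRa_0, PiLp.zero_apply]
    ring
  · rw [CRa_1, PiLp.zero_apply]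
    ring
  · rw [CRa_2, PiLp.zero_apply]
    ring

theorem cr_comm (x y : E3) : cr y x = -cr x y := by
  apply CRa_ext
  · rw [PiLp.neg_apply, CRa_0, CRa_0]
    ring
  · rw [PiLp.neg_apply, CRa_1, CRa_1]
    ring
  · rw [PiLp.neg_apply, CRa_2, CRa_2]
    ring

theorem cr_zero_left (x : E3) : cr 0 x = 0 := by
  apply CRa_ext
  · rw [CRa_0, PiLp.zero_apply, PiLp.zero_apply, PiLp.zero_apply]
    ring
  · rw [CRa_1, PiLp.zero_apply, PiLp.zero_apply, PiLp.zero_apply]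
    ring
  · rw [CRa_2, PiLp.zero_apply, PiLp.zero_apply, PiLp.zero_apply]
    ring

theorem cr_zero_right (x : E3) : cr x 0 = 0 := by
  rw [cr_comm, cr_zero_left, neg_zero]

theorem cr_smul_left (t : ℝ) (x y : E3) : cr (t • x) y = t • cr x y := by
  apply CRa_ext
  · rw [PiLp.smul_apply, CRa_0, CRa_0, PiLp.smul_apply, PiLp.smul_apply]
    simp only [smul_eq_mul]
    ring
  · rw [PiLp.smul_apply, CRa_1, CRa_1, PiLp.smul_apply, PiLp.smul_apply]
    simp only [smul_eq_mul]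
    ring
  · rw [PiLp.smul_apply, CRa_2, CRa_2, PiLp.smul_apply, PiLp.smul_apply]
    simp only [smul_eq_mul]
    ring

theorem cr_smul_right (t : ℝ) (x y : E3) : cr x (t • y) = t • cr x y := by
  rw [cr_comm, cr_smul_left, cr_comm x y, smul_neg, neg_neg]

theorem cr_add_left (x y z : E3) : cr (x + y) z = cr x z + cr y z := by
  apply CRa_ext
  · rw [PiLp.add_apply, CRa_0, CRa_0, CRa_0, PiLp.add_apply, PiLp.add_apply]
    ring
  · rw [PiLp.add_apply, CRa_1, CRa_1, CRa_1, PiLp.add_apply, PiLp.add_apply]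
    ring
  · rw [PiLp.add_apply, CRa_2, CRa_2, CRa_2, PiLp.add_apply, PiLp.add_apply]
    ring

theorem cr_add_right (x y z : E3) : cr x (y + z) = cr x y + cr x z := by
  rw [cr_comm, cr_add_left, cr_comm x y, cr_comm x z]
  abel

theorem cr_neg_left (x y : E3) : cr (-x) y = -cr x y := by
  rw [← neg_one_smul ℝ x, cr_smul_left, neg_one_smul]

theorem cr_neg_right (x y : E3) : cr x (-y) = -cr x y := by
  rw [← neg_one_smul ℝ y, cr_smul_right, neg_one_smul]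

theorem inner_cr_rot (x y z : E3) : ⟪x, cr y z⟫ = ⟪y, cr z x⟫ := by
  rw [inner_eq, inner_eq, CRa_0, CRa_1, CRa_2, CRa_0, CRa_1, CRa_2]
  ring

/-- `⟪x, y × z⟫ = ⟪x × y, z⟫`. -/
theorem inner_cr_assoc (x y z : E3) : ⟪x, cr y z⟫ = ⟪cr x y, z⟫ := by
  rw [inner_eq, inner_eq, CRa_0, CRa_1, CRa_2, CRa_0, CRa_1, CRa_2]
  ring

theorem inner_cr_left (x y : E3) : ⟪x, cr x y⟫ = 0 := by
  rw [inner_eq, CRa_0, CRa_1, CRa_2]
  ring

theorem inner_cr_right (x y : E3) : ⟪y, cr x y⟫ = 0 := by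
  rw [inner_eq, CRa_0, CRa_1, CRa_2]
  ring

theorem inner_cr_cr (x y z w : E3) : ⟪cr x y, cr z w⟫ = ⟪x, z⟫ * ⟪y, w⟫ - ⟪x, w⟫ * ⟪y, z⟫ := by
  rw [inner_eq, inner_eq, inner_eq, inner_eq, inner_eq, CRa_0, CRa_1, CRa_2, CRa_0, CRa_1, CRa_2]
  ring

theorem cr_cr (x y z : E3) : cr (cr x y) z = ⟪x, z⟫ • y - ⟪y, z⟫ • x := by
  rw [inner_eq, inner_eq]
  apply CRa_ext
  · rw [PiLp.sub_apply, PiLp.smul_apply, PiLp.smul_apply, CRa_0, CRa_1, CRa_2]
    simp only [smul_eq_mul]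
    ring
  · rw [PiLp.sub_apply, PiLp.smul_apply, PiLp.smul_apply, CRa_1, CRa_0, CRa_2]
    simp only [smul_eq_mul]
    ring
  · rw [PiLp.sub_apply, PiLp.smul_apply, PiLp.smul_apply, CRa_2, CRa_0, CRa_1]
    simp only [smul_eq_mul]
    ring

theorem norm_cr_sq (x y : E3) : ‖cr x y‖ ^ 2 = ‖x‖ ^ 2 * ‖y‖ ^ 2 - ⟪x, y⟫ ^ 2 := by
  rw [← real_inner_self_eq_norm_sq, ← real_inner_self_eq_norm_sq, ← real_inner_self_eq_norm_sq, inner_cr_cr,
    real_inner_comm x y]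
  ring

theorem norm_cr_le (x y : E3) : ‖cr x y‖ ≤ ‖x‖ * ‖y‖ := by
  refine le_of_sq_le_sq ?_ (by positivity)
  rw [norm_cr_sq, mul_pow]
  nlinarith [sq_nonneg ⟪x, y⟫]

theorem norm_cr_perp {x y : E3} (h : ⟪x, y⟫ = 0) : ‖cr x y‖ = ‖x‖ * ‖y‖ := by
  have h1 := norm_cr_sq x y
  rw [h] at h1
  have h2 : ‖cr x y‖ ^ 2 = (‖x‖ * ‖y‖) ^ 2 := by
    rw [h1]
    ring
  exact (sq_eq_sq₀ (norm_nonneg _) (by positivity)).1 h2

theorem continuous_cr : Continuous (fun q : E3 × E3 => cr q.1 q.2) := by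
  unfold cr
  have h : ∀ i : Fin 3, Continuous fun q : E3 × E3 => q.1 i := fun i =>
    (EuclideanSpace.proj (𝕜 := ℝ) i).continuous.comp continuous_fst
  have h' : ∀ i : Fin 3, Continuous fun q : E3 × E3 => q.2 i := fun i =>
    (EuclideanSpace.proj (𝕜 := ℝ) i).continuous.comp continuous_snd
  refine (PiLp.continuous_toLp 2 _).comp (continuous_pi fun i => ?_)
  fin_cases i
  · exact ((h 1).mul (h' 2)).sub ((h 2).mul (h' 1))
  · exact ((h 2).mul (h' 0)).sub ((h 0).mul (h' 2))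
  · exact ((h 0).mul (h' 1)).sub ((h 1).mul (h' 0))

theorem cr_eq_zero {x y : E3} (hx : x ≠ 0) (h : cr x y = 0) : y = (⟪x, y⟫ / ‖x‖ ^ 2) • x := by
  have h1 := cr_cr x y x
  rw [h, cr_zero_left, real_inner_self_eq_norm_sq, real_inner_comm x y] at h1
  have h2 : ‖x‖ ^ 2 • y = ⟪x, y⟫ • x := (sub_eq_zero.1 h1.symm)
  have h3 : ‖x‖ ^ 2 ≠ 0 := pow_ne_zero 2 (norm_ne_zero_iff.2 hx)
  rw [div_eq_inv_mul, mul_smul, ← h2, smul_smul, inv_mul_cancel₀ h3, one_smul]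

theorem cr_of_perp {m y z : E3} (hm : ‖m‖ = 1) (hy : ⟪m, y⟫ = 0) (hz : ⟪m, z⟫ = 0) :
    cr y z = ⟪m, cr y z⟫ • m := by
  have hm0 : m ≠ 0 := by
    intro h
    rw [h, norm_zero] at hm
    exact zero_ne_one hm
  have h1 : cr m (cr y z) = 0 := by
    rw [cr_comm, cr_cr, real_inner_comm m y, real_inner_comm m z, hy, hz]
    simp
  have h2 := cr_eq_zero hm0 h1
  rw [hm] at h2
  simpa using h2

theorem par_of_perp {x y p q : E3} (h : cr x y ≠ 0) (h1 : ⟪p, x⟫ = 0) (h2 : ⟪p, y⟫ = 0) (h3 : ⟪q, x⟫ = 0)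
    (h4 : ⟪q, y⟫ = 0) : cr p q = 0 := by
  have key : ∀ r : E3, ⟪r, x⟫ = 0 → ⟪r, y⟫ = 0 → cr (cr x y) r = 0 := by
    intro r hr1 hr2
    rw [cr_cr, real_inner_comm r x, real_inner_comm r y, hr1, hr2]
    simp
  have hp := cr_eq_zero h (key p h1 h2)
  have hq := cr_eq_zero h (key q h3 h4)
  rw [hp, hq, cr_smul_left, cr_smul_right, cr_self, smul_zero, smul_zero]

theorem cr_cr_unit {p m : E3} (hp : ‖p‖ = 1) (h : ⟪p, m⟫ = 0) : cr (cr p m) p = m := by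
  rw [cr_cr, real_inner_self_eq_norm_sq, real_inner_comm p m, h, hp]
  simp

end Pool.Agent.FAC3
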