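import Pool.Agent.FAC3.CRa

/-! Module FAC3-CRb: the half sphere `HS` (one of `v`, `-v` for every unit vector `v`) is Borel, and `rep v` is the
unique vector of `HS` parallel to `v ≠ 0`; the lines `ln x` and planes `pl p` in terms of `rep`. -/

set_option autoImplicit false

namespace Pool.Agent.FAC3
open MeasureTheory Set Filter Topology
open scoped RealInnerProductSpace ENNReal

private theorem CRb_coord (i : Fin 3) : Measurable fun x : E3 => x i :=
  (EuclideanSpace.proj (𝕜 := ℝ) i).continuous.measurable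

theorem HS_meas : MeasurableSet HS := by
  have a : ∀ i, MeasurableSet {x : E3 | 0 < x i} := fun i => measurableSet_lt measurable_const (CRb_coord i)
  have b : ∀ i, MeasurableSet {x : E3 | x i = 0} := fun i => measurableSet_eq_fun (CRb_coord i) measurable_const
  have c : MeasurableSet {x : E3 | ‖x‖ = 1} := measurableSet_eq_fun measurable_norm measurable_const
  exact c.inter ((a 2).union (((b 2).inter (a 1)).union ((b 2).inter ((b 1).inter (a 0)))))

theorem HS_norm {x : E3} (h : x ∈ HS) : ‖x‖ = 1 := h.1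

theorem HS_ne {x : E3} (h : x ∈ HS) : x ≠ 0 := by
  intro h0
  have h1 := HS_norm h
  rw [h0, norm_zero] at h1
  exact zero_ne_one h1

theorem HS_neg {x : E3} (h : x ∈ HS) : -x ∉ HS := by
  intro h'
  have h1 := h.2
  have h2 := h'.2
  rw [PiLp.neg_apply, PiLp.neg_apply, PiLp.neg_apply] at h2
  rcases h1 with h1 | ⟨h1, h1'⟩ | ⟨h1, h1', h1''⟩
  · rcases h2 with h2 | ⟨h2, -⟩ | ⟨h2, -, -⟩ <;> linarith
  · rcases h2 with h2 | ⟨-, h2⟩ | ⟨-, h2, -⟩ <;> linarith
  · rcases h2 with h2 | ⟨-, h2⟩ | ⟨-, -, h2⟩ <;> linarith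

private theorem CRb_dich {w : E3} (hw : ‖w‖ = 1) (h : w ∉ HS) : -w ∈ HS := by
  have hw' : ‖-w‖ = 1 := by rw [norm_neg, hw]
  by_contra h'
  have h1 : ¬ (0 < w 2 ∨ (w 2 = 0 ∧ 0 < w 1) ∨ (w 2 = 0 ∧ w 1 = 0 ∧ 0 < w 0)) := fun hh => h ⟨hw, hh⟩
  have h2 : ¬ (0 < (-w) 2 ∨ ((-w) 2 = 0 ∧ 0 < (-w) 1) ∨ ((-w) 2 = 0 ∧ (-w) 1 = 0 ∧ 0 < (-w) 0)) :=
    fun hh => h' ⟨hw', hh⟩
  rw [PiLp.neg_apply, PiLp.neg_apply, PiLp.neg_apply] at h2
  push Not at h1 h2
  obtain ⟨a1, b1, c1⟩ := h1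
  obtain ⟨a2, b2, c2⟩ := h2
  have e2 : w 2 = 0 := le_antisymm a1 (by linarith)
  have a3 := b1 e2
  have a4 := b2 (by rw [e2, neg_zero])
  have e1 : w 1 = 0 := le_antisymm a3 (by linarith)
  have a5 := c1 e2 e1
  have a6 := c2 (by rw [e2, neg_zero]) (by rw [e1, neg_zero])
  have e0 : w 0 = 0 := le_antisymm a5 (by linarith)
  have h3 : w = 0 := by
    ext i
    fin_cases i
    · exact e0
    · exact e1
    · exact e2
  rw [h3, norm_zero] at hw
  exact zero_ne_one hw

private theorem CRb_unit {v : E3} (hv : v ≠ 0) : ‖‖v‖⁻¹ • v‖ = 1 := by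
  rw [norm_smul, norm_inv, norm_norm, inv_mul_cancel₀ (norm_ne_zero_iff.2 hv)]

theorem rep_mem {v : E3} (hv : v ≠ 0) : rep v ∈ HS := by
  unfold rep
  split_ifs with h
  · exact h
  · exact CRb_dich (CRb_unit hv) h

theorem rep_zero : rep 0 = 0 := by
  unfold rep
  split_ifs <;> simp

theorem ne_zero_of_rep {v : E3} (h : rep v ∈ HS) : v ≠ 0 := by
  intro h0
  rw [h0, rep_zero] at h
  exact HS_ne h rfl

private theorem CRb_back (v : E3) : ‖v‖ • ‖v‖⁻¹ • v = v := by
  by_cases hv : v = 0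
  · rw [hv]
    simp
  · rw [smul_smul, mul_inv_cancel₀ (norm_ne_zero_iff.2 hv), one_smul]

/-- `v = ± ‖v‖ rep v`. -/
theorem rep_spec (v : E3) : ∃ t : ℝ, |t| = ‖v‖ ∧ v = t • rep v := by
  unfold rep
  split_ifs with h
  · exact ⟨‖v‖, abs_norm v, (CRb_back v).symm⟩
  · refine ⟨-‖v‖, by rw [abs_neg, abs_norm], ?_⟩
    rw [neg_smul_neg]
    exact (CRb_back v).symm

theorem HS_unique {x y : E3} (hx : x ∈ HS) (hy : y ∈ HS) (h : cr x y = 0) : x = y := by
  have h1 := cr_eq_zero (HS_ne hx) h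
  rw [HS_norm hx] at h1
  obtain ⟨t, ht⟩ : ∃ t : ℝ, y = t • x := ⟨_, h1⟩
  have h2 : |t| = 1 := by
    have h3 := HS_norm hy
    rw [ht, norm_smul, HS_norm hx, mul_one, Real.norm_eq_abs] at h3
    exact h3
  rcases (abs_eq zero_le_one).1 h2 with h3 | h3
  · rw [ht, h3, one_smul]
  · rw [h3, neg_one_smul] at ht
    rw [ht] at hy
    exact absurd hy (HS_neg hx)

private theorem CRb_par (v : E3) : cr (rep v) v = 0 := by
  obtain ⟨t, -, ht⟩ := rep_spec v
  calc cr (rep v) v = cr (rep v) (t • rep v) := by rw [← ht]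
    _ = 0 := by rw [cr_smul_right, cr_self, smul_zero]

theorem rep_eq {x v : E3} (hx : x ∈ HS) (hv : v ≠ 0) (h : cr x v = 0) : rep v = x := by
  have h0 := rep_mem hv
  refine HS_unique h0 hx ?_
  obtain ⟨t, htn, ht⟩ := rep_spec v
  have ht0 : t ≠ 0 := by
    intro h1
    rw [h1, abs_zero] at htn
    exact hv (norm_eq_zero.1 htn.symm)
  rw [ht, cr_smul_right] at h
  have h2 := (smul_eq_zero.1 h).resolve_left ht0
  rw [cr_comm, h2, neg_zero]

theorem rep_of_mem {x : E3} (hx : x ∈ HS) : rep x = x := rep_eq hx (HS_ne hx) (cr_self x)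

theorem rep_smul {t : ℝ} (ht : t ≠ 0) (v : E3) : rep (t • v) = rep v := by
  by_cases hv : v = 0
  · rw [hv, smul_zero]
  · refine rep_eq (rep_mem hv) (smul_ne_zero ht hv) ?_
    rw [cr_smul_right, CRb_par, smul_zero]

theorem rep_measurable : Measurable rep := by
  have h : Measurable fun v : E3 => ‖v‖⁻¹ • v := measurable_norm.inv.smul measurable_id
  exact Measurable.ite (h HS_meas) h h.neg

theorem mem_ln_iff {x v : E3} (hx : x ∈ HS) : v ∈ ln x ↔ v = 0 ∨ rep v = x := by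
  constructor
  · intro h
    by_cases hv : v = 0
    · exact Or.inl hv
    · exact Or.inr (rep_eq hx hv h)
  · rintro (h | h)
    · rw [h]
      exact cr_zero_right x
    · rw [← h]
      exact CRb_par v

/-- `⟪p, rep v⟫ = 0` iff `⟪p, v⟫ = 0`. -/
theorem inner_rep_eq_zero {v p : E3} : ⟪p, rep v⟫ = 0 ↔ ⟪p, v⟫ = 0 := by
  by_cases hv : v = 0
  · rw [hv, rep_zero]
  · obtain ⟨t, htn, ht⟩ := rep_spec v
    have ht0 : t ≠ 0 := by
      intro h1
      rw [h1, abs_zero] at htn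
      exact hv (norm_eq_zero.1 htn.symm)
    have h1 : ⟪p, v⟫ = t * ⟪p, rep v⟫ := by
      calc ⟪p, v⟫ = ⟪p, t • rep v⟫ := by rw [← ht]
        _ = t * ⟪p, rep v⟫ := by rw [real_inner_smul_right]
    rw [h1, mul_eq_zero]
    exact ⟨Or.inr, fun h => h.resolve_left ht0⟩

theorem pl_meas (p : E3) : MeasurableSet (pl p) := by
  have h : Continuous fun x : E3 => (⟪p, x⟫ : ℝ) := continuous_const.inner continuous_id
  exact measurableSet_eq_fun h.measurable measurable_const

theorem ln_meas (p : E3) : MeasurableSet (ln p) := by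
  have h : Continuous fun x : E3 => cr p x := continuous_cr.comp (continuous_const.prodMk continuous_id)
  exact measurableSet_eq_fun h.measurable measurable_const

/-- two different points of `HS` lie on exactly one line of `HS`. -/
theorem join_unique {y z m : E3} (hm : m ∈ HS) (hyz : cr y z ≠ 0) (hy : ⟪m, y⟫ = 0) (hz : ⟪m, z⟫ = 0) :
    rep (cr y z) = m := by
  refine rep_eq hm hyz ?_
  rw [cr_of_perp (HS_norm hm) hy hz, cr_smul_right, cr_self, smul_zero]

end Pool.Agent.FAC3
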