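import Pool.Agent.FAC3.E1

/-! Module FAC3-CY1.  `μ_p = μ.restrict {p}ᶜ`, `τ = TT μ_p`.

`E1` and `4 μ{p} J ν p = 1`: the triple integral is `0` (`J ν p` is finite).  By Tonelli it is
`∫∫ J μ (cr p (cr x x')) dτ dτ`, so (`h.p1`) `cr p (cr x x') = 0` for `τ`-almost all `x`, for `τ`-almost all `x'`.
`J τ p = J ν p > 0` (`TD`), so such an `x =: q` can be chosen with `⟪p, q⟫ ≠ 0`; then `x'` is a multiple of `q`
for `τ`-almost all `x'`, i.e. `cr q (cr y y') = 0` for `μ_p`-almost all `y`, `y'`.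
If `⟪q, y⟫ ≠ 0` for a good `y`, almost all `y'` are equal to `y`, and `J τ p = 0`, a contradiction. -/

set_option autoImplicit false

namespace Pool.Agent.FAC3
open MeasureTheory Set Filter Topology
open scoped RealInnerProductSpace ENNReal

private theorem CY1_par {p q x : E3} (hq : ⟪q, p⟫ ≠ 0) (h : cr p (cr q x) = 0) : cr q x = 0 := by
  rw [cr_comm (cr q x) p, cr_cr, neg_eq_zero, sub_eq_zero] at h
  have h1 : x = (⟪x, p⟫ / ⟪q, p⟫) • q := by
    have h2 := congrArg (fun v => (⟪q, p⟫ : ℝ)⁻¹ • v) h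
    simp only [smul_smul] at h2
    rw [inv_mul_cancel₀ hq, one_smul] at h2
    rw [div_eq_inv_mul]
    exact h2
  rw [h1, cr_smul_right, cr_self, smul_zero]

private theorem CY1_meas (p x : E3) : Continuous (fun r : E3 × E3 => (cr r.1 p, cr x r.2)) :=
  (continuous_cr.comp (continuous_fst.prodMk continuous_const)).prodMk
    (continuous_cr.comp (continuous_const.prodMk continuous_snd))

private theorem CY1_c1 (q : E3) : Continuous (fun x : E3 => cr q x) :=
  continuous_cr.comp (continuous_const.prodMk continuous_id)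

private theorem CY1_c2 (p q : E3) : Continuous (fun x : E3 => cr p (cr q x)) :=
  (CY1_c1 p).comp (CY1_c1 q)

theorem CY1 {μ ν : Measure E3} (h : Sys μ ν) {p : E3} (hp : p ∈ HS) (h1 : 4 * μ {p} * J ν p = 1) :
    ∃ q, ⟪p, q⟫ ≠ 0 ∧ μ ({p} ∪ pl q)ᶜ = 0 := by
  have := h.f1
  have := h.f2
  have hI := E1 h p
  set μp := μ.restrict {p}ᶜ with hμp
  have : IsFiniteMeasure μp := by
    rw [hμp]
    infer_instance
  set τ := TT μp with hτ
  have : IsFiniteMeasure τ := TT_finite inferInstance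
  have hJ0 : J ν p ≠ 0 := h.p2 p (HS_ne hp)
  have hJt : J ν p ≠ ⊤ := J_ne_top (FM_of_HS h.f2 h.s2) p
  have hI0 : (∫⁻ z, ∫⁻ x, ∫⁻ x', en ⟪cr z p, cr x x'⟫ ∂τ ∂τ ∂μ) = 0 := by
    have h2 : 4 * μ {p} * (J ν p) ^ 2 = J ν p := by rw [sq, ← mul_assoc, h1, one_mul]
    rw [h2] at hI
    exact (ENNReal.add_right_inj hJt).1 (by rw [add_zero]; exact hI.symm)
  have hH : ∫⁻ x, ∫⁻ x', J μ (cr p (cr x x')) ∂τ ∂τ = 0 := by
    rw [← hI0]
    have e1 : ∀ z x, ∫⁻ x', en ⟪cr z p, cr x x'⟫ ∂τ = J τ (cr (cr z p) x) := by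
      intro z x
      unfold J
      refine lintegral_congr (fun x' => ?_)
      rw [inner_cr_assoc]
    have hm : Measurable (fun r : E3 × E3 => J τ (cr (cr r.1 p) r.2)) :=
      (measurable_J τ).comp (continuous_cr.comp
        ((continuous_cr.comp (continuous_fst.prodMk continuous_const)).prodMk
          continuous_snd)).measurable
    have e2 : (∫⁻ z, ∫⁻ x, ∫⁻ x', en ⟪cr z p, cr x x'⟫ ∂τ ∂τ ∂μ) =
        ∫⁻ x, ∫⁻ z, ∫⁻ x', en ⟪cr z p, cr x x'⟫ ∂τ ∂μ ∂τ := by
      refine lintegral_lintegral_swap ?_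
      have : Function.uncurry (fun z x => ∫⁻ x', en ⟪cr z p, cr x x'⟫ ∂τ) =
          (fun r : E3 × E3 => J τ (cr (cr r.1 p) r.2)) := by
        funext r
        exact e1 r.1 r.2
      rw [this]
      exact hm.aemeasurable
    rw [e2]
    refine lintegral_congr (fun x => ?_)
    have e3 : (∫⁻ z, ∫⁻ x', en ⟪cr z p, cr x x'⟫ ∂τ ∂μ) =
        ∫⁻ x', ∫⁻ z, en ⟪cr z p, cr x x'⟫ ∂μ ∂τ := by
      refine lintegral_lintegral_swap ?_
      exact (measurable_en_inner2.comp (CY1_meas p x).measurable).aemeasurable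
    rw [e3]
    refine lintegral_congr (fun x' => ?_)
    unfold J
    refine lintegral_congr (fun z => ?_)
    rw [← inner_cr_assoc z p (cr x x'), real_inner_comm]
  have hmJ : Measurable (fun r : E3 × E3 => J μ (cr p (cr r.1 r.2))) :=
    (measurable_J μ).comp (continuous_cr.comp (continuous_const.prodMk continuous_cr)).measurable
  have hae : ∀ᵐ x ∂τ, ∫⁻ x', J μ (cr p (cr x x')) ∂τ = 0 :=
    (lintegral_eq_zero_iff hmJ.lintegral_prod_right').1 hH
  have hJτ : J τ p ≠ 0 := by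
    have h2 := TD h.f1 p (measurable_en_inner p) (fun x => by rw [inner_neg_right, en_neg])
      (by rw [inner_zero_right, en_zero])
    simp only [inner_cr_left, en_zero, lintegral_zero, mul_zero, add_zero] at h2
    intro h0
    apply hJ0
    rw [h.h1 p]
    exact h2.trans h0
  obtain ⟨q, hq1, hq2⟩ : ∃ q, ⟪p, q⟫ ≠ 0 ∧ ∫⁻ x', J μ (cr p (cr q x')) ∂τ = 0 := by
    by_contra hcon
    apply hJτ
    unfold J
    rw [lintegral_eq_zero_iff (measurable_en_inner p)]
    filter_upwards [hae] with x hx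
    by_contra hne
    exact hcon ⟨x, fun h0 => hne (by rw [h0, en_zero]; rfl), hx⟩
  have hpar : ∀ᵐ x' ∂τ, cr q x' = 0 := by
    have hm2 : Measurable (fun x' : E3 => J μ (cr p (cr q x'))) :=
      (measurable_J μ).comp (CY1_c2 p q).measurable
    have h3 := (lintegral_eq_zero_iff hm2).1 hq2
    filter_upwards [h3] with x' hx'
    refine CY1_par (p := p) (by rw [real_inner_comm]; exact hq1) ?_
    by_contra hne
    exact h.p1 _ hne hx'
  have hmg : Measurable (fun x : E3 => ENNReal.ofReal ‖cr q x‖) :=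
    (CY1_c1 q).norm.measurable.ennreal_ofReal
  have hpair : ∀ᵐ y ∂μp, ∀ᵐ y' ∂μp, cr q (cr y y') = 0 := by
    have h0 : ∫⁻ x, ENNReal.ofReal ‖cr q x‖ ∂τ = 0 := by
      rw [lintegral_eq_zero_iff hmg]
      filter_upwards [hpar] with x hx
      rw [hx, norm_zero, ENNReal.ofReal_zero]
      rfl
    rw [hτ, lint_TT hmg] at h0
    have hm3 : Measurable (fun r : E3 × E3 => ENNReal.ofReal ‖cr q (cr r.1 r.2)‖) :=
      hmg.comp continuous_cr.measurable
    have h4 := (lintegral_eq_zero_iff hm3.lintegral_prod_right').1 h0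
    filter_upwards [h4] with y hy
    have hm4 : Measurable (fun y' : E3 => ENNReal.ofReal ‖cr q (cr y y')‖) :=
      (CY1_c2 q y).norm.measurable.ennreal_ofReal
    have h5 := (lintegral_eq_zero_iff hm4).1 hy
    filter_upwards [h5] with y' hy'
    exact norm_eq_zero.1 (le_antisymm (ENNReal.ofReal_eq_zero.1 hy') (norm_nonneg _))
  have hHS : ∀ᵐ y ∂μp, y ∈ HS := ae_restrict_of_ae (mem_ae_iff.2 h.s1)
  have hpl : ∀ᵐ y ∂μp, ⟪q, y⟫ = 0 := by
    by_contra hcon
    obtain ⟨y, hy0, hy1, hyH⟩ := ((Filter.not_eventually.1 hcon).and_eventually (hpair.and hHS)).exists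
    have hyy : ∀ᵐ y' ∂μp, y' = y := by
      filter_upwards [hy1, hHS] with y' h2 h3
      have h4 : cr y y' = 0 := by
        rw [cr_comm (cr y y') q, cr_cr, neg_eq_zero, sub_eq_zero] at h2
        have h5 : ⟪y, q⟫ • cr y y' = 0 := by
          rw [← cr_smul_right, h2, cr_smul_right, cr_self, smul_zero]
        rcases smul_eq_zero.1 h5 with h6 | h6
        · exact absurd (by rw [real_inner_comm]; exact h6) hy0
        · exact h6
      exact (HS_unique hyH h3 h4).symm
    apply hJτ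
    unfold J
    rw [hτ, lint_TT (measurable_en_inner p)]
    rw [lintegral_congr_ae (g := fun _ => 0) ?_, lintegral_zero]
    filter_upwards [hyy] with y1 hy1'
    rw [lintegral_congr_ae (g := fun _ => 0) ?_, lintegral_zero]
    filter_upwards [hyy] with y2 hy2'
    rw [hy1', hy2', cr_self, inner_zero_right, en_zero]
  refine ⟨q, hq1, ?_⟩
  have h6 : μp {y | ¬ ⟪q, y⟫ = 0} = 0 := ae_iff.1 hpl
  have hms : MeasurableSet {y : E3 | ¬ ⟪q, y⟫ = 0} := (pl_meas q).compl
  rw [hμp, Measure.restrict_apply hms] at h6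
  have h7 : ({p} ∪ pl q)ᶜ = {y : E3 | ¬ ⟪q, y⟫ = 0} ∩ {p}ᶜ := by
    ext y
    simp only [mem_compl_iff, mem_union, mem_singleton_iff, pl, mem_setOf_eq, mem_inter_iff]
    tauto
  rw [h7]
  exact h6

end Pool.Agent.FAC3
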