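import Pool.Agent.FAC3.TDa

/-! Module FAC3-CY2.

If `μ` (`CY2a`) or `ν` (`CY2b`) is concentrated on a point `p` and a plane `pl q` which does not contain it, then `J ν` is
the support function of a cylinder. -/

set_option autoImplicit false

namespace Pool.Agent.FAC3
open MeasureTheory Set Filter Topology
open scoped RealInnerProductSpace ENNReal

private theorem CY2_en {c : ℝ≥0∞} (hc : c ≠ ⊤) (t : ℝ) : en (c.toReal * t) = en t * c := by
  rw [en_mul, mul_comm]
  congr 1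
  unfold en
  rw [abs_of_nonneg ENNReal.toReal_nonneg, ENNReal.ofReal_toReal hc]

private theorem CY2_cr (p : E3) : Measurable (fun z : E3 => cr p z) :=
  (continuous_cr.comp (continuous_const.prodMk continuous_id)).measurable

private theorem CY2_FM {μ : Measure E3} (h : FM μ) (p : E3) :
    ∫⁻ z, ENNReal.ofReal ‖cr p z‖ ∂μ ≠ ⊤ := by
  have h1 : ∫⁻ z, ENNReal.ofReal ‖cr p z‖ ∂μ ≤ ∫⁻ z, ENNReal.ofReal ‖p‖ * ENNReal.ofReal ‖z‖ ∂μ := by
    refine lintegral_mono fun z => ?_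
    rw [← ENNReal.ofReal_mul (norm_nonneg p)]
    exact ENNReal.ofReal_le_ofReal (norm_cr_le p z)
  rw [lintegral_const_mul' _ _ ENNReal.ofReal_ne_top] at h1
  exact ne_top_of_le_ne_top (ENNReal.mul_ne_top ENNReal.ofReal_ne_top h) h1

theorem CY2a {μ ν : Measure E3} (h : Sys μ ν) {p q : E3} (hpq : ⟪p, q⟫ ≠ 0) (hc : μ ({p} ∪ pl q)ᶜ = 0) :
    CylForm (J ν) := by
  haveI := h.f1
  have hp0 : p ≠ 0 := by
    rintro rfl
    exact hpq (inner_zero_left _)
  have hq0 : q ≠ 0 := by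
    rintro rfl
    exact hpq (inner_zero_right _)
  have hae : ∀ᵐ y ∂(μ.restrict {p}ᶜ), ⟪q, y⟫ = 0 := by
    rw [ae_iff]
    have hm : MeasurableSet {y : E3 | ¬ ⟪q, y⟫ = 0} := (pl_meas q).compl
    rw [Measure.restrict_apply hm]
    refine measure_mono_null ?_ hc
    rintro y ⟨h1, h2⟩
    rintro (h3 | h3)
    · exact h2 h3
    · exact h1 h3
  have key : ∀ u, J (TT (μ.restrict {p}ᶜ)) u * en ⟪q, q⟫ =
      en ⟪u, q⟫ * J (TT (μ.restrict {p}ᶜ)) q := by
    intro u
    unfold J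
    rw [lint_TT (measurable_en_inner u), lint_TT (measurable_en_inner q),
      ← lintegral_mul_const' _ _ (en_ne_top _), ← lintegral_const_mul' _ _ (en_ne_top _)]
    refine lintegral_congr_ae ?_
    filter_upwards [hae] with y hy
    rw [← lintegral_mul_const' _ _ (en_ne_top _), ← lintegral_const_mul' _ _ (en_ne_top _)]
    refine lintegral_congr_ae ?_
    filter_upwards [hae] with z hz
    have h1 : cr q (cr y z) = 0 := by
      rw [cr_comm (cr y z) q, cr_cr, real_inner_comm q y, real_inner_comm q z, hy, hz]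
      simp
    obtain ⟨s, hs⟩ : ∃ s : ℝ, cr y z = s • q := ⟨_, cr_eq_zero hq0 h1⟩
    rw [hs, inner_smul_right, inner_smul_right, en_mul, en_mul]
    ring
  have hTD : ∀ u, J ν u = J (TT (μ.restrict {p}ᶜ)) u + 2 * μ {p} * ∫⁻ z, en ⟪u, cr p z⟫ ∂μ := by
    intro u
    rw [h.h1 u]
    exact TD h.f1 p (measurable_en_inner u) (fun x => by rw [inner_neg_right, en_neg])
      (by rw [inner_zero_right, en_zero])
  have hfin : J (TT (μ.restrict {p}ᶜ)) q ≠ ⊤ := by
    have h1 := J_ne_top (FM_of_HS h.f2 h.s2) q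
    rw [hTD q] at h1
    exact (ENNReal.add_ne_top.1 h1).1
  have hqq0 : en ⟪q, q⟫ ≠ 0 := by
    rw [Ne, en_eq_zero]
    exact inner_self_ne_zero.2 hq0
  obtain ⟨c, hcdef⟩ : ∃ c, c = J (TT (μ.restrict {p}ᶜ)) q / en ⟪q, q⟫ := ⟨_, rfl⟩
  have hc' : c ≠ ⊤ := by
    rw [hcdef]
    exact ENNReal.div_ne_top hfin hqq0
  have hJ : ∀ u, J (TT (μ.restrict {p}ᶜ)) u = en ⟪u, q⟫ * c := by
    intro u
    rw [hcdef, ← mul_div_assoc, ← key u]
    exact (ENNReal.mul_div_cancel_right hqq0 (en_ne_top _)).symm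
  have hJp : J ν p = J (TT (μ.restrict {p}ᶜ)) p := by
    rw [hTD p]
    have h1 : ∫⁻ z, en ⟪p, cr p z⟫ ∂μ = 0 := by
      have h2 : ∀ z : E3, en ⟪p, cr p z⟫ = 0 := fun z => by rw [inner_cr_left, en_zero]
      simp only [h2, lintegral_zero]
    rw [h1, mul_zero, add_zero]
  have hc0 : c ≠ 0 := by
    intro hc0
    apply h.p2 p hp0
    rw [hJp, hJ p, hc0, mul_zero]
  refine ⟨p, c.toReal • q, ?_, (2 * μ {p}) • μ.map (fun z => cr p z), ?_, fun u => ?_⟩
  · rw [inner_smul_right]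
    exact mul_ne_zero (ENNReal.toReal_ne_zero.2 ⟨hc0, hc'⟩) hpq
  · unfold FM
    rw [lintegral_smul_measure, lintegral_map (by fun_prop) (CY2_cr p), smul_eq_mul]
    exact ENNReal.mul_ne_top (ENNReal.mul_ne_top ENNReal.ofNat_ne_top (measure_ne_top μ _))
      (CY2_FM (FM_of_HS h.f1 h.s1) p)
  · rw [hTD u, hJ u, inner_smul_right, CY2_en hc', Measure.restrict_smul, lintegral_smul_measure,
      Measure.restrict_map (CY2_cr p) (pl_meas p)]
    have h1 : (fun z => cr p z) ⁻¹' pl p = univ := by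
      ext z
      simp only [mem_preimage, mem_univ, iff_true]
      exact inner_cr_left p z
    rw [h1, Measure.restrict_univ, lintegral_map (measurable_en_inner u) (CY2_cr p), smul_eq_mul]

theorem CY2b {μ ν : Measure E3} (h : Sys μ ν) {p q : E3} (hpq : ⟪p, q⟫ ≠ 0) (hc : ν ({p} ∪ pl q)ᶜ = 0) :
    CylForm (J ν) := by
  haveI := h.f2
  have hq0 : q ≠ 0 := by
    rintro rfl
    exact hpq (inner_zero_right _)
  have hset : ({p}ᶜ : Set E3) =ᵐ[ν] pl q := by
    have h1 : ∀ᵐ x ∂ν, x ∈ ({p} ∪ pl q : Set E3) := by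
      rw [ae_iff]
      exact hc
    filter_upwards [h1] with x hx
    refine propext ⟨fun h2 => ?_, fun h2 h3 => ?_⟩
    · rcases hx with h3 | h3
      · exact absurd h3 h2
      · exact h3
    · have h4 : x = p := h3
      have h5 : ⟪q, x⟫ = 0 := h2
      rw [h4, real_inner_comm] at h5
      exact hpq h5
  have hJ : ∀ u, J ν u = en ⟪u, p⟫ * ν {p} + ∫⁻ x in pl q, en ⟪u, x⟫ ∂ν := by
    intro u
    unfold J
    rw [← lintegral_add_compl _ (measurableSet_singleton p), lintegral_singleton,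
      setLIntegral_congr hset]
  have hν : ν {p} ≠ 0 := by
    intro h0
    apply h.p2 q hq0
    rw [hJ q, h0, mul_zero, zero_add, setLIntegral_congr_fun (g := fun _ => 0) (pl_meas q)]
    · simp
    · intro x hx
      have h1 : ⟪q, x⟫ = 0 := hx
      show en ⟪q, x⟫ = 0
      rw [h1, en_zero]
  refine ⟨q, (ν {p}).toReal • p, ?_, ν, FM_of_HS h.f2 h.s2, fun u => ?_⟩
  · rw [inner_smul_right, real_inner_comm]
    exact mul_ne_zero (ENNReal.toReal_ne_zero.2 ⟨hν, measure_ne_top ν _⟩) hpq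
  · rw [hJ u, inner_smul_right, CY2_en (measure_ne_top ν _)]

end Pool.Agent.FAC3
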