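import Pool.Agent.FAC3.SDa
import Pool.Agent.FAC3.Geo
import Pool.Agent.HP89.G0

/-! Module FAC3-CYK: a body whose support function has cylinder form is a cylinder.

`K` is the sum of `x1`, of the segment `[-κ q, κ q]` and of the projection `M` of `K - x1` to `p^⊥` along `q`: all three sets are
compact and convex and the support functions agree; `M = -M` because its support function is even. -/

set_option autoImplicit false

namespace Pool.Agent.FAC3
open MeasureTheory Set Filter Topology Metric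
open Pool.Agent.Helper82.Proj1 (supp)
open Pool.Agent.HP89 (CC IsPB)
open scoped RealInnerProductSpace ENNReal Pointwise

private theorem CYK_form {f : E3 → ℝ≥0∞} (hf : CylForm f) : ∃ (p q : E3) (g : E3 → ℝ), ⟪p, q⟫ ≠ 0 ∧
    (∀ u, (f u).toReal = |⟪u, q⟫| + g u) ∧ (∀ u, g (-u) = g u) ∧ (∀ u (c : ℝ), g (u - c • p) = g u) := by
  obtain ⟨p, q, hpq, lam, hlam, hf⟩ := hf
  have hpl : MeasurableSet (pl p) :=
    (isClosed_eq (continuous_const.inner continuous_id) continuous_const : IsClosed (pl p)).measurableSet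
  refine ⟨p, q, fun u => (∫⁻ x in pl p, en ⟪u, x⟫ ∂lam).toReal, hpq, fun u => ?_, fun u => ?_, fun u c => ?_⟩
  · have hfin : ∫⁻ x in pl p, en ⟪u, x⟫ ∂lam ≠ ⊤ :=
      ne_top_of_le_ne_top (J_ne_top hlam u) (lintegral_mono' Measure.restrict_le_self le_rfl)
    have h1 : en ⟪u, q⟫ ≠ ⊤ := ENNReal.ofReal_ne_top
    show (f u).toReal = |⟪u, q⟫| + (∫⁻ x in pl p, en ⟪u, x⟫ ∂lam).toReal
    rw [hf u, ENNReal.toReal_add h1 hfin]
    congr 1
    exact ENNReal.toReal_ofReal (abs_nonneg _)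
  · show (∫⁻ x in pl p, en ⟪-u, x⟫ ∂lam).toReal = (∫⁻ x in pl p, en ⟪u, x⟫ ∂lam).toReal
    have h1 : ∀ x : E3, en ⟪-u, x⟫ = en ⟪u, x⟫ := fun x => by
      unfold en
      rw [inner_neg_left, abs_neg]
    simp only [h1]
  · show (∫⁻ x in pl p, en ⟪u - c • p, x⟫ ∂lam).toReal = (∫⁻ x in pl p, en ⟪u, x⟫ ∂lam).toReal
    congr 1
    refine setLIntegral_congr_fun hpl fun x hx => ?_
    have hx' : ⟪p, x⟫ = 0 := hx
    show en ⟪u - c • p, x⟫ = en ⟪u, x⟫
    rw [inner_sub_left, real_inner_smul_left, hx', mul_zero, sub_zero]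

/-- the projection along `q` to `p^⊥`. -/
private noncomputable def CYK_pi (p q : E3) : E3 →ₗ[ℝ] E3 :=
  LinearMap.id - (LinearMap.toSpanSingleton ℝ E3 q).comp ((⟪p, q⟫⁻¹ • (innerSL ℝ p : E3 →L[ℝ] ℝ)) : E3 →L[ℝ] ℝ).toLinearMap

private theorem CYK_pi_apply (p q y : E3) : CYK_pi p q y = y - (⟪p, q⟫⁻¹ * ⟪p, y⟫) • q := rfl

private theorem CYK_inner {p q : E3} (y w : E3) :
    ⟪CYK_pi p q y, w⟫ = ⟪y, w - (⟪p, q⟫⁻¹ * ⟪q, w⟫) • p⟫ := by
  rw [CYK_pi_apply, inner_sub_left, inner_sub_right, real_inner_smul_left, real_inner_smul_right, real_inner_comm y p]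
  ring

theorem CYK {K : Set E3} (hK : CC K) {f : E3 → ℝ≥0∞} (hf : CylForm f) {κ : ℝ} (hκ : 0 < κ) {x1 : E3}
    (hs : ∀ u, supp K u = ⟪x1, u⟫ + κ * (f u).toReal) : IsCylinder K := by
  obtain ⟨p, q, g, hpq, hfg, hg1, hg2⟩ := CYK_form hf
  set M : Set E3 := CYK_pi p q '' ((fun z => -x1 + z) '' K) with hM
  have hMc : CC M := by
    refine ⟨?_, ?_, ?_⟩
    · refine (hK.compact.image (by fun_prop)).image ?_
      exact (CYK_pi p q).continuous_of_finiteDimensional
    · exact (hK.convex.translate (-x1)).linear_image _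
    · exact (hK.nonempty.image _).image _
  have hsM : ∀ w, supp M w = κ * g w := by
    intro w
    set w' : E3 := w - (⟪p, q⟫⁻¹ * ⟪q, w⟫) • p with hw'
    have h0 : ⟪w', q⟫ = 0 := by
      rw [hw', inner_sub_left, real_inner_smul_left, real_inner_comm q w]
      field_simp
      ring
    have h1 : supp K w' = ⟪x1, w'⟫ + κ * g w := by
      rw [hs w', hfg w', h0, abs_zero, zero_add, hw', hg2]
    have h2 : ∀ y ∈ K, ⟪CYK_pi p q (-x1 + y), w⟫ = ⟪y, w'⟫ - ⟪x1, w'⟫ := by
      intro y _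
      rw [CYK_inner, ← hw', inner_add_left, inner_neg_left]
      ring
    apply le_antisymm
    · apply Pool.Agent.Helper82.Proj1.supp_le hMc.nonempty
      rintro _ ⟨_, ⟨y, hy, rfl⟩, rfl⟩
      have h3 := Pool.Agent.Helper82.Proj1.le_supp hK.compact hy w'
      show ⟪CYK_pi p q (-x1 + y), w⟫ ≤ κ * g w
      rw [h2 y hy]
      linarith
    · have h3 : supp K w' ≤ supp M w + ⟪x1, w'⟫ := by
        apply Pool.Agent.Helper82.Proj1.supp_le hK.nonempty
        intro y hy
        have h4 := Pool.Agent.Helper82.Proj1.le_supp hMc.compact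
          (show CYK_pi p q (-x1 + y) ∈ M from ⟨-x1 + y, ⟨y, hy, rfl⟩, rfl⟩) w
        rw [h2 y hy] at h4
        linarith
      linarith
  have hneg : -M = M := by
    have hMn : CC (-M) := ⟨hMc.compact.neg, hMc.convex.neg, hMc.nonempty.neg⟩
    refine Pool.Agent.HP89.eq_of_supp hMn hMc fun u _ => ?_
    have h1 : supp (-M) u = supp M (-u) := by
      unfold Pool.Agent.Helper82.Proj1.supp
      congr 1
      ext r
      constructor
      · rintro ⟨x, hx, rfl⟩
        exact ⟨-x, hx, by simp⟩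
      · rintro ⟨x, hx, rfl⟩
        exact ⟨-x, by simpa using hx, by simp⟩
    rw [h1, hsM, hsM, hg1]
  have hx1 : CC ({x1} : Set E3) := ⟨isCompact_singleton, convex_singleton x1, ⟨x1, rfl⟩⟩
  have hsx : ∀ u, supp ({x1} : Set E3) u = ⟪x1, u⟫ := by
    intro u
    unfold Pool.Agent.Helper82.Proj1.supp
    rw [Set.image_singleton, csSup_singleton]
  have hKe : K = {x1} + M + Pool.Agent.HP89.seg (κ • q) := by
    refine Pool.Agent.HP89.eq_of_supp hK ((hx1.add hMc).add (Pool.Agent.HP89.cc_seg _)) fun u _ => ?_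
    rw [Pool.Agent.HP89.supp_add (hx1.add hMc) (Pool.Agent.HP89.cc_seg _), Pool.Agent.HP89.supp_add hx1 hMc,
      Pool.Agent.HP89.supp_seg, hsx, hsM, hs u, hfg u, real_inner_smul_left, abs_mul, abs_of_pos hκ,
      real_inner_comm u q]
    ring
  refine ⟨x1, p, κ • q, M, ?_, hMc.compact, hMc.convex, hMc.nonempty, ?_, ?_, ?_⟩
  · rw [real_inner_smul_right]
    exact mul_ne_zero hκ.ne' hpq
  · rintro _ ⟨_, ⟨y, _, rfl⟩, rfl⟩
    show ⟪p, CYK_pi p q (-x1 + y)⟫ = 0
    rw [CYK_pi_apply, inner_sub_right, real_inner_smul_right]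
    field_simp
    ring
  · intro y hy
    rw [← hneg]
    simpa using hy
  · rw [hKe]
    ext z
    constructor
    · rintro ⟨_, ⟨a, ha, y, hy, rfl⟩, s, ⟨b, c, hb, hc, hbc, rfl⟩, rfl⟩
      rw [Set.mem_singleton_iff] at ha
      subst ha
      refine ⟨y, hy, c - b, ?_, ?_⟩
      · rw [abs_le]
        constructor <;> linarith
      · show a + y + (b • -(κ • q) + c • κ • q) = a + y + (c - b) • κ • q
        rw [smul_neg, sub_smul]
        abel
    · rintro ⟨y, hy, t, ht, rfl⟩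
      rw [abs_le] at ht
      refine ⟨x1 + y, ⟨x1, rfl, y, hy, rfl⟩, t • κ • q, ⟨(1 - t) / 2, (1 + t) / 2, by linarith, by linarith, by ring, ?_⟩, rfl⟩
      rw [smul_neg, ← neg_smul, ← add_smul]
      congr 1
      ring

end Pool.Agent.FAC3
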