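import Pool.Agent.FAC3.CRb

/-! Module FAC3-DNa: rational vectors.

`C` is closed under nonzero multiples and under `(a,b,c,d) ↦ (a × b) × (c × d)` (if not zero). With `e₁, e₂, e₃` and
`e₁ + e₂ + e₃` in `C` the set of all `x` with `x e₁ + e₂ ∈ C` is an additive subgroup of `ℝ` which contains `1`; the same with
`e₁, e₂` exchanged; so it contains `ℚ`, and one more meet gives `r e₁ + e₂ + s e₃`. -/

set_option autoImplicit false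

namespace Pool.Agent.FAC3
open Set
open scoped RealInnerProductSpace

structure Closed4 (C : Set E3) : Prop where
  smul : ∀ v ∈ C, ∀ t : ℝ, t ≠ 0 → t • v ∈ C
  meet : ∀ a ∈ C, ∀ b ∈ C, ∀ c ∈ C, ∀ d ∈ C, cr (cr a b) (cr c d) ≠ 0 → cr (cr a b) (cr c d) ∈ C

private theorem det_exp (e₁ e₂ e₃ : E3) (a1 a2 a3 c1 c2 c3 d1 d2 d3 : ℝ) :
    ⟪a1 • e₁ + a2 • e₂ + a3 • e₃, cr (c1 • e₁ + c2 • e₂ + c3 • e₃) (d1 • e₁ + d2 • e₂ + d3 • e₃)⟫ =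
      ⟪e₁, cr e₂ e₃⟫ * (a1 * (c2 * d3 - c3 * d2) - a2 * (c1 * d3 - c3 * d1) + a3 * (c1 * d2 - c2 * d1)) := by
  simp only [inner_eq]
  simp [cr]
  ring

private theorem mk {C : Set E3} (hC : Closed4 C) {e₁ e₂ e₃ : E3} (hD : ⟪e₁, cr e₂ e₃⟫ ≠ 0)
    (a1 a2 a3 b1 b2 b3 c1 c2 c3 d1 d2 d3 t w1 w2 w3 : ℝ)
    (ha : a1 • e₁ + a2 • e₂ + a3 • e₃ ∈ C) (hb : b1 • e₁ + b2 • e₂ + b3 • e₃ ∈ C)
    (hc : c1 • e₁ + c2 • e₂ + c3 • e₃ ∈ C) (hd : d1 • e₁ + d2 • e₂ + d3 • e₃ ∈ C) (ht : t ≠ 0)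
    (hw : w1 ≠ 0 ∨ w2 ≠ 0 ∨ w3 ≠ 0)
    (h1 : t * w1 = (a1 * (c2 * d3 - c3 * d2) - a2 * (c1 * d3 - c3 * d1) + a3 * (c1 * d2 - c2 * d1)) * b1 -
      (b1 * (c2 * d3 - c3 * d2) - b2 * (c1 * d3 - c3 * d1) + b3 * (c1 * d2 - c2 * d1)) * a1)
    (h2 : t * w2 = (a1 * (c2 * d3 - c3 * d2) - a2 * (c1 * d3 - c3 * d1) + a3 * (c1 * d2 - c2 * d1)) * b2 -
      (b1 * (c2 * d3 - c3 * d2) - b2 * (c1 * d3 - c3 * d1) + b3 * (c1 * d2 - c2 * d1)) * a2)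
    (h3 : t * w3 = (a1 * (c2 * d3 - c3 * d2) - a2 * (c1 * d3 - c3 * d1) + a3 * (c1 * d2 - c2 * d1)) * b3 -
      (b1 * (c2 * d3 - c3 * d2) - b2 * (c1 * d3 - c3 * d1) + b3 * (c1 * d2 - c2 * d1)) * a3) :
    w1 • e₁ + w2 • e₂ + w3 • e₃ ∈ C := by
  set D : ℝ := ⟪e₁, cr e₂ e₃⟫ with hDd
  have key : cr (cr (a1 • e₁ + a2 • e₂ + a3 • e₃) (b1 • e₁ + b2 • e₂ + b3 • e₃))
      (cr (c1 • e₁ + c2 • e₂ + c3 • e₃) (d1 • e₁ + d2 • e₂ + d3 • e₃)) =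
      (D * t) • (w1 • e₁ + w2 • e₂ + w3 • e₃) := by
    rw [cr_cr, det_exp, det_exp, ← hDd]
    have e1 : (D * t) • (w1 • e₁ + w2 • e₂ + w3 • e₃) =
        (D * (t * w1)) • e₁ + (D * (t * w2)) • e₂ + (D * (t * w3)) • e₃ := by
      module
    rw [e1, h1, h2, h3]
    module
  have hne : (D * t) • (w1 • e₁ + w2 • e₂ + w3 • e₃) ≠ 0 := by
    refine smul_ne_zero (mul_ne_zero hD ht) fun h0 => ?_
    have g1 := det_exp e₁ e₂ e₃ w1 w2 w3 0 1 0 0 0 1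
    have g2 := det_exp e₁ e₂ e₃ w1 w2 w3 0 0 1 1 0 0
    have g3 := det_exp e₁ e₂ e₃ w1 w2 w3 1 0 0 0 1 0
    rw [h0, inner_zero_left, ← hDd] at g1 g2 g3
    have k1 : w1 = 0 := by
      have : D * w1 = 0 := by linarith
      exact (mul_eq_zero.1 this).resolve_left hD
    have k2 : w2 = 0 := by
      have : D * w2 = 0 := by linarith
      exact (mul_eq_zero.1 this).resolve_left hD
    have k3 : w3 = 0 := by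
      have : D * w3 = 0 := by linarith
      exact (mul_eq_zero.1 this).resolve_left hD
    rcases hw with h | h | h
    · exact h k1
    · exact h k2
    · exact h k3
  have hm := hC.meet _ ha _ hb _ hc _ hd (by rw [key]; exact hne)
  rw [key] at hm
  have hs := hC.smul _ hm (D * t)⁻¹ (inv_ne_zero (mul_ne_zero hD ht))
  rwa [smul_smul, inv_mul_cancel₀ (mul_ne_zero hD ht), one_smul] at hs

private theorem sub {C : Set E3} (hC : Closed4 C) {e₁ e₂ e₃ : E3} (hD : ⟪e₁, cr e₂ e₃⟫ ≠ 0)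
    (h1 : e₁ ∈ C) (h2 : e₂ ∈ C) (h3 : e₃ ∈ C) (hS : e₁ + e₂ + e₃ ∈ C) :
    ∃ R : AddSubgroup ℝ, (1 : ℝ) ∈ R ∧ ∀ x, x ∈ R ↔ x • e₁ + (1 : ℝ) • e₂ + (0 : ℝ) • e₃ ∈ C := by
  have E1 : (1 : ℝ) • e₁ + (0 : ℝ) • e₂ + (0 : ℝ) • e₃ ∈ C := by simpa using h1
  have E2 : (0 : ℝ) • e₁ + (1 : ℝ) • e₂ + (0 : ℝ) • e₃ ∈ C := by simpa using h2
  have E3' : (0 : ℝ) • e₁ + (0 : ℝ) • e₂ + (1 : ℝ) • e₃ ∈ C := by simpa using h3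
  have S : (1 : ℝ) • e₁ + (1 : ℝ) • e₂ + (1 : ℝ) • e₃ ∈ C := by simpa using hS
  have P12 : (1 : ℝ) • e₁ + (1 : ℝ) • e₂ + (0 : ℝ) • e₃ ∈ C :=
    mk hC hD 1 0 0 0 1 0 0 0 1 1 1 1 (-1) 1 1 0 E1 E2 E3' S (by norm_num) (by norm_num) (by norm_num)
      (by norm_num) (by norm_num)
  have P23 : (0 : ℝ) • e₁ + (1 : ℝ) • e₂ + (1 : ℝ) • e₃ ∈ C :=
    mk hC hD 0 1 0 0 0 1 1 0 0 1 1 1 (-1) 0 1 1 E2 E3' E1 S (by norm_num) (by norm_num) (by norm_num)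
      (by norm_num) (by norm_num)
  have Q : ∀ x : ℝ, x • e₁ + (1 : ℝ) • e₂ + (0 : ℝ) • e₃ ∈ C → x • e₁ + (1 : ℝ) • e₂ + (1 : ℝ) • e₃ ∈ C :=
    fun x hx => mk hC hD 0 0 1 x 1 0 1 0 0 0 1 1 1 x 1 1 E3' hx E1 P23 one_ne_zero (by norm_num) (by ring)
      (by ring) (by ring)
  have Q' : ∀ x : ℝ, x • e₁ + (1 : ℝ) • e₂ + (0 : ℝ) • e₃ ∈ C → x • e₁ + (0 : ℝ) • e₂ + (-1 : ℝ) • e₃ ∈ C :=
    fun x hx => mk hC hD x 1 0 0 1 1 1 0 0 0 0 1 1 x 0 (-1) hx P23 E1 E3' one_ne_zero (by norm_num) (by ring)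
      (by ring) (by ring)
  have hadd : ∀ x y : ℝ, x • e₁ + (1 : ℝ) • e₂ + (0 : ℝ) • e₃ ∈ C → y • e₁ + (1 : ℝ) • e₂ + (0 : ℝ) • e₃ ∈ C →
      (x + y) • e₁ + (1 : ℝ) • e₂ + (0 : ℝ) • e₃ ∈ C :=
    fun x y hx hy => mk hC hD x 1 1 y 0 (-1) 1 0 0 0 1 0 1 (x + y) 1 0 (Q x hx) (Q' y hy) E1 E2 one_ne_zero
      (by norm_num) (by ring) (by ring) (by ring)
  have hneg : ∀ x : ℝ, x • e₁ + (1 : ℝ) • e₂ + (0 : ℝ) • e₃ ∈ C →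
      (-x) • e₁ + (1 : ℝ) • e₂ + (0 : ℝ) • e₃ ∈ C := by
    intro x hx
    have k : (-x) • e₁ + (1 : ℝ) • e₂ + (1 : ℝ) • e₃ ∈ C :=
      mk hC hD x 0 (-1) 0 1 0 1 0 0 0 1 1 (-1) (-x) 1 1 (Q' x hx) E2 E1 P23 (by norm_num) (by norm_num) (by ring)
        (by ring) (by ring)
    exact mk hC hD (-x) 1 1 0 0 1 1 0 0 0 1 0 (-1) (-x) 1 0 k E3' E1 E2 (by norm_num) (by norm_num) (by ring)
      (by ring) (by ring)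
  refine ⟨{ carrier := {x | x • e₁ + (1 : ℝ) • e₂ + (0 : ℝ) • e₃ ∈ C}
            add_mem' := fun {x y} hx hy => hadd x y hx hy
            zero_mem' := E2
            neg_mem' := fun {x} hx => hneg x hx }, P12, fun x => Iff.rfl⟩

theorem DNa {C : Set E3} (hC : Closed4 C) {a b c d : E3} (ha : a ∈ C) (hb : b ∈ C) (hc : c ∈ C) (hd : d ∈ C)
    (hg : Gen4 a b c d) : ∃ e₁ e₂ e₃ : E3, ⟪e₁, cr e₂ e₃⟫ ≠ 0 ∧
      ∀ r s : ℚ, s ≠ 0 → (r : ℝ) • e₁ + e₂ + (s : ℝ) • e₃ ∈ C := by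
  obtain ⟨g1, g2, g3, g4⟩ := hg
  -- normalisation
  obtain ⟨α, β, γ, hα, hβ, hγ, hd'⟩ : ∃ α β γ : ℝ, α ≠ 0 ∧ β ≠ 0 ∧ γ ≠ 0 ∧ d = α • a + β • b + γ • c := by
    refine ⟨⟪b, cr c d⟫ / ⟪a, cr b c⟫, -⟪a, cr c d⟫ / ⟪a, cr b c⟫, ⟪a, cr b d⟫ / ⟪a, cr b c⟫,
      div_ne_zero g4 g1, div_ne_zero (neg_ne_zero.2 g3) g1, div_ne_zero g2 g1, ?_⟩
    have h : ⟪a, cr b c⟫ • d = ⟪b, cr c d⟫ • a + (-⟪a, cr c d⟫) • b + ⟪a, cr b d⟫ • c := by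
      ext i
      fin_cases i <;> simp [inner_eq, cr] <;> ring
    have h' : d = (⟪a, cr b c⟫)⁻¹ • (⟪b, cr c d⟫ • a + (-⟪a, cr c d⟫) • b + ⟪a, cr b d⟫ • c) := by
      rw [← h, smul_smul, inv_mul_cancel₀ g1, one_smul]
    calc d = (⟪a, cr b c⟫)⁻¹ • (⟪b, cr c d⟫ • a + (-⟪a, cr c d⟫) • b + ⟪a, cr b d⟫ • c) := h'
      _ = _ := by
        simp only [div_eq_inv_mul, smul_add, smul_smul]
  set e₁ : E3 := α • a with he1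
  set e₂ : E3 := β • b with he2
  set e₃ : E3 := γ • c with he3
  have hD : ⟪e₁, cr e₂ e₃⟫ ≠ 0 := by
    have : ⟪e₁, cr e₂ e₃⟫ = α * (β * (γ * ⟪a, cr b c⟫)) := by
      rw [he1, he2, he3, cr_smul_left, cr_smul_right, real_inner_smul_left, real_inner_smul_right,
        real_inner_smul_right]
    rw [this]
    exact mul_ne_zero hα (mul_ne_zero hβ (mul_ne_zero hγ g1))
  have h1 : e₁ ∈ C := hC.smul _ ha _ hα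
  have h2 : e₂ ∈ C := hC.smul _ hb _ hβ
  have h3 : e₃ ∈ C := hC.smul _ hc _ hγ
  have hS : e₁ + e₂ + e₃ ∈ C := hd' ▸ hd
  obtain ⟨R, hR1, hR⟩ := sub hC hD h1 h2 h3 hS
  have hD' : ⟪e₂, cr e₁ e₃⟫ ≠ 0 := by
    have : ⟪e₂, cr e₁ e₃⟫ = -⟪e₁, cr e₂ e₃⟫ := by
      simp only [inner_eq]
      simp [cr]
      ring
    rw [this]
    exact neg_ne_zero.2 hD
  obtain ⟨R', hR1', hR'⟩ := sub hC hD' h2 h1 h3 (by rw [add_comm e₂ e₁]; exact hS)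
  have E1 : (1 : ℝ) • e₁ + (0 : ℝ) • e₂ + (0 : ℝ) • e₃ ∈ C := by simpa using h1
  have E2 : (0 : ℝ) • e₁ + (1 : ℝ) • e₂ + (0 : ℝ) • e₃ ∈ C := by simpa using h2
  have E3' : (0 : ℝ) • e₁ + (0 : ℝ) • e₂ + (1 : ℝ) • e₃ ∈ C := by simpa using h3
  have S : (1 : ℝ) • e₁ + (1 : ℝ) • e₂ + (1 : ℝ) • e₃ ∈ C := by simpa using hS
  have P13 : (1 : ℝ) • e₁ + (0 : ℝ) • e₂ + (1 : ℝ) • e₃ ∈ C :=
    mk hC hD 1 0 0 0 0 1 0 1 0 1 1 1 1 1 0 1 E1 E3' E2 S (by norm_num) (by norm_num) (by norm_num)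
      (by norm_num) (by norm_num)
  have hinv : ∀ n : ℤ, n ≠ 0 → ((n : ℝ)⁻¹) ∈ R := by
    intro n hn
    have hn' : (n : ℝ) ≠ 0 := Int.cast_ne_zero.2 hn
    have k1 : (n : ℝ) ∈ R' := by
      have := R'.zsmul_mem hR1' n
      simpa using this
    have k2 := hC.smul _ ((hR' _).1 k1) (n : ℝ)⁻¹ (inv_ne_zero hn')
    refine (hR _).2 ?_
    have k3 : ((n : ℝ)⁻¹) • ((n : ℝ) • e₂ + (1 : ℝ) • e₁ + (0 : ℝ) • e₃) =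
        ((n : ℝ)⁻¹) • e₁ + (1 : ℝ) • e₂ + (0 : ℝ) • e₃ := by
      rw [smul_add, smul_add, smul_smul, inv_mul_cancel₀ hn', one_smul, one_smul, zero_smul, smul_zero]
      abel
    rw [← k3]
    exact k2
  have hQ : ∀ q : ℚ, (q : ℝ) ∈ R := by
    intro q
    have k := R.zsmul_mem (hinv q.den (by exact_mod_cast q.den_nz)) q.num
    have e : q.num • (((q.den : ℤ) : ℝ)⁻¹) = (q : ℝ) := by
      rw [zsmul_eq_mul]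
      conv_rhs => rw [← Rat.num_div_den q]
      push_cast
      rw [div_eq_mul_inv]
    rwa [e] at k
  refine ⟨e₁, e₂, e₃, hD, fun r s hs => ?_⟩
  have hs' : (s : ℝ) ≠ 0 := by exact_mod_cast hs
  have a1 : (r : ℝ) • e₁ + (1 : ℝ) • e₂ + (0 : ℝ) • e₃ ∈ C := (hR _).1 (hQ r)
  have a2 : ((r : ℝ) - (s : ℝ)) • e₁ + (1 : ℝ) • e₂ + (0 : ℝ) • e₃ ∈ C := by
    have := (hR _).1 (hQ (r - s))
    push_cast at this
    exact this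
  have k := mk hC hD 0 0 1 r 1 0 1 0 1 (r - s) 1 0 1 r 1 s E3' a1 P13 a2 (by norm_num) (by norm_num) (by ring)
    (by ring) (by ring)
  simpa using k

end Pool.Agent.FAC3
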