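import Pool.Agent.FAC3.DNa

/-! Module FAC3-DNb: density.

A set which is closed under nonzero multiples and contains all `r e₁ + e₂ + s e₃` with rational `r` and rational
`s ≠ 0` is dense, if `e₁, e₂, e₃` is a basis: it contains the image of a dense subset of `ℝ³` under the continuous
map `(r, y, s) ↦ y • (r e₁ + e₂ + s e₃)`, whose range is dense. -/

set_option autoImplicit false

namespace Pool.Agent.FAC3
open Set
open scoped RealInnerProductSpace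

theorem DNb {C : Set E3} (hC : Closed4 C) {e₁ e₂ e₃ : E3} (he : ⟪e₁, cr e₂ e₃⟫ ≠ 0)
    (h : ∀ r s : ℚ, s ≠ 0 → (r : ℝ) • e₁ + e₂ + (s : ℝ) • e₃ ∈ C) : Dense C := by
  have hrep : ∀ w : E3, ∃ x y z : ℝ, w = x • e₁ + y • e₂ + z • e₃ := by
    intro w
    refine ⟨⟪e₂, cr e₃ w⟫ / ⟪e₁, cr e₂ e₃⟫, -⟪e₁, cr e₃ w⟫ / ⟪e₁, cr e₂ e₃⟫, ⟪e₁, cr e₂ w⟫ / ⟪e₁, cr e₂ e₃⟫, ?_⟩
    have h : ⟪e₁, cr e₂ e₃⟫ • w = ⟪e₂, cr e₃ w⟫ • e₁ + (-⟪e₁, cr e₃ w⟫) • e₂ + ⟪e₁, cr e₂ w⟫ • e₃ := by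
      ext i
      fin_cases i <;> simp [inner_eq, cr] <;> ring
    calc w = (⟪e₁, cr e₂ e₃⟫)⁻¹ • (⟪e₂, cr e₃ w⟫ • e₁ + (-⟪e₁, cr e₃ w⟫) • e₂ + ⟪e₁, cr e₂ w⟫ • e₃) := by
          rw [← h, smul_smul, inv_mul_cancel₀ he, one_smul]
      _ = _ := by
        simp only [div_eq_inv_mul, smul_add, smul_smul]
  set F : ℝ × ℝ × ℝ → E3 := fun q => q.2.1 • (q.1 • e₁ + e₂ + q.2.2 • e₃) with hF
  have hFc : Continuous F := by
    rw [hF]
    fun_prop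
  have hFr : DenseRange F := by
    intro w
    obtain ⟨x, y, z, rfl⟩ := hrep w
    have hy : y ∈ closure ({0}ᶜ : Set ℝ) := (dense_compl_singleton (0 : ℝ)) y
    have hg : Continuous fun t : ℝ => x • e₁ + t • e₂ + z • e₃ := by fun_prop
    have key : MapsTo (fun t : ℝ => x • e₁ + t • e₂ + z • e₃) ({0}ᶜ : Set ℝ) (range F) := by
      intro t ht
      have ht' : t ≠ 0 := ht
      refine ⟨(x / t, t, z / t), ?_⟩
      simp only [hF, smul_add, smul_smul]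
      rw [mul_div_cancel₀ _ ht', mul_div_cancel₀ _ ht']
    exact map_mem_closure (f := fun t : ℝ => x • e₁ + t • e₂ + z • e₃) hg hy key
  have hQ : Dense (range ((↑) : ℚ → ℝ)) := Rat.denseRange_cast
  have hQ0 : Dense (range ((↑) : ℚ → ℝ) \ {0}) := hQ.sdiff_singleton 0
  have hY : Dense ({0}ᶜ : Set ℝ) := dense_compl_singleton (0 : ℝ)
  have hP : Dense (range ((↑) : ℚ → ℝ) ×ˢ (({0}ᶜ : Set ℝ) ×ˢ (range ((↑) : ℚ → ℝ) \ {0}))) :=
    hQ.prod (hY.prod hQ0)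
  refine (hFr.dense_image hFc hP).mono ?_
  rintro _ ⟨⟨a, t, b⟩, ⟨⟨r, hr⟩, ht, ⟨s, hs⟩, hb⟩, rfl⟩
  have hr' : (r : ℝ) = a := hr
  have hs' : (s : ℝ) = b := hs
  have hb' : b ≠ 0 := hb
  have ht' : t ≠ 0 := ht
  have hs0 : s ≠ 0 := by
    rintro rfl
    exact hb' (by rw [← hs']; simp)
  have := hC.smul _ (h r s hs0) t ht'
  rw [hr', hs'] at this
  exact this

end Pool.Agent.FAC3
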