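import Pool.Agent.FAC3.FLG

/-! Module FAC3-DS: the double sum.

Sum `FLG h` over `l ∈ At ν` and `FLG h.symm` over `p ∈ At μ`, exchange the sums over the flags, and use
`F1 μ ν p l * F1 ν μ l p = (F0 μ ν p l)²` (arithmetic and geometric mean). -/

set_option autoImplicit false

namespace Pool.Agent.FAC3
open MeasureTheory Set Filter Topology
open scoped RealInnerProductSpace ENNReal

private theorem ds_intJ {μ ν : Measure E3} (hμ : FM μ) (hν : FM ν) : ∫⁻ x, J ν x ∂μ ≠ ⊤ := by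
  have h1 : ∀ x : E3, J ν x ≤ ENNReal.ofReal ‖x‖ * ∫⁻ z, ENNReal.ofReal ‖z‖ ∂ν := by
    intro x
    unfold J
    have h2 : Measurable fun z : E3 => ENNReal.ofReal ‖z‖ := by fun_prop
    rw [← lintegral_const_mul _ h2]
    exact lintegral_mono fun z => en_inner_le x z
  have h2 : Measurable fun z : E3 => ENNReal.ofReal ‖z‖ := by fun_prop
  have h3 : ∫⁻ x, J ν x ∂μ ≤ (∫⁻ x, ENNReal.ofReal ‖x‖ ∂μ) * ∫⁻ z, ENNReal.ofReal ‖z‖ ∂ν := by
    rw [← lintegral_mul_const _ h2]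
    exact lintegral_mono h1
  exact ne_top_of_le_ne_top (ENNReal.mul_ne_top hμ hν) h3

private theorem ds_sum_le {μ : Measure E3} (hμ : IsFiniteMeasure μ) {S : Set E3} (hS : S ⊆ At μ) (f : E3 → ℝ≥0∞) :
    ∑' p : S, μ {(p : E3)} * f p ≤ ∫⁻ x, f x ∂μ := by
  have h1 : S.Countable := (At_countable hμ).mono hS
  have h2 := lintegral_countable (μ := μ) f h1
  have h3 : ∑' p : S, μ {(p : E3)} * f p = ∑' p : S, f p * μ {(p : E3)} :=
    tsum_congr fun p => mul_comm _ _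
  rw [h3, ← h2]
  exact setLIntegral_le_lintegral _ _

theorem F0_sum_ne_top {μ ν : Measure E3} (h : Sys μ ν) :
    ∑' l : At ν, ∑' p : ↥(At μ ∩ pl l), F0 μ ν p l ≠ ⊤ := by
  have hμ := FM_of_HS h.f1 h.s1
  have hν := FM_of_HS h.f2 h.s2
  have h1 : ∀ l : At ν, ∑' p : ↥(At μ ∩ pl l), F0 μ ν p l ≤ (ν {(l : E3)} * J μ l) * ∫⁻ x, J ν x ∂μ := by
    intro l
    have h2 : ∀ p : ↥(At μ ∩ pl (l : E3)), F0 μ ν p l = (ν {(l : E3)} * J μ l) * (μ {(p : E3)} * J ν p) := by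
      intro p
      unfold F0
      ring
    rw [tsum_congr h2, ENNReal.tsum_mul_left]
    exact mul_le_mul_right (ds_sum_le h.f1 (S := At μ ∩ pl (l : E3)) inter_subset_left (J ν)) _
  have h2 : ∑' l : At ν, ∑' p : ↥(At μ ∩ pl l), F0 μ ν p l ≤ (∫⁻ x, J μ x ∂ν) * ∫⁻ x, J ν x ∂μ := by
    refine (ENNReal.tsum_le_tsum h1).trans ?_
    rw [ENNReal.tsum_mul_right]
    exact mul_le_mul_left (ds_sum_le h.f2 (S := At ν) Subset.rfl (J μ)) _
  exact ne_top_of_le_ne_top (ENNReal.mul_ne_top (ds_intJ hν hμ) (ds_intJ hμ hν)) h2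

/-- exchange of the sums over flags. -/
theorem flag_swap {μ ν : Measure E3} (G : E3 → E3 → ℝ≥0∞) :
    ∑' l : At ν, ∑' p : ↥(At μ ∩ pl l), G p l = ∑' p : At μ, ∑' l : ↥(At ν ∩ pl p), G p l := by
  have h1 : ∑' l : At ν, ∑' p : ↥(At μ ∩ pl l), G p l =
      ∑' l : E3, (At ν).indicator (fun l => ∑' p : E3, (At μ ∩ pl l).indicator (fun p => G p l) p) l := by
    rw [← tsum_subtype (At ν) (fun l => ∑' p : E3, (At μ ∩ pl l).indicator (fun p => G p l) p)]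
    refine tsum_congr fun l => ?_
    exact tsum_subtype (At μ ∩ pl (l : E3)) (fun p => G p l)
  have h2 : ∑' p : At μ, ∑' l : ↥(At ν ∩ pl p), G p l =
      ∑' p : E3, (At μ).indicator (fun p => ∑' l : E3, (At ν ∩ pl p).indicator (fun l => G p l) l) p := by
    rw [← tsum_subtype (At μ) (fun p => ∑' l : E3, (At ν ∩ pl p).indicator (fun l => G p l) l)]
    refine tsum_congr fun p => ?_
    exact tsum_subtype (At ν ∩ pl (p : E3)) (fun l => G p l)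
  have h3 : ∀ l : E3, (At ν).indicator (fun l => ∑' p : E3, (At μ ∩ pl l).indicator (fun p => G p l) p) l =
      ∑' p : E3, (At ν).indicator (fun l => (At μ ∩ pl l).indicator (fun p => G p l) p) l := by
    intro l
    by_cases hl : l ∈ At ν
    · rw [indicator_of_mem hl]
      exact tsum_congr fun p => by rw [indicator_of_mem hl]
    · rw [indicator_of_notMem hl]
      symm
      rw [ENNReal.tsum_eq_zero]
      intro p
      rw [indicator_of_notMem hl]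
  have h4 : ∀ p : E3, (At μ).indicator (fun p => ∑' l : E3, (At ν ∩ pl p).indicator (fun l => G p l) l) p =
      ∑' l : E3, (At μ).indicator (fun p => (At ν ∩ pl p).indicator (fun l => G p l) l) p := by
    intro p
    by_cases hp : p ∈ At μ
    · rw [indicator_of_mem hp]
      exact tsum_congr fun l => by rw [indicator_of_mem hp]
    · rw [indicator_of_notMem hp]
      symm
      rw [ENNReal.tsum_eq_zero]
      intro l
      rw [indicator_of_notMem hp]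
  rw [h1, h2, tsum_congr h3, tsum_congr h4, ENNReal.tsum_comm]
  refine tsum_congr fun p => tsum_congr fun l => ?_
  have h5 : l ∈ pl p ↔ p ∈ pl l := by
    unfold pl
    simp only [mem_ofPred_eq]
    rw [real_inner_comm]
  by_cases hl : l ∈ At ν <;> by_cases hp : p ∈ At μ <;> by_cases hpl : p ∈ pl l <;>
    simp [indicator, hl, hp, hpl, h5]

private theorem ds_lift {t : ℝ≥0∞} (h0 : t ≠ 0) (h1 : t ≠ ⊤) : ∃ r : ℝ, 0 < r ∧ t = ENNReal.ofReal r :=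
  ⟨t.toReal, ENNReal.toReal_pos h0 h1, (ENNReal.ofReal_toReal h1).symm⟩

private theorem ds_real {a b x y q r : ℝ} (hq : 0 < q) (hr : 0 < r) :
    2 * (b * a * (x * y)) ≤ a ^ 2 * (x ^ 2 / q) * r + b ^ 2 * (y ^ 2 / r) * q ∧
    (2 * (b * a * (x * y)) = a ^ 2 * (x ^ 2 / q) * r + b ^ 2 * (y ^ 2 / r) * q → a * x * r = b * y * q) := by
  have h1 : a ^ 2 * (x ^ 2 / q) * r + b ^ 2 * (y ^ 2 / r) * q - 2 * (b * a * (x * y)) =
      (a * x * r - b * y * q) ^ 2 / (q * r) := by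
    field_simp
    ring
  have h2 : 0 ≤ (a * x * r - b * y * q) ^ 2 / (q * r) := by positivity
  refine ⟨by linarith, fun h3 => ?_⟩
  have h4 : (a * x * r - b * y * q) ^ 2 / (q * r) = 0 := by linarith
  rw [div_eq_zero_iff] at h4
  rcases h4 with h4 | h4
  · have h5 := pow_eq_zero_iff (two_ne_zero) |>.1 h4
    linarith
  · exact absurd h4 (mul_pos hq hr).ne'

private theorem ds_enn {a b x y q r : ℝ≥0∞} (ha : a ≠ 0) (ha' : a ≠ ⊤) (hb : b ≠ 0) (hb' : b ≠ ⊤)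
    (hx : x ≠ 0) (hx' : x ≠ ⊤) (hy : y ≠ 0) (hy' : y ≠ ⊤) (hq : q ≠ 0) (hq' : q ≠ ⊤) (hr : r ≠ 0) (hr' : r ≠ ⊤) :
    2 * (b * a * (x * y)) ≤ a ^ 2 * (x ^ 2 / q) * r + b ^ 2 * (y ^ 2 / r) * q ∧ b * a * (x * y) ≠ ⊤ ∧
      a ^ 2 * (x ^ 2 / q) * r ≠ ⊤ ∧ b ^ 2 * (y ^ 2 / r) * q ≠ ⊤ ∧
      (2 * (b * a * (x * y)) = a ^ 2 * (x ^ 2 / q) * r + b ^ 2 * (y ^ 2 / r) * q → a * x * r = b * y * q) := by
  obtain ⟨a, ka, rfl⟩ := ds_lift ha ha'
  obtain ⟨b, kb, rfl⟩ := ds_lift hb hb'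
  obtain ⟨x, kx, rfl⟩ := ds_lift hx hx'
  obtain ⟨y, ky, rfl⟩ := ds_lift hy hy'
  obtain ⟨q, kq, rfl⟩ := ds_lift hq hq'
  obtain ⟨r, kr, rfl⟩ := ds_lift hr hr'
  obtain ⟨h1, h2⟩ := ds_real (a := a) (b := b) (x := x) (y := y) kq kr
  have e0 : ENNReal.ofReal b * ENNReal.ofReal a * (ENNReal.ofReal x * ENNReal.ofReal y) =
      ENNReal.ofReal (b * a * (x * y)) := by
    rw [ENNReal.ofReal_mul (by positivity), ENNReal.ofReal_mul kb.le, ENNReal.ofReal_mul kx.le]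
  have e1 : ENNReal.ofReal a ^ 2 * (ENNReal.ofReal x ^ 2 / ENNReal.ofReal q) * ENNReal.ofReal r =
      ENNReal.ofReal (a ^ 2 * (x ^ 2 / q) * r) := by
    rw [ENNReal.ofReal_mul (by positivity), ENNReal.ofReal_mul (by positivity), ENNReal.ofReal_div_of_pos kq,
      ENNReal.ofReal_pow ka.le, ENNReal.ofReal_pow kx.le]
  have e2 : ENNReal.ofReal b ^ 2 * (ENNReal.ofReal y ^ 2 / ENNReal.ofReal r) * ENNReal.ofReal q =
      ENNReal.ofReal (b ^ 2 * (y ^ 2 / r) * q) := by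
    rw [ENNReal.ofReal_mul (by positivity), ENNReal.ofReal_mul (by positivity), ENNReal.ofReal_div_of_pos kr,
      ENNReal.ofReal_pow kb.le, ENNReal.ofReal_pow ky.le]
  have e3 : (2 : ℝ≥0∞) * ENNReal.ofReal (b * a * (x * y)) = ENNReal.ofReal (2 * (b * a * (x * y))) := by
    have h4 : (2 : ℝ≥0∞) = ENNReal.ofReal 2 := by simp
    rw [h4, ← ENNReal.ofReal_mul (by norm_num)]
  rw [e0, e1, e2, e3, ← ENNReal.ofReal_add (by positivity) (by positivity)]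
  refine ⟨ENNReal.ofReal_le_ofReal h1, ENNReal.ofReal_ne_top, ENNReal.ofReal_ne_top, ENNReal.ofReal_ne_top, fun h3 => ?_⟩
  rw [ENNReal.ofReal_eq_ofReal_iff (by positivity) (by positivity)] at h3
  have h4 := h2 h3
  rw [← ENNReal.ofReal_mul ka.le, ← ENNReal.ofReal_mul (by positivity), ← ENNReal.ofReal_mul kb.le,
    ← ENNReal.ofReal_mul (by positivity), h4]

/-- the inequality between arithmetic and geometric mean for a flag. -/
theorem flag_am_gm {μ ν : Measure E3} (h : Sys μ ν) {p l : E3} (hp : p ∈ At μ) (hl : l ∈ At ν) (hpl : ⟪l, p⟫ = 0) :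
    2 * F0 μ ν p l ≤ F1 μ ν p l + F1 ν μ l p ∧ F0 μ ν p l ≠ ⊤ ∧ F1 μ ν p l ≠ ⊤ ∧ F1 ν μ l p ≠ ⊤ ∧
      (2 * F0 μ ν p l = F1 μ ν p l + F1 ν μ l p → ν {l} * J ν p * QQ ν p l = μ {p} * J μ l * QQ μ l p) := by
  have := h.f1
  have := h.f2
  have hp0 : p ≠ 0 := HS_ne (At_sub h.s1 hp)
  have hl0 : l ≠ 0 := HS_ne (At_sub h.s2 hl)
  have hlp : ⟪p, l⟫ = 0 := by rw [real_inner_comm]; exact hpl
  obtain ⟨hq, hq'⟩ := QQ_pos h hl hpl hp0
  obtain ⟨hr, hr'⟩ := QQ_pos h.symm hp hlp hl0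
  have hμ := FM_of_HS h.f1 h.s1
  have hν := FM_of_HS h.f2 h.s2
  exact ds_enn (a := ν {l}) (b := μ {p}) (x := J ν p) (y := J μ l) (q := QQ μ l p) (r := QQ ν p l)
    hl (measure_ne_top ν _) hp (measure_ne_top μ _) (h.p2 p hp0) (J_ne_top hν p) (h.p1 l hl0) (J_ne_top hμ l)
    hq hq' hr hr'

private theorem ds_comm (μ ν : Measure E3) (p l : E3) : F0 ν μ l p = F0 μ ν p l := by
  unfold F0
  ring

theorem DS {μ ν : Measure E3} (h : Sys μ ν) :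
    (∀ p ∈ At μ, ∀ l ∈ At ν, ⟪l, p⟫ = 0 → ν {l} * J ν p * QQ ν p l = μ {p} * J μ l * QQ μ l p) ∧
    (∀ l ∈ At ν, Om ν l = 0 ∨ μ (pl l \ At μ) = 0) := by
  obtain ⟨g, hg⟩ : ∃ g : E3 → ℝ≥0∞, g = fun l => Om ν l * ν {l} *
      ∫⁻ n in {n | rep (cr l n) ∉ At μ}, RR μ ν l (cr l n) ∂ν := ⟨_, rfl⟩
  obtain ⟨S, hS⟩ : ∃ S : ℝ≥0∞, S = ∑' l : At ν, ∑' p : ↥(At μ ∩ pl l), F0 μ ν p l := ⟨_, rfl⟩
  have hSt : S ≠ ⊤ := by
    rw [hS]
    exact F0_sum_ne_top h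
  have h1 : (∑' l : At ν, ∑' p : ↥(At μ ∩ pl l), F1 μ ν p l) + ∑' l : At ν, g l ≤ S := by
    rw [← ENNReal.tsum_add, hS]
    refine ENNReal.tsum_le_tsum fun l => ?_
    rw [hg]
    exact FLG h l.2
  have h2 : ∑' l : At ν, ∑' p : ↥(At μ ∩ pl l), F1 ν μ l p ≤ S := by
    rw [flag_swap (μ := μ) (ν := ν) (fun p l => F1 ν μ l p), hS,
      flag_swap (μ := μ) (ν := ν) (fun p l => F0 μ ν p l)]
    refine ENNReal.tsum_le_tsum fun p => ?_
    have h3 := FLG h.symm p.2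
    refine (le_self_add.trans h3).trans (le_of_eq ?_)
    exact tsum_congr fun l => ds_comm μ ν p l
  have h3 : (∑' l : At ν, ∑' p : ↥(At μ ∩ pl l), F1 μ ν p l) + ∑' l : At ν, ∑' p : ↥(At μ ∩ pl l), F1 ν μ l p =
      ∑' l : At ν, ∑' p : ↥(At μ ∩ pl l), (F1 μ ν p l + F1 ν μ l p) := by
    rw [← ENNReal.tsum_add]
    exact tsum_congr fun l => ENNReal.tsum_add.symm
  have h4 : 2 * S = ∑' l : At ν, ∑' p : ↥(At μ ∩ pl l), 2 * F0 μ ν p l := by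
    rw [hS, ← ENNReal.tsum_mul_left]
    exact tsum_congr fun l => ENNReal.tsum_mul_left.symm
  have h5 : ∀ l : At ν, ∑' p : ↥(At μ ∩ pl l), 2 * F0 μ ν p l ≤
      ∑' p : ↥(At μ ∩ pl l), (F1 μ ν p l + F1 ν μ l p) :=
    fun l => ENNReal.tsum_le_tsum fun p => (flag_am_gm h p.2.1 l.2 p.2.2).1
  have h6 : 2 * S ≤ ∑' l : At ν, ∑' p : ↥(At μ ∩ pl l), (F1 μ ν p l + F1 ν μ l p) := by
    rw [h4]
    exact ENNReal.tsum_le_tsum h5
  have h2S : 2 * S ≠ ⊤ := ENNReal.mul_ne_top (by norm_num) hSt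
  have h7 : 2 * S + ∑' l : At ν, g l ≤ 2 * S := by
    calc 2 * S + ∑' l : At ν, g l ≤
        ((∑' l : At ν, ∑' p : ↥(At μ ∩ pl l), F1 μ ν p l) + ∑' l : At ν, ∑' p : ↥(At μ ∩ pl l), F1 ν μ l p) +
          ∑' l : At ν, g l := by
          rw [h3]
          gcongr
      _ = ((∑' l : At ν, ∑' p : ↥(At μ ∩ pl l), F1 μ ν p l) + ∑' l : At ν, g l) +
          ∑' l : At ν, ∑' p : ↥(At μ ∩ pl l), F1 ν μ l p := by ring
      _ ≤ S + S := add_le_add h1 h2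
      _ = 2 * S := by ring
  have h8 : ∑' l : At ν, g l = 0 := by
    have h9 : 2 * S + ∑' l : At ν, g l ≤ 2 * S + 0 := by
      rw [add_zero]
      exact h7
    exact le_antisymm ((ENNReal.add_le_add_iff_left h2S).1 h9) zero_le
  have h10 : ∑' l : At ν, ∑' p : ↥(At μ ∩ pl l), (F1 μ ν p l + F1 ν μ l p) ≤ 2 * S := by
    rw [← h3]
    calc (∑' l : At ν, ∑' p : ↥(At μ ∩ pl l), F1 μ ν p l) + ∑' l : At ν, ∑' p : ↥(At μ ∩ pl l), F1 ν μ l p
        ≤ S + S := add_le_add (le_self_add.trans h1) h2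
      _ = 2 * S := by ring
  refine ⟨fun p hp l hl hpl => ?_, fun l hl => ?_⟩
  · refine (flag_am_gm h hp hl hpl).2.2.2.2 ?_
    by_contra hne
    have hlt : 2 * F0 μ ν p l < F1 μ ν p l + F1 ν μ l p := lt_of_le_of_ne (flag_am_gm h hp hl hpl).1 hne
    have hfin : ∑' l : At ν, ∑' p : ↥(At μ ∩ pl l), 2 * F0 μ ν p l ≠ ⊤ := by
      rw [← h4]
      exact h2S
    have hin : ∑' p : ↥(At μ ∩ pl l), 2 * F0 μ ν p l < ∑' p : ↥(At μ ∩ pl l), (F1 μ ν p l + F1 ν μ l p) :=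
      ENNReal.tsum_lt_tsum (i := (⟨p, hp, hpl⟩ : ↥(At μ ∩ pl l)))
        (ENNReal.ne_top_of_tsum_ne_top hfin (⟨l, hl⟩ : At ν))
        (fun q => (flag_am_gm h q.2.1 hl q.2.2).1) hlt
    have hout : ∑' l : At ν, ∑' p : ↥(At μ ∩ pl l), 2 * F0 μ ν p l <
        ∑' l : At ν, ∑' p : ↥(At μ ∩ pl l), (F1 μ ν p l + F1 ν μ l p) :=
      ENNReal.tsum_lt_tsum (i := (⟨l, hl⟩ : At ν)) hfin h5 hin
    rw [← h4] at hout
    exact absurd h10 (not_le.2 hout)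
  · by_cases hO : Om ν l = 0
    · exact Or.inl hO
    · right
      have h11 := ENNReal.tsum_eq_zero.1 h8 ⟨l, hl⟩
      rw [hg] at h11
      exact FLG0 h hl hO h11

end Pool.Agent.FAC3
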