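import Mathlib

/-!
# Project FAC3 (MP_33e5ad_gt): convex bodies `K ⊆ ℝ³` with facets, homothetic to `Π² K`

`cr x y` is the cross product of `ℝ³ = EuclideanSpace ℝ (Fin 3)`, `en t = |t|` in `ℝ≥0∞`.
Points and lines of the projective plane are both represented by the vectors of the half sphere `HS`
(one of `v`, `-v` for every unit vector `v`), `rep v` is the representative of the line `ℝ v`; the point `p` lies on
the line `m` iff `⟪p, m⟫ = 0`, i.e. `p ∈ pl m` iff `m ∈ pl p`; the join of two points and the meet of two lines are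
`rep (cr x y)`.
A solution is a pair of measures `μ, ν` on `HS` with `∫ |⟪u,m⟫| dν(m) = ∫∫ |⟪u, y × z⟫| dμ(y) dμ(z)` for all `u` and
conversely (`Sys μ ν`).
-/

set_option autoImplicit false

namespace Pool.Agent.FAC3

open MeasureTheory Set Filter Topology
open scoped RealInnerProductSpace ENNReal

/-- `ℝ³`. -/
abbrev E3 := EuclideanSpace ℝ (Fin 3)

/-- the cross product. -/
noncomputable def cr (x y : E3) : E3 :=
  !₂[x 1 * y 2 - x 2 * y 1, x 2 * y 0 - x 0 * y 2, x 0 * y 1 - x 1 * y 0]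

/-- `|t|` as an element of `ℝ≥0∞`. -/
noncomputable def en (t : ℝ) : ℝ≥0∞ := ENNReal.ofReal |t|

/-- the plane orthogonal to `p`. -/
def pl (p : E3) : Set E3 := {x | ⟪p, x⟫ = 0}

/-- the line `ℝ p` (for `p ≠ 0`). -/
def ln (p : E3) : Set E3 := {x | cr p x = 0}

/-- half sphere: contains exactly one of `v`, `-v` for every unit vector `v`. -/
def HS : Set E3 := {x | ‖x‖ = 1 ∧ (0 < x 2 ∨ (x 2 = 0 ∧ 0 < x 1) ∨ (x 2 = 0 ∧ x 1 = 0 ∧ 0 < x 0))}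

open Classical in
/-- the representative in `HS` of the line `ℝ v` (for `v ≠ 0`). -/
noncomputable def rep (v : E3) : E3 := if ‖v‖⁻¹ • v ∈ HS then ‖v‖⁻¹ • v else -(‖v‖⁻¹ • v)

/-- `J μ u = ∫ |⟪u, x⟫| dμ(x)`. -/
noncomputable def J (μ : Measure E3) (u : E3) : ℝ≥0∞ := ∫⁻ x, en ⟪u, x⟫ ∂μ

/-- the image of `μ × μ` under the cross product. -/
noncomputable def TT (μ : Measure E3) : Measure E3 := (μ.prod μ).map (fun q => cr q.1 q.2)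

/-- first moment finite. -/
def FM (μ : Measure E3) : Prop := ∫⁻ x, ENNReal.ofReal ‖x‖ ∂μ ≠ ⊤

/-- a self-dual pair of measures. -/
structure Sys (μ ν : Measure E3) : Prop where
  f1 : IsFiniteMeasure μ
  f2 : IsFiniteMeasure ν
  s1 : μ HSᶜ = 0
  s2 : ν HSᶜ = 0
  h1 : ∀ u, J ν u = J (TT μ) u
  h2 : ∀ u, J μ u = J (TT ν) u
  p1 : ∀ u, u ≠ 0 → J μ u ≠ 0
  p2 : ∀ u, u ≠ 0 → J ν u ≠ 0

theorem Sys.symm {μ ν : Measure E3} (h : Sys μ ν) : Sys ν μ :=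
  ⟨h.f2, h.f1, h.s2, h.s1, h.h2, h.h1, h.p2, h.p1⟩

/-- the atoms. -/
def At (μ : Measure E3) : Set E3 := {p | μ {p} ≠ 0}

/-- `N_p`: the part of `TT μ` in the pencil `p^⊥` produced by pairs not containing `p`. -/
noncomputable def Nm (μ : Measure E3) (p : E3) : Measure E3 := (TT (μ.restrict {p}ᶜ)).restrict (pl p)

/-- `Ω_p = ∫∫ |⟪p, q × q'⟫| dN_p dN_p`. -/
noncomputable def Om (μ : Measure E3) (p : E3) : ℝ≥0∞ := ∫⁻ q, ∫⁻ q', en ⟪p, cr q q'⟫ ∂(Nm μ p) ∂(Nm μ p)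

/-- `∫_{z ⊥ m} |⟪m, y × z⟫| dμ(z)`. -/
noncomputable def QQ (μ : Measure E3) (m y : E3) : ℝ≥0∞ := ∫⁻ z in pl m, en ⟪m, cr y z⟫ ∂μ

/-- `R_l(y) = J_ν(y)² / ∫_{z ⊥ l} |⟪l, y × z⟫| dμ(z)`. -/
noncomputable def RR (μ ν : Measure E3) (l y : E3) : ℝ≥0∞ := (J ν y) ^ 2 / QQ μ l y

/-- `F_0(p,l) = μ{p} ν{l} J_ν(p) J_μ(l)`. -/
noncomputable def F0 (μ ν : Measure E3) (p l : E3) : ℝ≥0∞ := μ {p} * ν {l} * (J ν p * J μ l)

/-- `F_1(p,l) = ν{l}² R_l(p) ∫_{n ⊥ p} |⟪p, l × n⟫| dν(n)`. -/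
noncomputable def F1 (μ ν : Measure E3) (p l : E3) : ℝ≥0∞ := ν {l} ^ 2 * RR μ ν l p * QQ ν p l

/-- `f` is the support function of a segment plus a centrally symmetric body in the plane `p^⊥` (a zonoid). -/
def CylForm (f : E3 → ℝ≥0∞) : Prop :=
  ∃ p q : E3, ⟪p, q⟫ ≠ 0 ∧ ∃ lam : Measure E3, FM lam ∧ ∀ u, f u = en ⟪u, q⟫ + ∫⁻ x in pl p, en ⟪u, x⟫ ∂lam

/-- four vectors, no three in a plane. -/
def Gen4 (a b c d : E3) : Prop :=
  ⟪a, cr b c⟫ ≠ 0 ∧ ⟪a, cr b d⟫ ≠ 0 ∧ ⟪a, cr c d⟫ ≠ 0 ∧ ⟪b, cr c d⟫ ≠ 0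

end Pool.Agent.FAC3
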