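import Pool.Agent.FAC3.TDa

/-! Module FAC3-E1.  `a = μ {p}`, `μ_p = μ.restrict {p}ᶜ`.

`J ν p = ∫∫ en ⟪p, cr y z⟫ dμ dμ = ∫_z J μ (cr z p) dμ = ∫_z ∫_m ∫_n en ⟪cr z p, cr m n⟫ dν dν dμ` (`h.h1`, `lint_TT`, `h.h2`).
`⟪cr z p, cr m n⟫ = ⟪m, w⟫` with `w = ⟪p, n⟫ • z - ⟪z, n⟫ • p` (`inner_cr_cr`); integrate over `m` first (Tonelli):
`J ν w = J (TT μ_p) w + 2 a en ⟪p, n⟫ J μ (cr z p)` (`h.h1`, `TD` with `g = en ⟪w, ·⟫`, `⟪w, cr p y⟫ = ⟪p, n⟫ ⟪z, cr p y⟫`).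
The second term gives `2 a (∫_z J μ (cr z p) dμ) (∫_n en ⟪p,n⟫ dν) = 2 a (J ν p)²`. In the first,
`⟪w, x⟫ = ⟪n, w'⟫`, `w' = ⟪z, x⟫ • p - ⟪p, x⟫ • z`; integrate over `n`: `J ν w' = J (TT μ_p) w' + 2 a en ⟪p, x⟫ J μ (cr z p)`,
the second term gives `2 a (J ν p) ∫ en ⟪p, x⟫ dTT μ_p = 2 a (J ν p)²` (`TD` with `g = en ⟪p,·⟫`, `⟪p, cr p y⟫ = 0`), and
`⟪w', x'⟫ = ⟪cr z p, cr x x'⟫`.
`E1_le`: `J ν p` is finite and not zero. -/

set_option autoImplicit false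

namespace Pool.Agent.FAC3
open MeasureTheory Set Filter Topology
open scoped RealInnerProductSpace ENNReal

private noncomputable def E1_w (p z n : E3) : E3 := ⟪p, n⟫ • z - ⟪z, n⟫ • p

private theorem E1_w_inner (p z n x : E3) : ⟪E1_w p z n, x⟫ = ⟪p, n⟫ * ⟪z, x⟫ - ⟪z, n⟫ * ⟪p, x⟫ := by
  unfold E1_w
  rw [inner_sub_left, real_inner_smul_left, real_inner_smul_left]

private theorem E1_w_meas (p z : E3) : Measurable (E1_w p z) := by
  unfold E1_w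
  exact Continuous.measurable (by fun_prop)

private theorem E1_w_meas2 (p z : E3) : Measurable (fun q : E3 × E3 => en ⟪E1_w p z q.1, q.2⟫) :=
  measurable_en_inner2.comp (((E1_w_meas p z).comp measurable_fst).prodMk measurable_snd)

private theorem E1_key {μ ν : Measure E3} (h : Sys μ ν) (p z n : E3) :
    J ν (E1_w p z n) = J (TT (μ.restrict {p}ᶜ)) (E1_w p z n) + 2 * μ {p} * (en ⟪p, n⟫ * J μ (cr z p)) := by
  have h0 := TD h.f1 p (g := fun x => en ⟪E1_w p z n, x⟫) (measurable_en_inner _)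
    (fun x => by rw [inner_neg_right, en_neg]) (by rw [inner_zero_right, en_zero])
  have h1 : ∫⁻ y, en ⟪E1_w p z n, cr p y⟫ ∂μ = en ⟪p, n⟫ * J μ (cr z p) := by
    rw [J, ← lintegral_const_mul _ (measurable_en_inner _)]
    refine lintegral_congr fun y => ?_
    rw [E1_w_inner, inner_cr_left, mul_zero, sub_zero, inner_cr_assoc, en_mul]
  rw [h.h1, ← h1]
  exact h0

private theorem E1_p {μ ν : Measure E3} (h : Sys μ ν) (p : E3) : J ν p = J (TT (μ.restrict {p}ᶜ)) p := by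
  have h0 := TD h.f1 p (g := fun x => en ⟪p, x⟫) (measurable_en_inner _)
    (fun x => by rw [inner_neg_right, en_neg]) (by rw [inner_zero_right, en_zero])
  have h1 : ∫⁻ y, en ⟪p, cr p y⟫ ∂μ = 0 := by
    rw [← lintegral_zero (μ := μ)]
    refine lintegral_congr fun y => ?_
    rw [inner_cr_left, en_zero]
  rw [h.h1, J, J, h0, h1, mul_zero, add_zero]

private theorem E1_int {μ ν : Measure E3} (h : Sys μ ν) (p : E3) : J ν p = ∫⁻ z, J μ (cr z p) ∂μ := by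
  have := h.f1
  rw [h.h1, J, lint_TT (measurable_en_inner p)]
  refine lintegral_congr fun y => ?_
  rw [← J_neg μ (cr y p), ← cr_comm, J]
  refine lintegral_congr fun z => ?_
  rw [inner_cr_assoc]

private theorem E1_z {μ ν : Measure E3} (h : Sys μ ν) (p z : E3) :
    J μ (cr z p) = 4 * μ {p} * (J ν p * J μ (cr z p)) + ∫⁻ x, ∫⁻ x', en ⟪cr z p, cr x x'⟫
      ∂(TT (μ.restrict {p}ᶜ)) ∂(TT (μ.restrict {p}ᶜ)) := by
  have := h.f1
  have := h.f2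
  have : IsFiniteMeasure (TT (μ.restrict {p}ᶜ)) := TT_finite inferInstance
  have hint : ∀ κ : Measure E3, ∫⁻ n, 2 * μ {p} * (en ⟪p, n⟫ * J μ (cr z p)) ∂κ
      = 2 * μ {p} * (J κ p * J μ (cr z p)) := by
    intro κ
    rw [lintegral_const_mul _ ((measurable_en_inner p).mul_const _), lintegral_mul_const _ (measurable_en_inner p)]
    rfl
  have hwm : ∀ κ : Measure E3, IsFiniteMeasure κ → Measurable (fun n => J κ (E1_w p z n)) := fun κ hκ =>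
    (measurable_J κ).comp (E1_w_meas p z)
  -- first step: the integral over the first variable
  have e1 : J μ (cr z p) = ∫⁻ n, J ν (E1_w p z n) ∂ν := by
    rw [h.h2, J, lint_TT (measurable_en_inner _)]
    have hm : AEMeasurable (Function.uncurry fun m n : E3 => en ⟪E1_w p z n, m⟫) (ν.prod ν) :=
      ((E1_w_meas2 p z).comp measurable_swap).aemeasurable
    have e2 : ∫⁻ y, ∫⁻ n, en ⟪cr z p, cr y n⟫ ∂ν ∂ν = ∫⁻ y, ∫⁻ n, en ⟪E1_w p z n, y⟫ ∂ν ∂ν := by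
      refine lintegral_congr fun m => lintegral_congr fun n => ?_
      rw [E1_w_inner, inner_cr_cr]
      congr 1
      ring
    rw [e2, lintegral_lintegral_swap hm]
    rfl
  have e3 : ∫⁻ n, J (TT (μ.restrict {p}ᶜ)) (E1_w p z n) ∂ν
      = ∫⁻ x, J ν (E1_w p z x) ∂(TT (μ.restrict {p}ᶜ)) := by
    have hm : AEMeasurable (Function.uncurry fun n x : E3 => en ⟪E1_w p z n, x⟫)
        (ν.prod (TT (μ.restrict {p}ᶜ))) := (E1_w_meas2 p z).aemeasurable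
    have e4 : ∫⁻ n, J (TT (μ.restrict {p}ᶜ)) (E1_w p z n) ∂ν
        = ∫⁻ n, ∫⁻ x, en ⟪E1_w p z n, x⟫ ∂(TT (μ.restrict {p}ᶜ)) ∂ν := rfl
    rw [e4, lintegral_lintegral_swap hm]
    refine lintegral_congr fun x => ?_
    rw [J]
    refine lintegral_congr fun n => ?_
    rw [← en_neg, E1_w_inner, E1_w_inner]
    congr 1
    ring
  have e5 : ∫⁻ n, J ν (E1_w p z n) ∂ν = ∫⁻ n, J (TT (μ.restrict {p}ᶜ)) (E1_w p z n) ∂ν
      + 2 * μ {p} * (J ν p * J μ (cr z p)) := by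
    rw [← hint ν, ← lintegral_add_left (hwm _ inferInstance)]
    exact lintegral_congr fun n => E1_key h p z n
  have e6 : ∫⁻ n, J ν (E1_w p z n) ∂(TT (μ.restrict {p}ᶜ))
      = ∫⁻ n, J (TT (μ.restrict {p}ᶜ)) (E1_w p z n) ∂(TT (μ.restrict {p}ᶜ))
      + 2 * μ {p} * (J ν p * J μ (cr z p)) := by
    rw [E1_p h p, ← hint (TT (μ.restrict {p}ᶜ)), ← lintegral_add_left (hwm _ inferInstance)]
    exact lintegral_congr fun n => E1_key h p z n
  have e7 : ∫⁻ n, J (TT (μ.restrict {p}ᶜ)) (E1_w p z n) ∂(TT (μ.restrict {p}ᶜ))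
      = ∫⁻ x, ∫⁻ x', en ⟪cr z p, cr x x'⟫ ∂(TT (μ.restrict {p}ᶜ)) ∂(TT (μ.restrict {p}ᶜ)) := by
    refine lintegral_congr fun x => ?_
    rw [J]
    refine lintegral_congr fun x' => ?_
    rw [← en_neg, E1_w_inner, inner_cr_cr]
    congr 1
    ring
  have e8 : J μ (cr z p) = (∫⁻ x, ∫⁻ x', en ⟪cr z p, cr x x'⟫ ∂(TT (μ.restrict {p}ᶜ)) ∂(TT (μ.restrict {p}ᶜ))
      + 2 * μ {p} * (J ν p * J μ (cr z p))) + 2 * μ {p} * (J ν p * J μ (cr z p)) := by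
    rw [← e7, ← e6, ← e3, ← e5, ← e1]
  calc J μ (cr z p) = _ := e8
    _ = _ := by ring

theorem E1 {μ ν : Measure E3} (h : Sys μ ν) (p : E3) :
    J ν p = 4 * μ {p} * (J ν p) ^ 2 + ∫⁻ z, ∫⁻ x, ∫⁻ x', en ⟪cr z p, cr x x'⟫
      ∂(TT (μ.restrict {p}ᶜ)) ∂(TT (μ.restrict {p}ᶜ)) ∂μ := by
  have := h.f1
  have hm : Measurable (fun z : E3 => J μ (cr z p)) :=
    (measurable_J μ).comp (continuous_cr.measurable.comp (measurable_id.prodMk measurable_const))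
  have h1 : ∫⁻ z, J μ (cr z p) ∂μ = ∫⁻ z, (4 * μ {p} * (J ν p * J μ (cr z p))
      + ∫⁻ x, ∫⁻ x', en ⟪cr z p, cr x x'⟫ ∂(TT (μ.restrict {p}ᶜ)) ∂(TT (μ.restrict {p}ᶜ))) ∂μ :=
    lintegral_congr fun z => E1_z h p z
  rw [lintegral_add_left ((hm.const_mul _).const_mul _), lintegral_const_mul _ (hm.const_mul _),
    lintegral_const_mul _ hm, ← E1_int h p, ← pow_two] at h1
  exact h1

theorem E1_le {μ ν : Measure E3} (h : Sys μ ν) {p : E3} (hp : p ∈ HS) : 4 * μ {p} * J ν p ≤ 1 := by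
  have h1 : 4 * μ {p} * (J ν p) ^ 2 ≤ J ν p := le_trans le_self_add (E1 h p).ge
  have h2 : J ν p ≠ ⊤ := J_ne_top (FM_of_HS h.f2 h.s2) p
  have h3 : J ν p ≠ 0 := h.p2 p (HS_ne hp)
  have h4 : 4 * μ {p} * J ν p * J ν p ≤ 1 * J ν p := by
    calc 4 * μ {p} * J ν p * J ν p = 4 * μ {p} * (J ν p) ^ 2 := by ring
      _ ≤ J ν p := h1
      _ = 1 * J ν p := (one_mul _).symm
  exact (ENNReal.mul_le_mul_iff_left h3 h2).1 h4

end Pool.Agent.FAC3
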