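import Pool.Agent.FAC3.PEN
import Pool.Agent.FAC3.ATM

/-! Module FAC3-E2: the mass of an atom `p` of `μ` in terms of the measure `Nm μ p`: `ATM` for the dual system, `PEN` twice, Tonelli. -/

set_option autoImplicit false

namespace Pool.Agent.FAC3
open MeasureTheory Set Filter Topology
open scoped RealInnerProductSpace ENNReal

theorem E2 {μ ν : Measure E3} (h : Sys μ ν) {p : E3} (hp : p ∈ HS) :
    μ {p} = 4 * μ {p} ^ 2 * J ν p + 4 * μ {p} * ∫⁻ q, J μ q ∂(Nm μ p) + Om μ p := by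
  have hi1 := h.f1
  have hi2 := h.f2
  have hi3 : IsFiniteMeasure (Nm μ p) := Nm_finite h.f1 p
  have hp1 : ‖p‖ = 1 := HS_norm hp
  have mJ : Measurable (J μ) := measurable_J μ
  have hcr1 : Measurable (fun y : E3 => cr p y) := continuous_cr.measurable.comp (measurable_const.prodMk measurable_id)
  have hcr2 : Measurable (fun y : E3 => cr y p) := continuous_cr.measurable.comp (measurable_id.prodMk measurable_const)
  -- the inner integral
  have e1 : ∀ y ∈ pl p, QQ ν p y = 2 * μ {p} * J μ y + ∫⁻ q, en ⟪cr p y, q⟫ ∂(Nm μ p) := by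
    intro y hy
    have h1 : QQ ν p y = ∫⁻ z in pl p, en ⟪cr p y, z⟫ ∂ν := by
      unfold QQ
      simp only [inner_cr_assoc]
    rw [h1, PEN h p (cr p y), cr_cr_unit hp1 hy]
  have m2 : Measurable (fun q : E3 × E3 => en ⟪cr p q.1, q.2⟫) := by
    have h1 : Measurable (fun q : E3 × E3 => (cr p q.1, q.2)) := (hcr1.comp measurable_fst).prodMk measurable_snd
    have h2 := measurable_en_inner2.comp h1
    exact h2
  have m1 : Measurable (fun y : E3 => ∫⁻ q, en ⟪cr p y, q⟫ ∂(Nm μ p)) := m2.lintegral_prod_right'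
  have e2 : μ {p} = 2 * μ {p} * (∫⁻ y in pl p, J μ y ∂ν) + ∫⁻ y in pl p, ∫⁻ q, en ⟪cr p y, q⟫ ∂(Nm μ p) ∂ν := by
    conv_lhs => rw [ATM h.symm hp]
    rw [setLIntegral_congr_fun (pl_meas p) e1, lintegral_add_left (mJ.const_mul _), lintegral_const_mul _ mJ]
  -- first term
  have e3 : ∫⁻ y in pl p, J μ y ∂ν = 2 * μ {p} * J ν p + ∫⁻ q, J μ q ∂(Nm μ p) := by
    have h1 : ∫⁻ y in pl p, J μ y ∂ν = ∫⁻ x, ∫⁻ y in pl p, en ⟪x, y⟫ ∂ν ∂μ := by
      have h2 : ∫⁻ y in pl p, J μ y ∂ν = ∫⁻ y in pl p, ∫⁻ x, en ⟪x, y⟫ ∂μ ∂ν := by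
        refine lintegral_congr fun y => ?_
        unfold J
        simp only [real_inner_comm y]
      rw [h2]
      exact lintegral_lintegral_swap ((measurable_en_inner2.comp (measurable_snd.prodMk measurable_fst)).aemeasurable)
    have m3 : Measurable (fun x : E3 => J μ (cr x p)) := mJ.comp hcr2
    rw [h1]
    simp only [PEN h p]
    rw [lintegral_add_left (m3.const_mul _), lintegral_const_mul _ m3]
    have h3 : ∫⁻ x, J μ (cr x p) ∂μ = J ν p := by
      rw [h.h1 p]
      unfold J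
      rw [lint_TT (measurable_en_inner p)]
      refine lintegral_congr fun x => lintegral_congr fun z => ?_
      rw [← inner_cr_assoc, inner_cr_rot, cr_comm x z, inner_neg_right, en_neg]
    have h4 : ∫⁻ x, ∫⁻ q, en ⟪x, q⟫ ∂(Nm μ p) ∂μ = ∫⁻ q, J μ q ∂(Nm μ p) := by
      rw [lintegral_lintegral_swap measurable_en_inner2.aemeasurable]
      refine lintegral_congr fun q => ?_
      unfold J
      simp only [real_inner_comm q]
    rw [h3, h4]
  -- second term
  have e4 : ∫⁻ y in pl p, ∫⁻ q, en ⟪cr p y, q⟫ ∂(Nm μ p) ∂ν = 2 * μ {p} * (∫⁻ q, J μ q ∂(Nm μ p)) + Om μ p := by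
    rw [lintegral_lintegral_swap m2.aemeasurable]
    have h1 : ∀ᵐ q ∂(Nm μ p), ∫⁻ y in pl p, en ⟪cr p y, q⟫ ∂ν = 2 * μ {p} * J μ q + ∫⁻ q', en ⟪p, cr q q'⟫ ∂(Nm μ p) := by
      have h2 : ∀ᵐ q ∂(Nm μ p), q ∈ pl p := ae_restrict_mem (pl_meas p)
      filter_upwards [h2] with q hq
      have h3 : ∀ y : E3, ⟪cr p y, q⟫ = ⟪cr q p, y⟫ := fun y => by
        rw [← inner_cr_assoc, inner_cr_rot, real_inner_comm]
      simp only [h3]
      rw [PEN h p (cr q p)]
      have h4 : cr (cr q p) p = -q := by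
        have h5 : ⟪q, p⟫ = 0 := by
          rw [real_inner_comm]
          exact hq
        rw [cr_cr, h5, zero_smul, zero_sub, real_inner_self_eq_norm_sq, hp1, one_pow, one_smul]
      rw [h4, J_neg]
      congr 1
      refine lintegral_congr fun q' => ?_
      rw [← inner_cr_assoc, inner_cr_rot, cr_comm q q', inner_neg_right, en_neg]
    rw [lintegral_congr_ae h1, lintegral_add_left (mJ.const_mul _), lintegral_const_mul _ mJ]
    rfl
  rw [e3, e4] at e2
  refine e2.trans ?_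
  generalize (μ {p} : ℝ≥0∞) = a
  generalize (∫⁻ q, J μ q ∂(Nm μ p)) = X
  generalize J ν p = Y
  generalize Om μ p = Z
  ring

end Pool.Agent.FAC3
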