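import Pool.Agent.FAC3.PEN

/-! Module FAC3-E5: the pencil identity for `∫_{z ⊥ l} |⟪l, p × z⟫| dμ(z)`. -/

set_option autoImplicit false

namespace Pool.Agent.FAC3
open MeasureTheory Set Filter Topology
open scoped RealInnerProductSpace ENNReal

theorem E5 {μ ν : Measure E3} (h : Sys μ ν) {l p : E3} (hl : l ∈ HS) (hp : ⟪l, p⟫ = 0) :
    QQ μ l p = 2 * ν {l} * J ν p + ∫⁻ q, en ⟪cr l p, q⟫ ∂(Nm ν l) := by
  have h1 := PEN h.symm l (cr l p)
  have h2 : cr (cr l p) l = p := by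
    rw [cr_cr, real_inner_self_eq_norm_sq, real_inner_comm l p, hp, zero_smul, sub_zero, hl.1, one_pow, one_smul]
  rw [h2] at h1
  rw [← h1]
  unfold QQ
  have h3 : ∀ z : E3, en ⟪l, cr p z⟫ = en ⟪cr l p, z⟫ := fun z => by rw [inner_cr_assoc]
  simp only [h3]

end Pool.Agent.FAC3
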