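import Pool.Agent.FAC3.E5
import Pool.Agent.FAC3.E2
import Pool.Agent.FAC3.E1

/-! Module FAC3-LS: the alternative if `Om μ p = 0`: either `4 μ{p} J ν p = 1`, or the measure `Nm μ p` lives on one line
`l` of the pencil and then `4 ν{l} J μ l = 1`. -/

set_option autoImplicit false

namespace Pool.Agent.FAC3
open MeasureTheory Set Filter Topology
open scoped RealInnerProductSpace ENNReal

private theorem LS_meas (p : E3) : Measurable fun z : E3 × E3 => en ⟪p, cr z.1 z.2⟫ :=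
  measurable_en.comp (continuous_const.inner continuous_cr).measurable

private theorem LS_dir {μ : Measure E3} (hf : IsFiniteMeasure μ) {p : E3} (hp : p ∈ HS) (h0 : Om μ p = 0)
    (hI : ∫⁻ q, J μ q ∂(Nm μ p) ≠ 0) :
    ∃ l ∈ HS, ⟪l, p⟫ = 0 ∧ ∀ᵐ q ∂(Nm μ p), cr l q = 0 := by
  have hN : IsFiniteMeasure (Nm μ p) := Nm_finite hf p
  have h1 : Measurable fun q => ∫⁻ q', en ⟪p, cr q q'⟫ ∂(Nm μ p) :=
    Measurable.lintegral_prod_right' (LS_meas p)
  have h2 : ∀ᵐ q ∂(Nm μ p), ∫⁻ q', en ⟪p, cr q q'⟫ ∂(Nm μ p) = 0 := (lintegral_eq_zero_iff h1).1 h0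
  have h3 : ∀ᵐ q ∂(Nm μ p), q ∈ pl p := by
    unfold Nm
    exact ae_restrict_mem (pl_meas p)
  have h4 : ∃ q₀, J μ q₀ ≠ 0 ∧ q₀ ∈ pl p ∧ ∫⁻ q', en ⟪p, cr q₀ q'⟫ ∂(Nm μ p) = 0 := by
    by_contra hc
    apply hI
    rw [lintegral_eq_zero_iff (measurable_J μ)]
    filter_upwards [h2, h3] with q hq1 hq2
    by_contra hq3
    exact hc ⟨q, hq3, hq2, hq1⟩
  obtain ⟨q₀, hq1, hq2, hq3⟩ := h4
  have hq0 : q₀ ≠ 0 := by
    rintro rfl
    exact hq1 (J_zero μ)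
  have h5 : ∀ᵐ q' ∂(Nm μ p), en ⟪p, cr q₀ q'⟫ = 0 := by
    have hc : Continuous fun q' : E3 => ⟪p, cr q₀ q'⟫ :=
      continuous_const.inner (continuous_cr.comp (continuous_const.prodMk continuous_id))
    have hm : Measurable fun q' : E3 => en ⟪p, cr q₀ q'⟫ := measurable_en.comp hc.measurable
    have h6 := (lintegral_eq_zero_iff hm).1 hq3
    filter_upwards [h6] with q' hq'
    exact hq'
  refine ⟨rep q₀, rep_mem hq0, ?_, ?_⟩
  · rw [real_inner_comm]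
    exact inner_rep_eq_zero.2 hq2
  · filter_upwards [h3, h5] with q' hq4 hq5
    have h6 : ⟪p, cr q₀ q'⟫ = 0 := en_eq_zero.1 hq5
    have h7 : cr q₀ q' = 0 := by
      rw [cr_of_perp (HS_norm hp) hq2 hq4, h6, zero_smul]
    obtain ⟨t, ht1, ht2⟩ := rep_spec q₀
    have ht : t ≠ 0 := by
      rintro rfl
      rw [zero_smul] at ht2
      exact hq0 ht2
    rw [ht2, cr_smul_left] at h7
    exact (smul_eq_zero.1 h7).resolve_left ht

theorem LS {μ ν : Measure E3} (h : Sys μ ν) {p : E3} (hp : p ∈ At μ) (h0 : Om μ p = 0) :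
    4 * μ {p} * J ν p = 1 ∨ ∃ l ∈ HS, 4 * ν {l} * J μ l = 1 := by
  have hf1 := h.f1
  have hf2 := h.f2
  have hpH : p ∈ HS := At_sub h.s1 hp
  have ha : μ {p} ≠ 0 := hp
  have hat : μ {p} ≠ ⊤ := measure_ne_top μ _
  have hE2 := E2 h hpH
  rw [h0, add_zero] at hE2
  have hE : 1 = 4 * μ {p} * J ν p + 4 * ∫⁻ q, J μ q ∂(Nm μ p) := by
    have e : μ {p} * 1 = μ {p} * (4 * μ {p} * J ν p + 4 * ∫⁻ q, J μ q ∂(Nm μ p)) := by
      rw [mul_one]
      nth_rewrite 1 [hE2]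
      ring
    exact (ENNReal.mul_right_inj ha hat).1 e
  by_cases hI : ∫⁻ q, J μ q ∂(Nm μ p) = 0
  · left
    rw [hI, mul_zero, add_zero] at hE
    exact hE.symm
  · right
    obtain ⟨l, hl, hlp, hae⟩ := LS_dir hf1 hpH h0 hI
    refine ⟨l, hl, le_antisymm (E1_le h.symm hl) ?_⟩
    have hN : IsFiniteMeasure (Nm μ p) := Nm_finite hf1 p
    have hn1 : ∫⁻ q in ln l, en ⟪l, q⟫ ∂(Nm μ p) = ∫⁻ q, en ⟪l, q⟫ ∂(Nm μ p) := by
      have e : (Nm μ p).restrict (ln l) = Nm μ p := Measure.restrict_eq_self_of_ae_mem hae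
      rw [e]
    have hn2 : ∫⁻ q, J μ q ∂(Nm μ p) = (∫⁻ q, en ⟪l, q⟫ ∂(Nm μ p)) * J μ l := by
      rw [← lintegral_mul_const _ (measurable_en_inner l)]
      refine lintegral_congr_ae ?_
      filter_upwards [hae] with q hq
      exact J_eq_of_par μ (HS_norm hl) hq
    have hA := ATD h hl hlp
    rw [hn1, E5 h hl hlp] at hA
    rw [hn2] at hE hI
    generalize (∫⁻ q, en ⟪l, q⟫ ∂(Nm μ p)) = n at hA hE hI
    generalize (∫⁻ q, en ⟪cr l p, q⟫ ∂(Nm ν l)) = R at hA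
    have hn0 : n ≠ 0 := left_ne_zero_of_mul hI
    have hb : ν {l} ≠ ⊤ := measure_ne_top ν _
    have hJ : J ν p ≠ ⊤ := J_ne_top (FM_of_HS hf2 h.s2) p
    have h6 : 4 * μ {p} * ν {l} * J ν p + n ≤ ν {l} := by
      have e1 : 4 * μ {p} * ν {l} * J ν p = 2 * μ {p} * (2 * ν {l} * J ν p) := by ring
      have e2 : 2 * μ {p} * (2 * ν {l} * J ν p) ≤ 2 * μ {p} * (2 * ν {l} * J ν p + R) :=
        mul_le_mul_right (le_self_add) _
      calc 4 * μ {p} * ν {l} * J ν p + n ≤ 2 * μ {p} * (2 * ν {l} * J ν p + R) + n :=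
            add_le_add_left (e1.trans_le e2) n
        _ = ν {l} := hA.symm
    have hnt : n ≠ ⊤ := ne_top_of_le_ne_top hb (le_add_self.trans h6)
    have h7 : ν {l} = 4 * μ {p} * ν {l} * J ν p + 4 * ν {l} * J μ l * n := by
      calc ν {l} = ν {l} * 1 := (mul_one _).symm
        _ = ν {l} * (4 * μ {p} * J ν p + 4 * (n * J μ l)) := by rw [← hE]
        _ = _ := by ring
    have h8 : 4 * μ {p} * ν {l} * J ν p + n ≤ 4 * μ {p} * ν {l} * J ν p + 4 * ν {l} * J μ l * n := by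
      rw [← h7]
      exact h6
    have hfin : 4 * μ {p} * ν {l} * J ν p ≠ ⊤ :=
      ENNReal.mul_ne_top (ENNReal.mul_ne_top (ENNReal.mul_ne_top (by simp) hat) hb) hJ
    have h9 : n ≤ 4 * ν {l} * J μ l * n := (ENNReal.add_le_add_iff_left hfin).1 h8
    have h10 : 1 * n ≤ 4 * ν {l} * J μ l * n := by rwa [one_mul]
    exact (ENNReal.mul_le_mul_iff_left hn0 hnt).1 h10

end Pool.Agent.FAC3
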