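import Pool.Agent.FAC3.ENa

/-! Module FAC3-LSI.  The inequality `J_μ(y × q) ≤ 2 J_ν(y) J_ν(q)` for a self-dual pair: the integral of
`|⟪y × q, n × n'⟫| ≤ |⟪y, n⟫| |⟪q, n'⟫| + |⟪y, n'⟫| |⟪q, n⟫|`. -/

set_option autoImplicit false

namespace Pool.Agent.FAC3
open MeasureTheory Set Filter Topology
open scoped RealInnerProductSpace ENNReal

theorem LSI {μ ν : Measure E3} (h : Sys μ ν) (y q : E3) : J μ (cr y q) ≤ 2 * J ν y * J ν q := by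
  have := h.f2
  have e1 : J μ (cr y q) = ∫⁻ n, ∫⁻ n', en ⟪cr y q, cr n n'⟫ ∂ν ∂ν := by
    rw [h.h2]
    unfold J
    exact lint_TT (measurable_en_inner (cr y q))
  have hin : ∀ n : E3, ∫⁻ n', en ⟪cr y q, cr n n'⟫ ∂ν ≤ en ⟪y, n⟫ * J ν q + J ν y * en ⟪q, n⟫ := by
    intro n
    calc ∫⁻ n', en ⟪cr y q, cr n n'⟫ ∂ν
        ≤ ∫⁻ n', (en ⟪y, n⟫ * en ⟪q, n'⟫ + en ⟪y, n'⟫ * en ⟪q, n⟫) ∂ν := by
          refine lintegral_mono fun n' => ?_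
          show en ⟪cr y q, cr n n'⟫ ≤ en ⟪y, n⟫ * en ⟪q, n'⟫ + en ⟪y, n'⟫ * en ⟪q, n⟫
          rw [inner_cr_cr, ← en_mul, ← en_mul]
          exact en_sub_le _ _
      _ = ∫⁻ n', en ⟪y, n⟫ * en ⟪q, n'⟫ ∂ν + ∫⁻ n', en ⟪y, n'⟫ * en ⟪q, n⟫ ∂ν :=
          lintegral_add_left ((measurable_en_inner q).const_mul _) _
      _ = en ⟪y, n⟫ * J ν q + J ν y * en ⟪q, n⟫ := by
          rw [lintegral_const_mul _ (measurable_en_inner q), lintegral_mul_const _ (measurable_en_inner y)]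
          rfl
  rw [e1]
  calc ∫⁻ n, ∫⁻ n', en ⟪cr y q, cr n n'⟫ ∂ν ∂ν
      ≤ ∫⁻ n, (en ⟪y, n⟫ * J ν q + J ν y * en ⟪q, n⟫) ∂ν := lintegral_mono hin
    _ = ∫⁻ n, en ⟪y, n⟫ * J ν q ∂ν + ∫⁻ n, J ν y * en ⟪q, n⟫ ∂ν :=
        lintegral_add_left ((measurable_en_inner y).mul_const _) _
    _ = J ν y * J ν q + J ν y * J ν q := by
        rw [lintegral_mul_const _ (measurable_en_inner y), lintegral_const_mul _ (measurable_en_inner q)]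
        rfl
    _ = 2 * J ν y * J ν q := by
        rw [mul_assoc, two_mul]

end Pool.Agent.FAC3
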