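import Pool.Agent.FAC3.E5
import Pool.Agent.FAC3.E2
import Pool.Agent.FAC3.LSI

/-! Module FAC3-PTW.  `b = ν {m}`, `N = Nm ν m`.

`E2 h.symm hm`: `b = 4 b² J μ m + 4 b ∫ J ν dN + Om ν m`; `E5 h hm hy`: `QQ μ m y = 2 b J ν y + R`, `R = ∫ en ⟪cr m y, q⟫ dN`.
After inserting, the claim is `2 b J μ m R ≤ 4 b (∫ J ν q dN) J ν y`; it follows from `J μ m en ⟪cr m y, q⟫ ≤ 2 J ν y J ν q` for
`q ⊥ m` (`N`-almost all `q`): `⟪cr m y, q⟫ = ⟪m, cr y q⟫`, `cr y q = ⟪m, cr y q⟫ • m` (`cr_of_perp`), so the left side is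
`J μ (cr y q)` (`J_smul`), and `LSI`. -/

set_option autoImplicit false

namespace Pool.Agent.FAC3
open MeasureTheory Set Filter Topology
open scoped RealInnerProductSpace ENNReal

private theorem PTW_meas_pl (p : E3) : MeasurableSet (pl p) := by
  have h : Continuous (fun x : E3 => (⟪p, x⟫ : ℝ)) := continuous_const.inner continuous_id
  exact (isClosed_eq h continuous_const).measurableSet

private theorem PTW_point {μ ν : Measure E3} (h : Sys μ ν) {m y q : E3} (hm : ‖m‖ = 1) (hy : ⟪m, y⟫ = 0)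
    (hq : ⟪m, q⟫ = 0) : J μ m * en ⟪cr m y, q⟫ ≤ 2 * J ν y * J ν q := by
  have h1 : J μ (cr y q) = J μ m * en ⟪cr m y, q⟫ := by
    rw [cr_of_perp hm hy hq, J_smul, inner_cr_assoc, mul_comm]
  rw [← h1]
  exact LSI h y q

private theorem PTW_int {μ ν : Measure E3} (h : Sys μ ν) {m y : E3} (hm : ‖m‖ = 1) (hy : ⟪m, y⟫ = 0) :
    J μ m * ∫⁻ q, en ⟪cr m y, q⟫ ∂(Nm ν m) ≤ 2 * J ν y * ∫⁻ q, J ν q ∂(Nm ν m) := by
  have hf := h.f2
  rw [← lintegral_const_mul _ (measurable_en_inner (cr m y)), ← lintegral_const_mul _ (measurable_J ν)]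
  unfold Nm
  refine setLIntegral_mono' (PTW_meas_pl m) (fun q hq => ?_)
  exact PTW_point h hm hy hq

theorem PTW {μ ν : Measure E3} (h : Sys μ ν) {m y : E3} (hm : m ∈ HS) (hy : ⟪m, y⟫ = 0) :
    2 * ν {m} * J μ m * QQ μ m y + Om ν m * J ν y ≤ ν {m} * J ν y := by
  have e2 := E2 h.symm hm
  have e5 := E5 h hm hy
  have hi := PTW_int h hm.1 hy
  set b := ν {m} with hb
  set R := ∫⁻ q, en ⟪cr m y, q⟫ ∂(Nm ν m) with hR
  set S := ∫⁻ q, J ν q ∂(Nm ν m) with hS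
  rw [e5]
  have h1 : b * J ν y = (4 * b ^ 2 * J μ m + 4 * b * S + Om ν m) * J ν y := by
    rw [← e2]
  calc 2 * b * J μ m * (2 * b * J ν y + R) + Om ν m * J ν y
      = 4 * b ^ 2 * J μ m * J ν y + 2 * b * (J μ m * R) + Om ν m * J ν y := by ring
    _ ≤ 4 * b ^ 2 * J μ m * J ν y + 2 * b * (2 * J ν y * S) + Om ν m * J ν y := by
        gcongr
    _ = (4 * b ^ 2 * J μ m + 4 * b * S + Om ν m) * J ν y := by ring
    _ = b * J ν y := h1.symm

end Pool.Agent.FAC3
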