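import Pool.Agent.FAC3.ATM
import Pool.Agent.FAC3.PTW

/-! Module FAC3-TP: pencils are finite.  The set `pl l \ {p}` has measure at least `Om μ p` for every atom `l` of `ν` through `p`
(`TP1`); for different `l` these sets are disjoint. -/

set_option autoImplicit false

namespace Pool.Agent.FAC3
open MeasureTheory Set Filter Topology
open scoped RealInnerProductSpace ENNReal

private theorem TP_tri {l p y z : E3} (hl : ‖l‖ = 1) (hp : ‖p‖ = 1) (hy : ‖y‖ = 1) (hz : ‖z‖ = 1)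
    (h1 : ⟪l, p⟫ = 0) (h2 : ⟪l, y⟫ = 0) (h3 : ⟪l, z⟫ = 0) :
    |⟪l, cr y z⟫| ≤ |⟪l, cr p y⟫| + |⟪l, cr p z⟫| := by
  have e1 : cr (cr y z) p = ⟪l, cr y z⟫ • cr l p := by
    rw [← cr_smul_left, ← cr_of_perp hl h2 h3]
  have e2 : cr (cr z p) y = ⟪l, cr z p⟫ • cr l y := by
    rw [← cr_smul_left, ← cr_of_perp hl h3 h1]
  have e3 : cr (cr p y) z = ⟪l, cr p y⟫ • cr l z := by
    rw [← cr_smul_left, ← cr_of_perp hl h1 h2]
  have e4 : cr (cr y z) p + cr (cr z p) y + cr (cr p y) z = 0 := by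
    rw [cr_cr, cr_cr, cr_cr, real_inner_comm p y, real_inner_comm z y, real_inner_comm p z]
    abel
  have e5 : ⟪l, cr y z⟫ • cr l p = -(⟪l, cr z p⟫ • cr l y + ⟪l, cr p y⟫ • cr l z) := by
    rw [← e1, ← e2, ← e3, eq_neg_iff_add_eq_zero, ← e4]
    abel
  have n1 : ‖cr l p‖ = 1 := by rw [norm_cr_perp h1, hl, hp, one_mul]
  have n2 : ‖cr l y‖ = 1 := by rw [norm_cr_perp h2, hl, hy, one_mul]
  have n3 : ‖cr l z‖ = 1 := by rw [norm_cr_perp h3, hl, hz, one_mul]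
  have e6 : ⟪l, cr z p⟫ = -⟪l, cr p z⟫ := by
    rw [cr_comm p z, inner_neg_right]
  calc |⟪l, cr y z⟫| = ‖⟪l, cr y z⟫ • cr l p‖ := by rw [norm_smul, n1, mul_one, Real.norm_eq_abs]
    _ = ‖⟪l, cr z p⟫ • cr l y + ⟪l, cr p y⟫ • cr l z‖ := by rw [e5, norm_neg]
    _ ≤ ‖⟪l, cr z p⟫ • cr l y‖ + ‖⟪l, cr p y⟫ • cr l z‖ := norm_add_le _ _
    _ = |⟪l, cr p y⟫| + |⟪l, cr p z⟫| := by
      rw [norm_smul, norm_smul, n2, n3, mul_one, mul_one, Real.norm_eq_abs, Real.norm_eq_abs, e6, abs_neg, add_comm]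

private theorem TP_N {μ : Measure E3} (hf : IsFiniteMeasure μ) (h1 : μ HSᶜ = 0) {l p : E3} (hl : l ∈ HS) (hp : p ∈ HS)
    (hpl : ⟪l, p⟫ = 0) :
    ∫⁻ y in pl l \ {p}, ∫⁻ z in pl l \ {p}, en ⟪l, cr y z⟫ ∂μ ∂μ ≤ 2 * QQ μ l p * μ (pl l \ {p}) := by
  have hS : MeasurableSet (pl l \ {p}) := (pl_meas l).diff (measurableSet_singleton p)
  have hae : ∀ᵐ y ∂μ, y ∈ HS := by
    rw [ae_iff]
    exact h1
  have hae2 : ∀ᵐ y ∂(μ.restrict (pl l \ {p})), y ∈ HS ∧ ⟪l, y⟫ = 0 := by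
    rw [ae_restrict_iff' hS]
    filter_upwards [hae] with y hy hy2
    exact ⟨hy, hy2.1⟩
  have hm : Measurable fun z : E3 => en ⟪l, cr p z⟫ := by
    have := (measurable_en_inner l).comp (continuous_cr.comp (Continuous.prodMk_right p)).measurable
    exact this
  have hI : ∫⁻ z in pl l \ {p}, en ⟪l, cr p z⟫ ∂μ ≤ QQ μ l p := lintegral_mono_set diff_subset
  calc ∫⁻ y in pl l \ {p}, ∫⁻ z in pl l \ {p}, en ⟪l, cr y z⟫ ∂μ ∂μ
      ≤ ∫⁻ y in pl l \ {p}, ∫⁻ z in pl l \ {p}, (en ⟪l, cr p y⟫ + en ⟪l, cr p z⟫) ∂μ ∂μ := by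
        refine lintegral_mono_ae ?_
        filter_upwards [hae2] with y hy
        refine lintegral_mono_ae ?_
        filter_upwards [hae2] with z hz
        unfold en
        rw [← ENNReal.ofReal_add (abs_nonneg _) (abs_nonneg _)]
        exact ENNReal.ofReal_le_ofReal (TP_tri hl.1 hp.1 hy.1.1 hz.1.1 hpl hy.2 hz.2)
    _ = ∫⁻ y in pl l \ {p}, (en ⟪l, cr p y⟫ * μ (pl l \ {p}) +
          ∫⁻ z in pl l \ {p}, en ⟪l, cr p z⟫ ∂μ) ∂μ := by
        refine lintegral_congr fun y => ?_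
        rw [lintegral_add_left measurable_const, lintegral_const, Measure.restrict_apply MeasurableSet.univ, univ_inter]
    _ = 2 * (∫⁻ z in pl l \ {p}, en ⟪l, cr p z⟫ ∂μ) * μ (pl l \ {p}) := by
        rw [lintegral_add_right _ measurable_const, lintegral_const, Measure.restrict_apply MeasurableSet.univ,
          univ_inter, lintegral_mul_const _ hm]
        ring
    _ ≤ 2 * QQ μ l p * μ (pl l \ {p}) := by gcongr

private theorem TP_alg {a b Q Q' A B O s N : ℝ≥0∞} (ha : a ≠ ⊤) (ha0 : a ≠ 0) (hb : b ≠ ⊤) (hb0 : b ≠ 0)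
    (hQ : Q ≠ ⊤) (hQ' : Q' ≠ ⊤) (hA : A ≠ ⊤) (hA0 : A ≠ 0) (hB : B ≠ ⊤) (hO : O ≠ ⊤) (hs : s ≠ ⊤) (hN : N ≠ ⊤)
    (h1 : 2 * a * B * Q' + O * A ≤ a * A) (h2 : b * B * Q' = a * A * Q) (h3 : b = 2 * a * Q + N)
    (h4 : N ≤ 2 * Q * s) : O ≤ s := by
  lift a to NNReal using ha
  lift b to NNReal using hb
  lift Q to NNReal using hQ
  lift Q' to NNReal using hQ'
  lift A to NNReal using hA
  lift B to NNReal using hB
  lift O to NNReal using hO
  lift s to NNReal using hs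
  lift N to NNReal using hN
  norm_cast at *
  have r1 : (2 : ℝ) * a * B * Q' + O * A ≤ a * A := by exact_mod_cast h1
  have r2 : (b : ℝ) * B * Q' = a * A * Q := by exact_mod_cast h2
  have r3 : (b : ℝ) = 2 * a * Q + N := by exact_mod_cast h3
  have r4 : (N : ℝ) ≤ 2 * Q * s := by exact_mod_cast h4
  have pa : (0 : ℝ) < a := by exact_mod_cast pos_iff_ne_zero.2 ha0
  have pb : (0 : ℝ) < b := by exact_mod_cast pos_iff_ne_zero.2 hb0
  have pA : (0 : ℝ) < A := by exact_mod_cast pos_iff_ne_zero.2 hA0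
  have ps : (0 : ℝ) ≤ s := s.2
  have pN : (0 : ℝ) ≤ N := N.2
  have k0 : (b : ℝ) * (2 * a * B * Q' + O * A) ≤ b * (a * A) := mul_le_mul_of_nonneg_left r1 pb.le
  have k1 : (A : ℝ) * (2 * a ^ 2 * Q + O * b) ≤ A * (a * b) := by
    have e : (b : ℝ) * (2 * a * B * Q' + O * A) = A * (2 * a ^ 2 * Q + O * b) := by
      have : (b : ℝ) * (2 * a * B * Q') = 2 * a * (b * B * Q') := by ring
      rw [mul_add, this, r2]
      ring
    rw [← e]
    linarith [k0]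
  have k2 : (2 : ℝ) * a ^ 2 * Q + O * b ≤ a * b := le_of_mul_le_mul_left k1 pA
  have k3 : (O : ℝ) * b ≤ a * N := by
    have e : (a : ℝ) * b = 2 * a ^ 2 * Q + a * N := by rw [r3]; ring
    linarith
  have k4 : (a : ℝ) * N ≤ a * (2 * Q * s) := mul_le_mul_of_nonneg_left r4 pa.le
  have k5 : (2 * a * Q : ℝ) * s ≤ b * s := mul_le_mul_of_nonneg_right (by linarith) ps
  have k6 : (O : ℝ) * b ≤ s * b := by linarith
  exact_mod_cast le_of_mul_le_mul_right k6 pb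

theorem TP1 {μ ν : Measure E3} (h : Sys μ ν) {p l : E3} (hp : p ∈ At μ) (hl : l ∈ At ν) (hpl : ⟪l, p⟫ = 0)
    (hb : ν {l} * J ν p * QQ ν p l = μ {p} * J μ l * QQ μ l p) : Om μ p ≤ μ (pl l \ {p}) := by
  have i1 := h.f1
  have i2 := h.f2
  have hpS : p ∈ HS := At_sub h.s1 hp
  have hlS : l ∈ HS := At_sub h.s2 hl
  have hlp : ⟪p, l⟫ = 0 := by rw [real_inner_comm]; exact hpl
  have hPTW := PTW h.symm hpS hlp
  have hATD := ATD h hlS hpl
  have hATD2 := ATD h.symm hpS hlp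
  rw [NmL h.f1 hlS.1 hpl] at hATD
  have hN := TP_N h.f1 h.s1 hlS hpS hpl
  have ha : μ {p} ≠ ⊤ := measure_ne_top μ _
  have hb' : ν {l} ≠ ⊤ := measure_ne_top ν _
  have hA : J μ l ≠ ⊤ := J_ne_top (FM_of_HS h.f1 h.s1) l
  have hB : J ν p ≠ ⊤ := J_ne_top (FM_of_HS h.f2 h.s2) p
  have hA0 : J μ l ≠ 0 := h.p1 l (HS_ne hlS)
  have hQ : QQ μ l p ≠ ⊤ := by
    intro hQ
    rw [hQ, ENNReal.mul_top (mul_ne_zero two_ne_zero hp), top_add] at hATD
    exact hb' hATD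
  have hN' : ∫⁻ y in pl l \ {p}, ∫⁻ z in pl l \ {p}, en ⟪l, cr y z⟫ ∂μ ∂μ ≠ ⊤ := by
    intro hT
    rw [hT, add_top] at hATD
    exact hb' hATD
  have hQ' : QQ ν p l ≠ ⊤ := by
    intro hQ
    rw [hQ, ENNReal.mul_top (mul_ne_zero two_ne_zero hl), top_add] at hATD2
    exact ha hATD2
  have hO : Om μ p ≠ ⊤ := by
    intro hT
    rw [hT, ENNReal.top_mul hA0, add_top, top_le_iff] at hPTW
    exact ENNReal.mul_ne_top ha hA hPTW
  exact TP_alg ha hp hb' hl hQ hQ' hA hA0 hB hO (measure_ne_top μ _) hN' hPTW hb hATD hN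

theorem TP {μ ν : Measure E3} (h : Sys μ ν) {p : E3} (hp : p ∈ At μ) (hO : Om μ p ≠ 0)
    (hb : ∀ l ∈ At ν, ⟪l, p⟫ = 0 → ν {l} * J ν p * QQ ν p l = μ {p} * J μ l * QQ μ l p) :
    (At ν ∩ pl p).Finite := by
  have i1 := h.f1
  have hpS : p ∈ HS := At_sub h.s1 hp
  have hin : ∀ l : ↥(At ν ∩ pl p), ⟪(l : E3), p⟫ = 0 := fun l => by
    rw [real_inner_comm]
    exact l.2.2
  have hfin := Measure.finite_const_le_meas_of_disjoint_iUnion (ι := ↥(At ν ∩ pl p)) μ (ε := Om μ p)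
    (pos_iff_ne_zero.2 hO) (As := fun l => (pl (l : E3) \ {p}) ∩ HS)
    (fun l => ((pl_meas _).diff (measurableSet_singleton p)).inter HS_meas) ?_ (measure_ne_top μ _)
  · have huniv : {l : ↥(At ν ∩ pl p) | Om μ p ≤ μ ((pl (l : E3) \ {p}) ∩ HS)} = univ := by
      refine eq_univ_of_forall fun l => ?_
      have h1 := TP1 h hp l.2.1 (hin l) (hb l l.2.1 (hin l))
      have h2 : μ (pl (l : E3) \ {p}) ≤ μ ((pl (l : E3) \ {p}) ∩ HS) := by
        calc μ (pl (l : E3) \ {p}) ≤ μ (((pl (l : E3) \ {p}) ∩ HS) ∪ HSᶜ) := by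
              refine measure_mono fun x hx => ?_
              by_cases hxS : x ∈ HS
              · exact Or.inl ⟨hx, hxS⟩
              · exact Or.inr hxS
          _ ≤ μ ((pl (l : E3) \ {p}) ∩ HS) + μ HSᶜ := measure_union_le _ _
          _ = μ ((pl (l : E3) \ {p}) ∩ HS) := by rw [h.s1, add_zero]
      exact h1.trans h2
    rw [huniv] at hfin
    exact Set.finite_coe_iff.1 (Set.finite_univ_iff.1 hfin)
  · intro l l' hll
    rw [Function.onFun, Set.disjoint_left]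
    rintro y ⟨⟨hy1, hy2⟩, hyS⟩ ⟨⟨hy3, -⟩, -⟩
    have hne : cr y p ≠ 0 := fun h0 => hy2 (HS_unique hyS hpS h0)
    have j1 := join_unique (At_sub h.s2 l.2.1) hne hy1 (hin l)
    have j2 := join_unique (At_sub h.s2 l'.2.1) hne hy3 (hin l')
    exact hll (Subtype.ext (j1.symm.trans j2))

end Pool.Agent.FAC3
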