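import Pool.Agent.FAC3.QD
import Pool.Agent.FAC3.CLO
import Pool.Agent.FAC3.DNb
import Pool.Agent.FAC3.CY1
import Pool.Agent.FAC3.CY2
import Pool.Agent.FAC3.DS
import Pool.Agent.FAC3.TP
import Pool.Agent.FAC3.LS

/-! Module FAC3-END: the theorem about measures: a self-dual pair of measures with an atom is a cylinder. -/

set_option autoImplicit false

namespace Pool.Agent.FAC3
open MeasureTheory Set Filter Topology
open scoped RealInnerProductSpace ENNReal

theorem closed4_atoms {μ ν : Measure E3} (h : Sys μ ν) : Closed4 {v : E3 | rep v ∈ At μ} := by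
  have key : ∀ {μ ν : Measure E3}, Sys μ ν → ∀ {a b : E3}, rep a ∈ At μ → rep b ∈ At μ → cr a b ≠ 0 →
      rep (cr a b) ∈ At ν := by
    intro μ ν h a b ha hb hab
    obtain ⟨s, -, hs⟩ := rep_spec a
    obtain ⟨t, -, ht⟩ := rep_spec b
    have e : cr a b = (s * t) • cr (rep a) (rep b) := by
      conv_lhs => rw [hs, ht]
      rw [cr_smul_left, cr_smul_right, smul_smul]
    have hst : s * t ≠ 0 := by
      intro h0; apply hab; rw [e, h0, zero_smul]
    have hc : cr (rep a) (rep b) ≠ 0 := by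
      intro h0; apply hab; rw [e, h0, smul_zero]
    rw [e, rep_smul hst]
    exact CLO h ha hb hc
  constructor
  · intro v hv t ht
    show rep (t • v) ∈ At μ
    rw [rep_smul ht]
    exact hv
  · intro a ha b hb c hc d hd hne
    have hab : cr a b ≠ 0 := by
      intro h0; apply hne; rw [h0, cr_zero_left]
    have hcd : cr c d ≠ 0 := by
      intro h0; apply hne; rw [h0, cr_zero_right]
    exact key h.symm (key h ha hb hab) (key h hc hd hcd) hne

/-- a finite union of lines is not dense. -/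
theorem not_dense_of_finite {P : Set E3} (hP : P.Finite) (hPH : P ⊆ HS) : ¬ Dense {v : E3 | rep v ∈ P} := by
  intro hD
  -- the set is contained in a finite union of proper closed subspaces
  have hsub : {v : E3 | rep v ∈ P} ⊆ ⋃ p ∈ P, ln p := by
    intro v hv
    simp only [mem_iUnion]
    exact ⟨rep v, hv, (mem_ln_iff (hPH hv)).2 (Or.inr rfl)⟩
  have hcl : IsClosed (⋃ p ∈ P, ln p) := by
    refine hP.isClosed_biUnion fun p _ => ?_
    have : Continuous (fun x : E3 => cr p x) := continuous_cr.comp (continuous_const.prodMk continuous_id)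
    exact isClosed_singleton.preimage this
  have huniv : (⋃ p ∈ P, ln p) = univ := by
    rw [← univ_subset_iff]
    calc univ = closure {v : E3 | rep v ∈ P} := hD.closure_eq.symm
      _ ⊆ closure (⋃ p ∈ P, ln p) := closure_mono hsub
      _ = _ := hcl.closure_eq
  -- but each line has measure zero
  have hz : (volume : Measure E3) (⋃ p ∈ P, ln p) = 0 := by
    refine (measure_biUnion_null_iff hP.countable).2 fun p hp => ?_
    have hp0 : p ≠ 0 := HS_ne (hPH hp)
    have hsub' : ln p ⊆ ((ℝ ∙ p : Submodule ℝ E3) : Set E3) := by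
      intro x hx
      rw [cr_eq_zero hp0 hx]
      exact Submodule.smul_mem _ _ (Submodule.mem_span_singleton_self p)
    refine measure_mono_null hsub' (Measure.addHaar_submodule _ _ ?_)
    intro htop
    have h1 : Module.finrank ℝ (ℝ ∙ p : Submodule ℝ E3) = 1 := finrank_span_singleton hp0
    rw [htop, finrank_top] at h1
    simp at h1
  rw [huniv] at hz
  have : (volume : Measure E3) univ ≠ 0 := by simp
  exact this hz

theorem cyl_or {μ ν : Measure E3} (h : Sys μ ν) (hne : (At μ).Nonempty) :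
    (∃ p ∈ HS, 4 * μ {p} * J ν p = 1) ∨ (∃ l ∈ HS, 4 * ν {l} * J μ l = 1) := by
  by_contra hcon
  push Not at hcon
  obtain ⟨h1, h2⟩ := hcon
  have hO : ∀ p ∈ At μ, Om μ p ≠ 0 := by
    intro p hp h0
    rcases LS h hp h0 with h3 | ⟨l, hl, h3⟩
    · exact h1 p (At_sub h.s1 hp) h3
    · exact h2 l hl h3
  have hO' : ∀ l ∈ At ν, Om ν l ≠ 0 := by
    intro p hp h0
    rcases LS h.symm hp h0 with h3 | ⟨l, hl, h3⟩
    · exact h2 p (At_sub h.s2 hp) h3
    · exact h1 l hl h3
  obtain ⟨hbal, hgap⟩ := DS h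
  have hA : ∀ l ∈ At ν, μ (pl l \ At μ) = 0 := fun l hl => (hgap l hl).resolve_left (hO' l hl)
  have hpen : ∀ p ∈ At μ, (At ν ∩ pl p).Finite := fun p hp =>
    TP h hp (hO p hp) fun l hl hpl => hbal p hp l hl hpl
  have hlin : ∀ l ∈ At ν, (At μ ∩ pl l).Finite := fun l hl =>
    TP h.symm hl (hO' l hl) fun p hp hpl => (hbal p hp l hl (by rw [real_inner_comm]; exact hpl)).symm
  obtain ⟨p, hp⟩ := hne
  have hfin : (At μ).Finite := by
    refine ((hpen p hp).biUnion fun l hl => hlin l hl.1).union (finite_singleton p) |>.subset ?_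
    intro q hq
    by_cases hqp : cr p q = 0
    · right
      exact (HS_unique (At_sub h.s1 hp) (At_sub h.s1 hq) hqp).symm
    · left
      simp only [mem_iUnion]
      refine ⟨rep (cr p q), ⟨CLO h hp hq hqp, ?_⟩, hq, ?_⟩
      · show ⟪p, rep (cr p q)⟫ = 0
        rw [inner_rep_eq_zero]
        exact inner_cr_left p q
      · show ⟪rep (cr p q), q⟫ = 0
        rw [real_inner_comm, inner_rep_eq_zero]
        exact inner_cr_right p q
  obtain ⟨a, ha, b, hb, c, hc, d, hd', hg⟩ := QD h hp (hO p hp) hA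
  have hm : ∀ {x : E3}, x ∈ At μ → x ∈ {v : E3 | rep v ∈ At μ} := by
    intro x hx
    show rep x ∈ At μ
    rwa [rep_of_mem (At_sub h.s1 hx)]
  obtain ⟨e₁, e₂, e₃, he, hC⟩ := DNa (closed4_atoms h) (hm ha) (hm hb) (hm hc) (hm hd') hg
  exact not_dense_of_finite hfin (At_sub h.s1) (DNb (closed4_atoms h) he hC)

theorem END {μ ν : Measure E3} (h : Sys μ ν) (hne : (At μ).Nonempty ∨ (At ν).Nonempty) : CylForm (J ν) := by
  have hor : (∃ p ∈ HS, 4 * μ {p} * J ν p = 1) ∨ (∃ l ∈ HS, 4 * ν {l} * J μ l = 1) := by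
    rcases hne with h1 | h1
    · exact cyl_or h h1
    · exact (cyl_or h.symm h1).symm
  rcases hor with ⟨p, hp, hp1⟩ | ⟨p, hp, hp1⟩
  · obtain ⟨q, hpq, hc⟩ := CY1 h hp hp1
    exact CY2a h hpq hc
  · obtain ⟨q, hpq, hc⟩ := CY1 h.symm hp hp1
    exact CY2b h hpq hc

end Pool.Agent.FAC3
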