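import Pool.Agent.FAC3.CRb

/-! Module FAC3-ENa: elementary properties of `en`, `J`, `TT`, `FM`, `At`, `Nm`. -/

set_option autoImplicit false

namespace Pool.Agent.FAC3
open MeasureTheory Set Filter Topology
open scoped RealInnerProductSpace ENNReal

theorem en_zero : en 0 = 0 := by
  simp [en]

theorem en_neg (t : ℝ) : en (-t) = en t := by
  simp [en]

theorem en_mul (a b : ℝ) : en (a * b) = en a * en b := by
  simp only [en]
  rw [abs_mul, ENNReal.ofReal_mul (abs_nonneg _)]

theorem en_add_le (a b : ℝ) : en (a + b) ≤ en a + en b := by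
  simp only [en]
  rw [← ENNReal.ofReal_add (abs_nonneg _) (abs_nonneg _)]
  exact ENNReal.ofReal_le_ofReal (abs_add_le a b)

theorem en_sub_le (a b : ℝ) : en (a - b) ≤ en a + en b := by
  rw [sub_eq_add_neg, ← en_neg b]
  exact en_add_le a (-b)

theorem en_ne_top (t : ℝ) : en t ≠ ⊤ := by
  simp only [en]
  exact ENNReal.ofReal_ne_top

theorem en_eq_zero {t : ℝ} : en t = 0 ↔ t = 0 := by
  simp only [en]
  rw [ENNReal.ofReal_eq_zero]
  constructor
  · intro h
    exact abs_eq_zero.1 (le_antisymm h (abs_nonneg _))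
  · intro h
    rw [h, abs_zero]

theorem en_toReal (t : ℝ) : (en t).toReal = |t| := by
  simp only [en]
  exact ENNReal.toReal_ofReal (abs_nonneg _)

theorem measurable_en : Measurable en := by
  unfold en
  exact ENNReal.measurable_ofReal.comp continuous_abs.measurable

theorem measurable_en_inner (u : E3) : Measurable (fun x : E3 => en ⟪u, x⟫) :=
  measurable_en.comp (continuous_const.inner continuous_id).measurable

theorem measurable_en_inner2 : Measurable (fun q : E3 × E3 => en ⟪q.1, q.2⟫) :=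
  measurable_en.comp (continuous_fst.inner continuous_snd).measurable

theorem en_inner_le (u x : E3) : en ⟪u, x⟫ ≤ ENNReal.ofReal ‖u‖ * ENNReal.ofReal ‖x‖ := by
  simp only [en]
  rw [← ENNReal.ofReal_mul (norm_nonneg _)]
  exact ENNReal.ofReal_le_ofReal (abs_real_inner_le_norm u x)

theorem J_zero (μ : Measure E3) : J μ 0 = 0 := by
  simp [J, en_zero]

theorem J_smul (μ : Measure E3) (t : ℝ) (u : E3) : J μ (t • u) = en t * J μ u := by
  simp only [J]
  rw [← lintegral_const_mul _ (measurable_en_inner u)]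
  refine lintegral_congr fun x => ?_
  rw [real_inner_smul_left, en_mul]

theorem J_neg (μ : Measure E3) (u : E3) : J μ (-u) = J μ u := by
  simp only [J]
  refine lintegral_congr fun x => ?_
  rw [inner_neg_left, en_neg]

theorem J_add_le (μ : Measure E3) (u v : E3) : J μ (u + v) ≤ J μ u + J μ v := by
  simp only [J]
  rw [← lintegral_add_left (measurable_en_inner u)]
  refine lintegral_mono fun x => ?_
  rw [inner_add_left]
  exact en_add_le _ _

theorem J_ne_top {μ : Measure E3} (h : FM μ) (u : E3) : J μ u ≠ ⊤ := by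
  have h1 : J μ u ≤ ENNReal.ofReal ‖u‖ * ∫⁻ x, ENNReal.ofReal ‖x‖ ∂μ := by
    have hn : Measurable (fun x : E3 => ENNReal.ofReal ‖x‖) :=
      ENNReal.measurable_ofReal.comp measurable_norm
    simp only [J]
    rw [← lintegral_const_mul _ hn]
    exact lintegral_mono fun x => en_inner_le u x
  exact ne_top_of_le_ne_top (ENNReal.mul_ne_top ENNReal.ofReal_ne_top h) h1

theorem measurable_J (μ : Measure E3) [SFinite μ] : Measurable (J μ) := by
  unfold J
  exact measurable_en_inner2.lintegral_prod_right'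

theorem J_eq_of_par (μ : Measure E3) {m v : E3} (hm : ‖m‖ = 1) (h : cr m v = 0) : J μ v = en ⟪m, v⟫ * J μ m := by
  have hm0 : m ≠ 0 := by
    intro h0
    rw [h0, norm_zero] at hm
    exact zero_ne_one hm
  have h1 := cr_eq_zero hm0 h
  rw [hm, one_pow, div_one] at h1
  rw [← J_smul, ← h1]

theorem FM_of_HS {μ : Measure E3} (hf : IsFiniteMeasure μ) (h : μ HSᶜ = 0) : FM μ := by
  have h1 : ∫⁻ x, ENNReal.ofReal ‖x‖ ∂μ ≤ ∫⁻ _, 1 ∂μ := by
    refine lintegral_mono_ae ?_
    have h2 : ∀ᵐ x ∂μ, x ∈ HS := by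
      rw [ae_iff]
      exact h
    filter_upwards [h2] with x hx
    rw [HS_norm hx, ENNReal.ofReal_one]
  have h3 : ∫⁻ _, 1 ∂μ ≠ (⊤ : ℝ≥0∞) := by
    rw [lintegral_one]
    exact measure_ne_top μ _
  exact ne_top_of_le_ne_top h3 h1

theorem FM_mono {μ ν : Measure E3} (h : μ ≤ ν) (hν : FM ν) : FM μ :=
  ne_top_of_le_ne_top hν (lintegral_mono' h le_rfl)

private theorem ENa_meas_cr : Measurable (fun q : E3 × E3 => cr q.1 q.2) := continuous_cr.measurable

theorem TT_finite {μ : Measure E3} (hf : IsFiniteMeasure μ) : IsFiniteMeasure (TT μ) := by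
  unfold TT
  infer_instance

theorem lint_TT {μ : Measure E3} [SFinite μ] {g : E3 → ℝ≥0∞} (hg : Measurable g) :
    ∫⁻ x, g x ∂(TT μ) = ∫⁻ y, ∫⁻ z, g (cr y z) ∂μ ∂μ := by
  have h1 : Measurable (fun q : E3 × E3 => g (cr q.1 q.2)) := hg.comp ENa_meas_cr
  unfold TT
  rw [lintegral_map hg ENa_meas_cr, lintegral_prod _ h1.aemeasurable]

theorem FM_TT {μ : Measure E3} [SFinite μ] (h : FM μ) : FM (TT μ) := by
  have hn : Measurable (fun x : E3 => ENNReal.ofReal ‖x‖) :=
    ENNReal.measurable_ofReal.comp measurable_norm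
  have h1 : ∫⁻ x, ENNReal.ofReal ‖x‖ ∂(TT μ) ≤
      (∫⁻ x, ENNReal.ofReal ‖x‖ ∂μ) * (∫⁻ x, ENNReal.ofReal ‖x‖ ∂μ) := by
    rw [lint_TT hn, ← lintegral_mul_const _ hn]
    refine lintegral_mono fun y => ?_
    show ∫⁻ z, ENNReal.ofReal ‖cr y z‖ ∂μ ≤ ENNReal.ofReal ‖y‖ * ∫⁻ x, ENNReal.ofReal ‖x‖ ∂μ
    rw [← lintegral_const_mul _ hn]
    refine lintegral_mono fun z => ?_
    show ENNReal.ofReal ‖cr y z‖ ≤ ENNReal.ofReal ‖y‖ * ENNReal.ofReal ‖z‖
    rw [← ENNReal.ofReal_mul (norm_nonneg _)]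
    exact ENNReal.ofReal_le_ofReal (norm_cr_le y z)
  exact ne_top_of_le_ne_top (ENNReal.mul_ne_top h h) h1

theorem Nm_finite {μ : Measure E3} (hf : IsFiniteMeasure μ) (p : E3) : IsFiniteMeasure (Nm μ p) := by
  unfold Nm
  have : IsFiniteMeasure (TT (μ.restrict {p}ᶜ)) := TT_finite inferInstance
  infer_instance

theorem FM_Nm {μ : Measure E3} (hf : IsFiniteMeasure μ) (h : FM μ) (p : E3) : FM (Nm μ p) := by
  unfold Nm
  exact FM_mono Measure.restrict_le_self (FM_TT (FM_mono Measure.restrict_le_self h))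

theorem At_countable {μ : Measure E3} (hf : IsFiniteMeasure μ) : (At μ).Countable := by
  have h1 := Measure.countable_meas_pos_of_disjoint_iUnion (μ := μ) (As := fun p : E3 => ({p} : Set E3))
    (fun p => measurableSet_singleton p)
    (fun p q hpq => Set.disjoint_singleton.2 hpq)
  have h2 : At μ = {p | 0 < μ {p}} := by
    ext p
    simp only [At, Set.mem_ofPred_eq, pos_iff_ne_zero]
  rw [h2]
  exact h1

theorem At_meas {μ : Measure E3} (hf : IsFiniteMeasure μ) : MeasurableSet (At μ) :=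
  (At_countable hf).measurableSet

theorem At_sub {μ : Measure E3} (h : μ HSᶜ = 0) : At μ ⊆ HS := by
  intro p hp
  by_contra hc
  refine hp (measure_mono_null ?_ h)
  intro x hx
  rw [Set.mem_singleton_iff] at hx
  rw [hx]
  exact hc

end Pool.Agent.FAC3
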