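import Pool.Agent.FAC3.SDa
import Pool.Agent.FAC3.ATM
import Pool.Agent.FAC3.Geo
import Pool.Agent.HP89.G0

/-! Module FAC3-FA1: a facet normal of `K` is an atom of `μ`.

The second difference of the support function of `K` at a facet normal `u` in a direction `v ⊥ u` does not vanish, so
`∫_{pl u} en ⟪v, m⟫ dν ≠ 0` by `SD`; the formula `ATM` for the mass of the atom gives the claim. -/

set_option autoImplicit false

namespace Pool.Agent.FAC3
open MeasureTheory Set Filter Topology Metric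
open Pool.Agent.Helper82.Proj1 (supp)
open Pool.Agent.HP89 (CC IsPB)
open scoped RealInnerProductSpace ENNReal Pointwise

private theorem fa1_cr_ne {u v : E3} (hu : u ≠ 0) (hv : v ≠ 0) (huv : ⟪u, v⟫ = 0) : cr u v ≠ 0 := by
  intro h0
  have h1 := norm_cr_perp huv
  rw [h0, norm_zero] at h1
  exact mul_ne_zero (norm_ne_zero_iff.2 hu) (norm_ne_zero_iff.2 hv) h1.symm

private theorem fa1_two {K : Set E3} {u v : E3} (hf : IsFacetNormal K u) (hv : v ≠ 0) (huv : ⟪u, v⟫ = 0) :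
    ∃ a ∈ face K u, ∃ b ∈ face K u, ⟪b, v⟫ < ⟪a, v⟫ := by
  by_contra hcon
  push Not at hcon
  have hle : vectorSpan ℝ (face K u) ≤ Submodule.span ℝ {cr u v} := by
    rw [vectorSpan_def, Submodule.span_le]
    rintro _ ⟨a, ha, b, hb, rfl⟩
    have h1 : ⟪u, a - b⟫ = 0 := by
      rw [inner_sub_right, real_inner_comm, ha.2, real_inner_comm, hb.2, sub_self]
    have h2 : ⟪v, a - b⟫ = 0 := by
      rw [inner_sub_right, real_inner_comm, real_inner_comm b v]
      have h3 := hcon a ha b hb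
      have h4 := hcon b hb a ha
      linarith
    have h5 : cr (cr u v) (a - b) = 0 := by
      rw [cr_cr, h1, h2]
      simp
    rw [SetLike.mem_coe, Submodule.mem_span_singleton]
    exact ⟨_, (cr_eq_zero (fa1_cr_ne hf.1 hv huv) h5).symm⟩
  have h1 := Submodule.finrank_mono hle
  have h2 : Module.finrank ℝ (Submodule.span ℝ {cr u v}) ≤ 1 := by
    have h3 := finrank_span_le_card (R := ℝ) ({cr u v} : Set E3)
    simpa using h3
  rw [hf.2] at h1
  omega

private theorem fa1_dir {K : Set E3} {u : E3} (hf : IsFacetNormal K u) : ∃ v : E3, v ≠ 0 ∧ ⟪u, v⟫ = 0 := by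
  by_contra hcon
  push Not at hcon
  have hle : vectorSpan ℝ (face K u) ≤ ⊥ := by
    rw [vectorSpan_def, Submodule.span_le]
    rintro _ ⟨a, ha, b, hb, rfl⟩
    have h1 : ⟪u, a - b⟫ = 0 := by
      rw [inner_sub_right, real_inner_comm, ha.2, real_inner_comm, hb.2, sub_self]
    rw [SetLike.mem_coe, Submodule.mem_bot]
    by_contra h2
    exact hcon (a - b) h2 h1
  have h1 := Submodule.finrank_mono hle
  rw [hf.2, finrank_bot] at h1
  omega

private theorem fa1_ne {K : Set E3} (hK : CC K) {ν : Measure E3} (hν : FM ν) {κ : ℝ} (hκ : 0 < κ) {x1 : E3}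
    (hs : ∀ u, supp K u = ⟪x1, u⟫ + κ * (J ν u).toReal) {u : E3} (hf : IsFacetNormal K u) {v : E3}
    (hv : v ≠ 0) (huv : ⟪u, v⟫ = 0) : ∫⁻ x in pl u, en ⟪v, x⟫ ∂ν ≠ 0 := by
  obtain ⟨a, ha, b, hb, hab⟩ := fa1_two hf hv huv
  intro h0
  have h1 := SD hν u v
  rw [h0, ENNReal.toReal_zero] at h1
  have h2 : (⟪a, v⟫ - ⟪b, v⟫) / (2 * κ) ≤ 0 := by
    refine ge_of_tendsto h1 ?_
    filter_upwards [self_mem_nhdsWithin] with t ht
    have ht' : (0 : ℝ) < t := ht
    have e1 := Pool.Agent.Helper82.Proj1.le_supp hK.compact ha.1 (u + t • v)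
    have e2 := Pool.Agent.Helper82.Proj1.le_supp hK.compact hb.1 (u - t • v)
    rw [inner_add_right, real_inner_smul_right, ha.2, hs, hs, inner_add_right, real_inner_smul_right] at e1
    rw [inner_sub_right, real_inner_smul_right, hb.2, hs, hs, inner_sub_right, real_inner_smul_right] at e2
    rw [div_le_div_iff₀ (by positivity) (by positivity)]
    nlinarith
  have h3 : 0 < (⟪a, v⟫ - ⟪b, v⟫) / (2 * κ) := div_pos (by linarith) (by positivity)
  linarith

theorem FA1 {K : Set E3} (hK : CC K) {μ ν : Measure E3} (h : Sys μ ν) {κ : ℝ} (hκ : 0 < κ) {x1 : E3}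
    (hs : ∀ u, supp K u = ⟪x1, u⟫ + κ * (J ν u).toReal) {u : E3} (hf : IsFacetNormal K u) : rep u ∈ At μ := by
  have hfin := h.f2
  have hν : FM ν := FM_of_HS h.f2 h.s2
  have hA := fun (v : E3) (hv : v ≠ 0) (huv : ⟪u, v⟫ = 0) => fa1_ne hK hν hκ hs hf hv huv
  obtain ⟨p, hp⟩ : ∃ p, p = rep u := ⟨_, rfl⟩
  have hpHS : p ∈ HS := by
    rw [hp]
    exact rep_mem hf.1
  have hpl : ∀ x : E3, ⟪p, x⟫ = 0 ↔ ⟪u, x⟫ = 0 := by
    intro x
    rw [hp, real_inner_comm, inner_rep_eq_zero, real_inner_comm]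
  have hplu : pl p = pl u := by
    ext x
    exact hpl x
  rw [← hp]
  show μ {p} ≠ 0
  rw [ATM h.symm hpHS]
  intro h0
  have hQ : ∀ y, QQ ν p y = J (ν.restrict (pl p)) (cr p y) := by
    intro y
    unfold QQ J
    refine lintegral_congr fun z => ?_
    rw [inner_cr_assoc]
  have hQm : Measurable (QQ ν p) := by
    have h1 : QQ ν p = fun y => J (ν.restrict (pl p)) (cr p y) := funext hQ
    rw [h1]
    exact (measurable_J _).comp ((continuous_cr.comp (Continuous.prodMk_right p)).measurable)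
  rw [lintegral_eq_zero_iff hQm] at h0
  have h1 : ∀ᵐ y ∂ν, y ∈ pl p → QQ ν p y = 0 := (ae_restrict_iff' (pl_meas p)).1 h0
  have h2 : ∀ᵐ y ∂ν, y ∈ HS := h.s2
  have h3 : ∀ᵐ y ∂ν, y ∉ pl p := by
    filter_upwards [h1, h2] with y hy1 hy2 hy
    have hy0 : y ≠ 0 := HS_ne hy2
    have h4 : cr p y ≠ 0 := fa1_cr_ne (HS_ne hpHS) hy0 hy
    refine hA (cr p y) h4 ((hpl _).1 (inner_cr_left p y)) ?_
    rw [← hplu]
    have h5 := hQ y
    rw [hy1 hy] at h5
    exact h5.symm
  have h4 : ν (pl p) = 0 := measure_eq_zero_iff_ae_notMem.2 h3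
  obtain ⟨v, hv, huv⟩ := fa1_dir hf
  refine hA v hv huv ?_
  rw [← hplu]
  exact setLIntegral_measure_zero _ _ h4

end Pool.Agent.FAC3
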