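import Pool.Agent.FAC3.ATM

/-! Module FAC3-N0: `N_m` only charges directions of atoms of `μ`.

If `x ∉ At μ` is a point of the line of an atom `m` of `ν`, then `ν (pl x \ {m}) = 0` by `ATM`; for `n ≠ m` the vectors
`n'` with `⟪m, n × n'⟫ = 0` lie in `pl x` for `x = rep (m × n)`, and `rep (n × n') = x`. -/

set_option autoImplicit false

namespace Pool.Agent.FAC3
open MeasureTheory Set Filter Topology
open scoped RealInnerProductSpace ENNReal

private theorem n0_pl {μ ν : Measure E3} (h : Sys μ ν) {m x : E3} (hm : m ∈ At ν) (hx : x ∈ HS) (hxm : ⟪x, m⟫ = 0)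
    (hxa : x ∉ At μ) : ν (pl x \ {m}) = 0 := by
  have hmH : m ∈ HS := At_sub h.s2 hm
  have h0 : μ {x} = 0 := by
    by_contra hne
    exact hxa hne
  have h1 : ∫⁻ y in pl x, QQ ν x y ∂ν = 0 := by
    rw [← ATM h.symm hx]
    exact h0
  have h2 : ∫⁻ y in ({m} : Set E3), QQ ν x y ∂ν ≤ ∫⁻ y in pl x, QQ ν x y ∂ν :=
    lintegral_mono_set (fun y hy => by
      rw [mem_singleton_iff.1 hy]
      exact hxm)
  rw [h1, lintegral_singleton] at h2
  have h3 : QQ ν x m = 0 := by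
    have h4 := le_antisymm h2 zero_le
    rcases mul_eq_zero.1 h4 with h5 | h5
    · exact h5
    · exact absurd h5 hm
  unfold QQ at h3
  have hmeas : Measurable (fun z : E3 => en ⟪x, cr m z⟫) :=
    (measurable_en_inner x).comp
      ((continuous_cr.comp (Continuous.prodMk continuous_const continuous_id)).measurable)
  rw [lintegral_eq_zero_iff hmeas] at h3
  have h6 : ∀ᵐ z ∂ν, z ∈ pl x → en ⟪x, cr m z⟫ = 0 := by
    rw [← ae_restrict_iff' (pl_meas x)]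
    exact h3
  have h7 : ∀ᵐ z ∂ν, z ∈ HS := h.s2
  have h8 : ∀ᵐ z ∂ν, z ∉ pl x \ {m} := by
    filter_upwards [h6, h7] with z hz hzH hz2
    have h9 : ⟪x, z⟫ = 0 := hz2.1
    have h10 : cr m z ≠ 0 := fun h0 => hz2.2 (HS_unique hmH hzH h0).symm
    have h11 : ⟪x, cr m z⟫ = 0 := en_eq_zero.1 (hz hz2.1)
    have h12 := cr_of_perp (HS_norm hx) hxm h9
    rw [h11, zero_smul] at h12
    exact h10 h12
  have h13 := h8
  rw [ae_iff] at h13
  have h14 : {a | ¬ a ∉ pl x \ {m}} = pl x \ {m} := by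
    ext a
    simp only [not_not, mem_ofPred_eq]
  rw [h14] at h13
  exact h13

theorem N0 {μ ν : Measure E3} (h : Sys μ ν) {m : E3} (hm : m ∈ At ν) :
    Nm ν m {q | q ≠ 0 ∧ rep q ∉ At μ} = 0 := by
  have hmH : m ∈ HS := At_sub h.s2 hm
  have := h.f1
  have := h.f2
  have hS : MeasurableSet {q : E3 | q ≠ 0 ∧ rep q ∉ At μ} :=
    (measurableSet_singleton (0 : E3)).compl.inter (rep_measurable (At_meas h.f1).compl)
  have hcr : Measurable (fun q : E3 × E3 => cr q.1 q.2) := continuous_cr.measurable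
  have hSp : MeasurableSet ({q : E3 | q ≠ 0 ∧ rep q ∉ At μ} ∩ pl m) := hS.inter (pl_meas m)
  unfold Nm
  rw [Measure.restrict_apply hS]
  unfold TT
  rw [Measure.map_apply hcr hSp, Measure.measure_prod_null (hcr hSp)]
  have h1 : ∀ᵐ n ∂(ν.restrict {m}ᶜ), n ∈ ({m}ᶜ : Set E3) :=
    ae_restrict_mem (measurableSet_singleton m).compl
  have h2 : ∀ᵐ n ∂(ν.restrict {m}ᶜ), n ∈ HS := ae_restrict_of_ae h.s2
  filter_upwards [h1, h2] with n hn hnH
  have hne : cr m n ≠ 0 := fun h0 => hn (HS_unique hmH hnH h0).symm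
  have hxH : rep (cr m n) ∈ HS := rep_mem hne
  have hxm : ⟪rep (cr m n), m⟫ = 0 := by
    rw [real_inner_comm, inner_rep_eq_zero]
    exact inner_cr_left m n
  have hxn : ⟪rep (cr m n), n⟫ = 0 := by
    rw [real_inner_comm, inner_rep_eq_zero]
    exact inner_cr_right m n
  have key : ∀ n' : E3, cr n n' ∈ {q : E3 | q ≠ 0 ∧ rep q ∉ At μ} ∩ pl m →
      n' ∈ pl (rep (cr m n)) ∧ rep (cr m n) ∉ At μ := by
    rintro n' ⟨⟨h3, h4⟩, h5⟩
    have h6 : ⟪m, cr n n'⟫ = 0 := h5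
    have h7 : ⟪rep (cr m n), n'⟫ = 0 := by
      rw [real_inner_comm, inner_rep_eq_zero, real_inner_comm, ← inner_cr_assoc]
      exact h6
    have h8 := join_unique hxH h3 hxn h7
    exact ⟨h7, fun h9 => h4 (by rw [h8]; exact h9)⟩
  by_cases hxa : rep (cr m n) ∈ At μ
  · have h9 : Prod.mk n ⁻¹' ((fun q : E3 × E3 => cr q.1 q.2) ⁻¹' ({q : E3 | q ≠ 0 ∧ rep q ∉ At μ} ∩ pl m)) = ∅ := by
      apply eq_empty_of_forall_notMem
      intro n' hn'
      exact (key n' hn').2 hxa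
    show (ν.restrict {m}ᶜ) (Prod.mk n ⁻¹' ((fun q : E3 × E3 => cr q.1 q.2) ⁻¹'
      ({q : E3 | q ≠ 0 ∧ rep q ∉ At μ} ∩ pl m))) = 0
    rw [h9]
    exact measure_empty
  · show (ν.restrict {m}ᶜ) (Prod.mk n ⁻¹' ((fun q : E3 × E3 => cr q.1 q.2) ⁻¹'
      ({q : E3 | q ≠ 0 ∧ rep q ∉ At μ} ∩ pl m))) = 0
    rw [Measure.restrict_apply (measurable_prodMk_left (hcr hSp))]
    refine measure_mono_null ?_ (n0_pl h hm hxH hxm hxa)
    rintro n' ⟨h3, h4⟩
    exact ⟨(key n' h3).1, h4⟩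

end Pool.Agent.FAC3
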