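import Pool.Agent.FAC3.SDa
import Pool.Agent.FAC3.TDa

/-! Module FAC3-PEN: the pencil identity: `D0` for `ν` and `TT μ`, and `TD`. -/

set_option autoImplicit false

namespace Pool.Agent.FAC3
open MeasureTheory Set Filter Topology
open scoped RealInnerProductSpace ENNReal

theorem PEN {μ ν : Measure E3} (h : Sys μ ν) (p v : E3) :
    ∫⁻ m in pl p, en ⟪v, m⟫ ∂ν = 2 * μ {p} * J μ (cr v p) + ∫⁻ q, en ⟪v, q⟫ ∂(Nm μ p) := by
  have := h.f1
  have := h.f2
  have hp := pl_meas p
  obtain ⟨g, hg⟩ : ∃ g : E3 → ℝ≥0∞, g = (pl p).indicator (fun x => en ⟪v, x⟫) := ⟨_, rfl⟩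
  have hgm : Measurable g := by
    rw [hg]
    exact (measurable_en_inner v).indicator hp
  have hge : ∀ x, g (-x) = g x := by
    intro x
    rw [hg]
    by_cases hx : x ∈ pl p
    · have hx' : -x ∈ pl p := by
        show ⟪p, -x⟫ = 0
        rw [inner_neg_right, show ⟪p, x⟫ = 0 from hx, neg_zero]
      rw [indicator_of_mem hx, indicator_of_mem hx', inner_neg_right, en_neg]
    · have hx' : -x ∉ pl p := by
        intro h1
        apply hx
        have h2 : ⟪p, -x⟫ = 0 := h1
        rw [inner_neg_right, neg_eq_zero] at h2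
        exact h2
      rw [indicator_of_notMem hx, indicator_of_notMem hx']
  have hg0 : g 0 = 0 := by
    rw [hg, indicator_of_mem (show (0 : E3) ∈ pl p from inner_zero_right p), inner_zero_right, en_zero]
  have h1 := TD h.f1 p hgm hge hg0
  have h2 : ∀ z, g (cr p z) = en ⟪cr v p, z⟫ := by
    intro z
    rw [hg, indicator_of_mem (show cr p z ∈ pl p from inner_cr_left p z), inner_cr_assoc]
  rw [D0 (FM_of_HS h.f2 h.s2) (FM_TT (FM_of_HS h.f1 h.s1)) h.h1 p v, ← lintegral_indicator hp, ← hg, h1, add_comm]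
  simp only [h2]
  congr 1
  unfold Nm
  rw [← lintegral_indicator hp, ← hg]

end Pool.Agent.FAC3
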