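import Pool.Agent.FAC3.RSTa
import Pool.Agent.FAC3.N0
import Pool.Agent.FAC3.PEN

/-! Module FAC3-RST: the pencil identity outside the atoms.

`RSTv`: subtract the sum of `RSTa` over the atoms `p ∈ pl m` from the pencil identity `PEN h.symm m v`; the part of `Nm ν m`
outside the atoms is zero by `N0`. `RST`: integrate over `v`. -/

set_option autoImplicit false

namespace Pool.Agent.FAC3
open MeasureTheory Set Filter Topology
open scoped RealInnerProductSpace ENNReal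

private theorem RST_cr (m : E3) : Measurable (fun n : E3 => cr m n) :=
  (continuous_cr.comp (by fun_prop : Continuous (fun n : E3 => (m, n)))).measurable

private theorem RST_sum (lam : Measure E3) {r : E3 → E3} (hr : Measurable r) {C : Set E3} (hC : C.Countable)
    (f : E3 → ℝ≥0∞) : ∫⁻ x in {x | r x ∈ C}, f x ∂lam = ∑' p : C, ∫⁻ x in {x | r x = p}, f x ∂lam := by
  have h1 : {x | r x ∈ C} = ⋃ p : C, {x | r x = p} := by
    ext x
    simp
  rw [h1]
  haveI := hC.to_subtype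
  refine lintegral_iUnion (fun p => hr (measurableSet_singleton _)) ?_ f
  intro p q hpq
  refine Set.disjoint_left.2 fun x hx hx' => hpq (Subtype.ext ?_)
  exact (hx : r x = p).symm.trans hx'

private theorem RST_split (lam : Measure E3) {r : E3 → E3} (hr : Measurable r) {C : Set E3} (hC : C.Countable)
    (f : E3 → ℝ≥0∞) : ∫⁻ x, f x ∂lam = ∫⁻ x in {x | r x ∈ C}, f x ∂lam + ∫⁻ x in {x | r x ∉ C}, f x ∂lam := by
  have hm : MeasurableSet {x | r x ∈ C} := hr hC.measurableSet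
  exact (lintegral_add_compl f hm).symm

theorem RSTv {μ ν : Measure E3} (h : Sys μ ν) {m : E3} (hm : m ∈ At ν) (v : E3) :
    ∫⁻ x in pl m \ At μ, en ⟪v, x⟫ ∂μ = 2 * ν {m} * ∫⁻ n in {n | rep (cr m n) ∉ At μ}, en ⟪v, cr m n⟫ ∂ν := by
  haveI := h.f1
  haveI := h.f2
  have hmH : m ∈ HS := At_sub h.s2 hm
  have hAc : (At μ).Countable := At_countable h.f1
  have hC : (pl m ∩ At μ).Countable := hAc.mono inter_subset_right
  set C : Set E3 := pl m ∩ At μ with hCdef
  have hrm : Measurable (fun n : E3 => rep (cr m n)) := rep_measurable.comp (RST_cr m)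
  have hset : {n : E3 | rep (cr m n) ∉ C} = {n | rep (cr m n) ∉ At μ} := by
    ext n
    simp only [hCdef, mem_setOf_eq, mem_inter_iff, not_and]
    refine ⟨fun h1 => h1 ?_, fun h1 _ => h1⟩
    exact inner_rep_eq_zero.2 (inner_cr_left m n)
  have e1 : ∫⁻ x in pl m, en ⟪v, x⟫ ∂μ = ∫⁻ x in C, en ⟪v, x⟫ ∂μ + ∫⁻ x in pl m \ At μ, en ⟪v, x⟫ ∂μ :=
    (lintegral_inter_add_diff (fun x => en ⟪v, x⟫) (pl m) (At_meas h.f1)).symm
  have e2 : ∫⁻ x in C, en ⟪v, x⟫ ∂μ = 2 * ν {m} * ∫⁻ n in {n | rep (cr m n) ∈ C}, en ⟪v, cr m n⟫ ∂ν +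
      ∫⁻ q in {q | rep q ∈ C}, en ⟪v, q⟫ ∂(Nm ν m) := by
    have h1 := RST_sum μ (r := id) measurable_id hC (fun x => en ⟪v, x⟫)
    have h2 := RST_sum ν (r := fun n => rep (cr m n)) hrm hC (fun n => en ⟪v, cr m n⟫)
    have h3 := RST_sum (Nm ν m) (r := rep) rep_measurable hC (fun q => en ⟪v, q⟫)
    have h0 : {x : E3 | id x ∈ C} = C := rfl
    rw [h0] at h1
    rw [h1, h2, h3, ← ENNReal.tsum_mul_left, ← ENNReal.tsum_add]
    refine tsum_congr fun p => ?_
    have hp := RSTa h (m := m) (p := p) (At_sub h.s1 p.2.2) p.2.1 v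
    rw [← hp]
    have h4 : {x : E3 | id x = (p : E3)} = {(p : E3)} := rfl
    rw [h4, lintegral_singleton, mul_comm]
  have e3 := PEN h.symm m v
  have e4 : J ν (cr v m) = ∫⁻ n in {n | rep (cr m n) ∈ C}, en ⟪v, cr m n⟫ ∂ν +
      ∫⁻ n in {n | rep (cr m n) ∉ At μ}, en ⟪v, cr m n⟫ ∂ν := by
    rw [← hset, ← RST_split ν hrm hC]
    refine lintegral_congr fun n => ?_
    rw [inner_cr_assoc]
  have e5 : ∫⁻ q, en ⟪v, q⟫ ∂(Nm ν m) = ∫⁻ q in {q | rep q ∈ C}, en ⟪v, q⟫ ∂(Nm ν m) := by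
    rw [RST_split (Nm ν m) rep_measurable hC]
    have h1 : ∫⁻ q in {q | rep q ∉ C}, en ⟪v, q⟫ ∂(Nm ν m) = 0 := by
      have hms : MeasurableSet {q : E3 | rep q ∉ C} := (rep_measurable hC.measurableSet).compl
      have h2 : ∀ᵐ q ∂(Nm ν m), q ∈ pl m := ae_restrict_mem (pl_meas m)
      have h3 : ∀ᵐ q ∂(Nm ν m), ¬ (q ≠ 0 ∧ rep q ∉ At μ) := by
        rw [ae_iff]
        simpa using N0 h hm
      rw [← lintegral_indicator hms, lintegral_eq_zero_iff' ?_]
      · filter_upwards [h2, h3] with q hq1 hq2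
        by_cases hq : rep q ∈ C
        · rw [Set.indicator_of_notMem (by simpa using hq)]
          rfl
        · have hq3 : rep q ∉ At μ := fun h4 => hq ⟨inner_rep_eq_zero.2 hq1, h4⟩
          have hq4 : q = 0 := by
            by_contra h5
            exact hq2 ⟨h5, hq3⟩
          rw [hq4]
          refine Set.indicator_apply_eq_zero.2 fun _ => ?_
          rw [inner_zero_right, en_zero]
      · exact ((measurable_en_inner v).indicator hms).aemeasurable
    rw [h1, add_zero]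
  have e6 : ∫⁻ x in C, en ⟪v, x⟫ ∂μ ≠ ⊤ :=
    ne_top_of_le_ne_top (J_ne_top (FM_of_HS h.f1 h.s1) v) (setLIntegral_le_lintegral _ _)
  rw [e1, e4, e5, mul_add] at e3
  have e7 : ∫⁻ x in C, en ⟪v, x⟫ ∂μ + ∫⁻ x in pl m \ At μ, en ⟪v, x⟫ ∂μ =
      ∫⁻ x in C, en ⟪v, x⟫ ∂μ + 2 * ν {m} * ∫⁻ n in {n | rep (cr m n) ∉ At μ}, en ⟪v, cr m n⟫ ∂ν := by
    rw [e3, e2]
    ring
  exact (ENNReal.add_right_inj e6).1 e7

theorem RST {μ ν : Measure E3} (h : Sys μ ν) {m : E3} (hm : m ∈ At ν) :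
    ∫⁻ x in pl m \ At μ, J ν x ∂μ = 2 * ν {m} * ∫⁻ n in {n | rep (cr m n) ∉ At μ}, J ν (cr m n) ∂ν := by
  haveI := h.f1
  haveI := h.f2
  have h1 : ∫⁻ x in pl m \ At μ, J ν x ∂μ = ∫⁻ v, ∫⁻ x in pl m \ At μ, en ⟪v, x⟫ ∂μ ∂ν := by
    rw [lintegral_lintegral_swap]
    · refine lintegral_congr fun x => ?_
      unfold J
      refine lintegral_congr fun v => ?_
      rw [real_inner_comm]
    · exact measurable_en_inner2.aemeasurable
  have h2 : ∫⁻ n in {n | rep (cr m n) ∉ At μ}, J ν (cr m n) ∂ν =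
      ∫⁻ v, ∫⁻ n in {n | rep (cr m n) ∉ At μ}, en ⟪v, cr m n⟫ ∂ν ∂ν := by
    rw [lintegral_lintegral_swap]
    · refine lintegral_congr fun n => ?_
      unfold J
      refine lintegral_congr fun v => ?_
      rw [real_inner_comm]
    · have h3 : Measurable (fun q : E3 × E3 => (q.1, cr m q.2)) :=
        measurable_fst.prodMk ((RST_cr m).comp measurable_snd)
      exact (measurable_en_inner2.comp h3).aemeasurable
  rw [h1, h2, ← lintegral_const_mul' _ _ (ENNReal.mul_ne_top (by simp) (measure_ne_top ν _))]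
  exact lintegral_congr fun v => RSTv h hm v

end Pool.Agent.FAC3
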