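import Pool.Agent.FAC3.LI
import Pool.Agent.FAC3.RST
import Pool.Agent.FAC3.PTW

/-! Module FAC3-FLG: the inequality of a line in terms of its atoms.

`LI` multiplied by `ν{l}`; the left side is split into the fibres of `n ↦ rep (cr l n)` over the atoms and the rest, where
`PTW` and `RST` are used. -/

set_option autoImplicit false

namespace Pool.Agent.FAC3
open MeasureTheory Set Filter Topology
open scoped RealInnerProductSpace ENNReal

private theorem meas_cr (l : E3) : Measurable (fun n : E3 => cr l n) :=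
  (continuous_cr.comp (continuous_const.prodMk continuous_id)).measurable

private theorem meas_QQ (μ : Measure E3) [SFinite μ] (l : E3) : Measurable (QQ μ l) := by
  unfold QQ
  have h1 : Measurable (fun q : E3 × E3 => en ⟪l, cr q.1 q.2⟫) :=
    (measurable_en_inner l).comp continuous_cr.measurable
  exact h1.lintegral_prod_right'

private theorem meas_RR (μ ν : Measure E3) [SFinite μ] [SFinite ν] (l : E3) : Measurable (RR μ ν l) := by
  unfold RR
  exact ((measurable_J ν).pow_const 2).div (meas_QQ μ l)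

private theorem QQ_smul (μ : Measure E3) (l : E3) (t : ℝ) (y : E3) : QQ μ l (t • y) = en t * QQ μ l y := by
  unfold QQ
  rw [← lintegral_const_mul' _ _ (en_ne_top t)]
  refine lintegral_congr fun z => ?_
  rw [cr_smul_left, real_inner_smul_right, en_mul]

private theorem RR_smul (μ ν : Measure E3) (l : E3) {t : ℝ} (ht : t ≠ 0) (y : E3) :
    RR μ ν l (t • y) = en t * RR μ ν l y := by
  unfold RR
  have h0 : en t ≠ 0 := fun h => ht (en_eq_zero.1 h)
  have h1 : en t ≠ ⊤ := en_ne_top t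
  rw [J_smul, QQ_smul, mul_pow, sq (en t), mul_assoc, ENNReal.mul_div_mul_left _ _ h0 h1, mul_div_assoc]

private theorem RR_zero (μ ν : Measure E3) (l : E3) : RR μ ν l 0 = 0 := by
  unfold RR
  rw [J_zero, zero_pow two_ne_zero, ENNReal.zero_div]

/-- the part of one atom -/
private theorem fib {μ ν : Measure E3} (h : Sys μ ν) {l p : E3} (hp : p ∈ HS) (hpl : ⟪l, p⟫ = 0) (hl : l ∈ HS) :
    ∫⁻ n in {n | rep (cr l n) = p}, RR μ ν l (cr l n) ∂ν = RR μ ν l p * QQ ν p l := by
  haveI := h.f1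
  haveI := h.f2
  have hm : MeasurableSet {n : E3 | rep (cr l n) = p} :=
    (rep_measurable.comp (meas_cr l)) (measurableSet_singleton p)
  have hsub : {n : E3 | rep (cr l n) = p} ⊆ pl p := by
    intro n hn
    have h1 : rep (cr l n) = p := hn
    have h2 : ⟪n, rep (cr l n)⟫ = 0 := inner_rep_eq_zero.2 (inner_cr_right l n)
    rw [h1] at h2
    show ⟪p, n⟫ = 0
    rw [real_inner_comm]
    exact h2
  have h1 : QQ ν p l = ∫⁻ n in {n | rep (cr l n) = p}, en ⟪p, cr l n⟫ ∂ν := by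
    unfold QQ
    rw [← lintegral_indicator (pl_meas p), ← lintegral_indicator hm]
    refine lintegral_congr fun n => ?_
    by_cases hn : rep (cr l n) = p
    · rw [indicator_of_mem (hsub hn), indicator_of_mem (show n ∈ {n : E3 | rep (cr l n) = p} from hn)]
    · rw [indicator_of_notMem (show n ∉ {n : E3 | rep (cr l n) = p} from hn)]
      by_cases hn2 : n ∈ pl p
      · rw [indicator_of_mem hn2]
        have h3 : cr l n = 0 := by
          by_contra h4
          have h5 : cr l n = ⟪p, cr l n⟫ • p := by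
            refine cr_of_perp (HS_norm hp) ?_ hn2
            rw [real_inner_comm]
            exact hpl
          apply hn
          refine rep_eq hp h4 ?_
          rw [h5, cr_smul_right, cr_self, smul_zero]
        rw [h3, inner_zero_right, en_zero]
      · rw [indicator_of_notMem hn2]
  have hme : Measurable (fun n : E3 => en ⟪p, cr l n⟫) := (measurable_en_inner p).comp (meas_cr l)
  rw [h1, ← lintegral_const_mul _ hme]
  refine setLIntegral_congr_fun hm fun n hn => ?_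
  have h2 : rep (cr l n) = p := hn
  have h3 : cr l n ≠ 0 := ne_zero_of_rep (by rw [h2]; exact hp)
  obtain ⟨t, ht, ht2⟩ := rep_spec (cr l n)
  rw [h2] at ht2
  have ht0 : t ≠ 0 := by
    intro h4
    rw [h4, zero_smul] at ht2
    exact h3 ht2
  have h4 : ⟪p, cr l n⟫ = t := by
    rw [ht2, real_inner_smul_right, real_inner_self_eq_norm_sq, HS_norm hp]
    ring
  show RR μ ν l (cr l n) = RR μ ν l p * en ⟪p, cr l n⟫
  rw [h4, ht2, RR_smul μ ν l ht0, mul_comm]

private theorem split_set {μ ν : Measure E3} (h : Sys μ ν) {l : E3} :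
    {n : E3 | rep (cr l n) ∈ At μ} = ⋃ p : ↥(At μ ∩ pl l), {n : E3 | rep (cr l n) = p} := by
  ext n
  simp only [mem_ofPred_eq, mem_iUnion]
  constructor
  · intro hn
    refine ⟨⟨rep (cr l n), hn, ?_⟩, rfl⟩
    show ⟪l, rep (cr l n)⟫ = 0
    exact inner_rep_eq_zero.2 (inner_cr_left l n)
  · rintro ⟨p, hp⟩
    rw [hp]
    exact p.2.1

private theorem part1 {μ ν : Measure E3} (h : Sys μ ν) {l : E3} (hl : l ∈ HS) :
    ν {l} ^ 2 * ∫⁻ n in {n | rep (cr l n) ∈ At μ}, RR μ ν l (cr l n) ∂ν = ∑' p : ↥(At μ ∩ pl l), F1 μ ν p l := by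
  haveI := h.f1
  haveI := h.f2
  have hc : (At μ ∩ pl l).Countable := (At_countable h.f1).mono inter_subset_left
  haveI : Countable ↥(At μ ∩ pl l) := hc.to_subtype
  rw [split_set h, lintegral_iUnion, ← ENNReal.tsum_mul_left]
  · refine tsum_congr fun p => ?_
    rw [fib h (At_sub h.s1 p.2.1) p.2.2 hl]
    unfold F1
    rw [mul_assoc]
  · intro p
    exact (rep_measurable.comp (meas_cr l)) (measurableSet_singleton _)
  · intro p q hpq
    refine Set.disjoint_left.2 fun n hn hn' => ?_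
    have h1 : rep (cr l n) = p := hn
    have h2 : rep (cr l n) = q := hn'
    exact hpq (Subtype.ext (h1.symm.trans h2))

private theorem part2 {μ ν : Measure E3} (h : Sys μ ν) {l : E3} (hl : l ∈ At ν) :
    J μ l * (∫⁻ x in pl l \ At μ, J ν x ∂μ) + Om ν l * (∫⁻ n in {n | rep (cr l n) ∉ At μ}, RR μ ν l (cr l n) ∂ν) ≤
      ν {l} * ∫⁻ n in {n | rep (cr l n) ∉ At μ}, RR μ ν l (cr l n) ∂ν := by
  haveI := h.f1
  haveI := h.f2
  have hlH : l ∈ HS := At_sub h.s2 hl
  have hmR : Measurable (fun n : E3 => RR μ ν l (cr l n)) := (meas_RR μ ν l).comp (meas_cr l)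
  have hmJ : Measurable (fun n : E3 => J ν (cr l n)) := (measurable_J ν).comp (meas_cr l)
  have pt : ∀ n : E3, 2 * ν {l} * J μ l * J ν (cr l n) + Om ν l * RR μ ν l (cr l n) ≤ ν {l} * RR μ ν l (cr l n) := by
    intro n
    by_cases h0 : cr l n = 0
    · rw [h0, RR_zero, J_zero]
      simp
    · obtain ⟨q0, q1⟩ := QQ_pos h hl (inner_cr_left l n) h0
      have h1 := PTW h hlH (inner_cr_left l n)
      have h2 := mul_le_mul_left h1 (J ν (cr l n) / QQ μ l (cr l n))
      rw [add_mul] at h2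
      have e1 : 2 * ν {l} * J μ l * QQ μ l (cr l n) * (J ν (cr l n) / QQ μ l (cr l n)) =
          2 * ν {l} * J μ l * J ν (cr l n) := by
        rw [mul_assoc (2 * ν {l} * J μ l), ENNReal.mul_div_cancel q0 q1]
      have e2 : ∀ c : ℝ≥0∞, c * J ν (cr l n) * (J ν (cr l n) / QQ μ l (cr l n)) = c * RR μ ν l (cr l n) := by
        intro c
        unfold RR
        rw [mul_assoc, ← mul_div_assoc, ← sq]
      rw [e1, e2, e2] at h2
      exact h2
  have h3 := lintegral_mono (μ := ν.restrict {n | rep (cr l n) ∉ At μ}) pt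
  rw [lintegral_add_left (hmJ.const_mul _), lintegral_const_mul _ hmJ, lintegral_const_mul _ hmR,
    lintegral_const_mul _ hmR] at h3
  refine le_trans (le_of_eq ?_) h3
  rw [RST h hl]
  congr 1
  ring

private theorem C_ne_top {μ ν : Measure E3} (h : Sys μ ν) (s : Set E3) : ∫⁻ x in s, J ν x ∂μ ≠ ⊤ := by
  haveI := h.f1
  haveI := h.f2
  have h1 := FM_of_HS h.f1 h.s1
  have h2 := FM_of_HS h.f2 h.s2
  have h3 : ∫⁻ x in s, J ν x ∂μ ≤ ∫⁻ x, ENNReal.ofReal ‖x‖ * (∫⁻ y, ENNReal.ofReal ‖y‖ ∂ν) ∂μ := by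
    refine (setLIntegral_le_lintegral _ _).trans (lintegral_mono fun x => ?_)
    unfold J
    rw [← lintegral_const_mul' _ _ ENNReal.ofReal_ne_top]
    exact lintegral_mono fun y => en_inner_le x y
  rw [lintegral_mul_const' _ _ h2] at h3
  exact ne_top_of_le_ne_top (ENNReal.mul_ne_top h1 h2) h3

private theorem part3 {μ ν : Measure E3} (h : Sys μ ν) (l : E3) :
    ν {l} * (J μ l * ∫⁻ x in pl l, J ν x ∂μ) =
      ∑' p : ↥(At μ ∩ pl l), F0 μ ν p l + ν {l} * (J μ l * ∫⁻ x in pl l \ At μ, J ν x ∂μ) := by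
  haveI := h.f1
  haveI := h.f2
  have hc : (At μ ∩ pl l).Countable := (At_countable h.f1).mono inter_subset_left
  have h1 : ∫⁻ x in pl l, J ν x ∂μ = (∫⁻ x in At μ ∩ pl l, J ν x ∂μ) + ∫⁻ x in pl l \ At μ, J ν x ∂μ := by
    rw [inter_comm]
    exact (lintegral_inter_add_sdiff (J ν) (pl l) (At_meas h.f1)).symm
  rw [h1, lintegral_countable (J ν) hc, mul_add, mul_add, ← ENNReal.tsum_mul_left, ← ENNReal.tsum_mul_left]
  congr 1
  refine tsum_congr fun p => ?_
  unfold F0
  ring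

theorem FLG {μ ν : Measure E3} (h : Sys μ ν) {l : E3} (hl : l ∈ At ν) :
    ∑' p : ↥(At μ ∩ pl l), F1 μ ν p l +
      Om ν l * ν {l} * ∫⁻ n in {n | rep (cr l n) ∉ At μ}, RR μ ν l (cr l n) ∂ν ≤
    ∑' p : ↥(At μ ∩ pl l), F0 μ ν p l := by
  haveI := h.f1
  haveI := h.f2
  have hlH : l ∈ HS := At_sub h.s2 hl
  have hmA : MeasurableSet {n : E3 | rep (cr l n) ∈ At μ} := (rep_measurable.comp (meas_cr l)) (At_meas h.f1)
  have h1 : ν {l} * (ν {l} * ∫⁻ n, RR μ ν l (cr l n) ∂ν) ≤ ν {l} * (J μ l * ∫⁻ x in pl l, J ν x ∂μ) := by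
    exact mul_le_mul' le_rfl (LI h hl)
  rw [part3 h l, ← lintegral_add_compl _ hmA] at h1
  have hcompl : {n : E3 | rep (cr l n) ∈ At μ}ᶜ = {n : E3 | rep (cr l n) ∉ At μ} := rfl
  rw [hcompl] at h1
  have h2 := part2 h hl
  have h3 := part1 h hlH
  have hfin : ν {l} * (J μ l * ∫⁻ x in pl l \ At μ, J ν x ∂μ) ≠ ⊤ :=
    ENNReal.mul_ne_top (measure_ne_top ν _) (ENNReal.mul_ne_top (J_ne_top (FM_of_HS h.f1 h.s1) l) (C_ne_top h _))
  refine (ENNReal.add_le_add_iff_right hfin).1 (le_trans ?_ h1)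
  rw [← h3]
  generalize (∫⁻ n in {n | rep (cr l n) ∈ At μ}, RR μ ν l (cr l n) ∂ν) = X at *
  generalize (∫⁻ n in {n | rep (cr l n) ∉ At μ}, RR μ ν l (cr l n) ∂ν) = Y at *
  generalize (∫⁻ x in pl l \ At μ, J ν x ∂μ) = C at *
  calc ν {l} ^ 2 * X + Om ν l * ν {l} * Y + ν {l} * (J μ l * C)
      = ν {l} ^ 2 * X + ν {l} * (J μ l * C + Om ν l * Y) := by ring
    _ ≤ ν {l} ^ 2 * X + ν {l} * (ν {l} * Y) := by gcongr
    _ = ν {l} * (ν {l} * (X + Y)) := by ring

/-- if the extra term vanishes, there is no mass outside the atoms. -/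
theorem FLG0 {μ ν : Measure E3} (h : Sys μ ν) {l : E3} (hl : l ∈ At ν) (hO : Om ν l ≠ 0)
    (h0 : Om ν l * ν {l} * ∫⁻ n in {n | rep (cr l n) ∉ At μ}, RR μ ν l (cr l n) ∂ν = 0) : μ (pl l \ At μ) = 0 := by
  haveI := h.f1
  haveI := h.f2
  have hmB : MeasurableSet {n : E3 | rep (cr l n) ∉ At μ} :=
    ((rep_measurable.comp (meas_cr l)) (At_meas h.f1)).compl
  have hmR : Measurable (fun n : E3 => RR μ ν l (cr l n)) := (meas_RR μ ν l).comp (meas_cr l)
  have h1 : ∫⁻ n in {n | rep (cr l n) ∉ At μ}, RR μ ν l (cr l n) ∂ν = 0 := by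
    rcases mul_eq_zero.1 h0 with h2 | h2
    · rcases mul_eq_zero.1 h2 with h3 | h3
      · exact absurd h3 hO
      · exact absurd h3 hl
    · exact h2
  rw [lintegral_eq_zero_iff hmR] at h1
  have h2 : ∫⁻ n in {n | rep (cr l n) ∉ At μ}, J ν (cr l n) ∂ν = 0 := by
    have hmJ : Measurable (fun n : E3 => J ν (cr l n)) := (measurable_J ν).comp (meas_cr l)
    rw [lintegral_eq_zero_iff hmJ]
    filter_upwards [h1] with n hn
    have hn' : RR μ ν l (cr l n) = 0 := hn
    show J ν (cr l n) = 0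
    by_cases h0 : cr l n = 0
    · rw [h0, J_zero]
    · exfalso
      obtain ⟨q0, q1⟩ := QQ_pos h hl (inner_cr_left l n) h0
      unfold RR at hn'
      rw [ENNReal.div_eq_zero_iff] at hn'
      rcases hn' with h3 | h3
      · exact h.p2 _ h0 (by simpa using h3)
      · exact q1 h3
  have h3 := RST h hl
  rw [h2, mul_zero, lintegral_eq_zero_iff (measurable_J ν)] at h3
  have hmD : MeasurableSet (pl l \ At μ) := (pl_meas l).diff (At_meas h.f1)
  have h4 : ∀ᵐ x ∂μ, x ∈ pl l \ At μ → J ν x = 0 := (ae_restrict_iff' hmD).1 h3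
  have h5 : ∀ᵐ x ∂μ, x ∈ HS := by
    rw [ae_iff]
    exact h.s1
  have h6 : ∀ᵐ x ∂μ, ¬ x ∈ pl l \ At μ := by
    filter_upwards [h4, h5] with x hx hx2 hx3
    exact h.p2 x (HS_ne hx2) (hx hx3)
  rw [ae_iff] at h6
  have h7 : {x | ¬ ¬ x ∈ pl l \ At μ} = pl l \ At μ := by
    ext x
    exact not_not
  rw [h7] at h6
  exact h6

end Pool.Agent.FAC3
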