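import Pool.Agent.FAC3.QI
import Pool.Agent.FAC3.E5

/-! Module FAC3-LI: the integrated quadratic inequality, `S = ∫_{pl l} J ν dμ` (finite).

For `y = cr l n ≠ 0` the inequality `QI` is divided by `QQ μ l y` (finite and not `0`) and integrated over `n`;
`∫ QQ μ l (cr l n) dν(n) = S`, `∫ J ν (cr l n) dν = J μ l`. -/

set_option autoImplicit false

namespace Pool.Agent.FAC3
open MeasureTheory Set Filter Topology
open scoped RealInnerProductSpace ENNReal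

theorem QQ_pos {μ ν : Measure E3} (h : Sys μ ν) {l y : E3} (hl : l ∈ At ν) (hy : ⟪l, y⟫ = 0) (hy0 : y ≠ 0) :
    QQ μ l y ≠ 0 ∧ QQ μ l y ≠ ⊤ := by
  have hlS : l ∈ HS := At_sub h.s2 hl
  constructor
  · rw [E5 h hlS hy]
    intro h0
    have h1 : 2 * ν {l} * J ν y = 0 := (add_eq_zero.1 h0).1
    rcases mul_eq_zero.1 h1 with h2 | h2
    · rcases mul_eq_zero.1 h2 with h3 | h3
      · exact two_ne_zero h3
      · exact hl h3
    · exact h.p2 y hy0 h2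
  · have h1 : QQ μ l y ≤ J μ (cr l y) := by
      unfold QQ J
      calc ∫⁻ z in pl l, en ⟪l, cr y z⟫ ∂μ ≤ ∫⁻ z, en ⟪l, cr y z⟫ ∂μ := setLIntegral_le_lintegral _ _
        _ = ∫⁻ z, en ⟪cr l y, z⟫ ∂μ := by
          refine lintegral_congr fun z => ?_
          rw [inner_cr_assoc]
    exact ne_top_of_le_ne_top (J_ne_top (FM_of_HS h.f1 h.s1) _) h1

private theorem li_meas_QQ {μ : Measure E3} (hf : IsFiniteMeasure μ) (l : E3) : Measurable (QQ μ l) := by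
  have hm : Measurable (fun q : E3 × E3 => en ⟪l, cr q.1 q.2⟫) := by
    have hc : Continuous (fun q : E3 × E3 => (⟪l, cr q.1 q.2⟫ : ℝ)) :=
      continuous_const.inner continuous_cr
    exact measurable_en.comp hc.measurable
  exact hm.lintegral_prod_right' (ν := μ.restrict (pl l))

/-- `∫ QQ μ l (cr l n) dν(n) = ∫_{pl l} J ν dμ` -/
private theorem li_int_QQ {μ ν : Measure E3} (h : Sys μ ν) {l : E3} (hl : ‖l‖ = 1) :
    ∫⁻ n, QQ μ l (cr l n) ∂ν = ∫⁻ x in pl l, J ν x ∂μ := by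
  have := h.f1
  have := h.f2
  have h1 : ∀ n : E3, QQ μ l (cr l n) = ∫⁻ z in pl l, en ⟪n, z⟫ ∂μ := by
    intro n
    unfold QQ
    refine setLIntegral_congr_fun (pl_meas l) fun z hz => ?_
    have hz' : ⟪l, z⟫ = 0 := hz
    show en ⟪l, cr (cr l n) z⟫ = en ⟪n, z⟫
    rw [cr_cr, hz', zero_smul, zero_sub, inner_neg_right, real_inner_smul_right,
      real_inner_self_eq_norm_sq, hl, en_neg]
    norm_num
  simp only [h1]
  rw [lintegral_lintegral_swap]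
  · refine lintegral_congr fun z => ?_
    unfold J
    refine lintegral_congr fun n => ?_
    rw [real_inner_comm]
  · exact measurable_en_inner2.aemeasurable

private theorem li_S_fin {μ ν : Measure E3} (h : Sys μ ν) (l : E3) :
    ∫⁻ x in pl l, J ν x ∂μ ≠ ⊤ := by
  have h1 : FM μ := FM_of_HS h.f1 h.s1
  have h2 : FM ν := FM_of_HS h.f2 h.s2
  have h3 : ∫⁻ x in pl l, J ν x ∂μ ≤
      (∫⁻ x, ENNReal.ofReal ‖x‖ ∂μ) * ∫⁻ n, ENNReal.ofReal ‖n‖ ∂ν := by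
    calc ∫⁻ x in pl l, J ν x ∂μ ≤ ∫⁻ x, J ν x ∂μ := setLIntegral_le_lintegral _ _
      _ ≤ ∫⁻ x, ENNReal.ofReal ‖x‖ * (∫⁻ n, ENNReal.ofReal ‖n‖ ∂ν) ∂μ := by
        refine lintegral_mono fun x => ?_
        unfold J
        rw [← lintegral_const_mul' _ _ ENNReal.ofReal_ne_top]
        exact lintegral_mono fun n => en_inner_le x n
      _ = (∫⁻ x, ENNReal.ofReal ‖x‖ ∂μ) * ∫⁻ n, ENNReal.ofReal ‖n‖ ∂ν :=
        lintegral_mul_const' _ _ h2
  exact ne_top_of_le_ne_top (ENNReal.mul_ne_top h1 h2) h3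

private theorem li_pt {μ ν : Measure E3} (h : Sys μ ν) {l : E3} (hl : l ∈ At ν) (n : E3) :
    ν {l} * RR μ ν l (cr l n) + J μ l * QQ μ l (cr l n) ≤
      2 * (∫⁻ x in pl l, J ν x ∂μ) * J ν (cr l n) := by
  have hlS : l ∈ HS := At_sub h.s2 hl
  have hy : ⟪l, cr l n⟫ = 0 := inner_cr_left l n
  generalize cr l n = y at hy ⊢
  by_cases hy0 : y = 0
  · subst hy0
    have h1 : QQ μ l 0 = 0 := by
      unfold QQ
      simp only [cr_zero_left, inner_zero_right, en_zero, lintegral_zero]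
    rw [RR, h1, J_zero]
    simp
  · obtain ⟨q0, q1⟩ := QQ_pos h hl hy hy0
    have h2 := QI h hlS hy
    set Qv := QQ μ l y with hQ
    have h3 := mul_le_mul_left h2 Qv⁻¹
    have e1 : Qv * Qv⁻¹ = 1 := ENNReal.mul_inv_cancel q0 q1
    have e2 : (ν {l} * J ν y ^ 2 + J μ l * Qv ^ 2) * Qv⁻¹ =
        ν {l} * RR μ ν l y + J μ l * Qv := by
      rw [RR, ← hQ, div_eq_mul_inv, add_mul, pow_two Qv]
      rw [mul_assoc (ν {l}), mul_assoc (J μ l), mul_assoc Qv, e1, mul_one]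
    have e3 : 2 * (∫⁻ x in pl l, J ν x ∂μ) * J ν y * Qv * Qv⁻¹ =
        2 * (∫⁻ x in pl l, J ν x ∂μ) * J ν y := by
      rw [mul_assoc (2 * (∫⁻ x in pl l, J ν x ∂μ) * J ν y), e1, mul_one]
    rw [e2, e3] at h3
    exact h3

theorem LI {μ ν : Measure E3} (h : Sys μ ν) {l : E3} (hl : l ∈ At ν) :
    ν {l} * ∫⁻ n, RR μ ν l (cr l n) ∂ν ≤ J μ l * ∫⁻ x in pl l, J ν x ∂μ := by
  have hlS : l ∈ HS := At_sub h.s2 hl
  have := h.f1
  have := h.f2
  have hJ : J μ l ≠ ⊤ := J_ne_top (FM_of_HS h.f1 h.s1) _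
  have hS := li_S_fin h l
  have hcm : Measurable (fun n : E3 => cr l n) :=
    (continuous_cr.comp (continuous_const.prodMk continuous_id)).measurable
  have hQm : Measurable (fun n => J μ l * QQ μ l (cr l n)) :=
    ((li_meas_QQ h.f1 l).comp hcm).const_mul _
  have h1 : ν {l} * ∫⁻ n, RR μ ν l (cr l n) ∂ν + J μ l * ∫⁻ x in pl l, J ν x ∂μ ≤
      J μ l * (∫⁻ x in pl l, J ν x ∂μ) + J μ l * ∫⁻ x in pl l, J ν x ∂μ := by
    calc ν {l} * ∫⁻ n, RR μ ν l (cr l n) ∂ν + J μ l * ∫⁻ x in pl l, J ν x ∂μ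
        = ∫⁻ n, (ν {l} * RR μ ν l (cr l n) + J μ l * QQ μ l (cr l n)) ∂ν := by
          rw [lintegral_add_right _ hQm, lintegral_const_mul' _ _ (measure_ne_top ν _),
            lintegral_const_mul' _ _ hJ, li_int_QQ h (HS_norm hlS)]
      _ ≤ ∫⁻ n, 2 * (∫⁻ x in pl l, J ν x ∂μ) * J ν (cr l n) ∂ν :=
          lintegral_mono fun n => li_pt h hl n
      _ = 2 * (∫⁻ x in pl l, J ν x ∂μ) * J μ l := by
          rw [lintegral_const_mul' _ _ (ENNReal.mul_ne_top ENNReal.ofNat_ne_top hS), int_J_cr h l]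
      _ = J μ l * (∫⁻ x in pl l, J ν x ∂μ) + J μ l * ∫⁻ x in pl l, J ν x ∂μ := by
          rw [two_mul, add_mul, mul_comm (J μ l)]
  exact (ENNReal.add_le_add_iff_right (ENNReal.mul_ne_top hJ hS)).1 h1

end Pool.Agent.FAC3
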