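import Mathlib

/-! Module FAC3-LOR1: the energy distance inequality on `ℝ`.

With `F_i t = κ_i (Iio t)`, `G_i t = κ_i (Ici t)`, `Q_i = F_i t + G_i t = κ_i univ`:
`|s - s'| = ∫ (1_{s < t ≤ s'} + 1_{s' < t ≤ s}) dt`, so `∫∫ |s - s'| dκ_j dκ_i = ∫ (F_i G_j + G_i F_j) dt` (Tonelli), and pointwise
`2 Q_2² F_1 G_1 + 2 Q_1² F_2 G_2 ≤ 2 Q_1 Q_2 (F_1 G_2 + G_1 F_2)`: the difference is `2 (F_1 G_2 - F_2 G_1)²`. -/

set_option autoImplicit false

namespace Pool.Agent.FAC3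
open MeasureTheory Set
open scoped ENNReal

/-- indicator of `s < t` -/
private noncomputable def LOR1_g (s t : ℝ) : ℝ≥0∞ := (Iio t).indicator 1 s

/-- indicator of `t ≤ s` -/
private noncomputable def LOR1_h (s t : ℝ) : ℝ≥0∞ := (Ici t).indicator 1 s

private theorem LOR1_gm : Measurable (fun q : ℝ × ℝ => LOR1_g q.1 q.2) := by
  have h1 : (fun q : ℝ × ℝ => LOR1_g q.1 q.2) = {q : ℝ × ℝ | q.1 < q.2}.indicator 1 := by
    funext q
    unfold LOR1_g
    by_cases hq : q.1 < q.2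
    · rw [indicator_of_mem (show q.1 ∈ Iio q.2 from hq), indicator_of_mem (show q ∈ {q : ℝ × ℝ | q.1 < q.2} from hq)]
      rfl
    · rw [indicator_of_notMem (show q.1 ∉ Iio q.2 from hq), indicator_of_notMem (show q ∉ {q : ℝ × ℝ | q.1 < q.2} from hq)]
  rw [h1]
  exact measurable_one.indicator (measurableSet_lt measurable_fst measurable_snd)

private theorem LOR1_hm : Measurable (fun q : ℝ × ℝ => LOR1_h q.1 q.2) := by
  have h1 : (fun q : ℝ × ℝ => LOR1_h q.1 q.2) = {q : ℝ × ℝ | q.2 ≤ q.1}.indicator 1 := by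
    funext q
    unfold LOR1_h
    by_cases hq : q.2 ≤ q.1
    · rw [indicator_of_mem (show q.1 ∈ Ici q.2 from hq), indicator_of_mem (show q ∈ {q : ℝ × ℝ | q.2 ≤ q.1} from hq)]
      rfl
    · rw [indicator_of_notMem (show q.1 ∉ Ici q.2 from hq), indicator_of_notMem (show q ∉ {q : ℝ × ℝ | q.2 ≤ q.1} from hq)]
  rw [h1]
  exact measurable_one.indicator (measurableSet_le measurable_snd measurable_fst)

private theorem LOR1_gh (s s' : ℝ) : ∫⁻ t, LOR1_g s t * LOR1_h s' t = ENNReal.ofReal (s' - s) := by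
  have h1 : ∀ t, LOR1_g s t * LOR1_h s' t = (Ioc s s').indicator (1 : ℝ → ℝ≥0∞) t := by
    intro t
    unfold LOR1_g LOR1_h
    by_cases h2 : s < t
    · by_cases h3 : t ≤ s'
      · rw [indicator_of_mem (show s ∈ Iio t from h2), indicator_of_mem (show s' ∈ Ici t from h3),
          indicator_of_mem (show t ∈ Ioc s s' from ⟨h2, h3⟩)]
        simp
      · rw [indicator_of_notMem (show s' ∉ Ici t from h3), mul_zero,
          indicator_of_notMem (show t ∉ Ioc s s' from fun h => h3 h.2)]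
    · rw [indicator_of_notMem (show s ∉ Iio t from h2), zero_mul,
        indicator_of_notMem (show t ∉ Ioc s s' from fun h => h2 h.1)]
  simp_rw [h1]
  rw [lintegral_indicator_one measurableSet_Ioc, Real.volume_Ioc]

private theorem LOR1_abs (s s' : ℝ) : ENNReal.ofReal |s - s'| =
    ∫⁻ t, (LOR1_g s t * LOR1_h s' t + LOR1_g s' t * LOR1_h s t) := by
  have hm : ∀ a b : ℝ, Measurable (fun t => LOR1_g a t * LOR1_h b t) := by
    intro a b
    exact (LOR1_gm.comp (measurable_const.prodMk measurable_id)).mul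
      (LOR1_hm.comp (measurable_const.prodMk measurable_id))
  rw [lintegral_add_left (hm s s'), LOR1_gh, LOR1_gh]
  rcases le_total s s' with h | h
  · rw [ENNReal.ofReal_of_nonpos (show s - s' ≤ 0 by linarith), add_zero, abs_sub_comm,
      abs_of_nonneg (by linarith)]
  · rw [ENNReal.ofReal_of_nonpos (show s' - s ≤ 0 by linarith), zero_add, abs_of_nonneg (by linarith)]

private theorem LOR1_ig (κ : Measure ℝ) (t : ℝ) : ∫⁻ s, LOR1_g s t ∂κ = κ (Iio t) := by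
  unfold LOR1_g
  exact lintegral_indicator_one measurableSet_Iio

private theorem LOR1_ih (κ : Measure ℝ) (t : ℝ) : ∫⁻ s, LOR1_h s t ∂κ = κ (Ici t) := by
  unfold LOR1_h
  exact lintegral_indicator_one measurableSet_Ici

private theorem LOR1_mI (κ : Measure ℝ) : Measurable (fun t => κ (Iio t)) := by
  apply Monotone.measurable
  intro a b hab
  exact measure_mono (Iio_subset_Iio hab)

private theorem LOR1_mC (κ : Measure ℝ) : Measurable (fun t => κ (Ici t)) := by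
  apply Antitone.measurable
  intro a b hab
  exact measure_mono (Ici_subset_Ici.2 hab)

private theorem LOR1_mg1 (t : ℝ) : Measurable (fun s => LOR1_g s t) :=
  LOR1_gm.comp (measurable_id.prodMk measurable_const)

private theorem LOR1_mh1 (t : ℝ) : Measurable (fun s => LOR1_h s t) :=
  LOR1_hm.comp (measurable_id.prodMk measurable_const)

private theorem LOR1_main (κ κ' : Measure ℝ) [IsFiniteMeasure κ] [IsFiniteMeasure κ'] :
    ∫⁻ s, ∫⁻ s', ENNReal.ofReal |s - s'| ∂κ' ∂κ =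
      ∫⁻ t, (κ (Iio t) * κ' (Ici t) + κ' (Iio t) * κ (Ici t)) := by
  have h1 : ∀ s : ℝ, ∫⁻ s', ENNReal.ofReal |s - s'| ∂κ' =
      ∫⁻ t, (LOR1_g s t * κ' (Ici t) + κ' (Iio t) * LOR1_h s t) := by
    intro s
    simp_rw [LOR1_abs]
    rw [lintegral_lintegral_swap]
    · congr 1
      funext t
      have hm1 : Measurable (fun s' => LOR1_g s t * LOR1_h s' t) := (LOR1_mh1 t).const_mul _
      rw [lintegral_add_left hm1, lintegral_const_mul _ (LOR1_mh1 t),
        lintegral_mul_const _ (LOR1_mg1 t), LOR1_ih, LOR1_ig]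
    · apply Measurable.aemeasurable
      have e1 : Measurable (fun q : ℝ × ℝ => LOR1_g s q.2) :=
        LOR1_gm.comp (measurable_const.prodMk measurable_snd)
      have e2 : Measurable (fun q : ℝ × ℝ => LOR1_h s q.2) :=
        LOR1_hm.comp (measurable_const.prodMk measurable_snd)
      exact (e1.mul LOR1_hm).add (LOR1_gm.mul e2)
  simp_rw [h1]
  rw [lintegral_lintegral_swap]
  · congr 1
    funext t
    have hm1 : Measurable (fun s => LOR1_g s t * κ' (Ici t)) := (LOR1_mg1 t).mul_const _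
    rw [lintegral_add_left hm1, lintegral_mul_const _ (LOR1_mg1 t),
      lintegral_const_mul _ (LOR1_mh1 t), LOR1_ih, LOR1_ig]
  · apply Measurable.aemeasurable
    exact (LOR1_gm.mul ((LOR1_mC κ').comp measurable_snd)).add
      (((LOR1_mI κ').comp measurable_snd).mul LOR1_hm)

private theorem LOR1_alg {F₁ G₁ F₂ G₂ : ℝ≥0∞} (a : F₁ ≠ ⊤) (b : G₁ ≠ ⊤) (c : F₂ ≠ ⊤) (d : G₂ ≠ ⊤) :
    (F₂ + G₂) ^ 2 * (F₁ * G₁ + F₁ * G₁) + (F₁ + G₁) ^ 2 * (F₂ * G₂ + F₂ * G₂) ≤
      2 * (F₁ + G₁) * (F₂ + G₂) * (F₁ * G₂ + F₂ * G₁) := by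
  lift F₁ to NNReal using a
  lift G₁ to NNReal using b
  lift F₂ to NNReal using c
  lift G₂ to NNReal using d
  norm_cast
  rw [← NNReal.coe_le_coe]
  push_cast
  nlinarith [sq_nonneg ((F₁ : ℝ) * G₂ - F₂ * G₁)]

theorem LOR1 {κ₁ κ₂ : Measure ℝ} (h₁ : IsFiniteMeasure κ₁) (h₂ : IsFiniteMeasure κ₂) :
    κ₂ univ ^ 2 * (∫⁻ s, ∫⁻ t, ENNReal.ofReal |s - t| ∂κ₁ ∂κ₁) + κ₁ univ ^ 2 * (∫⁻ s, ∫⁻ t, ENNReal.ofReal |s - t| ∂κ₂ ∂κ₂) ≤
      2 * κ₁ univ * κ₂ univ * (∫⁻ s, ∫⁻ t, ENNReal.ofReal |s - t| ∂κ₂ ∂κ₁) := by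
  rw [LOR1_main κ₁ κ₁, LOR1_main κ₂ κ₂, LOR1_main κ₁ κ₂]
  have m1 : ∀ κ κ' : Measure ℝ, Measurable (fun t => κ (Iio t) * κ' (Ici t) + κ' (Iio t) * κ (Ici t)) :=
    fun κ κ' => ((LOR1_mI κ).mul (LOR1_mC κ')).add ((LOR1_mI κ').mul (LOR1_mC κ))
  rw [← lintegral_const_mul _ (m1 κ₁ κ₁), ← lintegral_const_mul _ (m1 κ₂ κ₂),
    ← lintegral_const_mul _ (m1 κ₁ κ₂), ← lintegral_add_left ((m1 κ₁ κ₁).const_mul _)]
  refine lintegral_mono fun t => ?_
  have hq : ∀ κ : Measure ℝ, κ univ = κ (Iio t) + κ (Ici t) := by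
    intro κ
    rw [← measure_add_measure_compl (measurableSet_Iio (a := t)), compl_Iio]
  rw [hq κ₁, hq κ₂]
  exact LOR1_alg (measure_ne_top _ _) (measure_ne_top _ _) (measure_ne_top _ _) (measure_ne_top _ _)

end Pool.Agent.FAC3
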