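import Pool.Agent.FAC3.LOR1
import Pool.Agent.FAC3.ENa

/-! Module FAC3-LOR2: the quadratic inequality in the plane `l^⊥`.

Fix a unit vector `l` and `y ⊥ l`, `y ≠ 0`; for `x ⊥ l` let `w(x) = ⟪l, y × x⟫`, `k(x) = ⟪y, x⟫`. For `x, x' ⊥ l`:
`‖y‖² ⟪l, x × x'⟫ = k(x) w(x') - k(x') w(x)` (expand in the orthogonal basis `y, l × y` of `l^⊥`, or `inner_cr_cr`).
On `{w ≠ 0}` put `s(x) = k(x)/w(x)` and `κ_i` = image under `s` of `|w| σ_i` (finite: `FM`); `m_i = ∫_{w = 0} |k| dσ_i`. Then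
`‖y‖² ∫∫ |⟪l, x × x'⟫| dσ_j dσ_i = ∫∫ |s - s'| dκ_j dκ_i + m_i κ_j(ℝ) + m_j κ_i(ℝ)`, `∫ |⟪l, y × x⟫| dσ_i = κ_i(ℝ)`. The terms with
`m_i` cancel in the claim and the rest is `LOR1`. -/

set_option autoImplicit false

namespace Pool.Agent.FAC3
open MeasureTheory Set Filter Topology
open scoped RealInnerProductSpace ENNReal

private theorem LOR2_id {l y x x' : E3} (hl : ‖l‖ = 1) (hy : ⟪l, y⟫ = 0) (hx : ⟪l, x⟫ = 0) (hx' : ⟪l, x'⟫ = 0) :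
    ‖y‖ ^ 2 * ⟪l, cr x x'⟫ = ⟪y, x⟫ * ⟪l, cr y x'⟫ - ⟪y, x'⟫ * ⟪l, cr y x⟫ := by
  have h1 := cr_cr x x' y
  rw [cr_of_perp hl hx hx', cr_smul_left] at h1
  have h2 := congrArg (fun v : E3 => ⟪cr l y, v⟫) h1
  simp only [inner_smul_right, inner_sub_right, real_inner_self_eq_norm_sq] at h2
  rw [norm_cr_sq, hl, hy, ← inner_cr_assoc, ← inner_cr_assoc, real_inner_comm y x, real_inner_comm y x'] at h2
  linarith

private noncomputable def LOR2_w (l y x : E3) : ℝ := ⟪l, cr y x⟫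

private noncomputable def LOR2_S (l y x : E3) : ℝ := ⟪y, x⟫ / LOR2_w l y x

open Classical in
private noncomputable def LOR2_Z (l y x : E3) : ℝ≥0∞ := if LOR2_w l y x = 0 then en ⟪y, x⟫ else 0

private theorem LOR2_wm (l y : E3) : Measurable (LOR2_w l y) := by
  unfold LOR2_w
  simp_rw [inner_cr_assoc]
  exact (continuous_const.inner continuous_id).measurable

private theorem LOR2_km (y : E3) : Measurable (fun x : E3 => (⟪y, x⟫ : ℝ)) :=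
  (continuous_const.inner continuous_id).measurable

private theorem LOR2_Sm (l y : E3) : Measurable (LOR2_S l y) :=
  (LOR2_km y).div (LOR2_wm l y)

private theorem LOR2_Zm (l y : E3) : Measurable (LOR2_Z l y) :=
  Measurable.ite (measurableSet_eq_fun (LOR2_wm l y) measurable_const) (measurable_en.comp (LOR2_km y)) measurable_const

private theorem LOR2_em (l y : E3) : Measurable (fun x => en (LOR2_w l y x)) :=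
  measurable_en.comp (LOR2_wm l y)

private theorem LOR2_pt {l y x x' : E3} (hl : ‖l‖ = 1) (hy : ⟪l, y⟫ = 0) (hx : ⟪l, x⟫ = 0) (hx' : ⟪l, x'⟫ = 0) :
    en (‖y‖ ^ 2) * en ⟪l, cr x x'⟫ =
      en (LOR2_w l y x) * (en (LOR2_w l y x') * ENNReal.ofReal |LOR2_S l y x - LOR2_S l y x'|) +
        (LOR2_Z l y x * en (LOR2_w l y x') + en (LOR2_w l y x) * LOR2_Z l y x') := by
  have h1 := LOR2_id hl hy hx hx'
  have h2 : en (‖y‖ ^ 2) * en ⟪l, cr x x'⟫ = en (⟪y, x⟫ * LOR2_w l y x' - ⟪y, x'⟫ * LOR2_w l y x) := by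
    rw [← en_mul, h1]
    rfl
  rw [h2]
  by_cases hw : LOR2_w l y x = 0
  · by_cases hw' : LOR2_w l y x' = 0
    · simp [hw, hw', en_zero]
    · unfold LOR2_Z
      rw [if_pos hw, if_neg hw', hw, mul_zero, sub_zero, en_mul, en_zero]
      simp
  · by_cases hw' : LOR2_w l y x' = 0
    · unfold LOR2_Z
      rw [if_neg hw, if_pos hw', hw', mul_zero, zero_sub, en_neg, en_mul, en_zero]
      simp [mul_comm]
    · unfold LOR2_Z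
      rw [if_neg hw, if_neg hw', zero_mul, mul_zero, add_zero, add_zero]
      show _ = en (LOR2_w l y x) * (en (LOR2_w l y x') * en (LOR2_S l y x - LOR2_S l y x'))
      rw [← en_mul, ← en_mul]
      congr 1
      unfold LOR2_S
      field_simp

/-- the image measure. -/
private noncomputable def LOR2_K (l y : E3) (σ : Measure E3) : Measure ℝ :=
  (σ.withDensity fun x => en (LOR2_w l y x)).map (LOR2_S l y)

private theorem LOR2_Ki (l y : E3) (σ : Measure E3) {F : ℝ → ℝ≥0∞} (hF : Measurable F) :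
    ∫⁻ s, F s ∂(LOR2_K l y σ) = ∫⁻ x, en (LOR2_w l y x) * F (LOR2_S l y x) ∂σ := by
  unfold LOR2_K
  rw [lintegral_map hF (LOR2_Sm l y)]
  exact lintegral_withDensity_eq_lintegral_mul σ (LOR2_em l y) (hF.comp (LOR2_Sm l y))

private theorem LOR2_Ku (l y : E3) (σ : Measure E3) :
    LOR2_K l y σ univ = ∫⁻ x, en (LOR2_w l y x) ∂σ := by
  have h := LOR2_Ki l y σ (F := fun _ => 1) measurable_const
  rw [lintegral_one] at h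
  rw [h]
  simp

private theorem LOR2_Kf (l y : E3) {σ : Measure E3} (h : FM σ) : IsFiniteMeasure (LOR2_K l y σ) := by
  refine ⟨?_⟩
  rw [LOR2_Ku]
  have h1 : ∫⁻ x, en (LOR2_w l y x) ∂σ = J σ (cr l y) := by
    unfold J LOR2_w
    simp_rw [inner_cr_assoc]
  rw [h1]
  exact lt_top_iff_ne_top.2 (J_ne_top h _)

private theorem LOR2_main {l y : E3} (hl : ‖l‖ = 1) (hy : ⟪l, y⟫ = 0) {σ σ' : Measure E3}
    (f' : IsFiniteMeasure σ') (m' : FM σ')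
    (h : σ (pl l)ᶜ = 0) (h' : σ' (pl l)ᶜ = 0) :
    en (‖y‖ ^ 2) * ∫⁻ x, ∫⁻ x', en ⟪l, cr x x'⟫ ∂σ' ∂σ =
      (∫⁻ s, ∫⁻ t, ENNReal.ofReal |s - t| ∂(LOR2_K l y σ') ∂(LOR2_K l y σ)) +
        ((∫⁻ x, LOR2_Z l y x ∂σ) * (∫⁻ x, en (LOR2_w l y x) ∂σ') +
          (∫⁻ x, en (LOR2_w l y x) ∂σ) * (∫⁻ x, LOR2_Z l y x ∂σ')) := by
  have hK' := LOR2_Kf l y m'
  have hae : ∀ᵐ x ∂σ, ⟪l, x⟫ = 0 := by
    rw [ae_iff]
    exact h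
  have hae' : ∀ᵐ x ∂σ', ⟪l, x⟫ = 0 := by
    rw [ae_iff]
    exact h'
  have hd : Measurable (fun q : ℝ × ℝ => ENNReal.ofReal |q.1 - q.2|) :=
    ENNReal.measurable_ofReal.comp (continuous_abs.measurable.comp (measurable_fst.sub measurable_snd))
  have hin : Measurable (fun s : ℝ => ∫⁻ t, ENNReal.ofReal |s - t| ∂(LOR2_K l y σ')) :=
    hd.lintegral_prod_right'
  have hcr : Measurable (fun q : E3 × E3 => en ⟪l, cr q.1 q.2⟫) :=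
    measurable_en.comp ((continuous_const.inner continuous_cr).measurable)
  have hinner : ∀ x : E3, ⟪l, x⟫ = 0 → en (‖y‖ ^ 2) * ∫⁻ x', en ⟪l, cr x x'⟫ ∂σ' =
      en (LOR2_w l y x) * (∫⁻ t, ENNReal.ofReal |LOR2_S l y x - t| ∂(LOR2_K l y σ')) +
        (LOR2_Z l y x * (∫⁻ x, en (LOR2_w l y x) ∂σ') + en (LOR2_w l y x) * (∫⁻ x, LOR2_Z l y x ∂σ')) := by
    intro x hx
    have e1 : Measurable (fun t : ℝ => ENNReal.ofReal |LOR2_S l y x - t|) :=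
      hd.comp (measurable_const.prodMk measurable_id)
    have e2 : Measurable (fun x' => en (LOR2_w l y x') * ENNReal.ofReal |LOR2_S l y x - LOR2_S l y x'|) :=
      (LOR2_em l y).mul (e1.comp (LOR2_Sm l y))
    have e3 : Measurable (fun x' : E3 => en ⟪l, cr x x'⟫) := by
      simp_rw [inner_cr_assoc]
      exact measurable_en_inner _
    have g0 : en (‖y‖ ^ 2) * ∫⁻ x', en ⟪l, cr x x'⟫ ∂σ' = ∫⁻ x', en (‖y‖ ^ 2) * en ⟪l, cr x x'⟫ ∂σ' :=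
      (lintegral_const_mul _ e3).symm
    have g1 : ∫⁻ x', en (‖y‖ ^ 2) * en ⟪l, cr x x'⟫ ∂σ' =
        ∫⁻ x', (en (LOR2_w l y x) * (en (LOR2_w l y x') * ENNReal.ofReal |LOR2_S l y x - LOR2_S l y x'|) +
        (LOR2_Z l y x * en (LOR2_w l y x') + en (LOR2_w l y x) * LOR2_Z l y x')) ∂σ' := by
      refine lintegral_congr_ae ?_
      filter_upwards [hae'] with x' hx'
      exact LOR2_pt hl hy hx hx'
    rw [g0, g1, lintegral_add_left (e2.const_mul _), lintegral_add_left ((LOR2_em l y).const_mul _),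
      lintegral_const_mul _ e2, lintegral_const_mul _ (LOR2_em l y), lintegral_const_mul _ (LOR2_Zm l y),
      LOR2_Ki l y σ' e1]
  have e4 : Measurable (fun x => en (LOR2_w l y x) * (∫⁻ t, ENNReal.ofReal |LOR2_S l y x - t| ∂(LOR2_K l y σ'))) :=
    (LOR2_em l y).mul (hin.comp (LOR2_Sm l y))
  have e5 : Measurable (fun x => ∫⁻ x', en ⟪l, cr x x'⟫ ∂σ') := hcr.lintegral_prod_right'
  have g0 : en (‖y‖ ^ 2) * ∫⁻ x, ∫⁻ x', en ⟪l, cr x x'⟫ ∂σ' ∂σ =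
      ∫⁻ x, (en (‖y‖ ^ 2) * ∫⁻ x', en ⟪l, cr x x'⟫ ∂σ') ∂σ := (lintegral_const_mul _ e5).symm
  have g1 : ∫⁻ x, (en (‖y‖ ^ 2) * ∫⁻ x', en ⟪l, cr x x'⟫ ∂σ') ∂σ =
      ∫⁻ x, (en (LOR2_w l y x) * (∫⁻ t, ENNReal.ofReal |LOR2_S l y x - t| ∂(LOR2_K l y σ')) +
        (LOR2_Z l y x * (∫⁻ x, en (LOR2_w l y x) ∂σ') + en (LOR2_w l y x) * (∫⁻ x, LOR2_Z l y x ∂σ'))) ∂σ := by
    refine lintegral_congr_ae ?_
    filter_upwards [hae] with x hx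
    exact hinner x hx
  rw [g0, g1, lintegral_add_left e4, lintegral_add_left ((LOR2_Zm l y).mul_const _),
    lintegral_mul_const _ (LOR2_Zm l y), lintegral_mul_const _ (LOR2_em l y), LOR2_Ki l y σ hin]

theorem LOR2 {l y : E3} (hl : ‖l‖ = 1) (hy : ⟪l, y⟫ = 0) (hy0 : y ≠ 0) {σ₁ σ₂ : Measure E3}
    (f₁ : IsFiniteMeasure σ₁) (f₂ : IsFiniteMeasure σ₂) (m₁ : FM σ₁) (m₂ : FM σ₂)
    (h₁ : σ₁ (pl l)ᶜ = 0) (h₂ : σ₂ (pl l)ᶜ = 0) :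
    (∫⁻ x, ∫⁻ x', en ⟪l, cr x x'⟫ ∂σ₁ ∂σ₁) * (∫⁻ x, en ⟪l, cr y x⟫ ∂σ₂) ^ 2 +
      (∫⁻ x, ∫⁻ x', en ⟪l, cr x x'⟫ ∂σ₂ ∂σ₂) * (∫⁻ x, en ⟪l, cr y x⟫ ∂σ₁) ^ 2 ≤
    2 * (∫⁻ x, ∫⁻ x', en ⟪l, cr x x'⟫ ∂σ₂ ∂σ₁) * (∫⁻ x, en ⟪l, cr y x⟫ ∂σ₁) * (∫⁻ x, en ⟪l, cr y x⟫ ∂σ₂) := by
  have k₁ := LOR2_Kf l y m₁
  have k₂ := LOR2_Kf l y m₂
  have e11 := LOR2_main hl hy f₁ m₁ h₁ h₁
  have e12 := LOR2_main hl hy f₂ m₂ h₁ h₂
  have e22 := LOR2_main hl hy f₂ m₂ h₂ h₂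
  have hL := LOR1 k₁ k₂
  rw [LOR2_Ku, LOR2_Ku] at hL
  have ha : ∀ σ : Measure E3, ∫⁻ x, en ⟪l, cr y x⟫ ∂σ = ∫⁻ x, en (LOR2_w l y x) ∂σ := fun σ => rfl
  rw [ha σ₁, ha σ₂]
  have hY0 : en (‖y‖ ^ 2) ≠ 0 := by
    intro h0
    exact hy0 (norm_eq_zero.1 (pow_eq_zero_iff (two_ne_zero) |>.1 (en_eq_zero.1 h0)))
  have hY1 : en (‖y‖ ^ 2) ≠ ⊤ := en_ne_top _
  rw [← ENNReal.mul_le_mul_iff_right hY0 hY1]
  generalize en (‖y‖ ^ 2) = Y at *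
  generalize (∫⁻ x, en (LOR2_w l y x) ∂σ₁) = a₁ at *
  generalize (∫⁻ x, en (LOR2_w l y x) ∂σ₂) = a₂ at *
  generalize (∫⁻ x, LOR2_Z l y x ∂σ₁) = z₁ at *
  generalize (∫⁻ x, LOR2_Z l y x ∂σ₂) = z₂ at *
  generalize (∫⁻ x, ∫⁻ x', en ⟪l, cr x x'⟫ ∂σ₁ ∂σ₁) = D₁₁ at *
  generalize (∫⁻ x, ∫⁻ x', en ⟪l, cr x x'⟫ ∂σ₂ ∂σ₂) = D₂₂ at *
  generalize (∫⁻ x, ∫⁻ x', en ⟪l, cr x x'⟫ ∂σ₂ ∂σ₁) = D₁₂ at *
  have l1 : Y * (D₁₁ * a₂ ^ 2 + D₂₂ * a₁ ^ 2) = (Y * D₁₁) * a₂ ^ 2 + (Y * D₂₂) * a₁ ^ 2 := by ring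
  have l2 : Y * (2 * D₁₂ * a₁ * a₂) = 2 * (Y * D₁₂) * a₁ * a₂ := by ring
  rw [l1, l2, e11, e12, e22]
  generalize (∫⁻ s, ∫⁻ t, ENNReal.ofReal |s - t| ∂(LOR2_K l y σ₁) ∂(LOR2_K l y σ₁)) = E₁₁ at *
  generalize (∫⁻ s, ∫⁻ t, ENNReal.ofReal |s - t| ∂(LOR2_K l y σ₂) ∂(LOR2_K l y σ₂)) = E₂₂ at *
  generalize (∫⁻ s, ∫⁻ t, ENNReal.ofReal |s - t| ∂(LOR2_K l y σ₂) ∂(LOR2_K l y σ₁)) = E₁₂ at *
  have l3 : (E₁₁ + (z₁ * a₁ + a₁ * z₁)) * a₂ ^ 2 + (E₂₂ + (z₂ * a₂ + a₂ * z₂)) * a₁ ^ 2 =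
      (a₂ ^ 2 * E₁₁ + a₁ ^ 2 * E₂₂) + (2 * z₁ * a₁ * a₂ ^ 2 + 2 * z₂ * a₂ * a₁ ^ 2) := by ring
  have l4 : 2 * (E₁₂ + (z₁ * a₂ + a₁ * z₂)) * a₁ * a₂ =
      2 * a₁ * a₂ * E₁₂ + (2 * z₁ * a₁ * a₂ ^ 2 + 2 * z₂ * a₂ * a₁ ^ 2) := by ring
  rw [l3, l4]
  exact add_le_add hL le_rfl

end Pool.Agent.FAC3
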