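import Pool.Agent.FAC3.N0
import Pool.Agent.FAC3.ATM

/-! Module FAC3-QD: four atoms in general position.

`two_lines`: if `n(l) = ∫_{ln l} en ⟪l, q⟫ dN_p` were different from `0` for at most one atom `l` of `ν` in `pl p`, then (`N0`,
countably many atoms) `N_p`-almost every `q` would be in one line and `Om μ p` would vanish.
`QD`: by `NmL` there are two atoms `≠ p` on each of the two lines, and these four are in general position. -/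

set_option autoImplicit false

namespace Pool.Agent.FAC3
open MeasureTheory Set Filter Topology
open scoped RealInnerProductSpace ENNReal

private theorem QD_null {N : Measure E3} {l : E3} (hl : l ≠ 0) (h : ∫⁻ q in ln l, en ⟪l, q⟫ ∂N = 0) :
    ∀ᵐ q ∂N, q ∈ ln l → q = 0 := by
  rw [lintegral_eq_zero_iff (measurable_en_inner l)] at h
  have h6 : ∀ᵐ z ∂N, z ∈ ln l → en ⟪l, z⟫ = 0 := by
    rw [← ae_restrict_iff' (ln_meas l)]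
    exact h
  filter_upwards [h6] with q hq hql
  have h1 := en_eq_zero.1 (hq hql)
  have h2 := cr_eq_zero hl (show cr l q = 0 from hql)
  rw [h1, zero_div, zero_smul] at h2
  exact h2

private theorem QD_ae {μ ν : Measure E3} (h : Sys μ ν) {p l₀ : E3} (hp : p ∈ At μ)
    (H : ∀ l ∈ At ν, ⟪l, p⟫ = 0 → l ≠ l₀ → ∫⁻ q in ln l, en ⟪l, q⟫ ∂(Nm μ p) = 0) :
    ∀ᵐ q ∂(Nm μ p), q ∈ ln l₀ := by
  have h1 : ∀ᵐ q ∂(Nm μ p), ¬ (q ≠ 0 ∧ rep q ∉ At ν) := by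
    rw [ae_iff]
    have h2 := N0 h.symm hp
    simpa only [not_not] using h2
  have h3 : ∀ᵐ q ∂(Nm μ p), q ∈ pl p := ae_restrict_mem (pl_meas p)
  have h4 : ∀ᵐ q ∂(Nm μ p), ∀ l ∈ At ν, ⟪l, p⟫ = 0 → l ≠ l₀ → q ∈ ln l → q = 0 := by
    rw [ae_ball_iff (At_countable h.f2)]
    intro l hl
    by_cases h5 : ⟪l, p⟫ = 0 ∧ l ≠ l₀
    · have h6 := QD_null (HS_ne (At_sub h.s2 hl)) (H l hl h5.1 h5.2)
      filter_upwards [h6] with q hq _ _ hql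
      exact hq hql
    · exact Eventually.of_forall fun q h7 h8 => absurd ⟨h7, h8⟩ h5
  filter_upwards [h1, h3, h4] with q hq1 hq3 hq4
  by_cases hq0 : q = 0
  · rw [hq0]
    exact cr_zero_right l₀
  · have h5 : rep q ∈ At ν := by
      by_contra h6
      exact hq1 ⟨hq0, h6⟩
    have h6 : ⟪rep q, p⟫ = 0 := by
      rw [real_inner_comm, inner_rep_eq_zero]
      exact hq3
    have h7 : q ∈ ln (rep q) := (mem_ln_iff (rep_mem hq0)).2 (Or.inr rfl)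
    by_cases h8 : rep q = l₀
    · rw [← h8]
      exact h7
    · exact absurd (hq4 (rep q) h5 h6 h8 h7) hq0

private theorem QD_Om {μ : Measure E3} {p l₀ : E3} (hl : l₀ ≠ 0) (H : ∀ᵐ q ∂(Nm μ p), q ∈ ln l₀) : Om μ p = 0 := by
  unfold Om
  have h1 : ∀ᵐ q ∂(Nm μ p), ∫⁻ q', en ⟪p, cr q q'⟫ ∂(Nm μ p) = 0 := by
    filter_upwards [H] with q hq
    have h2 : ∀ᵐ q' ∂(Nm μ p), en ⟪p, cr q q'⟫ = 0 := by
      filter_upwards [H] with q' hq'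
      have h3 := cr_eq_zero hl (show cr l₀ q = 0 from hq)
      have h4 := cr_eq_zero hl (show cr l₀ q' = 0 from hq')
      rw [h3, h4, cr_smul_left, cr_smul_right, cr_self, smul_zero, smul_zero, inner_zero_right, en_zero]
    rw [lintegral_congr_ae h2, lintegral_zero]
  rw [lintegral_congr_ae h1, lintegral_zero]

theorem two_lines {μ ν : Measure E3} (h : Sys μ ν) {p : E3} (hp : p ∈ At μ) (hO : Om μ p ≠ 0) :
    ∃ l₁ ∈ At ν, ∃ l₂ ∈ At ν, l₁ ≠ l₂ ∧ ⟪l₁, p⟫ = 0 ∧ ⟪l₂, p⟫ = 0 ∧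
      ∫⁻ q in ln l₁, en ⟪l₁, q⟫ ∂(Nm μ p) ≠ 0 ∧ ∫⁻ q in ln l₂, en ⟪l₂, q⟫ ∂(Nm μ p) ≠ 0 := by
  by_contra hc
  have hp0 : p ≠ 0 := HS_ne (At_sub h.s1 hp)
  have key : ∃ l₀ : E3, l₀ ≠ 0 ∧ ∀ l ∈ At ν, ⟪l, p⟫ = 0 → l ≠ l₀ →
      ∫⁻ q in ln l, en ⟪l, q⟫ ∂(Nm μ p) = 0 := by
    by_cases hS : ∃ l ∈ At ν, ⟪l, p⟫ = 0 ∧ ∫⁻ q in ln l, en ⟪l, q⟫ ∂(Nm μ p) ≠ 0
    · obtain ⟨l₀, h1, h2, h3⟩ := hS
      refine ⟨l₀, HS_ne (At_sub h.s2 h1), fun l hl hlp hne => ?_⟩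
      by_contra h4
      exact hc ⟨l, hl, l₀, h1, hne, hlp, h2, h4, h3⟩
    · refine ⟨p, hp0, fun l hl hlp _ => ?_⟩
      by_contra h4
      exact hS ⟨l, hl, hlp, h4⟩
  obtain ⟨l₀, h0, h1⟩ := key
  exact hO (QD_Om h0 (QD_ae h hp h1))

private theorem QD_pair {μ : Measure E3} (hf : IsFiniteMeasure μ) {l p : E3} (hl : ‖l‖ = 1) (hpl : ⟪l, p⟫ = 0)
    (hA : μ (pl l \ At μ) = 0) (hn : ∫⁻ q in ln l, en ⟪l, q⟫ ∂(Nm μ p) ≠ 0) :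
    ∃ a ∈ At μ, ∃ b ∈ At μ, ⟪l, a⟫ = 0 ∧ ⟪l, b⟫ = 0 ∧ a ≠ p ∧ b ≠ p ∧ ⟪l, cr a b⟫ ≠ 0 := by
  by_contra hc
  refine hn ?_
  rw [NmL hf hl hpl]
  have hm : MeasurableSet (pl l \ {p}) := (pl_meas l).diff (measurableSet_singleton p)
  have h0 : ∀ᵐ y ∂μ, ¬ y ∈ pl l \ At μ := measure_eq_zero_iff_ae_notMem.1 hA
  have h1 : ∀ᵐ y ∂(μ.restrict (pl l \ {p})), y ∈ pl l ∧ y ≠ p ∧ y ∈ At μ := by
    rw [ae_restrict_iff' hm]
    filter_upwards [h0] with y hy hy2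
    refine ⟨hy2.1, hy2.2, ?_⟩
    by_contra h2
    exact hy ⟨hy2.1, h2⟩
  have h2 : ∀ᵐ y ∂(μ.restrict (pl l \ {p})), ∫⁻ z in pl l \ {p}, en ⟪l, cr y z⟫ ∂μ = 0 := by
    filter_upwards [h1] with y hy
    have h3 : ∀ᵐ z ∂(μ.restrict (pl l \ {p})), en ⟪l, cr y z⟫ = 0 := by
      filter_upwards [h1] with z hz
      rw [en_eq_zero]
      by_contra h4
      exact hc ⟨y, hy.2.2, z, hz.2.2, hy.1, hz.1, hy.2.1, hz.2.1, h4⟩
    rw [lintegral_congr_ae h3, lintegral_zero]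
  rw [lintegral_congr_ae h2, lintegral_zero]

private theorem QD_ne {l₁ l₂ p c : E3} (h1 : l₁ ∈ HS) (h2 : l₂ ∈ HS) (hne : l₁ ≠ l₂) (hp : p ∈ HS) (hc : c ∈ HS)
    (hp1 : ⟪l₁, p⟫ = 0) (hp2 : ⟪l₂, p⟫ = 0) (hc2 : ⟪l₂, c⟫ = 0) (hcp : c ≠ p) : ⟪l₁, c⟫ ≠ 0 := by
  intro hc1
  have h3 : cr l₁ l₂ ≠ 0 := fun h0 => hne (HS_unique h1 h2 h0)
  refine hcp (HS_unique hc hp (par_of_perp h3 ?_ ?_ ?_ ?_))
  · rw [real_inner_comm]
    exact hc1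
  · rw [real_inner_comm]
    exact hc2
  · rw [real_inner_comm]
    exact hp1
  · rw [real_inner_comm]
    exact hp2

theorem QD {μ ν : Measure E3} (h : Sys μ ν) {p : E3} (hp : p ∈ At μ) (hO : Om μ p ≠ 0)
    (hA : ∀ l ∈ At ν, μ (pl l \ At μ) = 0) :
    ∃ a ∈ At μ, ∃ b ∈ At μ, ∃ c ∈ At μ, ∃ d ∈ At μ, Gen4 a b c d := by
  obtain ⟨l₁, hl1, l₂, hl2, hne, hp1, hp2, hn1, hn2⟩ := two_lines h hp hO
  have hH1 : l₁ ∈ HS := At_sub h.s2 hl1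
  have hH2 : l₂ ∈ HS := At_sub h.s2 hl2
  have hpH : p ∈ HS := At_sub h.s1 hp
  obtain ⟨a, ha, b, hb, ha1, hb1, hap, hbp, hab⟩ := QD_pair h.f1 (HS_norm hH1) hp1 (hA l₁ hl1) hn1
  obtain ⟨c, hc, d, hd, hc2, hd2, hcp, hdp, hcd⟩ := QD_pair h.f1 (HS_norm hH2) hp2 (hA l₂ hl2) hn2
  have hc1 := QD_ne hH1 hH2 hne hpH (At_sub h.s1 hc) hp1 hp2 hc2 hcp
  have hd1 := QD_ne hH1 hH2 hne hpH (At_sub h.s1 hd) hp1 hp2 hd2 hdp
  have ha2 := QD_ne hH2 hH1 (Ne.symm hne) hpH (At_sub h.s1 ha) hp2 hp1 ha1 hap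
  have hb2 := QD_ne hH2 hH1 (Ne.symm hne) hpH (At_sub h.s1 hb) hp2 hp1 hb1 hbp
  have h1 := cr_of_perp (HS_norm hH1) ha1 hb1
  have h2 := cr_of_perp (HS_norm hH2) hc2 hd2
  refine ⟨a, ha, b, hb, c, hc, d, hd, ?_, ?_, ?_, ?_⟩
  · rw [inner_cr_assoc, h1, real_inner_smul_left]
    exact mul_ne_zero hab hc1
  · rw [inner_cr_assoc, h1, real_inner_smul_left]
    exact mul_ne_zero hab hd1
  · rw [h2, real_inner_smul_right, real_inner_comm l₂ a]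
    exact mul_ne_zero hcd ha2
  · rw [h2, real_inner_smul_right, real_inner_comm l₂ b]
    exact mul_ne_zero hcd hb2

end Pool.Agent.FAC3
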