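import Pool.Agent.FAC3.LOR2
import Pool.Agent.FAC3.ATM

/-! Module FAC3-QI: the quadratic inequality for a line `l`: `LOR2` with `y = p`, `σ₁ = μ.restrict (pl l)` and
`σ₂ = ν.map (cr l ·)`. -/

set_option autoImplicit false

namespace Pool.Agent.FAC3
open MeasureTheory Set Filter Topology
open scoped RealInnerProductSpace ENNReal

/-- `∫ J ν (l × n) dν(n) = J μ l`. -/
theorem int_J_cr {μ ν : Measure E3} (h : Sys μ ν) (l : E3) : ∫⁻ n, J ν (cr l n) ∂ν = J μ l := by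
  have := h.f2
  rw [h.h2 l]
  show _ = ∫⁻ x, en ⟪l, x⟫ ∂(TT ν)
  rw [lint_TT (measurable_en_inner l)]
  refine lintegral_congr fun n => ?_
  show ∫⁻ x, en ⟪cr l n, x⟫ ∂ν = _
  refine lintegral_congr fun m => ?_
  rw [inner_cr_assoc]

private theorem QI_pt {l x n : E3} (hl : ‖l‖ = 1) (hx : ⟪l, x⟫ = 0) : (⟪l, cr x (cr l n)⟫ : ℝ) = ⟪x, n⟫ := by
  rw [inner_cr_assoc, inner_cr_cr, real_inner_self_eq_norm_sq, hl, real_inner_comm l x, hx]
  ring

private theorem QI_crm (l : E3) : Measurable (fun n : E3 => cr l n) :=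
  (continuous_cr.comp (continuous_const.prodMk continuous_id)).measurable

private theorem QI_in {ν : Measure E3} {l x : E3} (hl : ‖l‖ = 1) (hx : ⟪l, x⟫ = 0) :
    ∫⁻ y, en ⟪l, cr x y⟫ ∂(ν.map fun n => cr l n) = J ν x := by
  have hm : Measurable (fun y : E3 => en ⟪l, cr x y⟫) := by
    simp_rw [inner_cr_assoc]
    exact measurable_en_inner _
  rw [lintegral_map hm (QI_crm l)]
  show _ = ∫⁻ n, en ⟪x, n⟫ ∂ν
  refine lintegral_congr fun n => ?_
  rw [QI_pt hl hx]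

theorem QI {μ ν : Measure E3} (h : Sys μ ν) {l p : E3} (hl : l ∈ HS) (hp : ⟪l, p⟫ = 0) :
    ν {l} * (J ν p) ^ 2 + J μ l * (QQ μ l p) ^ 2 ≤ 2 * (∫⁻ x in pl l, J ν x ∂μ) * J ν p * QQ μ l p := by
  have hl1 := HS_norm hl
  have := h.f1
  have := h.f2
  by_cases hp0 : p = 0
  · have hQ : QQ μ l p = 0 := by
      unfold QQ
      rw [hp0]
      simp only [cr_zero_left, inner_zero_right, en_zero, lintegral_zero]
    rw [hQ, hp0, J_zero]
    simp
  have f₂ : IsFiniteMeasure (ν.map fun n => cr l n) := inferInstance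
  have m₁ : FM (μ.restrict (pl l)) := FM_mono Measure.restrict_le_self (FM_of_HS h.f1 h.s1)
  have m₂ : FM (ν.map fun n => cr l n) := by
    unfold FM
    have hn : Measurable (fun x : E3 => ENNReal.ofReal ‖x‖) := ENNReal.measurable_ofReal.comp measurable_norm
    rw [lintegral_map hn (QI_crm l)]
    refine ne_top_of_le_ne_top (FM_of_HS h.f2 h.s2) (lintegral_mono fun n => ?_)
    refine ENNReal.ofReal_le_ofReal ?_
    have h1 := norm_cr_le l n
    rwa [hl1, one_mul] at h1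
  have h₁ : (μ.restrict (pl l)) (pl l)ᶜ = 0 := by
    rw [Measure.restrict_apply (pl_meas l).compl, Set.compl_inter_self, measure_empty]
  have h₂ : (ν.map fun n => cr l n) (pl l)ᶜ = 0 := by
    rw [Measure.map_apply (QI_crm l) (pl_meas l).compl]
    have h3 : (fun n : E3 => cr l n) ⁻¹' (pl l)ᶜ = ∅ := by
      rw [Set.eq_empty_iff_forall_notMem]
      intro n hn
      exact hn (inner_cr_left l n)
    rw [h3, measure_empty]
  have hmJ : Measurable (J ν) := measurable_J ν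
  have key := LOR2 hl1 hp hp0 (inferInstance : IsFiniteMeasure (μ.restrict (pl l))) f₂ m₁ m₂ h₁ h₂
  have e1 : ∫⁻ x, ∫⁻ x', en ⟪l, cr x x'⟫ ∂(μ.restrict (pl l)) ∂(μ.restrict (pl l)) = ν {l} :=
    (ATM h hl).symm
  have e2 : ∫⁻ x, en ⟪l, cr p x⟫ ∂(μ.restrict (pl l)) = QQ μ l p := rfl
  have e3 := QI_in (ν := ν) hl1 hp
  have e4 : ∫⁻ x, ∫⁻ x', en ⟪l, cr x x'⟫ ∂(ν.map fun n => cr l n) ∂(μ.restrict (pl l)) =
      ∫⁻ x in pl l, J ν x ∂μ := by
    refine setLIntegral_congr_fun (pl_meas l) fun x hx => ?_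
    exact QI_in hl1 hx
  have e5 : ∫⁻ x, ∫⁻ x', en ⟪l, cr x x'⟫ ∂(ν.map fun n => cr l n) ∂(ν.map fun n => cr l n) = J μ l := by
    have e6 : ∀ᵐ x ∂(ν.map fun n => cr l n), ∫⁻ x', en ⟪l, cr x x'⟫ ∂(ν.map fun n => cr l n) = J ν x := by
      have h3 : ∀ᵐ x ∂(ν.map fun n => cr l n), x ∈ pl l := by
        rw [ae_iff]
        exact h₂
      filter_upwards [h3] with x hx
      exact QI_in hl1 hx
    rw [lintegral_congr_ae e6, lintegral_map hmJ (QI_crm l)]
    exact int_J_cr h l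
  rw [e1, e2, e3, e4, e5] at key
  refine key.trans (le_of_eq ?_)
  ring

end Pool.Agent.FAC3
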