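import Pool.Agent.FAC3.ATM

/-! Module FAC3-RSTa: the atoms of the pencil identity, from `ATL` for the atom `p` and the decomposition `TD` of `TT ν` at `m`. -/

set_option autoImplicit false

namespace Pool.Agent.FAC3
open MeasureTheory Set Filter Topology
open scoped RealInnerProductSpace ENNReal

private theorem RSTa_ind {p : E3} (hp : p ∈ HS) (v q : E3) :
    (ln p).indicator (fun x => en ⟪v, x⟫) q = {q | rep q = p}.indicator (fun x => en ⟪v, x⟫) q := by
  by_cases h : rep q = p
  · rw [indicator_of_mem ((mem_ln_iff hp).2 (Or.inr h)), indicator_of_mem (show q ∈ {q | rep q = p} from h)]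
  · rw [indicator_of_notMem (show q ∉ {q | rep q = p} from h)]
    by_cases h0 : q = 0
    · have h1 : en ⟪v, q⟫ = 0 := by rw [h0, inner_zero_right, en_zero]
      by_cases h2 : q ∈ ln p
      · rw [indicator_of_mem h2, h1]
      · rw [indicator_of_notMem h2]
    · rw [indicator_of_notMem]
      intro h2
      rcases (mem_ln_iff hp).1 h2 with h3 | h3
      · exact h0 h3
      · exact h h3

theorem RSTa {μ ν : Measure E3} (h : Sys μ ν) {m p : E3} (hp : p ∈ HS) (hpm : ⟪m, p⟫ = 0) (v : E3) :
    μ {p} * en ⟪v, p⟫ = 2 * ν {m} * ∫⁻ n in {n | rep (cr m n) = p}, en ⟪v, cr m n⟫ ∂ν +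
      ∫⁻ q in {q | rep q = p}, en ⟪v, q⟫ ∂(Nm ν m) := by
  have hcr : Measurable fun n : E3 => cr m n := by
    have : Continuous fun n : E3 => cr m n := continuous_cr.comp (continuous_const.prodMk continuous_id)
    exact this.measurable
  have hS : MeasurableSet {q : E3 | rep q = p} := rep_measurable (measurableSet_singleton p)
  have hS' : MeasurableSet {n : E3 | rep (cr m n) = p} := hcr hS
  have hg : Measurable ((ln p).indicator fun x => en ⟪v, x⟫) := (measurable_en_inner v).indicator (ln_meas p)
  have he : ∀ x, (ln p).indicator (fun x => en ⟪v, x⟫) (-x) = (ln p).indicator (fun x => en ⟪v, x⟫) x := by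
    intro x
    have h1 : -x ∈ ln p ↔ x ∈ ln p := by
      show cr p (-x) = 0 ↔ cr p x = 0
      rw [cr_neg_right, neg_eq_zero]
    by_cases h2 : x ∈ ln p
    · rw [indicator_of_mem h2, indicator_of_mem (h1.2 h2), inner_neg_right, en_neg]
    · rw [indicator_of_notMem h2, indicator_of_notMem fun h3 => h2 (h1.1 h3)]
  have h0 : (ln p).indicator (fun x => en ⟪v, x⟫) 0 = 0 := by
    have h1 : (0 : E3) ∈ ln p := cr_zero_right p
    rw [indicator_of_mem h1, inner_zero_right, en_zero]
  rw [ATL h.symm hp v, ← lintegral_indicator (ln_meas p), TD h.f2 m hg he h0, add_comm]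
  congr 1
  · congr 1
    rw [← lintegral_indicator hS']
    refine lintegral_congr fun z => ?_
    rw [RSTa_ind hp]
    rfl
  · have h1 : (Nm ν m).restrict {q | rep q = p} = (TT (ν.restrict {m}ᶜ)).restrict {q | rep q = p} := by
      unfold Nm
      rw [Measure.restrict_restrict hS]
      congr 1
      refine inter_eq_left.2 fun q hq => ?_
      have hq' : rep q = p := hq
      show ⟪m, q⟫ = 0
      rw [← inner_rep_eq_zero, hq']
      exact hpm
    rw [h1, ← lintegral_indicator hS]
    exact lintegral_congr fun q => RSTa_ind hp v q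

end Pool.Agent.FAC3
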