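import Pool.Agent.FAC3.SDa

/-! Module FAC3-SDb: equality of cosine transforms restricts to lines: `D0` applied twice (`ln m = pl p ∩ pl p'`). -/

set_option autoImplicit false

namespace Pool.Agent.FAC3
open MeasureTheory Set Filter Topology
open scoped RealInnerProductSpace ENNReal

private theorem SDb_exists {m : E3} (hm : m ≠ 0) : ∃ e : E3, cr m e ≠ 0 := by
  by_contra hc
  push Not at hc
  apply hm
  have h0 := hc !₂[1, 0, 0]
  have h1 := hc !₂[0, 1, 0]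
  have a1 : cr m !₂[1, 0, 0] 1 = 0 := by rw [h0]; rfl
  have a2 : cr m !₂[1, 0, 0] 2 = 0 := by rw [h0]; rfl
  have a3 : cr m !₂[0, 1, 0] 2 = 0 := by rw [h1]; rfl
  simp [cr] at a1 a2 a3
  ext i
  fin_cases i
  · simpa using a3
  · simpa using a2
  · simpa using a1

private theorem SDb_ne {x y : E3} (hx : x ≠ 0) (hy : y ≠ 0) (h : ⟪x, y⟫ = 0) : cr x y ≠ 0 := by
  intro h0
  have h1 := norm_cr_perp h
  rw [h0, norm_zero] at h1
  have h2 : ‖x‖ * ‖y‖ ≠ 0 := mul_ne_zero (norm_ne_zero_iff.2 hx) (norm_ne_zero_iff.2 hy)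
  exact h2 h1.symm

theorem exists_ln_eq {m : E3} (hm : m ≠ 0) : ∃ p p' : E3, p ≠ 0 ∧ p' ≠ 0 ∧ ⟪m, p⟫ = 0 ∧ ⟪m, p'⟫ = 0 ∧ ⟪p, p'⟫ = 0 ∧
    ln m = pl p ∩ pl p' := by
  obtain ⟨e, he⟩ := SDb_exists hm
  set p := cr m e with hp
  have h1 : ⟪m, p⟫ = 0 := inner_cr_left m e
  have h2 : ⟪m, cr m p⟫ = 0 := inner_cr_left m p
  have h3 : ⟪p, cr m p⟫ = 0 := inner_cr_right m p
  have h4 : cr m p ≠ 0 := SDb_ne hm he h1
  refine ⟨p, cr m p, he, h4, h1, h2, h3, ?_⟩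
  ext x
  constructor
  · intro hx
    have hx' : cr m x = 0 := hx
    have h5 := cr_eq_zero hm hx'
    constructor
    · show ⟪p, x⟫ = 0
      rw [h5, inner_smul_right, real_inner_comm m p, h1, mul_zero]
    · show ⟪cr m p, x⟫ = 0
      rw [h5, inner_smul_right, real_inner_comm m (cr m p), h2, mul_zero]
  · rintro ⟨h5, h6⟩
    have h5' : ⟪p, x⟫ = 0 := h5
    have h6' : ⟪cr m p, x⟫ = 0 := h6
    show cr m x = 0
    refine par_of_perp (SDb_ne he h4 h3) h1 h2 ?_ ?_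
    · rw [real_inner_comm]
      exact h5'
    · rw [real_inner_comm]
      exact h6'

theorem D2 {l1 l2 : Measure E3} (h1 : FM l1) (h2 : FM l2) (h : ∀ u, J l1 u = J l2 u) {m : E3} (hm : m ≠ 0) (v : E3) :
    ∫⁻ x in ln m, en ⟪v, x⟫ ∂l1 = ∫⁻ x in ln m, en ⟪v, x⟫ ∂l2 := by
  obtain ⟨p, p', -, -, -, -, -, he⟩ := exists_ln_eq hm
  have h3 := D0 (l1 := l1.restrict (pl p')) (l2 := l2.restrict (pl p'))
    (FM_mono Measure.restrict_le_self h1) (FM_mono Measure.restrict_le_self h2) (fun u => D0 h1 h2 h p' u) p v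
  rw [Measure.restrict_restrict (pl_meas p), Measure.restrict_restrict (pl_meas p), ← he] at h3
  exact h3

end Pool.Agent.FAC3
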