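import Pool.Agent.FAC3.Geo
import Pool.Agent.FAC3.SDa
import Pool.Agent.HP89.G10

/-! Module FAC3-XBa: bodies which are not strictly convex.

`sc_face`: a supporting hyperplane at a point of an open segment contained in `K` but not in the interior (Hahn-Banach).
`sc_plane`: the second difference of the support function is bounded below, hence `ν (pl u) ≠ 0` by `SD`.
`int_supp`: a convex body of positive width in all directions has interior points.
`facet_not_sc`: a facet contains two different points; their midpoint is not an interior point. -/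

set_option autoImplicit false

namespace Pool.Agent.FAC3
open MeasureTheory Set Filter Topology Metric
open Pool.Agent.Helper82.Proj1 (supp)
open Pool.Agent.HP89 (CC)
open scoped RealInnerProductSpace ENNReal Pointwise

private theorem XBa_le {K : Set E3} (hK : CC K) {x : E3} (hx : x ∈ K) (u : E3) : ⟪x, u⟫ ≤ supp K u :=
  Pool.Agent.Helper82.Proj1.le_supp hK.compact hx u

theorem sc_face {K : Set E3} (hK : CC K) (hi : (interior K).Nonempty) (hn : ¬ StrictConvex ℝ K) :
    ∃ u : E3, u ≠ 0 ∧ ∃ x ∈ face K u, ∃ y ∈ face K u, x ≠ y := by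
  unfold StrictConvex Set.Pairwise at hn
  push Not at hn
  obtain ⟨x, hx, y, hy, hxy, a, b, ha, hb, hab, hz⟩ := hn
  obtain ⟨f, hf⟩ := geometric_hahn_banach_open_point hK.convex.interior isOpen_interior hz
  set z : E3 := a • x + b • y with hzd
  set u : E3 := (InnerProductSpace.toDual ℝ E3).symm f with hu
  have hin : ∀ w : E3, ⟪w, u⟫ = f w := by
    intro w
    rw [real_inner_comm, hu, InnerProductSpace.toDual_symm_apply]
  have hcl : closure (interior K) = K := by
    rw [hK.convex.closure_interior_eq_closure_of_nonempty_interior hi, hK.compact.isClosed.closure_eq]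
  have hle : ∀ w ∈ K, f w ≤ f z := by
    intro w hw
    rw [← hcl] at hw
    have hc : IsClosed {w : E3 | f w ≤ f z} := isClosed_le f.continuous continuous_const
    exact closure_minimal (fun w hw => (hf w hw).le) hc hw
  have hsu : supp K u = f z := by
    apply le_antisymm
    · apply Pool.Agent.Helper82.Proj1.supp_le hK.nonempty
      intro w hw
      rw [hin]
      exact hle w hw
    · rw [← hin]
      exact XBa_le hK (hK.convex hx hy ha.le hb.le hab) u
  have hfz : f z = a * f x + b * f y := by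
    rw [hzd, map_add, map_smul, map_smul, smul_eq_mul, smul_eq_mul]
  have h1 := hle x hx
  have h2 := hle y hy
  refine ⟨u, ?_, x, ⟨hx, ?_⟩, y, ⟨hy, ?_⟩, hxy⟩
  · intro h0
    obtain ⟨w, hw⟩ := hi
    have h3 := hf w hw
    rw [← hin, ← hin, h0, inner_zero_right, inner_zero_right] at h3
    exact lt_irrefl _ h3
  · rw [hin, hsu]
    refine le_antisymm h1 (not_lt.1 fun h3 => ?_)
    have h4 : a * f x < a * f z := mul_lt_mul_of_pos_left h3 ha
    have h5 : b * f y ≤ b * f z := mul_le_mul_of_nonneg_left h2 hb.le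
    have h6 : a * f z + b * f z = f z := by rw [← add_mul, hab, one_mul]
    linarith
  · rw [hin, hsu]
    refine le_antisymm h2 (not_lt.1 fun h3 => ?_)
    have h4 : b * f y < b * f z := mul_lt_mul_of_pos_left h3 hb
    have h5 : a * f x ≤ a * f z := mul_le_mul_of_nonneg_left h1 ha.le
    have h6 : a * f z + b * f z = f z := by rw [← add_mul, hab, one_mul]
    linarith

theorem sc_plane {K : Set E3} (hK : CC K) (hi : (interior K).Nonempty) (hn : ¬ StrictConvex ℝ K) {ν : Measure E3}
    (hf : FM ν) {κ : ℝ} (hκ : 0 < κ) {x1 : E3} (hs : ∀ u, supp K u = ⟪x1, u⟫ + κ * (J ν u).toReal) :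
    ∃ u : E3, u ≠ 0 ∧ ν (pl u) ≠ 0 := by
  obtain ⟨u, hu, x, hx, y, hy, hxy⟩ := sc_face hK hi hn
  refine ⟨u, hu, fun h0 => ?_⟩
  set v : E3 := x - y with hv
  have hv0 : 0 < ‖v‖ := norm_pos_iff.2 (sub_ne_zero.2 hxy)
  have h1 := SD hf u v
  have h2 : ∫⁻ x in pl u, en ⟪v, x⟫ ∂ν = 0 := by
    rw [Measure.restrict_eq_zero.2 h0, lintegral_zero_measure]
  rw [h2, ENNReal.toReal_zero] at h1
  have h3 : ‖v‖ ^ 2 / (2 * κ) ≤ 0 := by
    apply ge_of_tendsto h1
    filter_upwards [self_mem_nhdsWithin] with t ht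
    have ht' : (0 : ℝ) < t := ht
    have h4 := XBa_le hK hx.1 (u + t • v)
    have h5 := XBa_le hK hy.1 (u - t • v)
    rw [hs, inner_add_right, inner_add_right, real_inner_smul_right, real_inner_smul_right, hx.2, hs u] at h4
    rw [hs, inner_sub_right, inner_sub_right, real_inner_smul_right, real_inner_smul_right, hy.2, hs u] at h5
    have h6 : ⟪x, v⟫ - ⟪y, v⟫ = ‖v‖ ^ 2 := by
      rw [← inner_sub_left, ← hv, real_inner_self_eq_norm_sq]
    rw [div_le_div_iff₀ (by positivity) (by positivity)]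
    nlinarith
  have h7 : 0 < ‖v‖ ^ 2 / (2 * κ) := by positivity
  linarith

theorem int_supp {K : Set E3} (hK : CC K) (h : ∀ u : E3, u ≠ 0 → 0 < supp K u + supp K (-u)) : (interior K).Nonempty := by
  rw [hK.convex.interior_nonempty_iff_affineSpan_eq_top]
  by_contra hc
  have hne : ((affineSpan ℝ K : AffineSubspace ℝ E3) : Set E3).Nonempty :=
    (affineSpan_nonempty ℝ).2 hK.nonempty
  have h1 : vectorSpan ℝ K ≠ ⊤ := by
    intro h2
    apply hc
    rw [← AffineSubspace.direction_eq_top_iff_of_nonempty hne, direction_affineSpan, h2]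
  have h3 : (vectorSpan ℝ K)ᗮ ≠ ⊥ := by
    rwa [Ne, Submodule.orthogonal_eq_bot_iff]
  obtain ⟨u, hu, hu0⟩ := Submodule.exists_mem_ne_zero_of_ne_bot h3
  obtain ⟨x, hx⟩ := hK.nonempty
  have h4 : ∀ y ∈ K, ⟪y, u⟫ = ⟪x, u⟫ := by
    intro y hy
    have h5 := (Submodule.mem_orthogonal _ u).1 hu (y - x) (vsub_mem_vectorSpan ℝ hy hx)
    rw [inner_sub_left] at h5
    linarith
  have h6 : supp K u ≤ ⟪x, u⟫ := Pool.Agent.Helper82.Proj1.supp_le hK.nonempty fun y hy => (h4 y hy).le
  have h7 : supp K (-u) ≤ -⟪x, u⟫ := Pool.Agent.Helper82.Proj1.supp_le hK.nonempty fun y hy => by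
    rw [inner_neg_right, h4 y hy]
  have h8 := h u hu0
  linarith

theorem facet_not_sc {K : Set E3} (hK : CC K) {u : E3} (h : IsFacetNormal K u) : ¬ StrictConvex ℝ K := by
  intro hsc
  obtain ⟨hu, hd⟩ := h
  have hns : ¬ (face K u).Subsingleton := by
    intro hss
    rw [(vectorSpan_eq_bot_iff_subsingleton (k := ℝ)).2 hss, finrank_bot] at hd
    omega
  rw [Set.not_subsingleton_iff] at hns
  obtain ⟨x, hx, y, hy, hxy⟩ := hns
  have hz : (1 / 2 : ℝ) • x + (1 / 2 : ℝ) • y ∈ interior K :=
    hsc hx.1 hy.1 hxy (by norm_num) (by norm_num) (by norm_num)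
  set z : E3 := (1 / 2 : ℝ) • x + (1 / 2 : ℝ) • y with hzd
  have hzu : ⟪z, u⟫ = supp K u := by
    rw [hzd, inner_add_left, real_inner_smul_left, real_inner_smul_left, hx.2, hy.2]
    ring
  have h1 : Tendsto (fun t : ℝ => z + t • u) (𝓝[>] 0) (𝓝 z) := by
    have h2 : Tendsto (fun t : ℝ => z + t • u) (𝓝 0) (𝓝 (z + (0 : ℝ) • u)) :=
      (Continuous.tendsto (by fun_prop) 0)
    rw [zero_smul, add_zero] at h2
    exact h2.mono_left nhdsWithin_le_nhds
  have h3 : ∀ᶠ t : ℝ in 𝓝[>] 0, z + t • u ∈ K := by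
    have h4 := h1.eventually (isOpen_interior.mem_nhds hz)
    exact h4.mono fun t ht => interior_subset ht
  obtain ⟨t, ht, ht0⟩ := (h3.and self_mem_nhdsWithin).exists
  have ht' : (0 : ℝ) < t := ht0
  have h5 := XBa_le hK ht u
  rw [inner_add_left, hzu, real_inner_smul_left, real_inner_self_eq_norm_sq] at h5
  have h6 : 0 < ‖u‖ := norm_pos_iff.2 hu
  have h7 : 0 < t * ‖u‖ ^ 2 := by positivity
  linarith

end Pool.Agent.FAC3
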