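import Pool.Agent.FAC3.Geo
import Pool.Agent.FAC3.SDa
import Pool.Agent.FAC3.ATM
import Pool.Agent.HP89.G10

/-! Module FAC3-XBb: bodies which are not smooth; a charged plane gives an atom. -/

set_option autoImplicit false

namespace Pool.Agent.FAC3
open MeasureTheory Set Filter Topology Metric
open Pool.Agent.Helper82.Proj1 (supp)
open Pool.Agent.HP89 (CC)
open scoped RealInnerProductSpace ENNReal Pointwise

private theorem XBb_int {lam : Measure E3} (h : FM lam) (u : E3) : Integrable (fun x => |⟪u, x⟫|) lam := by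
  have h1 : ∫⁻ x, ENNReal.ofReal |⟪u, x⟫| ∂lam ≠ ⊤ := J_ne_top h u
  exact (lintegral_ofReal_ne_top_iff_integrable (Continuous.aestronglyMeasurable (by fun_prop))
    (ae_of_all _ fun x => abs_nonneg _)).1 h1

theorem sm_lune {K : Set E3} (hK : CC K) (hn : ¬ IsSmooth K) {μ ν : Measure E3} (h : Sys μ ν) {κ : ℝ} (hκ : 0 < κ) {x1 : E3}
    (hs : ∀ u, supp K u = ⟪x1, u⟫ + κ * (J ν u).toReal) :
    ∃ u₁ u₂ : E3, cr u₁ u₂ ≠ 0 ∧ ν {x | ⟪u₁, x⟫ * ⟪u₂, x⟫ < 0} = 0 := by
  have hFM : FM ν := FM_of_HS h.f2 h.s2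
  unfold IsSmooth at hn
  push Not at hn
  obtain ⟨x, hx, u, v, hu, hv, hxu, hxv, huv⟩ := hn
  have hu0 : u ≠ 0 := by
    rintro rfl
    simp at hu
  refine ⟨u, v, ?_, ?_⟩
  · intro h0
    have h1 := cr_eq_zero hu0 h0
    rw [hu] at h1
    obtain ⟨t, ht⟩ : ∃ t : ℝ, v = t • u := ⟨_, h1⟩
    have h2 : |t| = 1 := by
      have h3 := hv
      rw [ht, norm_smul, hu, mul_one, Real.norm_eq_abs] at h3
      exact h3
    rcases (abs_eq zero_le_one).1 h2 with h3 | h3
    · rw [ht, h3, one_smul] at huv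
      exact huv rfl
    · rw [h3, neg_one_smul] at ht
      rw [ht] at hxv
      have h4 : 0 < (J ν u).toReal := ENNReal.toReal_pos (h.p2 u hu0) (J_ne_top hFM u)
      have h5 := hs (-u)
      rw [J_neg, ← hxv, inner_neg_right, inner_neg_right, hxu, hs u] at h5
      have h6 := mul_pos hκ h4
      linarith
  · have h1 := Pool.Agent.Helper82.Proj1.le_supp hK.compact hx (u + v)
    rw [inner_add_right, hxu, hxv, hs u, hs v, hs (u + v), inner_add_right] at h1
    have h2 : (J ν u).toReal + (J ν v).toReal ≤ (J ν (u + v)).toReal := by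
      by_contra hc
      push Not at hc
      have h3 := mul_lt_mul_of_pos_left hc hκ
      rw [mul_add] at h3
      linarith
    rw [J_toReal, J_toReal, J_toReal] at h2
    have i1 := XBb_int hFM u
    have i2 := XBb_int hFM v
    have i3 := XBb_int hFM (u + v)
    have i12 : Integrable (fun y : E3 => |⟪u, y⟫| + |⟪v, y⟫|) ν := i1.add i2
    have i123 : Integrable (fun y : E3 => |⟪u, y⟫| + |⟪v, y⟫| - |⟪u + v, y⟫|) ν := i12.sub i3
    have hnn : ∀ y : E3, 0 ≤ |⟪u, y⟫| + |⟪v, y⟫| - |⟪u + v, y⟫| := by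
      intro y
      rw [inner_add_left]
      have := abs_add_le (⟪u, y⟫ : ℝ) ⟪v, y⟫
      linarith
    have h4 : ∫ y, (|⟪u, y⟫| + |⟪v, y⟫| - |⟪u + v, y⟫|) ∂ν = 0 := by
      apply le_antisymm _ (integral_nonneg hnn)
      rw [integral_sub i12 i3, integral_add i1 i2]
      linarith
    have h5 := (integral_eq_zero_iff_of_nonneg hnn i123).1 h4
    have h6 : ∀ᵐ y ∂ν, ¬ (⟪u, y⟫ * ⟪v, y⟫ < 0) := by
      filter_upwards [h5] with y hy hlt
      have hy' : |⟪u, y⟫| + |⟪v, y⟫| - |⟪u + v, y⟫| = 0 := hy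
      rw [inner_add_left] at hy'
      rcases mul_neg_iff.1 hlt with ⟨ha, hb⟩ | ⟨ha, hb⟩
      · rw [abs_of_pos ha, abs_of_neg hb] at hy'
        rcases abs_cases ((⟪u, y⟫ : ℝ) + ⟪v, y⟫) with ⟨hc, _⟩ | ⟨hc, _⟩ <;> rw [hc] at hy' <;> linarith
      · rw [abs_of_neg ha, abs_of_pos hb] at hy'
        rcases abs_cases ((⟪u, y⟫ : ℝ) + ⟪v, y⟫) with ⟨hc, _⟩ | ⟨hc, _⟩ <;> rw [hc] at hy' <;> linarith
    have h7 := ae_iff.1 h6
    simpa using h7

theorem plane_atom {μ ν : Measure E3} (h : Sys μ ν) {u : E3} (hu : u ≠ 0) (hp : ν (pl u) ≠ 0) :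
    (At μ).Nonempty ∨ (At ν).Nonempty := by
  have := h.f2
  have hpl : pl (rep u) = pl u := by
    ext x
    show ⟪rep u, x⟫ = 0 ↔ ⟪u, x⟫ = 0
    rw [real_inner_comm, real_inner_comm x u]
    exact inner_rep_eq_zero
  have hpH : rep u ∈ HS := rep_mem hu
  rw [← hpl] at hp
  set p := rep u with hpdef
  clear_value p
  by_cases h0 : μ {p} = 0
  · right
    have h1 := ATM h.symm hpH
    rw [h0] at h1
    have hm2 : Measurable (fun q : E3 × E3 => en ⟪p, cr q.1 q.2⟫) :=
      measurable_en.comp ((continuous_const.inner continuous_cr).measurable)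
    have hmQ : Measurable (fun y => QQ ν p y) := by
      unfold QQ
      exact hm2.lintegral_prod_right'
    have h2 := (lintegral_eq_zero_iff hmQ).1 h1.symm
    have hHS : ∀ᵐ y ∂(ν.restrict (pl p)), y ∈ HS := by
      apply ae_restrict_of_ae
      rw [ae_iff]
      exact h.s2
    have hpl2 : ∀ᵐ y ∂(ν.restrict (pl p)), y ∈ pl p := ae_restrict_mem (pl_meas p)
    have hne : ν.restrict (pl p) ≠ 0 := by
      intro hc
      apply hp
      rw [← Measure.restrict_apply_univ (pl p), hc]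
      simp
    have : NeBot (ae (ν.restrict (pl p))) := ae_neBot.2 hne
    obtain ⟨y, hy1, hy2, hy3⟩ := (h2.and (hHS.and hpl2)).exists
    have hy1' : QQ ν p y = 0 := hy1
    unfold QQ at hy1'
    have hc3 : Continuous (fun z : E3 => (⟪p, cr y z⟫ : ℝ)) := by
      have hc4 : Continuous (fun z : E3 => cr y z) := continuous_cr.comp (continuous_const.prodMk continuous_id)
      exact continuous_const.inner hc4
    have hm3 : Measurable (fun z : E3 => en ⟪p, cr y z⟫) := measurable_en.comp hc3.measurable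
    have h3 := (lintegral_eq_zero_iff hm3).1 hy1'
    have h4 : ∀ᵐ z ∂(ν.restrict (pl p)), z = y := by
      filter_upwards [h3, hHS, hpl2] with z hz1 hz2 hz3
      have hz1' : (⟪p, cr y z⟫ : ℝ) = 0 := en_eq_zero.1 hz1
      have h5 := cr_of_perp (HS_norm hpH) hy3 hz3
      rw [hz1', zero_smul] at h5
      exact (HS_unique hy2 hz2 h5).symm
    refine ⟨y, ?_⟩
    intro hy0
    have h6 : ∀ᵐ z ∂(ν.restrict (pl p)), z ≠ y := by
      apply ae_restrict_of_ae
      rw [ae_iff]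
      simpa using hy0
    obtain ⟨z, hz1, hz2⟩ := (h4.and h6).exists
    exact hz2 hz1
  · left
    exact ⟨p, h0⟩

end Pool.Agent.FAC3
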