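import Pool.Agent.FAC3.CRb

/-! Module FAC3-XDefs: the projective support of a measure on `HS`. -/

set_option autoImplicit false

namespace Pool.Agent.FAC3
open MeasureTheory Set Filter Topology
open scoped RealInnerProductSpace ENNReal

/-- the (symmetric cone over the) support. -/
def Sp (μ : Measure E3) : Set E3 := {v | v ≠ 0 ∧ ∀ ε : ℝ, 0 < ε → μ {x | ‖cr v x‖ < ε} ≠ 0}

theorem Sp_ne {μ : Measure E3} {v : E3} (h : v ∈ Sp μ) : v ≠ 0 := h.1

theorem isOpen_cone (v : E3) (ε : ℝ) : IsOpen {x : E3 | ‖cr v x‖ < ε} := by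
  have h : Continuous fun x : E3 => ‖cr v x‖ := (continuous_cr.comp (continuous_const.prodMk continuous_id)).norm
  exact isOpen_lt h continuous_const

theorem Sp_smul {μ : Measure E3} {v : E3} (h : v ∈ Sp μ) {t : ℝ} (ht : t ≠ 0) : t • v ∈ Sp μ := by
  refine ⟨smul_ne_zero ht h.1, fun ε hε => ?_⟩
  have h1 := h.2 (ε / |t|) (div_pos hε (abs_pos.2 ht))
  have e : {x : E3 | ‖cr (t • v) x‖ < ε} = {x : E3 | ‖cr v x‖ < ε / |t|} := by
    ext x
    rw [mem_ofPred_eq, mem_ofPred_eq, cr_smul_left, norm_smul, Real.norm_eq_abs, lt_div_iff₀ (abs_pos.2 ht), mul_comm]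
  rw [e]
  exact h1

end Pool.Agent.FAC3
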