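import Pool.Agent.FAC3.ENa

/-! Module FAC3-XF: the cosine transform determines the measure on symmetric cones.

Write `c = ∫⁻ r : ℝ, ofReal ((1 - cos r) / r ^ 2)`; then `0 < c < ∞` and `∫⁻ r, ofReal ((1 - cos (r b)) / r ^ 2) = c * ofReal |b|`.
For fixed `w` let `ρ_i = ((l_i.prod volume).withDensity (ofReal ((1 - cos (r ⟪w, x⟫)) / r ^ 2))).map (fun (x, r) => r • x)`, a
finite measure of mass `c * J l_i w`. Its characteristic function at `u` is `(c/2) (J l_i (u + w) + J l_i (u - w) - 2 J l_i u)`, so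
`ρ_1 = ρ_2` (`Measure.ext_of_charFun`), and `ρ_i A = c * ∫⁻ x in A, en ⟪w, x⟫ ∂l_i` for a symmetric cone `A`. -/

set_option autoImplicit false

namespace Pool.Agent.FAC3
open MeasureTheory Set Filter Topology
open scoped RealInnerProductSpace ENNReal

/-- `(1 - cos (r b)) / r ^ 2`. -/
private noncomputable def kf (b r : ℝ) : ℝ := (1 - Real.cos (r * b)) / r ^ 2

private theorem kf_nonneg (b r : ℝ) : 0 ≤ kf b r :=
  div_nonneg (sub_nonneg.2 (Real.cos_le_one _)) (sq_nonneg _)

private theorem kf_neg (b r : ℝ) : kf b (-r) = kf b r := by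
  unfold kf
  rw [neg_mul, Real.cos_neg, neg_sq]

private theorem kf_meas (b : ℝ) : Measurable (kf b) := by
  unfold kf
  have h1 : Measurable (fun r : ℝ => Real.cos (r * b)) := Real.measurable_cos.comp (measurable_id.mul_const b)
  exact (measurable_const.sub h1).div (measurable_id.pow_const 2)

private theorem kf_le (r : ℝ) : kf 1 r ≤ 4 * (1 + r ^ 2)⁻¹ := by
  unfold kf
  rw [mul_one]
  have h1 : 1 - r ^ 2 / 2 ≤ Real.cos r := Real.one_sub_sq_div_two_le_cos
  have h2 : -1 ≤ Real.cos r := Real.neg_one_le_cos r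
  have h3 : 0 < 1 + r ^ 2 := by positivity
  rcases eq_or_ne r 0 with h0 | h0
  · rw [h0]
    norm_num
  · have h4 : 0 < r ^ 2 := by positivity
    rw [← div_eq_mul_inv, div_le_div_iff₀ h4 h3]
    rcases le_total (r ^ 2) 1 with h5 | h5
    · have h6 : (1 - Real.cos r) * (1 + r ^ 2) ≤ (r ^ 2 / 2) * (1 + r ^ 2) :=
        mul_le_mul_of_nonneg_right (by linarith) h3.le
      nlinarith
    · have h6 : (1 - Real.cos r) * (1 + r ^ 2) ≤ 2 * (1 + r ^ 2) :=
        mul_le_mul_of_nonneg_right (by linarith) h3.le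
      nlinarith

private theorem kf_int1 : Integrable (kf 1) := by
  refine Integrable.mono' (integrable_inv_one_add_sq.const_mul 4) (kf_meas 1).aestronglyMeasurable ?_
  refine Eventually.of_forall fun r => ?_
  rw [Real.norm_eq_abs, abs_of_nonneg (kf_nonneg 1 r)]
  exact kf_le r

private theorem kf_scale {b : ℝ} (hb : b ≠ 0) (r : ℝ) : kf b r = b ^ 2 * kf 1 (r * b) := by
  unfold kf
  rw [mul_one]
  rcases eq_or_ne r 0 with h0 | h0
  · rw [h0]
    simp
  · field_simp

private theorem kf_int (b : ℝ) : Integrable (kf b) := by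
  rcases eq_or_ne b 0 with h0 | h0
  · have h1 : kf b = fun _ => 0 := by
      funext r
      rw [h0]
      simp [kf]
    rw [h1]
    exact integrable_zero _ _ _
  · have h1 : kf b = fun r => b ^ 2 * kf 1 (r * b) := by
      funext r
      exact kf_scale h0 r
    rw [h1]
    exact (kf_int1.comp_mul_right' h0).const_mul _

/-- the constant. -/
private noncomputable def C0 : ℝ := ∫ r, kf 1 r

private theorem kf_integral (b : ℝ) : ∫ r, kf b r = |b| * C0 := by
  rcases eq_or_ne b 0 with h0 | h0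
  · have h1 : kf b = fun _ => 0 := by
      funext r
      rw [h0]
      simp [kf]
    rw [h1, h0]
    simp
  · have h1 : kf b = fun r => b ^ 2 * kf 1 (r * b) := by
      funext r
      exact kf_scale h0 r
    rw [h1]
    rw [integral_const_mul, Measure.integral_comp_mul_right (kf 1) b, smul_eq_mul, abs_inv]
    have h2 : |b| ≠ 0 := abs_ne_zero.2 h0
    have h3 : b ^ 2 = |b| * |b| := by rw [← sq, sq_abs]
    rw [h3]
    unfold C0
    field_simp

private theorem C0_pos : 0 < C0 := by
  unfold C0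
  rw [integral_pos_iff_support_of_nonneg (fun r => kf_nonneg 1 r) kf_int1]
  have h1 : Ioo (0 : ℝ) 1 ⊆ Function.support (kf 1) := by
    intro r hr
    rw [Function.mem_support]
    unfold kf
    rw [mul_one]
    have h2 : Real.cos r < 1 := by
      have h3 : Real.cos r < Real.cos 0 :=
        Real.cos_lt_cos_of_nonneg_of_le_pi_div_two le_rfl (by linarith [hr.2, Real.pi_gt_three]) hr.1
      rwa [Real.cos_zero] at h3
    have h4 : 0 < r ^ 2 := pow_pos hr.1 2
    exact (div_pos (by linarith) h4).ne'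
  refine lt_of_lt_of_le ?_ (measure_mono h1)
  rw [Real.volume_Ioo]
  norm_num

private theorem kf_lintegral (b : ℝ) : ∫⁻ r, ENNReal.ofReal (kf b r) = ENNReal.ofReal C0 * en b := by
  rw [← ofReal_integral_eq_lintegral_ofReal (kf_int b) (Eventually.of_forall (kf_nonneg b)), kf_integral, mul_comm,
    ENNReal.ofReal_mul C0_pos.le, en]

private theorem trig (a b r : ℝ) :
    2 * (kf b r * Real.cos (r * a)) = kf (a + b) r + kf (a - b) r - 2 * kf a r := by
  unfold kf
  have h1 : Real.cos (r * (a + b)) = Real.cos (r * a) * Real.cos (r * b) - Real.sin (r * a) * Real.sin (r * b) := by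
    rw [mul_add, Real.cos_add]
  have h2 : Real.cos (r * (a - b)) = Real.cos (r * a) * Real.cos (r * b) + Real.sin (r * a) * Real.sin (r * b) := by
    rw [mul_sub, Real.cos_sub]
  rw [h1, h2]
  ring

private theorem inner_val (a b : ℝ) :
    ∫ r : ℝ, (kf b r) • Complex.exp (((r * a : ℝ) : ℂ) * Complex.I) =
      ((C0 / 2 * (|a + b| + |a - b| - 2 * |a|) : ℝ) : ℂ) := by
  obtain ⟨G, hG⟩ : ∃ G : ℝ → ℂ, G = fun r : ℝ => (kf b r) • Complex.exp (((r * a : ℝ) : ℂ) * Complex.I) := ⟨_, rfl⟩
  rw [← hG]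
  have hint : Integrable G := by
    have hm : Measurable G := by
      rw [hG]
      refine (kf_meas b).smul ?_
      exact Complex.measurable_exp.comp ((Complex.measurable_ofReal.comp (measurable_id.mul_const a)).mul_const _)
    refine Integrable.mono' (kf_int b) hm.aestronglyMeasurable ?_
    refine Eventually.of_forall fun r => ?_
    rw [hG]
    simp only
    rw [norm_smul, Complex.norm_exp_ofReal_mul_I, mul_one, Real.norm_eq_abs, abs_of_nonneg (kf_nonneg b r)]
  have h1 : ∫ r, G (-r) = ∫ r, G r := integral_neg_eq_self G volume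
  have h2 : ∫ r, (G r + G (-r)) = (∫ r, G r) + (∫ r, G (-r)) := integral_add hint hint.comp_neg
  have h3 : ∀ r, G r + G (-r) = ((kf (a + b) r + kf (a - b) r - 2 * kf a r : ℝ) : ℂ) := by
    intro r
    rw [← trig a b r, hG]
    simp only
    rw [kf_neg, ← smul_add]
    have h4 : Complex.exp (((-r * a : ℝ) : ℂ) * Complex.I) = Complex.exp (-(((r * a : ℝ) : ℂ)) * Complex.I) := by
      congr 1
      push_cast
      ring
    rw [h4, ← Complex.two_cos, Complex.real_smul]
    push_cast
    ring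
  have h5 : ∫ r, (G r + G (-r)) = ((C0 * (|a + b| + |a - b| - 2 * |a|) : ℝ) : ℂ) := by
    simp_rw [h3]
    rw [integral_complex_ofReal]
    congr 1
    have i1 : Integrable (fun r => kf (a + b) r + kf (a - b) r) := (kf_int _).add (kf_int _)
    rw [integral_sub i1 ((kf_int _).const_mul 2), integral_add (kf_int _) (kf_int _),
      integral_const_mul, kf_integral, kf_integral, kf_integral]
    ring
  rw [h2, h1] at h5
  have h6 : ∫ r, G r = (1 / 2 : ℂ) * ((∫ r, G r) + (∫ r, G r)) := by ring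
  rw [h6, h5]
  push_cast
  ring

private theorem kfw_meas (w : E3) : Measurable (fun q : E3 × ℝ => kf ⟪w, q.1⟫ q.2) := by
  have h1 : Measurable (fun q : E3 × ℝ => (⟪w, q.1⟫ : ℝ)) :=
    (Continuous.inner continuous_const continuous_fst).measurable
  unfold kf
  have h2 : Measurable (fun q : E3 × ℝ => Real.cos (q.2 * ⟪w, q.1⟫)) :=
    Real.measurable_cos.comp (measurable_snd.mul h1)
  exact (measurable_const.sub h2).div (measurable_snd.pow_const 2)

private theorem dens_meas (w : E3) : Measurable (fun q : E3 × ℝ => ENNReal.ofReal (kf ⟪w, q.1⟫ q.2)) :=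
  ENNReal.measurable_ofReal.comp (kfw_meas w)

private theorem abs_meas (u : E3) : Measurable (fun x : E3 => |⟪u, x⟫|) :=
  (Continuous.inner continuous_const continuous_id).abs.measurable

/-- the auxiliary measure. -/
private noncomputable def rho (l : Measure E3) (w : E3) : Measure E3 :=
  ((l.prod volume).withDensity (fun q : E3 × ℝ => ENNReal.ofReal (kf ⟪w, q.1⟫ q.2))).map (fun q : E3 × ℝ => q.2 • q.1)

private theorem smul_meas : Measurable (fun q : E3 × ℝ => q.2 • q.1) := measurable_snd.smul measurable_fst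

private theorem lint_dens (l : Measure E3) [IsFiniteMeasure l] (w : E3) :
    ∫⁻ q : E3 × ℝ, ENNReal.ofReal (kf ⟪w, q.1⟫ q.2) ∂(l.prod volume) = ENNReal.ofReal C0 * J l w := by
  rw [lintegral_prod _ (dens_meas w).aemeasurable]
  simp only
  simp_rw [kf_lintegral]
  rw [lintegral_const_mul _ (measurable_en_inner w)]
  rfl

private theorem rho_univ (l : Measure E3) [IsFiniteMeasure l] (w : E3) :
    rho l w univ = ENNReal.ofReal C0 * J l w := by
  unfold rho
  rw [Measure.map_apply smul_meas MeasurableSet.univ, preimage_univ, withDensity_apply _ MeasurableSet.univ,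
    Measure.restrict_univ, lint_dens]

private theorem rho_cone (l : Measure E3) [IsFiniteMeasure l] (w : E3) {A : Set E3} (hA : MeasurableSet A)
    (hs : ∀ x, ∀ t : ℝ, t ≠ 0 → (t • x ∈ A ↔ x ∈ A)) :
    rho l w A = ENNReal.ofReal C0 * ∫⁻ x in A, en ⟪w, x⟫ ∂l := by
  unfold rho
  rw [Measure.map_apply smul_meas hA, withDensity_apply _ (smul_meas hA), ← lintegral_indicator (smul_meas hA),
    lintegral_prod _ ((dens_meas w).indicator (smul_meas hA)).aemeasurable,
    ← lintegral_const_mul _ (measurable_en_inner w), ← lintegral_indicator hA]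
  refine lintegral_congr fun x => ?_
  have h0 : ∀ᵐ r : ℝ ∂volume, r ≠ 0 := by
    rw [ae_iff]
    simp
  by_cases hx : x ∈ A
  · rw [indicator_of_mem hx, ← kf_lintegral]
    refine lintegral_congr_ae ?_
    filter_upwards [h0] with r hr
    rw [indicator_of_mem]
    show r • x ∈ A
    exact (hs x r hr).2 hx
  · rw [indicator_of_notMem hx]
    rw [lintegral_eq_zero_iff' ?_]
    · filter_upwards [h0] with r hr
      rw [indicator_of_notMem]
      · rfl
      · intro h1
        exact hx ((hs x r hr).1 h1)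
    · exact (((dens_meas w).indicator (smul_meas hA)).comp (measurable_const.prodMk measurable_id)).aemeasurable

private theorem Jr_eq (l : Measure E3) (u : E3) : ∫ x, |⟪u, x⟫| ∂l = (J l u).toReal := by
  rw [integral_eq_lintegral_of_nonneg_ae (Eventually.of_forall fun x => abs_nonneg _)
    (abs_meas u).aestronglyMeasurable]
  rfl

private theorem Jr_int {l : Measure E3} (h : FM l) (u : E3) : Integrable (fun x : E3 => |⟪u, x⟫|) l := by
  refine ⟨(abs_meas u).aestronglyMeasurable, ?_⟩
  have h1 : ∀ x : E3, ‖|⟪u, x⟫|‖ₑ = en ⟪u, x⟫ := by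
    intro x
    rw [Real.enorm_eq_ofReal_abs, abs_abs]
    rfl
  unfold HasFiniteIntegral
  simp_rw [h1]
  exact (J_ne_top h u).lt_top

private theorem charFun_rho {l : Measure E3} [IsFiniteMeasure l] (h : FM l) (w u : E3) :
    charFun (rho l w) u =
      ((C0 / 2 * ((J l (u + w)).toReal + (J l (u - w)).toReal - 2 * (J l u).toReal) : ℝ) : ℂ) := by
  have hm : Measurable (fun q : E3 × ℝ =>
      (kf ⟪w, q.1⟫ q.2) • Complex.exp (((q.2 * ⟪q.1, u⟫ : ℝ) : ℂ) * Complex.I)) := by
    refine (kfw_meas w).smul ?_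
    refine Complex.measurable_exp.comp ((Complex.measurable_ofReal.comp (measurable_snd.mul ?_)).mul_const _)
    exact (continuous_fst.inner continuous_const).measurable
  have hint : Integrable (fun q : E3 × ℝ =>
      (kf ⟪w, q.1⟫ q.2) • Complex.exp (((q.2 * ⟪q.1, u⟫ : ℝ) : ℂ) * Complex.I)) (l.prod volume) := by
    refine ⟨hm.aestronglyMeasurable, ?_⟩
    have h1 : ∀ q : E3 × ℝ, ‖(kf ⟪w, q.1⟫ q.2) • Complex.exp (((q.2 * ⟪q.1, u⟫ : ℝ) : ℂ) * Complex.I)‖ₑ =
        ENNReal.ofReal (kf ⟪w, q.1⟫ q.2) := by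
      intro q
      rw [← ofReal_norm, norm_smul, Complex.norm_exp_ofReal_mul_I, mul_one, Real.norm_eq_abs,
        abs_of_nonneg (kf_nonneg _ _)]
    unfold HasFiniteIntegral
    simp_rw [h1]
    rw [lint_dens]
    exact (ENNReal.mul_ne_top ENNReal.ofReal_ne_top (J_ne_top h w)).lt_top
  have hc : Measurable (fun x : E3 => Complex.exp ((⟪x, u⟫ : ℂ) * Complex.I)) := by
    refine Complex.measurable_exp.comp (Measurable.mul_const ?_ _)
    exact (Complex.measurable_ofReal.comp (continuous_id.inner continuous_const).measurable)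
  rw [charFun_apply]
  unfold rho
  rw [integral_map smul_meas.aemeasurable hc.aestronglyMeasurable,
    integral_withDensity_eq_integral_toReal_smul (dens_meas w) (Eventually.of_forall fun q => ENNReal.ofReal_lt_top)]
  have h1 : ∀ q : E3 × ℝ, (ENNReal.ofReal (kf ⟪w, q.1⟫ q.2)).toReal • Complex.exp ((⟪q.2 • q.1, u⟫ : ℂ) * Complex.I) =
      (kf ⟪w, q.1⟫ q.2) • Complex.exp (((q.2 * ⟪q.1, u⟫ : ℝ) : ℂ) * Complex.I) := by
    intro q
    rw [ENNReal.toReal_ofReal (kf_nonneg _ _), real_inner_smul_left]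
  simp_rw [h1]
  rw [integral_prod _ hint]
  simp only
  simp_rw [inner_val]
  rw [integral_complex_ofReal]
  congr 1
  rw [integral_const_mul]
  congr 1
  have h2 : ∀ x : E3, |⟪x, u⟫ + ⟪w, x⟫| + |⟪x, u⟫ - ⟪w, x⟫| - 2 * |⟪x, u⟫| =
      |⟪u + w, x⟫| + |⟪u - w, x⟫| - 2 * |⟪u, x⟫| := by
    intro x
    rw [inner_add_left, inner_sub_left, real_inner_comm x u]
  simp_rw [h2]
  have i1 : Integrable (fun x : E3 => |⟪u + w, x⟫| + |⟪u - w, x⟫|) l := (Jr_int h _).add (Jr_int h _)
  rw [integral_sub i1 ((Jr_int h _).const_mul 2),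
    integral_add (Jr_int h _) (Jr_int h _), integral_const_mul, Jr_eq, Jr_eq, Jr_eq]

theorem DC {l1 l2 : Measure E3} [IsFiniteMeasure l1] [IsFiniteMeasure l2] (h1 : FM l1) (h2 : FM l2)
    (h : ∀ u, J l1 u = J l2 u) {A : Set E3} (hA : MeasurableSet A) (hs : ∀ x, ∀ t : ℝ, t ≠ 0 → (t • x ∈ A ↔ x ∈ A))
    (w : E3) : ∫⁻ x in A, en ⟪w, x⟫ ∂l1 = ∫⁻ x in A, en ⟪w, x⟫ ∂l2 := by
  have f1 : IsFiniteMeasure (rho l1 w) :=
    ⟨by rw [rho_univ]; exact (ENNReal.mul_ne_top ENNReal.ofReal_ne_top (J_ne_top h1 w)).lt_top⟩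
  have f2 : IsFiniteMeasure (rho l2 w) :=
    ⟨by rw [rho_univ]; exact (ENNReal.mul_ne_top ENNReal.ofReal_ne_top (J_ne_top h2 w)).lt_top⟩
  have h3 : rho l1 w = rho l2 w := by
    refine Measure.ext_of_charFun ?_
    funext u
    rw [charFun_rho h1, charFun_rho h2, h, h, h]
  have h4 := rho_cone l1 w hA hs
  rw [h3, rho_cone l2 w hA hs] at h4
  have hc : ENNReal.ofReal C0 ≠ 0 := by
    rw [Ne, ENNReal.ofReal_eq_zero, not_le]
    exact C0_pos
  exact ((ENNReal.mul_right_inj hc ENNReal.ofReal_ne_top).1 h4).symm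

end Pool.Agent.FAC3
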