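import Pool.Agent.FAC3.XSd
import Pool.Agent.FAC3.XBa
import Pool.Agent.FAC3.XBb
import Pool.Agent.FAC3.END
import Pool.Agent.FAC3.BSb
import Pool.Agent.FAC3.CYK

/-! Module FAC3-XFWD: the main direction. -/

set_option autoImplicit false

namespace Pool.Agent.FAC3
open MeasureTheory Set Filter Topology Metric
open Pool.Agent.Helper82.Proj1 (supp)
open Pool.Agent.HP89 (CC IsPB)
open scoped RealInnerProductSpace ENNReal Pointwise

theorem main_fwd {K L M : Set E3} (hK : CC K) (hL : CC L) (hM : CC M) (hi : (interior K).Nonempty)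
    (h1 : IsPB 2 K L) (h2 : IsPB 2 L M) {c : ℝ} (hc : 0 < c) {x0 : E3} (hom : M = (fun y => c • y + x0) '' K)
    (hF : ¬ (StrictConvex ℝ K ∧ IsSmooth K ∧ StrictConvex ℝ L ∧ IsSmooth L)) : IsCylinder K := by
  obtain ⟨μ, ν, κ, κ', x1, h, hκ, hκ', hs, hs'⟩ := BSb hK hL hM hi h1 h2 hc hom
  have hs'' : ∀ u, supp L u = ⟪(0 : E3), u⟫ + κ' * (J μ u).toReal := by
    intro w
    rw [hs' w, inner_zero_left, zero_add]
  have hiL : (interior L).Nonempty := by
    refine int_supp hL fun u hu => ?_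
    rw [hs' u, hs' (-u), J_neg]
    have h3 : 0 < (J μ u).toReal := ENNReal.toReal_pos (h.p1 u hu) (J_ne_top (FM_of_HS h.f1 h.s1) u)
    positivity
  have hne : (At μ).Nonempty ∨ (At ν).Nonempty := by
    by_contra hcon
    apply hF
    refine ⟨?_, ?_, ?_, ?_⟩
    · by_contra hn
      obtain ⟨u, hu, h3⟩ := sc_plane hK hi hn (FM_of_HS h.f2 h.s2) hκ hs
      exact hcon (plane_atom h hu h3)
    · by_contra hn
      obtain ⟨u₁, u₂, h3, h4⟩ := sm_lune hK hn h hκ hs
      exact hcon (Or.inr (lune_atom h.symm h3 h4))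
    · by_contra hn
      obtain ⟨u, hu, h3⟩ := sc_plane hL hiL hn (FM_of_HS h.f1 h.s1) hκ' hs''
      exact hcon (plane_atom h.symm hu h3).symm
    · by_contra hn
      obtain ⟨u₁, u₂, h3, h4⟩ := sm_lune hL hn h.symm hκ' hs''
      exact hcon (Or.inl (lune_atom h h3 h4))
  exact CYK hK (END h hne) hκ hs

end Pool.Agent.FAC3
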