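import Pool.Agent.FAC3.XDefs
import Pool.Agent.FAC3.XF
import Pool.Agent.FAC3.DNa

/-! Module FAC3-XSa: the join of two points of the support of `μ` is in the support of `ν`.

`Sp_join`: if a neighbourhood of `m = cr a b` has `ν`-measure zero, then by `DC` the open cone `A = {x | ‖cr m x‖ < ε * ‖x‖}` is a
null set of `TT μ`; but `cr y z ∈ A` if the lines of `y, z` are close to those of `a, b` (continuity and homogeneity).
`Sp_closed4`: `Sp_join` twice (`h`, `h.symm`). -/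

set_option autoImplicit false

namespace Pool.Agent.FAC3
open MeasureTheory Set Filter Topology
open scoped RealInnerProductSpace ENNReal

private theorem XSa_cone (m : E3) (ε : ℝ) (x : E3) {t : ℝ} (ht : t ≠ 0) :
    t • x ∈ {x : E3 | ‖cr m x‖ < ε * ‖x‖} ↔ x ∈ {x : E3 | ‖cr m x‖ < ε * ‖x‖} := by
  have h1 : 0 < |t| := abs_pos.2 ht
  rw [mem_ofPred_eq, mem_ofPred_eq, cr_smul_right, norm_smul, norm_smul, Real.norm_eq_abs, mul_left_comm]
  exact mul_lt_mul_iff_right₀ h1

private theorem XSa_open (m : E3) (ε : ℝ) : IsOpen {x : E3 | ‖cr m x‖ < ε * ‖x‖} := by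
  have h : Continuous fun x : E3 => ‖cr m x‖ := (continuous_cr.comp (continuous_const.prodMk continuous_id)).norm
  exact isOpen_lt h (continuous_const.mul continuous_norm)

private theorem XSa_near (a : E3) {y : E3} (hy : ‖y‖ = 1) {η : ℝ} (h : ‖cr a y‖ < η) : ‖⟪a, y⟫ • y - a‖ < η := by
  have h1 : ‖⟪a, y⟫ • y - a‖ ^ 2 = ‖cr a y‖ ^ 2 := by
    rw [norm_cr_sq, hy, norm_sub_sq_real, norm_smul, hy, real_inner_smul_left, real_inner_comm a y, Real.norm_eq_abs,
      mul_one, sq_abs]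
    ring
  have h2 : ‖⟪a, y⟫ • y - a‖ = ‖cr a y‖ := by
    have h3 := congrArg Real.sqrt h1
    rwa [Real.sqrt_sq (norm_nonneg _), Real.sqrt_sq (norm_nonneg _)] at h3
  rw [h2]
  exact h

private theorem XSa_null {lam : Measure E3} {A : Set E3} (hA : MeasurableSet A) (h0 : (0 : E3) ∉ A)
    (h : ∀ w, ∫⁻ x in A, en ⟪w, x⟫ ∂lam = 0) : lam A = 0 := by
  have h1 : ∀ w : E3, ∀ᵐ x ∂(lam.restrict A), ⟪w, x⟫ = 0 := by
    intro w
    have h2 := (lintegral_eq_zero_iff (measurable_en_inner w)).1 (h w)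
    filter_upwards [h2] with x hx
    exact en_eq_zero.1 hx
  have h2 : ∀ᵐ x ∂(lam.restrict A), x ∈ A := ae_restrict_mem hA
  have h3 : ∀ᵐ x ∂(lam.restrict A), False := by
    filter_upwards [h1 (EuclideanSpace.single 0 1), h1 (EuclideanSpace.single 1 1), h1 (EuclideanSpace.single 2 1), h2]
      with x e0 e1 e2 hx
    apply h0
    have h4 : x = 0 := by
      ext i
      rw [EuclideanSpace.inner_single_left] at e0 e1 e2
      fin_cases i
      · simpa using e0
      · simpa using e1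
      · simpa using e2
    rwa [h4] at hx
  have h4 : lam.restrict A = 0 := by
    rw [← ae_eq_bot]
    exact Filter.eventually_false_iff_eq_bot.1 h3
  exact Measure.restrict_eq_zero.1 h4

private theorem XSa_pos {μ : Measure E3} (h : μ HSᶜ = 0) {U : Set E3} (hU : μ U ≠ 0) : μ (U ∩ HS) ≠ 0 := by
  intro h0
  apply hU
  have h1 : U ⊆ (U ∩ HS) ∪ HSᶜ := by
    intro x hx
    by_cases hx' : x ∈ HS
    · exact Or.inl ⟨hx, hx'⟩
    · exact Or.inr hx'
  refine le_antisymm ((measure_mono h1).trans ((measure_union_le _ _).trans ?_)) bot_le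
  rw [h0, h, add_zero]

theorem Sp_join {μ ν : Measure E3} (h : Sys μ ν) {a b : E3} (ha : a ∈ Sp μ) (hb : b ∈ Sp μ) (hab : cr a b ≠ 0) :
    cr a b ∈ Sp ν := by
  have := h.f1
  have := h.f2
  have := TT_finite h.f1
  refine ⟨hab, fun ε hε h0 => ?_⟩
  set m : E3 := cr a b with hm
  set A : Set E3 := {x : E3 | ‖cr m x‖ < ε * ‖x‖} with hAdef
  have hAo : IsOpen A := XSa_open m ε
  have hAm : MeasurableSet A := hAo.measurableSet
  have h0A : (0 : E3) ∉ A := by
    rw [hAdef, mem_ofPred_eq, cr_zero_right, norm_zero, mul_zero]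
    exact lt_irrefl _
  have hνA : ν A = 0 := by
    have h1 : A ⊆ {x | ‖cr m x‖ < ε} ∪ HSᶜ := by
      intro x hx
      by_cases hx' : x ∈ HS
      · left
        have h2 : ‖cr m x‖ < ε * ‖x‖ := hx
        rwa [HS_norm hx', mul_one] at h2
      · exact Or.inr hx'
    refine le_antisymm ((measure_mono h1).trans ((measure_union_le _ _).trans ?_)) bot_le
    rw [h0, h.s2, add_zero]
  have hTA : TT μ A = 0 := by
    refine XSa_null hAm h0A fun w => ?_
    rw [← DC (FM_of_HS h.f2 h.s2) (FM_TT (FM_of_HS h.f1 h.s1)) h.h1 hAm (fun x t ht => XSa_cone m ε x ht) w,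
      Measure.restrict_eq_zero.2 hνA, lintegral_zero_measure]
  have hpre : (μ.prod μ) ((fun q : E3 × E3 => cr q.1 q.2) ⁻¹' A) = 0 := by
    rw [← Measure.map_apply continuous_cr.measurable hAm]
    exact hTA
  have hO : IsOpen ((fun q : E3 × E3 => cr q.1 q.2) ⁻¹' A) := hAo.preimage continuous_cr
  have hmem : (a, b) ∈ (fun q : E3 × E3 => cr q.1 q.2) ⁻¹' A := by
    show ‖cr m (cr a b)‖ < ε * ‖cr a b‖
    rw [← hm, cr_self, norm_zero]
    exact mul_pos hε (norm_pos_iff.2 hab)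
  obtain ⟨η, hη, hball⟩ := Metric.isOpen_iff.1 hO _ hmem
  have hsub : ({y | ‖cr a y‖ < η} ∩ HS) ×ˢ ({z | ‖cr b z‖ < η} ∩ HS) ⊆ (fun q : E3 × E3 => cr q.1 q.2) ⁻¹' A := by
    rintro ⟨y, z⟩ ⟨⟨hy1, hy2⟩, hz1, hz2⟩
    have e1 := XSa_near a (HS_norm hy2) hy1
    have e2 := XSa_near b (HS_norm hz2) hz1
    have h3 : (⟪a, y⟫ • y, ⟪b, z⟫ • z) ∈ Metric.ball (a, b) η := by
      rw [Metric.mem_ball, Prod.dist_eq, max_lt_iff, dist_eq_norm, dist_eq_norm]
      exact ⟨e1, e2⟩
    have h4 := hball h3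
    rw [mem_preimage] at h4
    dsimp only at h4
    rw [cr_smul_left, cr_smul_right, smul_smul] at h4
    have h5 : ⟪a, y⟫ * ⟪b, z⟫ ≠ 0 := by
      intro h6
      rw [h6, zero_smul] at h4
      exact h0A h4
    exact (XSa_cone m ε (cr y z) h5).1 h4
  have h1 := measure_mono_null hsub hpre
  rw [Measure.prod_prod, mul_eq_zero] at h1
  rcases h1 with h1 | h1
  · exact XSa_pos h.s1 (ha.2 η hη) h1
  · exact XSa_pos h.s1 (hb.2 η hη) h1

theorem Sp_closed4 {μ ν : Measure E3} (h : Sys μ ν) : Closed4 (Sp μ) := by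
  refine ⟨fun v hv t ht => Sp_smul hv ht, fun a ha b hb c hc d hd hne => ?_⟩
  have h1 : cr a b ≠ 0 := by
    intro h0
    rw [h0, cr_zero_left] at hne
    exact hne rfl
  have h2 : cr c d ≠ 0 := by
    intro h0
    rw [h0, cr_zero_right] at hne
    exact hne rfl
  exact Sp_join h.symm (Sp_join h ha hb h1) (Sp_join h hc hd h2) hne

end Pool.Agent.FAC3
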