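import Pool.Agent.FAC3.XDefs
import Pool.Agent.FAC3.ENa

/-! Module FAC3-XSb: the support carries the measure (`Sp_null`); a symmetric open cone around `v` contains all `x ∈ HS` with
small `‖cr v x‖` (`nhd`, compactness of the sphere); isolated points of the support are atoms (`Sp_atom`). -/

set_option autoImplicit false

namespace Pool.Agent.FAC3
open MeasureTheory Set Filter Topology
open scoped RealInnerProductSpace ENNReal

theorem Sp_null {μ : Measure E3} (hs : μ HSᶜ = 0) : μ (Sp μ)ᶜ = 0 := by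
  have h1 : μ (HS \ Sp μ) = 0 := by
    refine measure_null_of_locally_null _ fun x hx => ?_
    have hx0 : x ≠ 0 := HS_ne hx.1
    have h2 : ∃ ε : ℝ, 0 < ε ∧ μ {y | ‖cr x y‖ < ε} = 0 := by
      by_contra hcon
      push Not at hcon
      exact hx.2 ⟨hx0, hcon⟩
    obtain ⟨ε, hε, h3⟩ := h2
    refine ⟨{y | ‖cr x y‖ < ε}, mem_nhdsWithin_of_mem_nhds ((isOpen_cone x ε).mem_nhds ?_), h3⟩
    show ‖cr x x‖ < ε
    rw [cr_self, norm_zero]
    exact hε
  refine measure_mono_null ?_ (measure_union_null hs h1)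
  intro x hx
  by_cases hH : x ∈ HS
  · exact Or.inr ⟨hH, hx⟩
  · exact Or.inl hH

theorem nhd {v : E3} (hv : v ≠ 0) {O : Set E3} (hO : IsOpen O) (hvO : v ∈ O)
    (hc : ∀ x ∈ O, ∀ t : ℝ, t ≠ 0 → t • x ∈ O) : ∃ ε : ℝ, 0 < ε ∧ ∀ x ∈ HS, ‖cr v x‖ < ε → x ∈ O := by
  have hK : IsCompact (Metric.sphere (0 : E3) 1 ∩ Oᶜ) := (isCompact_sphere _ _).inter_right hO.isClosed_compl
  rcases (Metric.sphere (0 : E3) 1 ∩ Oᶜ).eq_empty_or_nonempty with he | hne
  · refine ⟨1, one_pos, fun x hx _ => ?_⟩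
    by_contra hxO
    have h1 : x ∈ Metric.sphere (0 : E3) 1 ∩ Oᶜ := ⟨mem_sphere_zero_iff_norm.2 (HS_norm hx), hxO⟩
    rw [he] at h1
    exact h1
  · have hcont : Continuous fun x : E3 => ‖cr v x‖ :=
      (continuous_cr.comp (continuous_const.prodMk continuous_id)).norm
    obtain ⟨x0, hx0, hmin⟩ := hK.exists_isMinOn hne hcont.continuousOn
    refine ⟨‖cr v x0‖, ?_, fun x hx hlt => ?_⟩
    · refine norm_pos_iff.2 fun h0 => hx0.2 ?_
      have h1 := cr_eq_zero hv h0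
      have h2 : x0 ≠ 0 := by
        intro h3
        have h4 := mem_sphere_zero_iff_norm.1 hx0.1
        rw [h3, norm_zero] at h4
        exact zero_ne_one h4
      rw [h1]
      refine hc v hvO _ fun h3 => h2 ?_
      rw [h1, h3, zero_smul]
    · by_contra hxO
      exact absurd (hmin ⟨mem_sphere_zero_iff_norm.2 (HS_norm hx), hxO⟩) (not_le.2 hlt)

theorem Sp_atom {μ : Measure E3} (hs : μ HSᶜ = 0) {e l : E3} (he : e ∈ Sp μ) (hl : ⟪l, e⟫ ≠ 0)
    (hiso : ∀ d ∈ Sp μ, ⟪l, d⟫ ≠ 0 → cr e d = 0) : rep e ∈ At μ := by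
  have hO : IsOpen {x : E3 | ⟪l, x⟫ ≠ 0} :=
    isOpen_ne_fun (continuous_const.inner continuous_id) continuous_const
  obtain ⟨ε, hε, h1⟩ := nhd (Sp_ne he) hO hl (fun x hx t ht => by
    show ⟪l, t • x⟫ ≠ 0
    rw [inner_smul_right]
    exact mul_ne_zero ht hx)
  show μ {rep e} ≠ 0
  intro h0
  refine he.2 ε hε (measure_mono_null ?_ (measure_union_null (measure_union_null hs (Sp_null hs)) h0))
  intro x hx
  by_cases hH : x ∈ HS
  · by_cases hS : x ∈ Sp μ
    · refine Or.inr ?_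
      have h2 : cr e x = 0 := hiso x hS (h1 x hH hx)
      have h3 : cr x e = 0 := by rw [cr_comm, h2, neg_zero]
      exact mem_singleton_iff.2 (rep_eq hH (Sp_ne he) h3).symm
    · exact Or.inl (Or.inr hS)
  · exact Or.inl (Or.inl hH)

end Pool.Agent.FAC3
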