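import Pool.Agent.FAC3.CRb

/-! Module FAC3-XSc: point sets of the projective plane (vectors of `E3`) without four points in general position. If `a, b, c` are
not collinear and no four points of `C` are in general position, then one of `a, b, c` is isolated: all points off the line
of the two others coincide with it. Otherwise the witnesses `d` and `e` produce a quadruple in general position
(`XSc_core1`); all identities are proved by coordinates (`XSc_det`, `ring`). -/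

set_option autoImplicit false

namespace Pool.Agent.FAC3
open Set
open scoped RealInnerProductSpace

private theorem XSc_det (x y z : E3) : ⟪x, cr y z⟫ =
    x 0 * (y 1 * z 2 - y 2 * z 1) + x 1 * (y 2 * z 0 - y 0 * z 2) + x 2 * (y 0 * z 1 - y 1 * z 0) := by
  rw [inner_eq]
  rfl

private theorem XSc_par {a b c d : E3} (hD : ⟪a, cr b c⟫ ≠ 0) (h1 : ⟪a, cr b d⟫ = 0) (h2 : ⟪a, cr c d⟫ = 0) :
    cr a d = 0 := by
  rw [XSc_det] at hD h1 h2
  have key : ∀ t : ℝ, (a 0 * (b 1 * c 2 - b 2 * c 1) + a 1 * (b 2 * c 0 - b 0 * c 2) +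
      a 2 * (b 0 * c 1 - b 1 * c 0)) * t = 0 → t = 0 := fun t ht => (mul_eq_zero.1 ht).resolve_left hD
  have e0 : (cr a d) 0 = a 1 * d 2 - a 2 * d 1 := rfl
  have e1 : (cr a d) 1 = a 2 * d 0 - a 0 * d 2 := rfl
  have e2 : (cr a d) 2 = a 0 * d 1 - a 1 * d 0 := rfl
  ext i
  fin_cases i
  · change (cr a d) 0 = 0
    apply key
    rw [e0]
    linear_combination (-(c 1 * a 2 - c 2 * a 1)) * h1 + (-(a 1 * b 2 - a 2 * b 1)) * h2
  · change (cr a d) 1 = 0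
    apply key
    rw [e1]
    linear_combination (-(c 2 * a 0 - c 0 * a 2)) * h1 + (-(a 2 * b 0 - a 0 * b 2)) * h2
  · change (cr a d) 2 = 0
    apply key
    rw [e2]
    linear_combination (-(c 0 * a 1 - c 1 * a 0)) * h1 + (-(a 0 * b 1 - a 1 * b 0)) * h2

private theorem XSc_core1 {C : Set E3} {a b c d e : E3} (ha : a ∈ C) (hc : c ∈ C) (hd : d ∈ C)
    (he : e ∈ C) (hD : ⟪a, cr b c⟫ ≠ 0)
    (hno : ∀ x ∈ C, ∀ y ∈ C, ∀ z ∈ C, ∀ w ∈ C, ¬ Gen4 x y z w)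
    (h1 : ⟪a, cr b d⟫ = 0) (h2 : ⟪d, cr b c⟫ ≠ 0) (h3 : ⟪a, cr d c⟫ ≠ 0) (h4 : ⟪a, cr b e⟫ ≠ 0)
    (h5 : cr c e ≠ 0) (h6 : ⟪b, cr c e⟫ = 0) : False := by
  have h7 : ⟪a, cr c e⟫ ≠ 0 := by
    intro h7
    apply h5
    refine XSc_par (a := c) (b := a) (c := b) (d := e) ?_ ?_ ?_
    · rw [inner_cr_rot]
      exact hD
    · rw [XSc_det] at h7 ⊢
      linarith
    · rw [XSc_det] at h6 ⊢
      linarith
  refine hno a ha d hd c hc e he ⟨h3, ?_, h7, ?_⟩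
  · intro h
    apply mul_ne_zero h3 h4
    have : ⟪a, cr b c⟫ * ⟪a, cr d e⟫ = ⟪a, cr d c⟫ * ⟪a, cr b e⟫ + ⟪a, cr b d⟫ * ⟪a, cr c e⟫ := by
      rw [XSc_det, XSc_det, XSc_det, XSc_det, XSc_det, XSc_det]
      ring
    rw [h, h1] at this
    linarith
  · intro h
    apply mul_ne_zero h2 h7
    have : ⟪a, cr b c⟫ * ⟪d, cr c e⟫ = ⟪d, cr b c⟫ * ⟪a, cr c e⟫ + ⟪a, cr d c⟫ * ⟪b, cr c e⟫ +
        ⟪a, cr b d⟫ * ⟪c, cr c e⟫ := by
      rw [XSc_det, XSc_det, XSc_det, XSc_det, XSc_det, XSc_det, XSc_det, XSc_det]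
      ring
    rw [h, h1, h6] at this
    linarith

private theorem XSc_core {C : Set E3} {a b c d e : E3} (ha : a ∈ C) (hb : b ∈ C) (hc : c ∈ C) (hd : d ∈ C)
    (he : e ∈ C) (hD : ⟪a, cr b c⟫ ≠ 0)
    (hno : ∀ x ∈ C, ∀ y ∈ C, ∀ z ∈ C, ∀ w ∈ C, ¬ Gen4 x y z w)
    (h1 : ⟪a, cr b d⟫ = 0) (h2 : ⟪d, cr b c⟫ ≠ 0) (h3 : ⟪a, cr d c⟫ ≠ 0) (h4 : ⟪a, cr b e⟫ ≠ 0)
    (h5 : cr c e ≠ 0) : False := by
  by_cases h6 : ⟪b, cr c e⟫ = 0
  · exact XSc_core1 ha hc hd he hD hno h1 h2 h3 h4 h5 h6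
  by_cases h7 : ⟪a, cr c e⟫ = 0
  · refine XSc_core1 (a := b) (b := a) (c := c) (d := d) (e := e) hb hc hd he ?_ hno ?_ ?_ ?_ ?_ h5 h7
    · rw [XSc_det] at hD ⊢
      intro h
      apply hD
      linarith
    · rw [XSc_det] at h1 ⊢
      linarith
    · rw [XSc_det] at h3 ⊢
      intro h
      apply h3
      linarith
    · rw [XSc_det] at h2 ⊢
      intro h
      apply h2
      linarith
    · rw [XSc_det] at h4 ⊢
      intro h
      apply h4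
      linarith
  · exact hno a ha b hb c hc e he ⟨hD, h4, h7, h6⟩

theorem no_gen4 {C : Set E3} {a b c : E3} (ha : a ∈ C) (hb : b ∈ C) (hc : c ∈ C) (hD : ⟪a, cr b c⟫ ≠ 0)
    (hno : ∀ x ∈ C, ∀ y ∈ C, ∀ z ∈ C, ∀ w ∈ C, ¬ Gen4 x y z w) :
    ∃ e ∈ C, ∃ l : E3, ⟪l, e⟫ ≠ 0 ∧ ∀ d ∈ C, ⟪l, d⟫ ≠ 0 → cr e d = 0 := by
  by_contra hcon
  push Not at hcon
  have hD1 : ⟪cr b c, a⟫ ≠ 0 := by rw [real_inner_comm]; exact hD
  have hD2 : ⟪cr a b, c⟫ ≠ 0 := by rw [← inner_cr_assoc]; exact hD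
  have hD3 : ⟪cr c a, b⟫ ≠ 0 := by rw [real_inner_comm, ← inner_cr_rot]; exact hD
  obtain ⟨d, hd, hd1, hd2⟩ := hcon a ha (cr b c) hD1
  rw [real_inner_comm] at hd1
  by_cases h1 : ⟪a, cr b d⟫ = 0
  · obtain ⟨e, he, he1, he2⟩ := hcon c hc (cr a b) hD2
    refine XSc_core ha hb hc hd he hD hno h1 hd1 ?_ (by rw [inner_cr_assoc]; exact he1) he2
    intro h
    apply hd2
    refine XSc_par hD h1 ?_
    rw [XSc_det] at h ⊢
    linarith
  by_cases h2 : ⟪a, cr c d⟫ = 0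
  · obtain ⟨e, he, he1, he2⟩ := hcon b hb (cr c a) hD3
    refine XSc_core (a := a) (b := c) (c := b) (d := d) (e := e) ha hc hb hd he ?_ hno h2 ?_ ?_ ?_ he2
    · rw [XSc_det] at hD ⊢
      intro h
      apply hD
      linarith
    · rw [XSc_det] at hd1 ⊢
      intro h
      apply hd1
      linarith
    · rw [XSc_det] at h1 ⊢
      intro h
      apply h1
      linarith
    · rw [cr_comm a c] at he1
      rw [inner_cr_assoc]
      intro h
      apply he1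
      rw [inner_neg_left, h, neg_zero]
  · refine hno a ha b hb c hc d hd ⟨hD, h1, h2, ?_⟩
    rw [XSc_det] at hd1 ⊢
    intro h
    apply hd1
    linarith

end Pool.Agent.FAC3
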