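import Pool.Agent.FAC3.XSa
import Pool.Agent.FAC3.XSb
import Pool.Agent.FAC3.XSc
import Pool.Agent.FAC3.DNb

/-! Module FAC3-XSd: a measure of a self-dual pair which does not charge a lune has an atom.

The support spans (`Sp_span`). If four points of the support are in general position it is dense, so it meets the open lune; otherwise it has
an isolated point, which is an atom. -/

set_option autoImplicit false

namespace Pool.Agent.FAC3
open MeasureTheory Set Filter Topology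
open scoped RealInnerProductSpace ENNReal

private theorem XSd_ex {μ ν : Measure E3} (h : Sys μ ν) {u : E3} (hu : u ≠ 0) : ∃ x ∈ Sp μ, ⟪u, x⟫ ≠ 0 := by
  by_contra hcon
  push Not at hcon
  refine h.p1 u hu ?_
  unfold J
  have h1 : ∀ᵐ x ∂μ, x ∈ Sp μ := by
    rw [ae_iff]
    exact Sp_null h.s1
  have h2 : (fun x => en ⟪u, x⟫) =ᵐ[μ] fun _ => 0 := by
    filter_upwards [h1] with x hx
    rw [hcon x hx]
    unfold en
    rw [abs_zero, ENNReal.ofReal_zero]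
  rw [lintegral_congr_ae h2, lintegral_zero]

private theorem XSd_perp (a : E3) : ∃ u : E3, u ≠ 0 ∧ ⟪u, a⟫ = 0 := by
  by_cases h : a 0 = 0
  · refine ⟨!₂[1, 0, 0], fun h0 => ?_, ?_⟩
    · have h1 := congrArg (fun v : E3 => v 0) h0
      simp at h1
    · rw [inner_eq, h]
      simp
  · refine ⟨!₂[-a 1, a 0, 0], fun h0 => ?_, ?_⟩
    · have h1 := congrArg (fun v : E3 => v 1) h0
      simp at h1
      exact h h1
    · rw [inner_eq]
      simp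
      ring

theorem Sp_span {μ ν : Measure E3} (h : Sys μ ν) :
    ∃ a ∈ Sp μ, ∃ b ∈ Sp μ, ∃ c ∈ Sp μ, ⟪a, cr b c⟫ ≠ 0 := by
  obtain ⟨u0, hu0⟩ := exists_ne (0 : E3)
  obtain ⟨a, ha, -⟩ := XSd_ex h hu0
  obtain ⟨u, hu, hua⟩ := XSd_perp a
  obtain ⟨b, hb, hub⟩ := XSd_ex h hu
  have hab : cr a b ≠ 0 := by
    intro h0
    have h1 := cr_eq_zero (Sp_ne ha) h0
    rw [h1, real_inner_smul_right, hua, mul_zero] at hub
    exact hub rfl
  obtain ⟨c, hc, habc⟩ := XSd_ex h hab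
  refine ⟨a, ha, b, hb, c, hc, ?_⟩
  rw [inner_cr_assoc]
  exact habc

theorem lune_atom {μ ν : Measure E3} (h : Sys μ ν) {u₁ u₂ : E3} (hu : cr u₁ u₂ ≠ 0)
    (h0 : μ {x | ⟪u₁, x⟫ * ⟪u₂, x⟫ < 0} = 0) : (At μ).Nonempty := by
  by_cases hg : ∃ a ∈ Sp μ, ∃ b ∈ Sp μ, ∃ c ∈ Sp μ, ∃ d ∈ Sp μ, Gen4 a b c d
  · exfalso
    obtain ⟨a, ha, b, hb, c, hc, d, hd, hg⟩ := hg
    have hC := Sp_closed4 h
    obtain ⟨e₁, e₂, e₃, he, hr⟩ := DNa hC ha hb hc hd hg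
    have hD := DNb hC he hr
    have hO : IsOpen {x : E3 | ⟪u₁, x⟫ * ⟪u₂, x⟫ < 0} :=
      isOpen_lt ((continuous_const.inner continuous_id).mul (continuous_const.inner continuous_id)) continuous_const
    have hne : {x : E3 | ⟪u₁, x⟫ * ⟪u₂, x⟫ < 0}.Nonempty := by
      refine ⟨cr u₂ (cr u₁ u₂) + cr u₁ (cr u₁ u₂), ?_⟩
      have e1 : ⟪u₁, cr u₂ (cr u₁ u₂) + cr u₁ (cr u₁ u₂)⟫ = ‖cr u₁ u₂‖ ^ 2 := by
        rw [inner_add_right, inner_cr_assoc, inner_cr_left, real_inner_self_eq_norm_sq, add_zero]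
      have e2 : ⟪u₂, cr u₂ (cr u₁ u₂) + cr u₁ (cr u₁ u₂)⟫ = -‖cr u₁ u₂‖ ^ 2 := by
        rw [inner_add_right, inner_cr_left, inner_cr_assoc u₂ u₁, cr_comm u₁ u₂, inner_neg_left, real_inner_self_eq_norm_sq,
          zero_add]
      show ⟪u₁, cr u₂ (cr u₁ u₂) + cr u₁ (cr u₁ u₂)⟫ * ⟪u₂, cr u₂ (cr u₁ u₂) + cr u₁ (cr u₁ u₂)⟫ < 0
      rw [e1, e2]
      have h1 : 0 < ‖cr u₁ u₂‖ ^ 2 := by
        have := norm_pos_iff.2 hu
        positivity
      nlinarith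
    obtain ⟨v, hvO, hvS⟩ := hD.exists_mem_open hO hne
    obtain ⟨ε, hε, h1⟩ := nhd (Sp_ne hvO) hO hvS (fun x hx t ht => by
      show ⟪u₁, t • x⟫ * ⟪u₂, t • x⟫ < 0
      rw [real_inner_smul_right, real_inner_smul_right]
      have h2 : ⟪u₁, x⟫ * ⟪u₂, x⟫ < 0 := hx
      have h3 : 0 < t ^ 2 := by positivity
      nlinarith)
    refine hvO.2 ε hε (measure_mono_null ?_ (measure_union_null h.s1 h0))
    intro x hx
    by_cases hH : x ∈ HS
    · exact Or.inr (h1 x hH hx)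
    · exact Or.inl hH
  · have hno : ∀ x ∈ Sp μ, ∀ y ∈ Sp μ, ∀ z ∈ Sp μ, ∀ w ∈ Sp μ, ¬ Gen4 x y z w :=
      fun x hx y hy z hz w hw hG => hg ⟨x, hx, y, hy, z, hz, w, hw, hG⟩
    obtain ⟨a, ha, b, hb, c, hc, hD⟩ := Sp_span h
    obtain ⟨e, he, l, hl, hiso⟩ := no_gen4 ha hb hc hD hno
    exact ⟨rep e, Sp_atom h.s1 he hl hiso⟩

end Pool.Agent.FAC3
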