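import Pool.Agent.FAC3.Geo
import Pool.Agent.HP89.G10

/-! Module FAC3-YA: elementary facts about projection bodies in `ℝ³`.

`PB_area`: the support function of `Π K` is the area of the shadow; `PB_unique`: `Π K` is unique;
`PB_hom`: `Π (c K + x) = c² Π K`. -/

set_option autoImplicit false

namespace Pool.Agent.FAC3
open MeasureTheory Set Filter Topology Metric
open Pool.Agent.Helper82.Proj1 (supp shadow kappa)
open Pool.Agent.HP89
open scoped RealInnerProductSpace ENNReal Pointwise

private theorem YA_finrank : Module.finrank ℝ E3 = 3 := by simp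

private theorem YA_kappa0 : kappa 0 = 1 := by
  unfold kappa
  have h1 : (ball (0 : EuclideanSpace ℝ (Fin 0)) 1) = Set.univ := by
    ext x
    simp [Subsingleton.elim x 0]
  rw [h1]
  have h2 := (EuclideanSpace.volume_preserving_symm_measurableEquiv_toLp (Fin 0)).measure_preimage
    (MeasurableSet.univ.nullMeasurableSet)
  rw [Set.preimage_univ] at h2
  rw [h2]
  simp [MeasureTheory.volume_pi, MeasureTheory.Measure.pi_of_empty]

theorem PB_area {K L : Set E3} (h : IsPB 2 K L) {u : E3} (hu : ‖u‖ = 1) :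
    supp L u = (volume (shadow K (ℝ ∙ u)ᗮ)).toReal := by
  obtain ⟨v, hv, hst⟩ := h u hu
  have h0 := hst 0 le_rfl
  rw [YA_finrank] at h0
  rw [closedBall_zero, Set.singleton_zero, add_zero] at h0
  rw [h0, ← hv]
  simp [Finset.sum_range_succ, YA_kappa0]

theorem PB_unique {K L L' : Set E3} (hL : CC L) (hL' : CC L') (h : IsPB 2 K L) (h' : IsPB 2 K L') : L = L' :=
  eq_of_supp hL hL' fun u hu => by rw [PB_area h hu, PB_area h' hu]

theorem PB_hom {K L : Set E3} (hK : CC K) (hL : CC L) (h : IsPB 2 K L) {c : ℝ} (hc : 0 < c) (x : E3) :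
    IsPB 2 ((fun y => c • y + x) '' K) ((fun y => c ^ 2 • y) '' L) := by
  intro u hu
  obtain ⟨v, hv, hst⟩ := h u hu
  refine ⟨fun i => c ^ i * v i, ?_, hst.homothety hK hu hc x⟩
  show c ^ 2 * v 2 = supp (c ^ 2 • L) u
  rw [supp_smul_left hL (by positivity), hv]

end Pool.Agent.FAC3
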