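import Pool.Agent.HP89.G10

/-! Module FAC3-ZA: Steiner's formula for the shadows of a zonoid.

As in the proof of `geoII` (`Pool/Agent/HP89/G10.lean`): both sides are `cfl [u] (K + closedBall 0 t) / 2`, by `exists_lists`,
`cfl_tendsto` and `expansion_ball` on one side, `cfl_singleton` on the other side. -/

set_option autoImplicit false

namespace Pool.Agent.FAC3
open MeasureTheory ProbabilityTheory Set Filter Topology Metric
open Pool.Agent.Helper82.Proj1 (supp shadow kappa)
open Pool.Agent.HP89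
open scoped RealInnerProductSpace ENNReal Pointwise

theorem StF_zon {V : Type*} [NormedAddCommGroup V] [InnerProductSpace ℝ V] [FiniteDimensional ℝ V]
    [MeasurableSpace V] [BorelSpace V] {K : Set V} (hK : CC K) {μ : Measure V} [IsFiniteMeasure μ]
    (hμ : Integrable (fun x => ‖x‖) μ) (hs : ∀ u, ‖u‖ = 1 → supp K u = ∫ x, |⟪x, u⟫| ∂μ) {u : V} (hu : ‖u‖ = 1) :
    StF K u (fun i => 2 ^ i / (i.factorial : ℝ) * (iter μ i ew [u]).toReal) := by
  intro t ht
  obtain ⟨L, hL0, hL1, hL2⟩ := exists_lists μ hμ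
  have hconv := cfl_tendsto [u] (A := fun n => closedBall (0 : V) t + zon (L n))
    (B := K + closedBall (0 : V) t) (fun n => (cc_ball ht).add (cc_zon _)) (hK.add (cc_ball ht)) (by
      intro w hw
      simp only [fun n => supp_add (cc_ball ht) (cc_zon (L n)) w,
        supp_add hK (cc_ball ht) w, supp_ball ht w, fun n => supp_zon (hL0 n) w]
      rw [add_comm (supp K w)]
      refine Tendsto.const_add _ ?_
      rw [hs w hw]
      exact hL1 w)
  have e1 : ∀ n, cfl [u] (closedBall (0 : V) t + zon (L n)) = ∑ l ∈ Finset.range (Module.finrank ℝ V),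
    (2 ^ (l + 1) / (l.factorial : ℝ)) * kappa (Module.finrank ℝ V - 1 - l) * sI (L n) l wn [u] *
      t ^ (Module.finrank ℝ V - 1 - l) := fun n => expansion_ball (hL0 n) u ht
  have e3 : Tendsto (fun n => ∑ l ∈ Finset.range (Module.finrank ℝ V),
    (2 ^ (l + 1) / (l.factorial : ℝ)) * kappa (Module.finrank ℝ V - 1 - l) * sI (L n) l wn [u] *
      t ^ (Module.finrank ℝ V - 1 - l)) atTop
    (𝓝 (∑ l ∈ Finset.range (Module.finrank ℝ V),
    (2 ^ (l + 1) / (l.factorial : ℝ)) * kappa (Module.finrank ℝ V - 1 - l) * (iter μ l ew [u]).toReal *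
      t ^ (Module.finrank ℝ V - 1 - l))) := by
    refine tendsto_finsetSum _ fun l _ => ?_
    exact ((hL2 l [u]).const_mul _).mul_const _
  simp only [e1] at hconv
  have e4 := tendsto_nhds_unique e3 hconv
  rw [cfl_singleton (hK.add (cc_ball ht)) hu, shadow_add, shadow_ball ht] at e4
  have e5 : ∑ l ∈ Finset.range (Module.finrank ℝ V),
    (2 ^ (l + 1) / (l.factorial : ℝ)) * kappa (Module.finrank ℝ V - 1 - l) * (iter μ l ew [u]).toReal *
      t ^ (Module.finrank ℝ V - 1 - l) =
      2 * ∑ i ∈ Finset.range (Module.finrank ℝ V), kappa (Module.finrank ℝ V - 1 - i) *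
        (2 ^ i / (i.factorial : ℝ) * (iter μ i ew [u]).toReal) * t ^ (Module.finrank ℝ V - 1 - i) := by
    rw [Finset.mul_sum]
    refine Finset.sum_congr rfl fun l _ => ?_
    ring
  rw [e5] at e4
  linarith

end Pool.Agent.FAC3
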